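import Mathlib
import Pool.Agent.Lib.MP_d01a95_gt.Defs
import Pool.Agent.Lib.MP_d01a95_gt_H.HDefs
import Pool.Agent.Lib.MP_d01a95_gt_H.CN
import Pool.Agent.Lib.MP_d01a95_gt_H.L2
import Pool.Agent.Lib.MP_d01a95_gt_H.ExMin

set_option autoImplicit false
set_option linter.all false

open Matrix Filter Topology MeasureTheory Measure
open scoped ENNReal NNReal ContDiff

namespace Pool.Agent.MPd01a95

/-! # Project S: Siu rigidity for a surface `V` in `P(C^{2,2})` (case m = 2)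

Coordinates on the surface: `x 0 = mu`, `x 1 = tau` with `0 < Im tau`. The complex structure is
given by a smooth solution `A` of the complex Burgers equation. -/

/-- the coordinate space -/
abbrev C2 : Type := Fin 2 → ℂ

/-- four dimensional Euclidean space, for the normalised tangent vectors -/
abbrev Eu : Type := EuclideanSpace ℝ (Fin 4)

/-- the domain of the surface -/
def Up : Set C2 := {x | 0 < (x 1).im}

/-- the derivative in `z_a` -/
noncomputable def dd (f : C2 → ℂ) (a : Fin 2) (v : C2) : ℂ :=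
  (1 / 2 : ℂ) * (fderiv ℝ f v (Pi.single a 1) - Complex.I * fderiv ℝ f v (Pi.single a Complex.I))

/-- smooth solutions of the complex Burgers equation, holomorphic in `tau` -/
structure BA (Ω : Set C2) (A : C2 → ℂ) : Prop where
  sm : ContDiffOn ℝ ∞ A Ω
  h1 : ∀ x ∈ Ω, db A 1 x = 0
  h0 : ∀ x ∈ Ω, db A 0 x + A x * dd A 1 x = 0

/-- the fields of type (0,1): `c = 1`: d/d taubar, `c = 0`: d/d mubar + A d/d tau -/
noncomputable def W (A : C2 → ℂ) (c : Fin 2) (f : C2 → ℂ) (x : C2) : ℂ :=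
  if c = 1 then db f 1 x else db f 0 x + A x * dd f 1 x

/-- the fields of type (1,0), conjugates of `W` -/
noncomputable def Wb (A : C2 → ℂ) (a : Fin 2) (f : C2 → ℂ) (x : C2) : ℂ :=
  if a = 1 then dd f 1 x else dd f 0 x + star (A x) * db f 1 x

/-- coefficients of the dbar connection in the frame `Wb` -/
noncomputable def Ga (A : C2 → ℂ) (c a : Fin 2) (x : C2) : ℂ := if c = 0 then dd A a x else 0

/-- complex Hessian in the frame: `a` is the (1,0) index and `c` the (0,1) index -/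
noncomputable def HC (A : C2 → ℂ) (a c : Fin 2) (f : C2 → ℂ) (x : C2) : ℂ :=
  W A c (fun y => Wb A a f y) x + Ga A c a x * Wb A 1 f x

/-- holomorphic maps from the structure `A` on `Ω` to the structure `A'` -/
def HolM (A A' : C2 → ℂ) (Ω : Set C2) (Θ : C2 → C2) : Prop :=
  ∀ x ∈ Ω, ∀ c, W A c (fun y => Θ y 0) x = 0 ∧
    W A c (fun y => Θ y 1) x = A' (Θ x) * W A c (fun y => star (Θ y 0)) x

/-- the complex Jacobian matrix of a holomorphic map in the frames -/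
noncomputable def MM (A : C2 → ℂ) (Θ : C2 → C2) (a' a : Fin 2) (x : C2) : ℂ :=
  Wb A a (fun y => Θ y a') x

/-- the Kaehler potential `- log Im tau` -/
noncomputable def pot (x : C2) : ℂ := ((-Real.log (x 1).im : ℝ) : ℂ)

/-- the Kaehler metric in the frame -/
noncomputable def gm (A : C2 → ℂ) (a c : Fin 2) (x : C2) : ℂ := HC A a c pot x

/-- the determinant of the metric = density of the volume with respect to Lebesgue measure -/
noncomputable def wA (A : C2 → ℂ) (x : C2) : ℝ :=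
  (gm A 1 1 x * gm A 0 0 x - gm A 1 0 x * gm A 0 1 x).re

/-- `wA` times the trace of a tensor `T a c` -/
noncomputable def trg (A : C2 → ℂ) (T : Fin 2 → Fin 2 → ℂ) (x : C2) : ℂ :=
  gm A 0 0 x * T 1 1 + gm A 1 1 x * T 0 0 - gm A 1 0 x * T 0 1 - gm A 0 1 x * T 1 0

section vector

/-! the same operators for functions with values in a complex normed space -/

variable {E : Type*} [NormedAddCommGroup E] [NormedSpace ℂ E]

/-- the derivative in `z_a` -/
noncomputable def ddV (f : C2 → E) (a : Fin 2) (x : C2) : E :=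
  (1 / 2 : ℂ) • (fderiv ℝ f x (Pi.single a 1) - Complex.I • fderiv ℝ f x (Pi.single a Complex.I))

/-- the derivative in the conjugate of `z_a` -/
noncomputable def dbV (f : C2 → E) (a : Fin 2) (x : C2) : E :=
  (1 / 2 : ℂ) • (fderiv ℝ f x (Pi.single a 1) + Complex.I • fderiv ℝ f x (Pi.single a Complex.I))

/-- the fields of type (0,1) -/
noncomputable def WV (A : C2 → ℂ) (c : Fin 2) (f : C2 → E) (x : C2) : E :=
  if c = 1 then dbV f 1 x else dbV f 0 x + A x • ddV f 1 x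

/-- the fields of type (1,0) -/
noncomputable def WbV (A : C2 → ℂ) (a : Fin 2) (f : C2 → E) (x : C2) : E :=
  if a = 1 then ddV f 1 x else ddV f 0 x + star (A x) • dbV f 1 x

/-- complex Hessian in the frame -/
noncomputable def HV (A : C2 → ℂ) (a c : Fin 2) (f : C2 → E) (x : C2) : E :=
  WV A c (fun y => WbV A a f y) x + Ga A c a x • WbV A 1 f x

/-- `wA` times the trace of a tensor `T a c` -/
noncomputable def trV (A : C2 → ℂ) (T : Fin 2 → Fin 2 → E) (x : C2) : E :=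
  gm A 0 0 x • T 1 1 + gm A 1 1 x • T 0 0 - gm A 1 0 x • T 0 1 - gm A 0 1 x • T 1 0

/-- the Laplace operator `L f` = trace of the complex Hessian -/
noncomputable def LV (A : C2 → ℂ) (f : C2 → E) (x : C2) : E :=
  ((wA A x : ℂ))⁻¹ • trV A (fun a c => HV A a c f x) x

end vector

section matrix

variable {n : Type} [Fintype n] [DecidableEq n]

/-- entries as complex functions -/
noncomputable def en (H : C2 → Matrix n n ℝ) (i j : n) (x : C2) : ℂ := ((H x i j : ℝ) : ℂ)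

/-- (1,0) part of half the logarithmic derivative, in the frame -/
noncomputable def pW (A : C2 → ℂ) (H : C2 → Matrix n n ℝ) (a : Fin 2) (x : C2) : Matrix n n ℂ :=
  (1 / 2 : ℂ) • ((cH H x)⁻¹ * Matrix.of fun i j => Wb A a (en H i j) x)

/-- (0,1) part of half the logarithmic derivative, in the frame -/
noncomputable def pWb (A : C2 → ℂ) (H : C2 → Matrix n n ℝ) (c : Fin 2) (x : C2) : Matrix n n ℂ :=
  (1 / 2 : ℂ) • ((cH H x)⁻¹ * Matrix.of fun i j => W A c (en H i j) x)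

/-- covariant complex Hessian of the map `H`, in the frame -/
noncomputable def tW (A : C2 → ℂ) (H : C2 → Matrix n n ℝ) (a c : Fin 2) (x : C2) :
    Matrix n n ℂ :=
  (1 / 2 : ℂ) • ((cH H x)⁻¹ * Matrix.of fun i j => HC A a c (en H i j) x) -
    (pWb A H c x * pW A H a x + pW A H a x * pWb A H c x)

/-- the components of the (2,1) form `tr (phi D'' phi)` -/
noncomputable def bW (A : C2 → ℂ) (H : C2 → Matrix n n ℝ) (c : Fin 2) (x : C2) : ℂ :=
  (pW A H 1 x * tW A H 0 c x).trace - (pW A H 0 x * tW A H 1 c x).trace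

/-- the (2,2) form of Siu and Sampson -/
noncomputable def qW (A : C2 → ℂ) (H : C2 → Matrix n n ℝ) (x : C2) : ℂ :=
  2 * ((tW A H 1 1 x * tW A H 0 0 x).trace - (tW A H 1 0 x * tW A H 0 1 x).trace) +
    2 * (cm (pWb A H 1 x) (pWb A H 0 x) * cm (pW A H 1 x) (pW A H 0 x)).trace

end matrix

/-! ### the surface -/

/-- homogeneous coordinates of a point of the surface -/
noncomputable def vv (A : C2 → ℂ) (x : C2) : Fin 4 → ℂ :=
  ![A x, x 1 - star (x 0) * A x, x 0, 1]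

/-- the hermitian form of signature (2,2), linear in the first variable -/
noncomputable def h4 (v w : Fin 4 → ℂ) : ℂ :=
  Complex.I * (v 1 * star (w 3) - v 3 * star (w 1) + v 0 * star (w 2) - v 2 * star (w 0))

/-- the point pair invariant -/
noncomputable def ps (A : C2 → ℂ) (x y : C2) : ℝ :=
  ‖h4 (vv A x) (vv A y)‖ ^ 2 / (4 * (x 1).im * (y 1).im) - 1

/-- The surface delivered by part (1): `V` in `P(C^{2,2})`, with a cocompact group. -/
structure Kerr {G : Type} [Group G] (σ : G →* GU (Fin 2)) where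
  /-- the function in `v = [A : tau - mubar A : mu : 1]` -/
  A : C2 → ℂ
  /-- the action on the coordinates -/
  al : G → C2 → C2
  /-- the linear action up to scalars -/
  R : G → Matrix (Fin 4) (Fin 4) ℂ
  ba : BA Up A
  pos : ∀ x ∈ Up, (dd A 0 x + star (A x) * dd A 1 x).im + (x 1).im * ‖dd A 1 x‖ ^ 2 < 0
  maps : ∀ γ, ∀ x ∈ Up, al γ x ∈ Up
  one : ∀ x ∈ Up, al 1 x = x
  mul : ∀ γ γ', ∀ x ∈ Up, al (γ * γ') x = al γ (al γ' x)
  lift : ∀ γ, ∀ x ∈ Up, ∃ c : ℂ, c ≠ 0 ∧ vv A (al γ x) = c • (R γ *ᵥ vv A x)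
  pres : ∀ γ v w, h4 (R γ *ᵥ v) (R γ *ᵥ w) = h4 v w
  proper : ∀ K ⊆ Up, IsCompact K → {γ : G | ∃ x ∈ K, al γ x ∈ K}.Finite
  coc : ∃ K ⊆ Up, IsCompact K ∧ ∀ x ∈ Up, ∃ γ, al γ x ∈ K
  nneg : ∀ x ∈ Up, ∀ y ∈ Up, 0 ≤ ps A x y
  sep : ∀ x ∈ Up, ∀ y ∈ Up, ps A x y = 0 → x = y
  psp : ∀ K ⊆ Up, IsCompact K → ∀ r : ℝ, ∃ K' ⊆ Up, IsCompact K' ∧
    ∀ x ∈ K, ∀ y ∈ Up, ps A x y ≤ r → y ∈ K'
  /-- the boundary: a compact invariant set of (null) vectors, transversal to the surface -/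
  lam : Set (Fin 4 → ℂ)
  lam_cpt : IsCompact lam
  lam_inv : ∀ γ, ∀ b ∈ lam, ∃ c : ℂ, c ≠ 0 ∧ c • (R γ *ᵥ b) ∈ lam
  lam_inf : ∃ c : ℂ, c ≠ 0 ∧ c • (Pi.single 1 1 : Fin 4 → ℂ) ∈ lam
  lam_ne : ∀ x ∈ Up, ∀ b ∈ lam, h4 (vv A x) b ≠ 0
  /-- boundary values of the functions `h(x,b)/h(x,o)` -/
  bd : ∀ o ∈ Up, ∀ b : Fin 4 → ℂ, ∃ fb : C2 → ℂ, ∀ η : C2, ∑ i, ‖η i‖ ^ 2 = 1 →
    ∀ K ⊆ Up, IsCompact K → ∀ δ > 0, ∃ N ∈ 𝓝 η, ∀ γ, act (σ γ).M 0 ∈ N → ∀ k ∈ K,
      ‖h4 (vv A (al γ k)) b / h4 (vv A (al γ k)) (vv A o) - fb η‖ < δ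

/-! ### the data for the discrete energies -/

/-- A domain `Up` with a proper cocompact smooth action, an invariant volume `w dx`, an invariant
point pair function `ψ` (squared distance to second order) and orthonormal frames `F`. -/
structure Dat (G : Type) [Group G] where
  al : G → C2 → C2
  w : C2 → ℝ
  ψ : C2 → C2 → ℝ
  F : C2 → (Eu ≃L[ℝ] C2)
  maps : ∀ γ, ∀ x ∈ Up, al γ x ∈ Up
  one : ∀ x ∈ Up, al 1 x = x
  mul : ∀ γ γ', ∀ x ∈ Up, al (γ * γ') x = al γ (al γ' x)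
  sm : ∀ γ, ContDiffOn ℝ ∞ (al γ) Up
  wsm : ContDiffOn ℝ ∞ w Up
  wpos : ∀ x ∈ Up, 0 < w x
  winv : ∀ γ, ∀ f : C2 → ℝ≥0∞, Measurable f →
    ∫⁻ x in Up, f (al γ x) * ENNReal.ofReal (w x) = ∫⁻ x in Up, f x * ENNReal.ofReal (w x)
  psm : ContDiffOn ℝ ∞ (fun p : C2 × C2 => ψ p.1 p.2) (Up ×ˢ Up)
  symm : ∀ x ∈ Up, ∀ y ∈ Up, ψ x y = ψ y x
  nneg : ∀ x ∈ Up, ∀ y ∈ Up, 0 ≤ ψ x y
  self : ∀ x ∈ Up, ψ x x = 0
  sep : ∀ x ∈ Up, ∀ y ∈ Up, ψ x y = 0 → x = y
  inv : ∀ γ, ∀ x ∈ Up, ∀ y ∈ Up, ψ (al γ x) (al γ y) = ψ x y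
  psp : ∀ K ⊆ Up, IsCompact K → ∀ r : ℝ, ∃ K' ⊆ Up, IsCompact K' ∧
    ∀ x ∈ K, ∀ y ∈ Up, ψ x y ≤ r → y ∈ K'
  diag : ∀ x ∈ Up, ∀ ξ : Eu, Tendsto (fun t : ℝ => ψ x (x + t • F x ξ) / t ^ 2) (𝓝[≠] 0)
    (𝓝 (‖ξ‖ ^ 2))
  Fsm : ContDiffOn ℝ ∞ (fun x => (F x : Eu →L[ℝ] C2)) Up
  Fdet : ∀ x ∈ Up, ∀ f : C2 → ℝ≥0∞, Measurable f →
    ENNReal.ofReal (w x) * ∫⁻ y, f y = ∫⁻ ξ, f (F x ξ)
  proper : ∀ K ⊆ Up, IsCompact K → {γ : G | ∃ x ∈ K, al γ x ∈ K}.Finite
  coc : ∃ K ⊆ Up, IsCompact K ∧ ∀ x ∈ Up, ∃ γ, al γ x ∈ K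

/-- a CAT(0) target with an isometric action -/
structure Tar (G : Type) [Group G] (Y : Type) [MetricSpace Y] where
  geo : ℝ → Y → Y → Y
  cn : CN geo
  T : G → Y → Y
  isom : ∀ γ a b, dist (T γ a) (T γ b) = dist a b
  one : ∀ a, T 1 a = a
  mul : ∀ γ γ' a, T (γ * γ') a = T γ (T γ' a)

section energy

variable {G : Type} [Group G] (D : Dat G) {Y : Type} [MetricSpace Y]

/-- the invariant volume -/
noncomputable def mD : Measure C2 :=
  (volume.restrict Up).withDensity fun x => ENNReal.ofReal (D.w x)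

/-- the kernel -/
noncomputable def kn (ε : ℝ) (x y : C2) : ℝ := max (1 - D.ψ x y / ε ^ 2) 0

/-- its mass -/
noncomputable def Zn (ε : ℝ) (x : C2) : ℝ := ∫ y, kn D ε x y ∂(mD D)

/-- the probability measure attached to a point -/
noncomputable def Pn (ε : ℝ) (x : C2) : Measure C2 :=
  (mD D).withDensity fun y => ENNReal.ofReal (kn D ε x y / Zn D ε x)

/-- a smooth cutoff function whose translates add up to 1 -/
structure CutU (χ : C2 → ℝ) : Prop where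
  sm : ContDiff ℝ ∞ χ
  cpt : HasCompactSupport χ
  supp : tsupport χ ⊆ Up
  nonneg : ∀ x, 0 ≤ χ x
  sum : ∀ x ∈ Up, ∑' γ, ENNReal.ofReal (χ (D.al γ x)) = 1

/-- the discrete energy -/
noncomputable def E2 (χ : C2 → ℝ) (ε : ℝ) (u : C2 → Y) : ℝ≥0∞ :=
  ∫⁻ x, ∫⁻ y, ENNReal.ofReal (χ x * kn D ε x y) * edist (u x) (u y) ^ 2 ∂(mD D) ∂(mD D)

/-- the discrete energy with the penalty term -/
noncomputable def JJ (χ : C2 → ℝ) (ε l : ℝ) (u₀ u : C2 → Y) : ℝ≥0∞ :=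
  E2 D χ ε u / 2 + ENNReal.ofReal l *
    ∫⁻ x, ENNReal.ofReal (χ x * Zn D ε x) * edist (u x) (u₀ x) ^ 2 ∂(mD D)

/-- measurable equivariant maps -/
def EqM (Tt : Tar G Y) [MeasurableSpace Y] (u : C2 → Y) : Prop :=
  Measurable u ∧ ∀ γ, ∀ x ∈ Up, u (D.al γ x) = Tt.T γ (u x)

/-- locally Lipschitz maps -/
def LLip (u : C2 → Y) : Prop := ∀ x ∈ Up, ∃ L : ℝ≥0, ∃ N ∈ 𝓝 x, LipschitzOnWith L u N

/-- `z` is the barycentre of `u P + l δ_p` (variance inequality) -/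
def BarL {Ω : Type} [MeasurableSpace Ω] (P : Measure Ω) (u : Ω → Y) (z : Y) (l : ℝ) (p : Y) :
    Prop :=
  ∀ w, (1 + l) * dist z w ^ 2 ≤ ∫ t, (dist w (u t) ^ 2 - dist z (u t) ^ 2) ∂P +
    l * (dist w p ^ 2 - dist z p ^ 2)

/-- a map on `Up` which is at each point the barycentre of its values, continuous and equivariant -/
structure Min (Tt : Tar G Y) (χ : C2 → ℝ) (ε l : ℝ) (u₀ u : C2 → Y) : Prop where
  cont : ContinuousOn u Up
  eqv : ∀ γ, ∀ x ∈ Up, u (D.al γ x) = Tt.T γ (u x)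
  bar : ∀ x ∈ Up, BarL (Pn D ε x) u (u x) l (u₀ x)
  min : ∀ v : C2 → Y, ContinuousOn v Up → (∀ γ, ∀ x ∈ Up, v (D.al γ x) = Tt.T γ (v x)) →
    JJ D χ ε l u₀ u ≤ JJ D χ ε l u₀ v

/-- couplings of the kernels at two points -/
structure Cpl (ε : ℝ) (x x' : C2) (π : Measure (C2 × C2)) : Prop where
  fst : π.map Prod.fst = Pn D ε x
  snd : π.map Prod.snd = Pn D ε x'

/-- the barrier -/
noncomputable def omg (s : ℝ) : ℝ := s - s * Real.sqrt s

/-- the Lyapunov function on pairs of points -/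
noncomputable def Omg (B ε : ℝ) (x x' : C2) : ℝ :=
  if x = x' then 0 else omg (Real.sqrt (D.ψ x x')) + B * ε

end energy

end Pool.Agent.MPd01a95
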