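import Mathlib
import Pool.Agent.Lib.MP_d01a95_gt_S.SDefs

set_option autoImplicit false
set_option linter.all false

open Matrix Filter Topology MeasureTheory Measure
open scoped ENNReal NNReal ContDiff

namespace Pool.Agent.MPd01a95

variable {G : Type} [Group G] {n : Type} [Fintype n] [DecidableEq n]

/-! ### realification of `U(2,1)` -/

/-- index type of the realification of `C^3` -/
abbrev N3 : Type := Fin 2 ⊕ Unit

/-- index type of the realification of `C^3` -/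
abbrev N6 : Type := N3 ⊕ N3

/-- realification of a complex matrix -/
def rl (X : Matrix N3 N3 ℂ) : Matrix N6 N6 ℝ :=
  fromBlocks (X.map Complex.re) (-(X.map Complex.im)) (X.map Complex.im) (X.map Complex.re)

/-- the complex matrix attached to a real one (inverse of `rl` on its range) -/
noncomputable def cx3 (M : Matrix N6 N6 ℝ) : Matrix N3 N3 ℂ :=
  Matrix.of fun i j => (M (Sum.inl i) (Sum.inl j) : ℂ) + Complex.I * (M (Sum.inr i) (Sum.inl j) : ℂ)

/-- the representation of `G` on the realification -/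
noncomputable def rlG (σ : G →* GU (Fin 2)) : G →* Matrix N6 N6 ℝ where
  toFun g := rl (σ g).M
  map_one' := by
    rw [map_one, GU.M_one, rl]
    ext i j
    rcases i with i | i <;> rcases j with j | j <;> simp [Matrix.one_apply, apply_ite]
  map_mul' a b := by
    rw [map_mul, GU.M_mul, rl, rl, rl, fromBlocks_multiply]
    congr 1
    all_goals
      ext i j
      simp only [Matrix.map_apply, Matrix.add_apply, Matrix.neg_apply, Matrix.mul_apply,
        Complex.re_sum, Complex.im_sum, Complex.mul_re, Complex.mul_im, Matrix.sub_apply,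
        ← Finset.sum_add_distrib, ← Finset.sum_neg_distrib]
      refine Finset.sum_congr rfl fun k _ => ?_
      ring

/-- the positive definite matrices belonging to complex hyperbolic space -/
def Y6 : Set (PD N6) := {A | ∃ k : Matrix N3 N3 ℂ, A.M = rl k ∧ k * JC (Fin 2) * k = JC (Fin 2)}

/-- complex conjugation on `U(2,1)` -/
noncomputable def GU.cj (g : GU (Fin 2)) : GU (Fin 2) :=
  ⟨g.M.map star, by
    have h := congrArg (fun M : Matrix N3 N3 ℂ => M.map star) g.pres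
    have e : (JC (Fin 2)).map star = JC (Fin 2) := by
      ext i j
      rcases i with i | i <;> rcases j with j | j <;>
        simp [JC, Matrix.one_apply, apply_ite]
    have e2 : (g.M.map star)ᴴ = (g.Mᴴ).map star := by ext; simp
    have e3 : ∀ X Z : Matrix N3 N3 ℂ, (X * Z).map star = X.map star * Z.map star := by
      intro X Z; ext i j; simp [Matrix.mul_apply]
    simp only [e3, e] at h
    rw [e2]
    exact h⟩

/-- the conjugate representation -/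
noncomputable def cjG (σ : G →* GU (Fin 2)) : G →* GU (Fin 2) where
  toFun g := (σ g).cj
  map_one' := by
    rw [map_one]
    apply GU.ext
    ext i j
    change star ((1 : Matrix N3 N3 ℂ) i j) = (1 : Matrix N3 N3 ℂ) i j
    rw [Matrix.one_apply]
    split_ifs <;> simp
  map_mul' a b := by
    rw [map_mul]
    apply GU.ext
    ext i j
    change star (((σ a).M * (σ b).M) i j) = ((σ a).M.map star * (σ b).M.map star) i j
    simp [Matrix.mul_apply]

/-- the negative vector of a point of complex hyperbolic space -/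
noncomputable def s3 (k : Matrix N3 N3 ℂ) : N3 → ℂ := fun i =>
  (1 / 2 : ℂ) * ((1 : Matrix N3 N3 ℂ) i (Sum.inr ()) - (JC (Fin 2) * k) i (Sum.inr ()))

/-- the point of the ball -/
noncomputable def b3 (k : Matrix N3 N3 ℂ) : C2 := fun i => s3 k (Sum.inl i) / s3 k (Sum.inr ())

/-- the point of the ball, from the real matrix -/
noncomputable def bp (A : Matrix N6 N6 ℝ) : C2 := b3 (cx3 A)

/-- the conclusion of part (2): an equivariant holomorphic spacelike immersion of the ball into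
the space of negative lines of `C^{2,2}` -/
structure VB (σ : G →* GU (Fin 2)) (R : G → Matrix (Fin 4) (Fin 4) ℂ)
    (w : C2 → (Fin 4 → ℂ)) : Prop where
  hol : DifferentiableOn ℂ w (HolAux.Bl (Fin 2))
  neg : ∀ z ∈ HolAux.Bl (Fin 2), (h4 (w z) (w z)).re < 0
  spl : ∀ z ∈ HolAux.Bl (Fin 2), ∀ X : C2, X ≠ 0 →
    (h4 (w z) (w z)).re * (h4 (fderiv ℂ w z X) (fderiv ℂ w z X)).re <
      ‖h4 (fderiv ℂ w z X) (w z)‖ ^ 2
  eqv : ∀ γ, ∀ z ∈ HolAux.Bl (Fin 2), ∃ c : ℂ, w (act (σ γ).M z) = c • (R γ *ᵥ w z)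

/-! ### smooth approximations -/

/-- equivariance of matrix valued maps on `Up` -/
def EqH (al : G → C2 → C2) (ρ : G →* Matrix n n ℝ) (H : C2 → Matrix n n ℝ) : Prop :=
  ∀ γ, ∀ x ∈ Up, H (al γ x) = (ρ γ⁻¹)ᵀ * H x * ρ γ⁻¹

/-- locally Lipschitz equivariant maps to positive definite matrices -/
structure LipH (al : G → C2 → C2) (ρ : G →* Matrix n n ℝ) (H : C2 → Matrix n n ℝ) : Prop where
  pos : ∀ x ∈ Up, (H x).PosDef
  eqv : EqH al ρ H
  lip : ∀ x ∈ Up, ∃ L : ℝ≥0, ∃ N ∈ 𝓝 x, ∀ i j, LipschitzOnWith L (fun y => H y i j) N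

/-- smooth equivariant approximations whose tension tends to 0 -/
structure ApxU (A : C2 → ℂ) (al : G → C2 → C2) (ρ : G →* Matrix n n ℝ)
    (H : C2 → Matrix n n ℝ) (Hk : ℕ → C2 → Matrix n n ℝ) : Prop where
  pos : ∀ k, ∀ x ∈ Up, (Hk k x).PosDef
  sm : ∀ k, Sm ∞ (Hk k) Up
  eqv : ∀ k, EqH al ρ (Hk k)
  unif : ∀ C ⊆ Up, IsCompact C → ∀ ε > 0, ∀ᶠ k in atTop, ∀ x ∈ C, ∀ i j,
    |Hk k x i j - H x i j| < ε
  grad : ∀ C ⊆ Up, IsCompact C → ∃ L : ℝ, ∀ k, ∀ x ∈ C, ∀ u, ∀ i j,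
    |DM (Hk k) x u i j| ≤ L * ‖u‖
  gradL : ∀ C ⊆ Up, IsCompact C → ∀ u i j,
    Tendsto (fun k => ∫ x in C, |DM (Hk k) x u i j - DM H x u i j| ^ 2) atTop (𝓝 0)
  tens : ∀ C ⊆ Up, IsCompact C → ∀ i j, Tendsto (fun k => ∫ x in C,
    ‖trg A (fun a c => tW A (Hk k) a c x i j) x‖ ^ 2) atTop (𝓝 0)

/-- holomorphic charts: `Ψ` maps a polydisc to `Up` -/
structure Cht (A : C2 → ℂ) (ζ : C2) (r : ℝ) (Ψ : C2 → C2) : Prop where
  rpos : 0 < r
  sm : ContDiffOn ℝ ∞ Ψ (Metric.ball ζ r)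
  maps : ∀ z ∈ Metric.ball ζ r, Ψ z ∈ Up
  hol : HolM (fun _ => 0) A (Metric.ball ζ r) Ψ
  det : ∀ z ∈ Metric.ball ζ r,
    MM (fun _ => 0) Ψ 0 0 z * MM (fun _ => 0) Ψ 1 1 z -
      MM (fun _ => 0) Ψ 0 1 z * MM (fun _ => 0) Ψ 1 0 z ≠ 0
  inj : Set.InjOn Ψ (Metric.ball ζ r)
  opn : ∀ z ∈ Metric.ball ζ r, ∀ s > 0, Ψ '' (Metric.ball z s ∩ Metric.ball ζ r) ∈ 𝓝 (Ψ z)

/-- pluriharmonic maps with commuting Higgs field on an open set of `C^2` -/
structure PHL (Ω : Set C2) (h : C2 → Matrix n n ℝ) : Prop where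
  pos : ∀ z ∈ Ω, (h z).PosDef
  sm : Sm 1 h Ω
  comm : ∀ a c, ∀ z ∈ Ω, cm (ph h (Pi.single a 1) z) (ph h (Pi.single c 1) z) = 0
  dbar : ∀ a i j, Db Ω (fun z => ph h (Pi.single a 1) z i j)
    (fun c z => cm (ph h (Pi.single a 1) z) (phb h (Pi.single c 1) z) i j)

/-- an equivariant holomorphic map from the surface to the ball -/
structure HolU {σ : G →* GU (Fin 2)} (K : Kerr σ) (u : C2 → C2) : Prop where
  maps : ∀ x ∈ Up, u x ∈ HolAux.Bl (Fin 2)
  sm : ContDiffOn ℝ ∞ u Up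
  hol : ∀ x ∈ Up, ∀ c i, W K.A c (fun y => u y i) x = 0
  eqv : ∀ γ, ∀ x ∈ Up, u (K.al γ x) = act (σ γ).M (u x)
  rank : ∃ x ∈ Up, Wb K.A 0 (fun y => u y 0) x * Wb K.A 1 (fun y => u y 1) x -
    Wb K.A 0 (fun y => u y 1) x * Wb K.A 1 (fun y => u y 0) x ≠ 0

/-- the holomorphic Jacobian of `u` in the frame -/
noncomputable def JU (A : C2 → ℂ) (u : C2 → C2) (x : C2) : ℂ :=
  Wb A 0 (fun y => u y 0) x * Wb A 1 (fun y => u y 1) x -
    Wb A 0 (fun y => u y 1) x * Wb A 1 (fun y => u y 0) x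

/-- a smooth radial function supported in the unit disc -/
noncomputable def rb0 (y : ℂ) : ℝ := Real.smoothTransition (1 - ‖y‖ ^ 2)

/-- normalised product bump on the polydisc of radius `r` -/
noncomputable def bk (r : ℝ) (y : C2) : ℝ :=
  r⁻¹ ^ 4 * (rb0 (r⁻¹ • y 0) * rb0 (r⁻¹ • y 1)) / (∫ z : ℂ, rb0 z) ^ 2

/-! ### densities, couplings -/

/-- density of the kernel in normalised coordinates -/
noncomputable def pd (D : Dat G) (ε : ℝ) (x : C2) (ξ : Eu) : ℝ :=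
  Set.indicator Up (fun y => kn D ε x y * D.w y / D.w x) (x + ε • D.F x ξ)

/-- the model density -/
noncomputable def p0 (ξ : Eu) : ℝ := max (1 - ‖ξ‖ ^ 2) 0

/-- coordinate along `e` on the slab -/
noncomputable def eta (e ξ : Eu) : ℝ := if |inner ℝ e ξ| ≤ 1 / 2 then inner ℝ e ξ else 0

/-- the reflection on a slab -/
noncomputable def slab (e ξ : Eu) : Eu := ξ - (2 * eta e ξ) • e

/-- basis vectors -/
noncomputable def eb (i : Fin 4) : Eu := EuclideanSpace.single i 1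

/-- the discrete parameters -/
noncomputable def ek (k : ℕ) : ℝ := 1 / ((k : ℝ) + 1)

/-- the target -/
noncomputable def tarP (ρ : G →* Matrix n n ℝ) : Tar G (PD n) where
  geo := PD.gd
  cn := PD.cn
  T := ac ρ
  isom γ a b := PD.dist_cg _ _ _ _
  one a := by
    apply PD.ext
    change (ρ 1⁻¹)ᵀ * a.M * ρ 1⁻¹ = a.M
    simp
  mul γ γ' a := by
    apply PD.ext
    change (ρ (γ * γ')⁻¹)ᵀ * a.M * ρ (γ * γ')⁻¹ =
      (ρ γ⁻¹)ᵀ * ((ρ γ'⁻¹)ᵀ * a.M * ρ γ'⁻¹) * ρ γ⁻¹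
    rw [_root_.mul_inv_rev, map_mul, transpose_mul]
    simp only [Matrix.mul_assoc]

/-- the quadratic term of the tension, entry by entry -/
noncomputable def qf (D : Dat G) (H : C2 → Matrix n n ℝ) (i j : n) (x : C2) : ℝ :=
  ∑ k, (DM H x (D.F x (eb k)) * (H x)⁻¹ * DM H x (D.F x (eb k))) i j

/-- test matrices -/
structure Tst (Ψ : C2 → Matrix n n ℝ) : Prop where
  sm : ∀ i j, ContDiff ℝ ∞ (fun x => Ψ x i j)
  cpt : ∀ i j, HasCompactSupport (fun x => Ψ x i j)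
  supp : ∀ i j, tsupport (fun x => Ψ x i j) ⊆ Up

/-- weak form of the harmonic map equation -/
def WeakH (D : Dat G) (H : C2 → Matrix n n ℝ) : Prop :=
  ∀ η : C2 → ℝ, ContDiff ℝ ∞ η → HasCompactSupport η → tsupport η ⊆ Up → ∀ i j : n,
    ∫ x, ∑ k, fderiv ℝ η x (D.F x (eb k)) * DM H x (D.F x (eb k)) i j ∂(mD D) =
      - ∫ x, η x * qf D H i j x ∂(mD D)

/-- the discrete bilinear form -/
noncomputable def Jk (D : Dat G) (ε : ℝ) (u : C2 → PD n) (Ψ : C2 → Matrix n n ℝ) : ℝ :=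
  (∫ x, ∫ y, kn D ε x y * (((u x).M)⁻¹ * ((u y).M - (u x).M) * (Ψ y - Ψ x)).trace
    ∂(mD D) ∂(mD D)) / ε ^ 6

/-- a family of discrete minimisers converging along an ultrafilter -/
structure LimU (D : Dat G) (ρ : G →* Matrix n n ℝ) (χ : C2 → ℝ) (u₀ : C2 → PD n)
    (uk : ℕ → C2 → PD n) (u : C2 → PD n) (U : Ultrafilter ℕ) (s A : ℝ) : Prop where
  spos : 0 < s
  ult : (U : Filter ℕ) ≤ atTop
  u0m : EqM D (tarP ρ) u₀
  u0l : LLip u₀
  min : ∀ k, Min D (tarP ρ) χ (ek k) (ek k ^ 3) u₀ (uk k)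
  lip : ∀ᶠ k in (U : Filter ℕ), ∀ x ∈ Up, ∀ x' ∈ Up, Real.sqrt (D.ψ x x') ≤ s →
    dist (uk k x) (uk k x') ≤ A * (Real.sqrt (D.ψ x x') + ek k)
  bdd : ∀ᶠ k in (U : Filter ℕ), ∀ x ∈ Up, dist (u₀ x) (uk k x) ≤ A
  lim : ∀ C ⊆ Up, IsCompact C → ∀ δ > 0, ∀ᶠ k in (U : Filter ℕ), ∀ x ∈ C, dist (uk k x) (u x) < δ
  llip : LipH D.al ρ (fun x => (u x).M)

/-- the normalised frame: `F x ξ = (θ0, θ1 + A conj θ0)` -/
noncomputable def frF (A : C2 → ℂ) (x : C2) (ξ : Eu) : C2 :=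
  let t0 : ℂ := (Real.sqrt ((gm A 1 1 x).re / wA A x) : ℂ) * ((ξ 0 : ℂ) + Complex.I * (ξ 1 : ℂ))
  let t1 : ℂ := (((ξ 2 : ℂ) + Complex.I * (ξ 3 : ℂ)) -
    gm A 0 1 x / (Real.sqrt (gm A 1 1 x).re : ℂ) * t0) / (Real.sqrt (gm A 1 1 x).re : ℂ)
  ![t0, t1 + A x * star t0]

/-- the real quadratic form of the metric -/
noncomputable def gq (A : C2 → ℂ) (x v : C2) : ℝ :=
  (gm A 1 1 x).re * ‖v 1 - A x * star (v 0)‖ ^ 2 + (gm A 0 0 x).re * ‖v 0‖ ^ 2 +
    2 * (gm A 1 0 x * (v 1 - A x * star (v 0)) * star (v 0)).re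

/-- spacelike condition -/
def SPL (A : C2 → ℂ) : Prop :=
  ∀ x ∈ Up, (dd A 0 x + star (A x) * dd A 1 x).im + (x 1).im * ‖dd A 1 x‖ ^ 2 < 0

/-- the data come from the surface -/
structure FromA (A : C2 → ℂ) (D : Dat G) : Prop where
  ba : BA Up A
  pos : SPL A
  w : ∀ x ∈ Up, D.w x = wA A x
  F : ∀ x ∈ Up, ∀ ξ, D.F x ξ = frF A x ξ

/-- real basis of `C^2` -/
noncomputable def rbv : Fin 4 → C2 :=
  ![Pi.single 0 1, Pi.single 0 Complex.I, Pi.single 1 1, Pi.single 1 Complex.I]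

/-- mollifier at scale `1/(k+1)` -/
noncomputable def ml (k : ℕ) (z : C2) : ℝ := bk (ek k) z

/-- mollification -/
noncomputable def mf (k : ℕ) (v : C2 → ℝ) (y : C2) : ℝ := ∫ t, ml k (y - t) * v t

/-- equivariant extension of a matrix valued function given near the support of `χ` -/
noncomputable def eqz (al : G → C2 → C2) (χ : C2 → ℝ) (ρ : G →* Matrix n n ℝ)
    (Gf : C2 → Matrix n n ℝ) (x : C2) : Matrix n n ℝ :=
  ∑ᶠ γ, χ (al γ x) • ((ρ γ)ᵀ * Gf (al γ x) * ρ γ)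

/-! ### the 3 by 3 picture -/

/-- (1,0) part for complex matrices -/
noncomputable def pk (k : C2 → Matrix N3 N3 ℂ) (a : Fin 2) (z : C2) : Matrix N3 N3 ℂ :=
  (1 / 2 : ℂ) • ((k z)⁻¹ * Matrix.of fun i j => dd (fun y => k y i j) a z)

/-- (0,1) part for complex matrices -/
noncomputable def pkb (k : C2 → Matrix N3 N3 ℂ) (a : Fin 2) (z : C2) : Matrix N3 N3 ℂ :=
  (1 / 2 : ℂ) • ((k z)⁻¹ * Matrix.of fun i j => db (fun y => k y i j) a z)

/-- commutator -/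
def cm3 (A B : Matrix N3 N3 ℂ) : Matrix N3 N3 ℂ := A * B - B * A

open scoped ComplexOrder in
/-- pluriharmonic maps to complex hyperbolic space, in terms of hermitian matrices -/
structure P3 (Ω : Set C2) (k : C2 → Matrix N3 N3 ℂ) : Prop where
  pos : ∀ z ∈ Ω, (k z).PosDef
  kJ : ∀ z ∈ Ω, k z * JC (Fin 2) * k z = JC (Fin 2)
  sm : ∀ i j, ContDiffOn ℝ 1 (fun z => k z i j) Ω
  adj : ∀ a, ∀ z ∈ Ω, (k z)⁻¹ * (pk k a z)ᴴ * k z = pkb k a z
  anti : ∀ a, ∀ z ∈ Ω, JC (Fin 2) * k z * pk k a z = -(pk k a z * (JC (Fin 2) * k z)) ∧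
    JC (Fin 2) * k z * pkb k a z = -(pkb k a z * (JC (Fin 2) * k z))
  comm : ∀ a c, ∀ z ∈ Ω, pk k a z * pk k c z = pk k c z * pk k a z
  dbar : ∀ a i j, Db Ω (fun z => pk k a z i j) (fun c z => cm3 (pk k a z) (pkb k c z) i j)

end Pool.Agent.MPd01a95
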