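import Mathlib
import Pool.Agent.Lib.MP_d01a95_gt_S.SDefs2
import Pool.Agent.Lib.MP_d01a95_gt_L.LDefs

/-!
Project SU(2,2), part (2): definitions for the surface as an instance of `LN.VG`.
-/

set_option autoImplicit false
set_option linter.all false

open Matrix Filter Topology MeasureTheory Measure
open scoped ENNReal NNReal ContDiff

namespace Pool.Agent.MPd01a95

/-- cofactors of the metric: `trg A T x = ∑ a c, cof A a c x * T a c` -/
noncomputable def cof (A : C2 → ℂ) (a c : Fin 2) (x : C2) : ℂ :=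
  if a = 1 then (if c = 1 then gm A 0 0 x else -gm A 0 1 x)
  else (if c = 1 then -gm A 1 0 x else gm A 1 1 x)

/-- real coefficients of the field `W A c` in the basis `LN.bs` -/
noncomputable def wco (A : C2 → ℂ) (c : Fin 2) (x : C2) : Fin 4 → ℂ :=
  if c = 1 then ![0, 0, 1 / 2, Complex.I / 2]
  else ![1 / 2, Complex.I / 2, A x / 2, -(Complex.I * A x / 2)]

/-- the Hermitian coefficient matrix of the divergence form -/
noncomputable def mij (A : C2 → ℂ) (i j : Fin 4) (x : C2) : ℂ :=
  ∑ a, ∑ c, cof A a c x * wco A c x i * star (wco A a x j)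

/-- real coefficients of the Laplace operator -/
noncomputable def aR (A : C2 → ℂ) (i j : Fin 4) (x : C2) : ℝ := (mij A i j x).re / wA A x

/-- frame coordinates of a tangent vector -/
noncomputable def Xc (A : C2 → ℂ) (x v : C2) (a : Fin 2) : ℂ :=
  if a = 1 then v 1 - A x * star (v 0) else v 0

/-- the quadratic form of the metric -/
noncomputable def gqf (A : C2 → ℂ) (x v : C2) : ℝ :=
  (∑ a, ∑ c, gm A a c x * Xc A x v a * star (Xc A x v c)).re

/-- its real coefficients -/
noncomputable def qR (A : C2 → ℂ) (i j : Fin 4) (x : C2) : ℝ :=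
  (∑ a, ∑ c, gm A a c x * Xc A x (LN.bs i) a * star (Xc A x (LN.bs j) c)).re

/-- minus half the norm of the normal vector -/
noncomputable def sK (A : C2 → ℂ) (x : C2) : ℝ :=
  -((dd A 0 x + star (A x) * dd A 1 x).im + (x 1).im * ‖dd A 1 x‖ ^ 2)

/-- the normal vector -/
noncomputable def nn (A : C2 → ℂ) (x : C2) : Fin 4 → ℂ :=
  ![star (dd A 0 x), star (A x - x 1 * dd A 1 x - x 0 * dd A 0 x),
    star (1 - star (x 0) * dd A 1 x), star (-dd A 1 x)]

/-- `h4 (vv y) (nn x) = i NK x y` -/
noncomputable def NK (A : C2 → ℂ) (x y : C2) : ℂ :=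
  A y - A x - dd A 1 x * (y 1 - x 1) - dd A 0 x * (y 0 - x 0) +
    A y * dd A 1 x * (star (y 0) - star (x 0))

/-- square of the normal component -/
noncomputable def aK (A : C2 → ℂ) (x y : C2) : ℝ := ‖NK A x y‖ ^ 2 / (4 * sK A x * (y 1).im)

/-- the defect of symmetry -/
noncomputable def bK (A : C2 → ℂ) (x y : C2) : ℝ := aK A x y - aK A y x

/-- the invariant `Y = 1 + ps`, as a complex valued function of the first variable -/
noncomputable def YK (A : C2 → ℂ) (y x : C2) : ℂ := ((1 + ps A x y : ℝ) : ℂ)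

end Pool.Agent.MPd01a95
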