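import Mathlib
import Pool.Agent.Lib.MP_d01a95_gt_S.VDefs

/-!
Project SU(2,2), part (2), module Vcalc.
-/

set_option autoImplicit false
set_option linter.all false

open Matrix Filter Topology MeasureTheory Measure
open scoped ENNReal NNReal ContDiff

namespace Pool.Agent.MPd01a95

variable {E F : Type*} [NormedAddCommGroup E] [NormedSpace ℂ E] [NormedAddCommGroup F]
  [NormedSpace ℂ F]

theorem W_eq (A : C2 → ℂ) (f : C2 → ℂ) (x : C2) (c : Fin 2) : WV A c f x = W A c f x := by
  unfold WV W dbV ddV db dd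
  simp only [smul_eq_mul]

theorem Wb_eq (A : C2 → ℂ) (f : C2 → ℂ) (x : C2) (a : Fin 2) : WbV A a f x = Wb A a f x := by
  unfold WbV Wb dbV ddV db dd
  simp only [smul_eq_mul]

theorem H_eq (A : C2 → ℂ) (f : C2 → ℂ) (x : C2) (a c : Fin 2) : HV A a c f x = HC A a c f x := by
  have e : (fun y => WbV A a f y) = fun y => Wb A a f y := funext fun y => Wb_eq A f y a
  unfold HV HC
  rw [e, W_eq, Wb_eq, smul_eq_mul]

private theorem wv_one (A : C2 → ℂ) (f : C2 → E) (x : C2) : WV A 1 f x = dbV f 1 x := by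
  unfold WV
  rw [if_pos rfl]

private theorem wv_zero (A : C2 → ℂ) (f : C2 → E) (x : C2) :
    WV A 0 f x = dbV f 0 x + A x • ddV f 1 x := by
  unfold WV
  rw [if_neg (by decide)]

private theorem wbv_one (A : C2 → ℂ) (f : C2 → E) (x : C2) : WbV A 1 f x = ddV f 1 x := by
  unfold WbV
  rw [if_pos rfl]

private theorem wbv_zero (A : C2 → ℂ) (f : C2 → E) (x : C2) :
    WbV A 0 f x = ddV f 0 x + star (A x) • dbV f 1 x := by
  unfold WbV
  rw [if_neg (by decide)]

/-- decomposition of a vector -/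
private theorem vec_dec (v : C2) : v = (v 0).re • (Pi.single 0 1 : C2) +
    (v 0).im • (Pi.single 0 Complex.I : C2) + (v 1).re • (Pi.single 1 1 : C2) +
    (v 1).im • (Pi.single 1 Complex.I : C2) := by
  funext i
  fin_cases i
  · simp [Complex.re_add_im]
  · simp [Complex.re_add_im]

/-- the derivative in terms of the frame -/
theorem fderiv_frame (A : C2 → ℂ) (f : C2 → E) (x v : C2) :
    fderiv ℝ f x v = v 0 • WbV A 0 f x + (v 1 - A x * star (v 0)) • WbV A 1 f x +
      star (v 0) • WV A 0 f x + star (v 1 - A x * star (v 0)) • WV A 1 f x := by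
  have h0 : v 0 = ((v 0).re : ℂ) + ((v 0).im : ℂ) * Complex.I := (Complex.re_add_im _).symm
  have h1 : v 1 = ((v 1).re : ℂ) + ((v 1).im : ℂ) * Complex.I := (Complex.re_add_im _).symm
  have s0 : star (v 0) = ((v 0).re : ℂ) - ((v 0).im : ℂ) * Complex.I := by
    apply Complex.ext <;> simp
  have s1 : star (v 1) = ((v 1).re : ℂ) - ((v 1).im : ℂ) * Complex.I := by
    apply Complex.ext <;> simp
  have hI : Complex.I * Complex.I = -1 := Complex.I_mul_I
  conv_lhs => rw [vec_dec v]
  rw [map_add, map_add, map_add, map_smul, map_smul, map_smul, map_smul]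
  rw [wv_one, wv_zero, wbv_one, wbv_zero]
  unfold dbV ddV
  set a := fderiv ℝ f x (Pi.single 0 1)
  set b := fderiv ℝ f x (Pi.single 0 Complex.I)
  set c := fderiv ℝ f x (Pi.single 1 1)
  set d := fderiv ℝ f x (Pi.single 1 Complex.I)
  rw [star_sub, star_mul', star_star]
  have r1 : ∀ (r : ℝ) (w : E), r • w = (r : ℂ) • w := fun r w => (Complex.coe_smul r w).symm
  rw [r1, r1, r1, r1]
  rw [s1, s0]
  set p := ((v 0).re : ℂ)
  set q := ((v 0).im : ℂ)
  set r := ((v 1).re : ℂ)
  set s := ((v 1).im : ℂ)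
  rw [h0, h1]
  generalize A x = α
  generalize star α = β
  match_scalars
  all_goals
    ring_nf
    try rw [Complex.I_sq]
    try ring_nf

theorem WV_congr (A : C2 → ℂ) {f g : C2 → E} {x : C2} (h : f =ᶠ[𝓝 x] g) (c : Fin 2) :
    WV A c f x = WV A c g x ∧ WbV A c f x = WbV A c g x := by
  have e : fderiv ℝ f x = fderiv ℝ g x := h.fderiv_eq
  unfold WV WbV dbV ddV
  rw [e]
  exact ⟨rfl, rfl⟩

theorem HV_congr (A : C2 → ℂ) {f g : C2 → E} {x : C2} (h : f =ᶠ[𝓝 x] g) (a c : Fin 2) :
    HV A a c f x = HV A a c g x := by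
  have h1 : (fun y => WbV A a f y) =ᶠ[𝓝 x] fun y => WbV A a g y := by
    filter_upwards [h.eventuallyEq_nhds] with y hy
    exact (WV_congr A hy a).2
  unfold HV
  rw [(WV_congr A h1 c).1, (WV_congr A h 1).2]

theorem WV_add (A : C2 → ℂ) {f g : C2 → E} {x : C2} (hf : DifferentiableAt ℝ f x)
    (hg : DifferentiableAt ℝ g x) (c : Fin 2) :
    WV A c (fun y => f y + g y) x = WV A c f x + WV A c g x ∧
    WbV A c (fun y => f y + g y) x = WbV A c f x + WbV A c g x := by
  have e : fderiv ℝ (fun y => f y + g y) x = fderiv ℝ f x + fderiv ℝ g x := fderiv_fun_add hf hg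
  unfold WV WbV dbV ddV
  rw [e]
  simp only [ContinuousLinearMap.add_apply]
  constructor
  · split_ifs <;> module
  · split_ifs <;> module

/-- Leibniz rule for multiplication by a scalar function -/
theorem WV_smul (A : C2 → ℂ) {φ : C2 → ℂ} {f : C2 → E} {x : C2} (hφ : DifferentiableAt ℝ φ x)
    (hf : DifferentiableAt ℝ f x) (c : Fin 2) :
    WV A c (fun y => φ y • f y) x = W A c φ x • f x + φ x • WV A c f x ∧
    WbV A c (fun y => φ y • f y) x = Wb A c φ x • f x + φ x • WbV A c f x := by
  have e : ∀ v, fderiv ℝ (fun y => φ y • f y) x v = φ x • fderiv ℝ f x v + fderiv ℝ φ x v • f x := by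
    intro v
    rw [fderiv_fun_smul hφ hf]
    rfl
  unfold WV WbV W Wb dbV ddV db dd
  simp only [e]
  constructor
  · split_ifs <;> module
  · split_ifs <;> module

/-- continuous complex linear maps commute with the operators -/
theorem WV_clm (A : C2 → ℂ) (L : E →L[ℂ] F) {f : C2 → E} {x : C2} (hf : DifferentiableAt ℝ f x)
    (c : Fin 2) : WV A c (fun y => L (f y)) x = L (WV A c f x) ∧
    WbV A c (fun y => L (f y)) x = L (WbV A c f x) := by
  have e : ∀ v, fderiv ℝ (fun y => L (f y)) x v = L (fderiv ℝ f x v) := by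
    intro v
    have h : HasFDerivAt (fun y => L (f y)) ((L.restrictScalars ℝ).comp (fderiv ℝ f x)) x :=
      (L.restrictScalars ℝ).hasFDerivAt.comp x hf.hasFDerivAt
    rw [h.fderiv]
    rfl
  unfold WV WbV dbV ddV
  simp only [e]
  constructor
  · split_ifs <;> simp only [map_add, map_sub, map_smul]
  · split_ifs <;> simp only [map_add, map_sub, map_smul]

/-- regularity of the derivatives -/
theorem WV_contDiffOn {A : C2 → ℂ} {Ω : Set C2} (hΩ : IsOpen Ω) (hA : ContDiffOn ℝ ∞ A Ω)
    {f : C2 → E} {m k : WithTop ℕ∞} (hf : ContDiffOn ℝ k f Ω) (hk : m + 1 ≤ k)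
    (hm : m ≤ (∞ : WithTop ℕ∞)) (c : Fin 2) : ContDiffOn ℝ m (fun y => WV A c f y) Ω ∧
      ContDiffOn ℝ m (fun y => WbV A c f y) Ω := by
  have h1 : ContDiffOn ℝ m (fderiv ℝ f) Ω := hf.fderiv_of_isOpen hΩ hk
  have h2 : ∀ v : C2, ContDiffOn ℝ m (fun y => fderiv ℝ f y v) Ω := fun v =>
    h1.clm_apply contDiffOn_const
  have hd : ∀ a : Fin 2, ContDiffOn ℝ m (fun y => ddV f a y) Ω := fun a =>
    ((h2 _).sub ((h2 _).const_smul Complex.I)).const_smul (1 / 2 : ℂ)
  have hb : ∀ a : Fin 2, ContDiffOn ℝ m (fun y => dbV f a y) Ω := fun a =>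
    ((h2 _).add ((h2 _).const_smul Complex.I)).const_smul (1 / 2 : ℂ)
  have hA' : ContDiffOn ℝ m A Ω := hA.of_le hm
  have hAs : ContDiffOn ℝ m (fun y => star (A y)) Ω :=
    Complex.conjCLE.contDiff.comp_contDiffOn hA'
  unfold WV WbV
  constructor
  · split_ifs
    · exact hb 1
    · exact (hb 0).add (hA'.smul (hd 1))
  · split_ifs
    · exact hd 1
    · exact (hd 0).add (hAs.smul (hb 1))

theorem HV_clm (A : C2 → ℂ) (L : E →L[ℂ] F) {f : C2 → E} {Ω : Set C2} (hΩ : IsOpen Ω) {x : C2}
    (hx : x ∈ Ω) (hA : ContDiffOn ℝ ∞ A Ω) (hf : ContDiffOn ℝ 2 f Ω) (a c : Fin 2) :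
    HV A a c (fun y => L (f y)) x = L (HV A a c f x) := by
  have hn : Ω ∈ 𝓝 x := hΩ.mem_nhds hx
  have hfd : ∀ y ∈ Ω, DifferentiableAt ℝ f y := fun y hy =>
    (hf.differentiableOn (by norm_num)).differentiableAt (hΩ.mem_nhds hy)
  have h1 : (fun y => WbV A a (fun y => L (f y)) y) =ᶠ[𝓝 x] fun y => L (WbV A a f y) := by
    filter_upwards [hn] with y hy
    exact (WV_clm A L (hfd y hy) a).2
  have h2 : ContDiffOn ℝ 1 (fun y => WbV A a f y) Ω :=
    (WV_contDiffOn hΩ hA hf (by norm_num) (by norm_cast) a).2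
  have h3 : DifferentiableAt ℝ (fun y => WbV A a f y) x :=
    (h2.differentiableOn (by norm_num)).differentiableAt hn
  unfold HV
  rw [(WV_congr A h1 c).1, (WV_clm A L h3 c).1, (WV_clm A L (hfd x hx) 1).2, map_add, map_smul]

section inner

variable {H : Type*} [NormedAddCommGroup H] [InnerProductSpace ℂ H]

/-- Leibniz rule for inner products -/
theorem WV_inner (A : C2 → ℂ) {f g : C2 → H} {x : C2} (hf : DifferentiableAt ℝ f x)
    (hg : DifferentiableAt ℝ g x) (c : Fin 2) :
    W A c (fun y => inner ℂ (f y) (g y)) x =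
      inner ℂ (WbV A c f x) (g x) + inner ℂ (f x) (WV A c g x) ∧
    Wb A c (fun y => inner ℂ (f y) (g y)) x =
      inner ℂ (WV A c f x) (g x) + inner ℂ (f x) (WbV A c g x) := by
  have e : ∀ v, fderiv ℝ (fun y => inner ℂ (f y) (g y)) x v =
      inner ℂ (f x) (fderiv ℝ g x v) + inner ℂ (fderiv ℝ f x v) (g x) := fun v =>
    fderiv_inner_apply ℂ hf hg v
  unfold WV WbV W Wb dbV ddV db dd
  simp only [e]
  have hI : (starRingEnd ℂ) Complex.I = -Complex.I := Complex.conj_I
  have h2 : (starRingEnd ℂ) (1 / 2 : ℂ) = 1 / 2 := by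
    rw [map_div₀, map_one, map_ofNat]
  constructor
  · split_ifs
    · simp only [inner_add_left, inner_add_right, inner_sub_left, inner_sub_right,
        inner_smul_left, inner_smul_right, hI, h2]
      ring
    · simp only [inner_add_left, inner_add_right, inner_sub_left, inner_sub_right,
        inner_smul_left, inner_smul_right, hI, h2, starRingEnd_apply, star_star]
      ring
  · split_ifs
    · simp only [inner_add_left, inner_add_right, inner_sub_left, inner_sub_right,
        inner_smul_left, inner_smul_right, hI, h2]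
      ring
    · simp only [inner_add_left, inner_add_right, inner_sub_left, inner_sub_right,
        inner_smul_left, inner_smul_right, hI, h2, starRingEnd_apply, star_star]
      ring

/-- conjugation -/
theorem W_star (A : C2 → ℂ) (f : C2 → ℂ) (x : C2) (c : Fin 2) :
    W A c (fun y => star (f y)) x = star (Wb A c f x) ∧
    Wb A c (fun y => star (f y)) x = star (W A c f x) := by
  have e : ∀ v, fderiv ℝ (fun y => star (f y)) x v = star (fderiv ℝ f x v) := by
    intro v
    have h : fderiv ℝ (Complex.conjCLE ∘ f) x =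
        (Complex.conjCLE : ℂ →L[ℝ] ℂ).comp (fderiv ℝ f x) := Complex.conjCLE.comp_fderiv
    have h' := DFunLike.congr_fun h v
    exact h'
  have hI : star Complex.I = -Complex.I := Complex.conj_I
  have h2 : star (1 / 2 : ℂ) = 1 / 2 := by
    change (starRingEnd ℂ) (1 / 2 : ℂ) = 1 / 2
    rw [map_div₀, map_one, map_ofNat]
  unfold W Wb db dd
  simp only [e]
  constructor
  · split_ifs
    · simp only [star_add, star_sub, star_mul', hI, h2, star_star]
      ring
    · simp only [star_add, star_sub, star_mul', hI, h2, star_star]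
      ring
  · split_ifs
    · simp only [star_add, star_sub, star_mul', hI, h2, star_star]
      ring
    · simp only [star_add, star_sub, star_mul', hI, h2, star_star]
      ring

end inner

end Pool.Agent.MPd01a95
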