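import Mathlib
import Pool.Agent.Lib.MP_d01a95_gt_S.VDefs
import Pool.Agent.Lib.MP_d01a95_gt_S.Vcalc

/-!
Project SU(2,2), part (2), module Vsym.
-/

set_option autoImplicit false
set_option linter.all false

open Matrix Filter Topology MeasureTheory Measure
open scoped ENNReal NNReal ContDiff

namespace Pool.Agent.MPd01a95

variable {E : Type*} [NormedAddCommGroup E] [NormedSpace ℂ E]

/-! ### constant coefficient operators -/

namespace Vs

theorem ddV_eq_dd (f : C2 → ℂ) (a : Fin 2) (x : C2) : ddV f a x = dd f a x := rfl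

theorem dbV_eq_db (f : C2 → ℂ) (a : Fin 2) (x : C2) : dbV f a x = db f a x := rfl

theorem fderiv_fderiv_apply {f : C2 → E} {x : C2} (hf : ContDiffAt ℝ 2 f x) (u v : C2) :
    fderiv ℝ (fun y => fderiv ℝ f y u) x v = fderiv ℝ (fderiv ℝ f) x v u := by
  have h1 : DifferentiableAt ℝ (fderiv ℝ f) x :=
    (hf.fderiv_right (m := 1) (by norm_num)).differentiableAt (by norm_num)
  have h2 := (h1.hasFDerivAt.clm_apply (hasFDerivAt_const u x)).fderiv
  rw [h2]
  simp

theorem diff_fderiv_apply {f : C2 → E} {x : C2} (hf : ContDiffAt ℝ 2 f x) (u : C2) :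
    DifferentiableAt ℝ (fun y => fderiv ℝ f y u) x := by
  have h1 : DifferentiableAt ℝ (fderiv ℝ f) x :=
    (hf.fderiv_right (m := 1) (by norm_num)).differentiableAt (by norm_num)
  exact h1.clm_apply (differentiableAt_const u)

theorem fderiv_symm2 {f : C2 → E} {x : C2} (hf : ContDiffAt ℝ 2 f x) (u v : C2) :
    fderiv ℝ (fderiv ℝ f) x u v = fderiv ℝ (fderiv ℝ f) x v u :=
  (hf.isSymmSndFDerivAt (by simp)) u v

theorem diff_ddV {f : C2 → E} {x : C2} (hf : ContDiffAt ℝ 2 f x) (a : Fin 2) :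
    DifferentiableAt ℝ (fun y => ddV f a y) x ∧ DifferentiableAt ℝ (fun y => dbV f a y) x := by
  have h1 := diff_fderiv_apply hf (Pi.single a 1)
  have h2 := diff_fderiv_apply hf (Pi.single a Complex.I)
  constructor
  · exact (h1.sub (h2.const_smul Complex.I)).const_smul (1 / 2 : ℂ)
  · exact (h1.add (h2.const_smul Complex.I)).const_smul (1 / 2 : ℂ)

theorem fderiv_ddV {f : C2 → E} {x : C2} (hf : ContDiffAt ℝ 2 f x) (a : Fin 2) (v : C2) :
    fderiv ℝ (fun y => ddV f a y) x v = (1 / 2 : ℂ) •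
      (fderiv ℝ (fderiv ℝ f) x v (Pi.single a 1) -
        Complex.I • fderiv ℝ (fderiv ℝ f) x v (Pi.single a Complex.I)) := by
  have h1 := diff_fderiv_apply hf (Pi.single a 1)
  have h2 := diff_fderiv_apply hf (Pi.single a Complex.I)
  have h3 := ((h1.hasFDerivAt.sub (h2.hasFDerivAt.const_smul Complex.I)).const_smul
    (1 / 2 : ℂ)).fderiv
  have h4 := congrArg (fun T => T v) h3
  simp only [ContinuousLinearMap.smul_apply, ContinuousLinearMap.sub_apply,
    fderiv_fderiv_apply hf] at h4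
  exact h4

theorem fderiv_dbV {f : C2 → E} {x : C2} (hf : ContDiffAt ℝ 2 f x) (a : Fin 2) (v : C2) :
    fderiv ℝ (fun y => dbV f a y) x v = (1 / 2 : ℂ) •
      (fderiv ℝ (fderiv ℝ f) x v (Pi.single a 1) +
        Complex.I • fderiv ℝ (fderiv ℝ f) x v (Pi.single a Complex.I)) := by
  have h1 := diff_fderiv_apply hf (Pi.single a 1)
  have h2 := diff_fderiv_apply hf (Pi.single a Complex.I)
  have h3 := ((h1.hasFDerivAt.add (h2.hasFDerivAt.const_smul Complex.I)).const_smul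
    (1 / 2 : ℂ)).fderiv
  have h4 := congrArg (fun T => T v) h3
  simp only [ContinuousLinearMap.smul_apply, ContinuousLinearMap.add_apply,
    fderiv_fderiv_apply hf] at h4
  exact h4

theorem dd_dd {f : C2 → E} {x : C2} (hf : ContDiffAt ℝ 2 f x) (a c : Fin 2) :
    ddV (fun y => ddV f a y) c x = ddV (fun y => ddV f c y) a x := by
  rw [ddV, ddV, fderiv_ddV hf, fderiv_ddV hf, fderiv_ddV hf, fderiv_ddV hf,
    fderiv_symm2 hf (Pi.single c 1) (Pi.single a 1),
    fderiv_symm2 hf (Pi.single c 1) (Pi.single a Complex.I),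
    fderiv_symm2 hf (Pi.single c Complex.I) (Pi.single a 1),
    fderiv_symm2 hf (Pi.single c Complex.I) (Pi.single a Complex.I)]
  module

theorem db_db {f : C2 → E} {x : C2} (hf : ContDiffAt ℝ 2 f x) (a c : Fin 2) :
    dbV (fun y => dbV f a y) c x = dbV (fun y => dbV f c y) a x := by
  rw [dbV, dbV, fderiv_dbV hf, fderiv_dbV hf, fderiv_dbV hf, fderiv_dbV hf,
    fderiv_symm2 hf (Pi.single c 1) (Pi.single a 1),
    fderiv_symm2 hf (Pi.single c 1) (Pi.single a Complex.I),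
    fderiv_symm2 hf (Pi.single c Complex.I) (Pi.single a 1),
    fderiv_symm2 hf (Pi.single c Complex.I) (Pi.single a Complex.I)]
  module

theorem db_dd {f : C2 → E} {x : C2} (hf : ContDiffAt ℝ 2 f x) (a c : Fin 2) :
    dbV (fun y => ddV f a y) c x = ddV (fun y => dbV f c y) a x := by
  rw [dbV, ddV, fderiv_ddV hf, fderiv_ddV hf, fderiv_dbV hf, fderiv_dbV hf,
    fderiv_symm2 hf (Pi.single c 1) (Pi.single a 1),
    fderiv_symm2 hf (Pi.single c 1) (Pi.single a Complex.I),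
    fderiv_symm2 hf (Pi.single c Complex.I) (Pi.single a 1),
    fderiv_symm2 hf (Pi.single c Complex.I) (Pi.single a Complex.I)]
  module

theorem ddV_add {f g : C2 → E} {x : C2} (hf : DifferentiableAt ℝ f x)
    (hg : DifferentiableAt ℝ g x) (a : Fin 2) :
    ddV (fun y => f y + g y) a x = ddV f a x + ddV g a x ∧
    dbV (fun y => f y + g y) a x = dbV f a x + dbV g a x := by
  have h := (hf.hasFDerivAt.add hg.hasFDerivAt).fderiv
  have h1 : fderiv ℝ (fun y => f y + g y) x = fderiv ℝ f x + fderiv ℝ g x := h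
  constructor
  · rw [ddV, ddV, ddV, h1]
    simp only [ContinuousLinearMap.add_apply]
    module
  · rw [dbV, dbV, dbV, h1]
    simp only [ContinuousLinearMap.add_apply]
    module

theorem ddV_smul {φ : C2 → ℂ} {f : C2 → E} {x : C2} (hφ : DifferentiableAt ℝ φ x)
    (hf : DifferentiableAt ℝ f x) (a : Fin 2) :
    ddV (fun y => φ y • f y) a x = dd φ a x • f x + φ x • ddV f a x ∧
    dbV (fun y => φ y • f y) a x = db φ a x • f x + φ x • dbV f a x := by
  have h := (hφ.hasFDerivAt.smul hf.hasFDerivAt).fderiv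
  have h1 : fderiv ℝ (fun y => φ y • f y) x =
      φ x • fderiv ℝ f x + (fderiv ℝ φ x).smulRight (f x) := h
  constructor
  · rw [ddV, dd, ddV, h1]
    simp only [ContinuousLinearMap.add_apply, ContinuousLinearMap.smul_apply,
      ContinuousLinearMap.smulRight_apply]
    module
  · rw [dbV, db, dbV, h1]
    simp only [ContinuousLinearMap.add_apply, ContinuousLinearMap.smul_apply,
      ContinuousLinearMap.smulRight_apply]
    module

theorem dd_star (f : C2 → ℂ) (a : Fin 2) (x : C2) :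
    dd (fun y => star (f y)) a x = star (db f a x) ∧
    db (fun y => star (f y)) a x = star (dd f a x) := by
  have h := W_star (0 : C2 → ℂ) f x a
  fin_cases a
  · simpa [W, Wb] using h.symm
  · simpa [W, Wb] using h.symm

theorem ddV_congr {f g : C2 → E} {x : C2} (h : f =ᶠ[𝓝 x] g) (a : Fin 2) :
    ddV f a x = ddV g a x ∧ dbV f a x = dbV g a x := by
  rw [ddV, ddV, dbV, dbV, h.fderiv_eq]
  exact ⟨rfl, rfl⟩

end Vs

open Vs

section main

variable {Ω : Set C2} {A : C2 → ℂ}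

theorem Vs.diffA (hΩ : IsOpen Ω) (hA : BA Ω A) {x : C2} (hx : x ∈ Ω) :
    DifferentiableAt ℝ A x :=
  (hA.sm.contDiffAt (hΩ.mem_nhds hx)).differentiableAt (by simp)

theorem Vs.diffAs (hΩ : IsOpen Ω) (hA : BA Ω A) {x : C2} (hx : x ∈ Ω) :
    DifferentiableAt ℝ (fun y => star (A y)) x := (Vs.diffA hΩ hA hx).star

/-- derivatives of the mixed expressions -/
theorem Vs.mix (hΩ : IsOpen Ω) (hA : BA Ω A) {f : C2 → E} {x : C2} (hx : x ∈ Ω)
    (hf : ContDiffAt ℝ 2 f x) (a : Fin 2) :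
    (ddV (fun y => dbV f 0 y + A y • ddV f 1 y) a x = ddV (fun y => dbV f 0 y) a x +
      (dd A a x • ddV f 1 x + A x • ddV (fun y => ddV f 1 y) a x)) ∧
    (dbV (fun y => dbV f 0 y + A y • ddV f 1 y) a x = dbV (fun y => dbV f 0 y) a x +
      (db A a x • ddV f 1 x + A x • dbV (fun y => ddV f 1 y) a x)) ∧
    (ddV (fun y => ddV f 0 y + star (A y) • dbV f 1 y) a x = ddV (fun y => ddV f 0 y) a x +
      (star (db A a x) • dbV f 1 x + star (A x) • ddV (fun y => dbV f 1 y) a x)) ∧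
    (dbV (fun y => ddV f 0 y + star (A y) • dbV f 1 y) a x = dbV (fun y => ddV f 0 y) a x +
      (star (dd A a x) • dbV f 1 x + star (A x) • dbV (fun y => dbV f 1 y) a x)) := by
  have hd := Vs.diffA hΩ hA hx
  have hds := Vs.diffAs hΩ hA hx
  have h0 := diff_ddV hf 0
  have h1 := diff_ddV hf 1
  have e1 := ddV_add h0.2 (hd.smul h1.1) a
  have e2 := ddV_smul hd h1.1 a
  have e3 := ddV_add h0.1 (hds.smul h1.2) a
  have e4 := ddV_smul hds h1.2 a
  have e5 := dd_star A a x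
  refine ⟨?_, ?_, ?_, ?_⟩
  · rw [← e2.1]
    exact e1.1
  · rw [← e2.2]
    exact e1.2
  · rw [← e5.1, ← e4.1]
    exact e3.1
  · rw [← e5.2, ← e4.2]
    exact e3.2

end main

/-- commutation of the operators -/
theorem WV_comm {Ω : Set C2} (hΩ : IsOpen Ω) {A : C2 → ℂ} (hA : BA Ω A) {f : C2 → E}
    (hf : ContDiffOn ℝ 2 f Ω) : ∀ x ∈ Ω,
    WV A 1 (fun y => WV A 0 f y) x = WV A 0 (fun y => WV A 1 f y) x ∧
    WbV A 1 (fun y => WbV A 0 f y) x = WbV A 0 (fun y => WbV A 1 f y) x := by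
  intro x hx
  have hfx : ContDiffAt ℝ 2 f x := hf.contDiffAt (hΩ.mem_nhds hx)
  have hm := Vs.mix hΩ hA hx hfx 1
  have hb : db A 1 x = 0 := hA.h1 x hx
  constructor
  · have e1 : WV A 1 (fun y => WV A 0 f y) x = dbV (fun y => dbV f 0 y + A y • ddV f 1 y) 1 x := rfl
    have e2 : WV A 0 (fun y => WV A 1 f y) x = dbV (fun y => dbV f 1 y) 0 x +
      A x • ddV (fun y => dbV f 1 y) 1 x := rfl
    rw [e1, e2, hm.2.1, hb, db_db hfx 0 1, db_dd hfx 1 1]
    module
  · have e1 : WbV A 1 (fun y => WbV A 0 f y) x =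
      ddV (fun y => ddV f 0 y + star (A y) • dbV f 1 y) 1 x := rfl
    have e2 : WbV A 0 (fun y => WbV A 1 f y) x = ddV (fun y => ddV f 1 y) 0 x +
      star (A x) • dbV (fun y => ddV f 1 y) 1 x := rfl
    rw [e1, e2, hm.2.2.1, hb, dd_dd hfx 0 1, db_dd hfx 1 1, star_zero]
    module

/-- the other form of the complex Hessian -/
theorem HV_symm {Ω : Set C2} (hΩ : IsOpen Ω) {A : C2 → ℂ} (hA : BA Ω A) {f : C2 → E}
    (hf : ContDiffOn ℝ 2 f Ω) (a c : Fin 2) : ∀ x ∈ Ω,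
    HV A a c f x = WbV A a (fun y => WV A c f y) x + star (Ga A a c x) • WV A 1 f x := by
  intro x hx
  have hfx : ContDiffAt ℝ 2 f x := hf.contDiffAt (hΩ.mem_nhds hx)
  have hm1 := Vs.mix hΩ hA hx hfx 1
  have hm0 := Vs.mix hΩ hA hx hfx 0
  have hb : db A 1 x = 0 := hA.h1 x hx
  fin_cases a <;> fin_cases c
  · have e1 : HV A 0 0 f x = (dbV (fun y => ddV f 0 y + star (A y) • dbV f 1 y) 0 x +
      A x • ddV (fun y => ddV f 0 y + star (A y) • dbV f 1 y) 1 x) + dd A 0 x • ddV f 1 x := rfl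
    have e2 : WbV A 0 (fun y => WV A 0 f y) x + star (Ga A 0 0 x) • WV A 1 f x =
      (ddV (fun y => dbV f 0 y + A y • ddV f 1 y) 0 x +
        star (A x) • dbV (fun y => dbV f 0 y + A y • ddV f 1 y) 1 x) +
        star (dd A 0 x) • dbV f 1 x := rfl
    refine e1.trans (Eq.trans ?_ e2.symm)
    rw [hm0.2.2.2, hm1.2.2.1, hm0.1, hm1.2.1, hb, db_dd hfx 0 0, db_db hfx 1 0, dd_dd hfx 0 1,
      db_dd hfx 1 1, star_zero]
    module
  · have e1 : HV A 0 1 f x = dbV (fun y => ddV f 0 y + star (A y) • dbV f 1 y) 1 x +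
      (0 : ℂ) • ddV f 1 x := rfl
    have e2 : WbV A 0 (fun y => WV A 1 f y) x + star (Ga A 0 1 x) • WV A 1 f x =
      (ddV (fun y => dbV f 1 y) 0 x + star (A x) • dbV (fun y => dbV f 1 y) 1 x) +
        star (dd A 1 x) • dbV f 1 x := rfl
    refine e1.trans (Eq.trans ?_ e2.symm)
    rw [hm1.2.2.2, db_dd hfx 0 1]
    module
  · have e1 : HV A 1 0 f x = (dbV (fun y => ddV f 1 y) 0 x + A x • ddV (fun y => ddV f 1 y) 1 x) +
      dd A 1 x • ddV f 1 x := rfl
    have e2 : WbV A 1 (fun y => WV A 0 f y) x + star (Ga A 1 0 x) • WV A 1 f x =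
      ddV (fun y => dbV f 0 y + A y • ddV f 1 y) 1 x + star (0 : ℂ) • dbV f 1 x := rfl
    refine e1.trans (Eq.trans ?_ e2.symm)
    rw [hm1.1, db_dd hfx 1 0, star_zero]
    module
  · have e1 : HV A 1 1 f x = dbV (fun y => ddV f 1 y) 1 x + (0 : ℂ) • ddV f 1 x := rfl
    have e2 : WbV A 1 (fun y => WV A 1 f y) x + star (Ga A 1 1 x) • WV A 1 f x =
      ddV (fun y => dbV f 1 y) 1 x + star (0 : ℂ) • dbV f 1 x := rfl
    refine e1.trans (Eq.trans ?_ e2.symm)
    rw [db_dd hfx 1 1, star_zero]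
    module

/-- derivatives of `A` -/
theorem W_A {Ω : Set C2} (hΩ : IsOpen Ω) {A : C2 → ℂ} (hA : BA Ω A) : ∀ x ∈ Ω,
    (∀ c, W A c A x = 0) ∧ Wb A 1 A x = dd A 1 x ∧ Wb A 0 A x = dd A 0 x ∧
    (∀ a, W A 1 (fun y => dd A a y) x = 0) ∧
    ∀ a, W A 0 (fun y => dd A a y) x = - (dd A 1 x * dd A a x) := by
  intro x hx
  have hAx : ContDiffAt ℝ 2 A x := (hA.sm.contDiffAt (hΩ.mem_nhds hx)).of_le (WithTop.coe_le_coe.2 (le_top : (2 : ℕ∞) ≤ ⊤))
  have hb : db A 1 x = 0 := hA.h1 x hx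
  refine ⟨fun c => ?_, rfl, ?_, fun a => ?_, fun a => ?_⟩
  · fin_cases c
    · exact hA.h0 x hx
    · exact hb
  · have e1 : Wb A 0 A x = dd A 0 x + star (A x) * db A 1 x := rfl
    rw [e1, hb, mul_zero, add_zero]
  · have e1 : W A 1 (fun y => dd A a y) x = dbV (fun y => ddV A a y) 1 x := rfl
    have e2 : (fun y => dbV A 1 y) =ᶠ[𝓝 x] fun _ => (0 : ℂ) := by
      filter_upwards [hΩ.mem_nhds hx] with y hy
      exact hA.h1 y hy
    rw [e1, db_dd hAx a 1, (ddV_congr e2 a).1, ddV]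
    simp
  · have e1 : W A 0 (fun y => dd A a y) x = dbV (fun y => ddV A a y) 0 x +
      A x * ddV (fun y => ddV A a y) 1 x := rfl
    have e2 : (fun y => dbV A 0 y + A y • ddV A 1 y) =ᶠ[𝓝 x] fun _ => (0 : ℂ) := by
      filter_upwards [hΩ.mem_nhds hx] with y hy
      exact hA.h0 y hy
    have hm := (Vs.mix hΩ hA hx hAx a).1
    rw [(ddV_congr e2 a).1, ddV] at hm
    simp only [fderiv_const_apply, fderiv_fun_const, Pi.zero_apply,
      ContinuousLinearMap.zero_apply, smul_zero, sub_zero, smul_eq_mul, mul_zero] at hm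
    rw [e1, db_dd hAx a 0, dd_dd hAx a 1]
    have e3 : ddV A 1 x = dd A 1 x := rfl
    rw [e3] at hm
    linear_combination -hm

/-- conjugation symmetry for scalar functions -/
theorem HC_symm {Ω : Set C2} (hΩ : IsOpen Ω) {A : C2 → ℂ} (hA : BA Ω A) {f : C2 → ℂ}
    (hf : ContDiffOn ℝ 2 f Ω) (a c : Fin 2) : ∀ x ∈ Ω,
    HC A a c f x = star (HC A c a (fun y => star (f y)) x) := by
  intro x hx
  have h1 := HV_symm hΩ hA hf a c x hx
  rw [H_eq] at h1
  have e0 : (fun y => Wb A c (fun z => star (f z)) y) = fun y => star (W A c f y) := by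
    funext y
    exact (W_star A f y c).2
  have e1 : HC A c a (fun y => star (f y)) x =
      star (Wb A a (fun y => W A c f y) x) + Ga A a c x * star (W A 1 f x) := by
    have e2 : HC A c a (fun y => star (f y)) x = W A a (fun y => Wb A c (fun z => star (f z)) y) x +
      Ga A a c x * Wb A 1 (fun y => star (f y)) x := rfl
    rw [e2, e0, (W_star A (fun y => W A c f y) x a).1, (W_star A f x 1).2]
  rw [h1, e1, star_add, star_mul', star_star, star_star, Wb_eq, W_eq]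
  have e3 : (fun y => WV A c f y) = fun y => W A c f y := by
    funext y
    exact W_eq A f y c
  rw [e3, smul_eq_mul]

theorem Vs.W_mul (A : C2 → ℂ) {f g : C2 → ℂ} {x : C2} (hf : DifferentiableAt ℝ f x)
    (hg : DifferentiableAt ℝ g x) (c : Fin 2) :
    W A c (fun y => f y * g y) x = W A c f x * g x + f x * W A c g x ∧
    Wb A c (fun y => f y * g y) x = Wb A c f x * g x + f x * Wb A c g x := by
  have h := WV_smul A hf hg c
  simp only [smul_eq_mul, W_eq, Wb_eq] at h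
  exact h

theorem Vs.W_add (A : C2 → ℂ) {f g : C2 → ℂ} {x : C2} (hf : DifferentiableAt ℝ f x)
    (hg : DifferentiableAt ℝ g x) (c : Fin 2) :
    W A c (fun y => f y + g y) x = W A c f x + W A c g x ∧
    Wb A c (fun y => f y + g y) x = Wb A c f x + Wb A c g x := by
  have h := WV_add A hf hg c
  simp only [W_eq, Wb_eq] at h
  exact h

theorem Vs.W_congr (A : C2 → ℂ) {f g : C2 → ℂ} {x : C2} (h : f =ᶠ[𝓝 x] g) (c : Fin 2) :
    W A c f x = W A c g x ∧ Wb A c f x = Wb A c g x := by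
  have h := WV_congr A h c
  simp only [W_eq, Wb_eq] at h
  exact h

theorem Vs.W_diff {A : C2 → ℂ} {Ω : Set C2} (hΩ : IsOpen Ω) (hA : ContDiffOn ℝ ∞ A Ω)
    {f : C2 → ℂ} (hf : ContDiffOn ℝ 2 f Ω) (c : Fin 2) {x : C2} (hx : x ∈ Ω) :
    DifferentiableAt ℝ (fun y => W A c f y) x ∧ DifferentiableAt ℝ (fun y => Wb A c f y) x := by
  have h := WV_contDiffOn hΩ hA hf (m := 1) (by norm_num) (by simp) c
  have e3 : (fun y => WV A c f y) = fun y => W A c f y := by
    funext y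
    exact W_eq A f y c
  have e4 : (fun y => WbV A c f y) = fun y => Wb A c f y := by
    funext y
    exact Wb_eq A f y c
  rw [e3, e4] at h
  exact ⟨(h.1.contDiffAt (hΩ.mem_nhds hx)).differentiableAt (by norm_num),
    (h.2.contDiffAt (hΩ.mem_nhds hx)).differentiableAt (by norm_num)⟩

/-- the complex Hessian of a product of scalar functions -/
theorem HC_mul {Ω : Set C2} (hΩ : IsOpen Ω) {A : C2 → ℂ} (hA : BA Ω A) {f g : C2 → ℂ}
    (hf : ContDiffOn ℝ 2 f Ω) (hg : ContDiffOn ℝ 2 g Ω) (a c : Fin 2) : ∀ x ∈ Ω,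
    HC A a c (fun y => f y * g y) x = HC A a c f x * g x + f x * HC A a c g x +
      Wb A a f x * W A c g x + W A c f x * Wb A a g x := by
  intro x hx
  have df : ∀ y ∈ Ω, DifferentiableAt ℝ f y := fun y hy =>
    (hf.contDiffAt (hΩ.mem_nhds hy)).differentiableAt (by norm_num)
  have dg : ∀ y ∈ Ω, DifferentiableAt ℝ g y := fun y hy =>
    (hg.contDiffAt (hΩ.mem_nhds hy)).differentiableAt (by norm_num)
  have e1 : (fun y => Wb A a (fun z => f z * g z) y) =ᶠ[𝓝 x]
      fun y => Wb A a f y * g y + f y * Wb A a g y := by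
    filter_upwards [hΩ.mem_nhds hx] with y hy
    exact (Vs.W_mul A (df y hy) (dg y hy) a).2
  have dWf := (Vs.W_diff hΩ hA.sm hf a hx).2
  have dWg := (Vs.W_diff hΩ hA.sm hg a hx).2
  have e2 := (Vs.W_mul A dWf (dg x hx) c).1
  have e3 := (Vs.W_mul A (df x hx) dWg c).1
  have e4 := (Vs.W_add A (dWf.mul (dg x hx)) ((df x hx).mul dWg) c).1
  have e5 := (Vs.W_mul A (df x hx) (dg x hx) 1).2
  rw [HC, (Vs.W_congr A e1 c).1]
  have e6 : W A c (fun y => Wb A a f y * g y + f y * Wb A a g y) x =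
      W A c (fun y => Wb A a f y * g y) x + W A c (fun y => f y * Wb A a g y) x := e4
  rw [e6, e2, e3, e5, HC, HC]
  ring

theorem Vs.dd_comp {f : C2 → ℝ} {φ : ℝ → ℝ} {x : C2} (hf : DifferentiableAt ℝ f x)
    (hφ : DifferentiableAt ℝ φ (f x)) (a : Fin 2) :
    dd (fun y => ((φ (f y) : ℝ) : ℂ)) a x = ((deriv φ (f x) : ℝ) : ℂ) *
      dd (fun y => (f y : ℂ)) a x ∧
    db (fun y => ((φ (f y) : ℝ) : ℂ)) a x = ((deriv φ (f x) : ℝ) : ℂ) *
      db (fun y => (f y : ℂ)) a x := by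
  have h1 : HasFDerivAt (fun y => ((φ (f y) : ℝ) : ℂ))
      (Complex.ofRealCLM.comp ((fderiv ℝ f x).smulRight (deriv φ (f x)))) x := by
    have h2 := hφ.hasDerivAt.hasFDerivAt.comp x hf.hasFDerivAt
    have h3 := Complex.ofRealCLM.hasFDerivAt.comp x h2
    refine h3.congr_fderiv ?_
    ext v
    simp
  have h4 : HasFDerivAt (fun y => (f y : ℂ)) (Complex.ofRealCLM.comp (fderiv ℝ f x)) x :=
    Complex.ofRealCLM.hasFDerivAt.comp x hf.hasFDerivAt
  constructor
  · rw [dd, dd, h1.fderiv, h4.fderiv]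
    simp only [ContinuousLinearMap.comp_apply, ContinuousLinearMap.smulRight_apply, smul_eq_mul,
      Complex.ofRealCLM_apply, Complex.ofReal_mul]
    ring
  · rw [db, db, h1.fderiv, h4.fderiv]
    simp only [ContinuousLinearMap.comp_apply, ContinuousLinearMap.smulRight_apply, smul_eq_mul,
      Complex.ofRealCLM_apply, Complex.ofReal_mul]
    ring

theorem Vs.W_comp (A : C2 → ℂ) {f : C2 → ℝ} {φ : ℝ → ℝ} {x : C2} (hf : DifferentiableAt ℝ f x)
    (hφ : DifferentiableAt ℝ φ (f x)) (a : Fin 2) :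
    W A a (fun y => ((φ (f y) : ℝ) : ℂ)) x = ((deriv φ (f x) : ℝ) : ℂ) *
      W A a (fun y => (f y : ℂ)) x ∧
    Wb A a (fun y => ((φ (f y) : ℝ) : ℂ)) x = ((deriv φ (f x) : ℝ) : ℂ) *
      Wb A a (fun y => (f y : ℂ)) x := by
  have h0 := Vs.dd_comp hf hφ 0
  have h1 := Vs.dd_comp hf hφ 1
  constructor
  · rw [W, W, h0.2, h1.1, h1.2]
    split_ifs
    · rfl
    · ring
  · rw [Wb, Wb, h0.1, h1.1, h1.2]
    split_ifs
    · rfl
    · ring

/-- composition with a function of one variable -/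
theorem HC_comp {Ω : Set C2} (hΩ : IsOpen Ω) {A : C2 → ℂ} (hA : BA Ω A) {f : C2 → ℝ}
    (hf : ContDiffOn ℝ 2 f Ω) {φ : ℝ → ℝ} {s : Set ℝ} (hs : IsOpen s) (hφ : ContDiffOn ℝ 2 φ s)
    (hfs : ∀ x ∈ Ω, f x ∈ s) (a c : Fin 2) : ∀ x ∈ Ω,
    HC A a c (fun y => ((φ (f y) : ℝ) : ℂ)) x =
      ((deriv φ (f x) : ℝ) : ℂ) * HC A a c (fun y => (f y : ℂ)) x +
      ((deriv (deriv φ) (f x) : ℝ) : ℂ) * (Wb A a (fun y => (f y : ℂ)) x * W A c (fun y => (f y : ℂ)) x) := by
  intro x hx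
  have df : ∀ y ∈ Ω, DifferentiableAt ℝ f y := fun y hy =>
    (hf.contDiffAt (hΩ.mem_nhds hy)).differentiableAt (by norm_num)
  have dφ : ∀ t ∈ s, DifferentiableAt ℝ φ t := fun t ht =>
    (hφ.contDiffAt (hs.mem_nhds ht)).differentiableAt (by norm_num)
  have hφ' : ContDiffOn ℝ 1 (deriv φ) s := hφ.deriv_of_isOpen hs (by norm_num)
  have dφ' : ∀ t ∈ s, DifferentiableAt ℝ (deriv φ) t := fun t ht =>
    (hφ'.contDiffAt (hs.mem_nhds ht)).differentiableAt (by norm_num)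
  have hfc : ContDiffOn ℝ 2 (fun y => (f y : ℂ)) Ω := Complex.ofRealCLM.contDiff.comp_contDiffOn hf
  have e1 : (fun y => Wb A a (fun z => ((φ (f z) : ℝ) : ℂ)) y) =ᶠ[𝓝 x]
      fun y => ((deriv φ (f y) : ℝ) : ℂ) * Wb A a (fun z => (f z : ℂ)) y := by
    filter_upwards [hΩ.mem_nhds hx] with y hy
    exact (Vs.W_comp A (df y hy) (dφ _ (hfs y hy)) a).2
  have dW := (Vs.W_diff hΩ hA.sm hfc a hx).2
  have d1 : DifferentiableAt ℝ (fun y => ((deriv φ (f y) : ℝ) : ℂ)) x :=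
    Complex.ofRealCLM.differentiableAt.comp x ((dφ' _ (hfs x hx)).comp x (df x hx))
  have e2 := (Vs.W_mul A d1 dW c).1
  have e3 := (Vs.W_comp A (df x hx) (dφ' _ (hfs x hx)) c).1
  have e4 := (Vs.W_comp A (df x hx) (dφ _ (hfs x hx)) 1).2
  rw [HC, (Vs.W_congr A e1 c).1, e2, e3, e4, HC]
  ring

end Pool.Agent.MPd01a95
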