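import Mathlib
import Pool.Agent.Lib.MP_d01a95_gt_S.VDefs
import Pool.Agent.Lib.MP_d01a95_gt_S.Vsym

/-!
Project SU(2,2), part (2), module Vlaw.
-/

set_option autoImplicit false
set_option linter.all false

open Matrix Filter Topology MeasureTheory Measure
open scoped ENNReal NNReal ContDiff

namespace Pool.Agent.MPd01a95

variable {E : Type*} [NormedAddCommGroup E] [NormedSpace ℂ E]

private theorem Vlaw_lin (A : C2 → ℂ) (c : Fin 2) (g : C2 → E) (x : C2) (φ : Fin 4 → C2 → ℂ)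
    (P : Fin 4 → E) (h : ∀ u, fderiv ℝ g x u = ∑ i, fderiv ℝ (φ i) x u • P i) :
    WV A c g x = ∑ i, W A c (φ i) x • P i ∧ WbV A c g x = ∑ i, Wb A c (φ i) x • P i := by
  unfold WV WbV dbV ddV W Wb db dd
  simp only [h, Fin.sum_univ_four]
  constructor <;> split_ifs <;> module

private theorem Vlaw_comp {Θ : C2 → C2} {x : C2} (hΘ : DifferentiableAt ℝ Θ x) (j : Fin 2)
    (u : C2) : fderiv ℝ (fun y => Θ y j) x u = fderiv ℝ Θ x u j := by
  have h := hasFDerivAt_pi'.1 hΘ.hasFDerivAt j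
  rw [h.fderiv]
  rfl

private theorem Vlaw_star {Θ : C2 → C2} {x : C2} (hΘ : DifferentiableAt ℝ Θ x) (j : Fin 2)
    (u : C2) : fderiv ℝ (fun y => star (Θ y j)) x u = star (fderiv ℝ Θ x u j) := by
  have h := hasFDerivAt_pi'.1 hΘ.hasFDerivAt j
  have h2 := ((Complex.conjCLE : ℂ →L[ℝ] ℂ).hasFDerivAt (x := Θ x j)).comp x h
  have h3 : fderiv ℝ (fun y => star (Θ y j)) x = _ := h2.fderiv
  rw [h3]
  rfl

/-- first order law for holomorphic maps -/
theorem law1 {Ω : Set C2} {A A' : C2 → ℂ} {Θ : C2 → C2} (hh : HolM A A' Ω Θ) {x : C2}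
    (hx : x ∈ Ω) (hΘ : DifferentiableAt ℝ Θ x) {f : C2 → E}
    (hf : DifferentiableAt ℝ f (Θ x)) :
    (∀ c, WV A c (fun y => f (Θ y)) x = ∑ c', star (MM A Θ c' c x) • WV A' c' f (Θ x)) ∧
    (∀ a, WbV A a (fun y => f (Θ y)) x = ∑ a', MM A Θ a' a x • WbV A' a' f (Θ x)) := by
  have hg : ∀ u, fderiv ℝ (fun y => f (Θ y)) x u = fderiv ℝ f (Θ x) (fderiv ℝ Θ x u) := by
    intro u
    have h := (hf.hasFDerivAt.comp x hΘ.hasFDerivAt).fderiv
    have h' : fderiv ℝ (fun y => f (Θ y)) x = _ := h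
    rw [h']
    rfl
  set P0 := WbV A' 0 f (Θ x) with hP0
  set P1 := WbV A' 1 f (Θ x) with hP1
  set Q0 := WV A' 0 f (Θ x) with hQ0
  set Q1 := WV A' 1 f (Θ x) with hQ1
  set a' := A' (Θ x) with ha'
  have key : ∀ u, fderiv ℝ (fun y => f (Θ y)) x u =
      ∑ i, fderiv ℝ ((![fun y => Θ y 0, fun y => Θ y 1, fun y => star (Θ y 0),
        fun y => star (Θ y 1)] : Fin 4 → C2 → ℂ) i) x u •
        (![P0 - star a' • Q1, P1, Q0 - a' • P1, Q1] : Fin 4 → E) i := by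
    intro u
    rw [hg, fderiv_frame A' f (Θ x)]
    simp only [Fin.sum_univ_four, Matrix.cons_val_zero, Matrix.cons_val_one, Matrix.cons_val]
    rw [Vlaw_comp hΘ, Vlaw_comp hΘ, Vlaw_star hΘ, Vlaw_star hΘ, ← hP0, ← hP1, ← hQ0, ← hQ1, ← ha']
    simp only [star_sub, star_mul', star_star]
    module
  have hs : ∀ (j c : Fin 2), W A c (fun y => star (Θ y j)) x = star (MM A Θ j c x) ∧
      Wb A c (fun y => star (Θ y j)) x = star (W A c (fun y => Θ y j) x) := fun j c =>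
    W_star A (fun y => Θ y j) x c
  constructor
  · intro c
    have h := (Vlaw_lin A c _ x _ _ key).1
    rw [h]
    simp only [Fin.sum_univ_four, Fin.sum_univ_two, Matrix.cons_val_zero, Matrix.cons_val_one,
      Matrix.cons_val]
    rw [(hh x hx c).1, (hh x hx c).2, (hs 0 c).1, (hs 1 c).1, ← ha', ← hQ0, ← hQ1]
    module
  · intro c
    have h := (Vlaw_lin A c _ x _ _ key).2
    rw [h]
    simp only [Fin.sum_univ_four, Fin.sum_univ_two, Matrix.cons_val_zero, Matrix.cons_val_one,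
      Matrix.cons_val]
    rw [(hs 0 c).2, (hs 1 c).2, (hh x hx c).1, (hh x hx c).2, (hs 0 c).1, ← ha', ← hP0, ← hP1]
    simp only [star_mul', star_star, star_zero]
    change Wb A c (fun y => Θ y 0) x • (P0 - star a' • Q1) + Wb A c (fun y => Θ y 1) x • P1 + _ + _ =
      Wb A c (fun y => Θ y 0) x • P0 + Wb A c (fun y => Θ y 1) x • P1
    have h2 : MM A Θ 0 c x = Wb A c (fun y => Θ y 0) x := rfl
    rw [h2]
    module

/-- second order law for holomorphic maps -/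
theorem law2 {Ω Ω' : Set C2} (hΩ : IsOpen Ω) (hΩ' : IsOpen Ω') {A A' : C2 → ℂ} (hA : BA Ω A)
    (hA' : BA Ω' A') {Θ : C2 → C2} (hΘ : ContDiffOn ℝ ∞ Θ Ω) (hm : ∀ x ∈ Ω, Θ x ∈ Ω')
    (hh : HolM A A' Ω Θ) {f : C2 → E} (hf : ContDiffOn ℝ 2 f Ω') : ∀ x ∈ Ω, ∀ a c,
    HV A a c (fun y => f (Θ y)) x =
      ∑ a', ∑ c', (MM A Θ a' a x * star (MM A Θ c' c x)) • HV A' a' c' f (Θ x) := by
  intro x hx a c
  have hnx : Ω ∈ 𝓝 x := hΩ.mem_nhds hx
  have hdΘ : ∀ y ∈ Ω, DifferentiableAt ℝ Θ y := fun y hy =>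
    (hΘ.contDiffAt (hΩ.mem_nhds hy)).differentiableAt (by simp)
  have hdf : ∀ y ∈ Ω, DifferentiableAt ℝ f (Θ y) := fun y hy =>
    (hf.contDiffAt (hΩ'.mem_nhds (hm y hy))).differentiableAt (by simp)
  -- the components of the map
  have hΘj : ∀ j : Fin 2, ContDiffOn ℝ ∞ (fun y => Θ y j) Ω := fun j =>
    (contDiff_apply ℝ ℂ j).comp_contDiffOn hΘ
  have hΘ2 : ∀ j : Fin 2, ContDiffOn ℝ 2 (fun y => Θ y j) Ω := fun j =>
    (hΘj j).of_le (WithTop.coe_le_coe.2 (le_top : (2 : ℕ∞) ≤ ⊤))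
  have hΘs : ∀ j : Fin 2, ContDiffOn ℝ 2 (fun y => star (Θ y j)) Ω := fun j =>
    (Complex.conjCLE.contDiff (n := 2)).comp_contDiffOn (hΘ2 j)
  have hMs : ∀ a' a : Fin 2, ContDiffOn ℝ 1 (fun y => MM A Θ a' a y) Ω := by
    intro a' a
    have h := (WV_contDiffOn hΩ hA.sm (m := 1) (hΘ2 a') (by norm_num)
      (by exact_mod_cast le_top) a).2
    refine h.congr fun y hy => ?_
    rw [Wb_eq]
    rfl
  have hMd : ∀ a' a : Fin 2, DifferentiableAt ℝ (fun y => MM A Θ a' a y) x := fun a' a =>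
    ((hMs a' a).contDiffAt hnx).differentiableAt (by simp)
  -- the first derivatives of `f`
  have hF : ∀ a' : Fin 2, ContDiffOn ℝ 1 (fun y => WbV A' a' f y) Ω' := fun a' =>
    (WV_contDiffOn hΩ' hA'.sm (m := 1) hf (by norm_num) (by exact_mod_cast le_top) a').2
  have hFd : ∀ a' : Fin 2, DifferentiableAt ℝ (fun y => WbV A' a' f y) (Θ x) := fun a' =>
    ((hF a').contDiffAt (hΩ'.mem_nhds (hm x hx))).differentiableAt (by simp)
  have hFc : ∀ a' : Fin 2, DifferentiableAt ℝ (fun y => WbV A' a' f (Θ y)) x := fun a' =>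
    DifferentiableAt.comp x (hFd a') (hdΘ x hx)
  -- first derivative near `x`
  have h1 : (fun y => WbV A a (fun z => f (Θ z)) y) =ᶠ[𝓝 x]
      fun y => MM A Θ 0 a y • WbV A' 0 f (Θ y) + MM A Θ 1 a y • WbV A' 1 f (Θ y) := by
    filter_upwards [hnx] with y hy
    rw [(law1 hh hy (hdΘ y hy) (hdf y hy)).2 a, Fin.sum_univ_two]
  have h2 : WV A c (fun y => WbV A a (fun z => f (Θ z)) y) x =
      (W A c (fun y => MM A Θ 0 a y) x • WbV A' 0 f (Θ x) +
        MM A Θ 0 a x • ∑ c', star (MM A Θ c' c x) • WV A' c' (fun y => WbV A' 0 f y) (Θ x)) +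
      (W A c (fun y => MM A Θ 1 a y) x • WbV A' 1 f (Θ x) +
        MM A Θ 1 a x • ∑ c', star (MM A Θ c' c x) • WV A' c' (fun y => WbV A' 1 f y) (Θ x)) := by
    have hd0 : ∀ a' : Fin 2, DifferentiableAt ℝ (fun y => MM A Θ a' a y • WbV A' a' f (Θ y)) x :=
      fun a' => (hMd a' a).smul (hFc a')
    rw [(WV_congr A h1 c).1, (WV_add A (hd0 0) (hd0 1) c).1,
      (WV_smul A (hMd 0 a) (hFc 0) c).1, (WV_smul A (hMd 1 a) (hFc 1) c).1]
    rw [(law1 hh hx (hdΘ x hx) (hFd 0)).1 c, (law1 hh hx (hdΘ x hx) (hFd 1)).1 c]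
  have h3 : ∀ a' c' : Fin 2, WV A' c' (fun y => WbV A' a' f y) (Θ x) =
      HV A' a' c' f (Θ x) - Ga A' c' a' (Θ x) • WbV A' 1 f (Θ x) := by
    intro a' c'
    unfold HV
    rw [add_sub_cancel_right]
  -- the Hessians of the components
  have hW0 : ∀ c : Fin 2, (fun y => WV A c (fun z => Θ z 0) y) =ᶠ[𝓝 x] fun _ => 0 := by
    intro c
    filter_upwards [hnx] with y hy
    rw [W_eq]
    exact (hh y hy c).1
  have hzero : ∀ (e : Fin 2), WbV A e (fun _ : C2 => (0 : ℂ)) x = 0 := by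
    intro e
    unfold WbV ddV dbV
    simp
  have hH0 : ∀ a c : Fin 2, HC A a c (fun y => Θ y 0) x = 0 := by
    intro a c
    rw [← H_eq, HV_symm hΩ hA (hΘ2 0) a c x hx, (WV_congr A (hW0 c) a).2, hzero, W_eq,
      (hh x hx 1).1, smul_zero, add_zero]
  have hH0s : ∀ a c : Fin 2, HC A a c (fun y => star (Θ y 0)) x = 0 := by
    intro a c
    rw [HC_symm hΩ hA (hΘs 0) a c x hx]
    simp only [star_star]
    rw [hH0 c a, star_zero]
  have hs0 : ∀ c : Fin 2, W A c (fun y => star (Θ y 0)) x = star (MM A Θ 0 c x) := fun c =>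
    (W_star A (fun y => Θ y 0) x c).1
  have hAd : DifferentiableAt ℝ A' (Θ x) :=
    (hA'.sm.contDiffAt (hΩ'.mem_nhds (hm x hx))).differentiableAt (by simp)
  have hAc : DifferentiableAt ℝ (fun y => A' (Θ y)) x := DifferentiableAt.comp x hAd (hdΘ x hx)
  have hWs : ∀ c : Fin 2, DifferentiableAt ℝ (fun y => WV A c (fun z => star (Θ z 0)) y) x := by
    intro c
    have h := (WV_contDiffOn hΩ hA.sm (m := 1) (hΘs 0) (by norm_num)
      (by exact_mod_cast le_top) c).1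
    exact (h.contDiffAt hnx).differentiableAt (by simp)
  have hW1 : ∀ c : Fin 2, (fun y => WV A c (fun z => Θ z 1) y) =ᶠ[𝓝 x]
      fun y => A' (Θ y) • WV A c (fun z => star (Θ z 0)) y := by
    intro c
    filter_upwards [hnx] with y hy
    rw [W_eq, W_eq, smul_eq_mul]
    exact (hh y hy c).2
  have hWbA : ∀ a : Fin 2, Wb A a (fun y => A' (Θ y)) x =
      MM A Θ 0 a x * dd A' 0 (Θ x) + MM A Θ 1 a x * dd A' 1 (Θ x) := by
    intro a
    have h := (law1 hh hx (hdΘ x hx) hAd).2 a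
    rw [Wb_eq, Fin.sum_univ_two, Wb_eq, Wb_eq] at h
    obtain ⟨-, e1, e0, -⟩ := W_A hΩ' hA' (Θ x) (hm x hx)
    rw [h, e1, e0, smul_eq_mul, smul_eq_mul]
  have hH1 : ∀ a c : Fin 2, HC A a c (fun y => Θ y 1) x =
      (MM A Θ 0 a x * dd A' 0 (Θ x) + MM A Θ 1 a x * dd A' 1 (Θ x)) * star (MM A Θ 0 c x) := by
    intro a c
    have e1 := H_eq A (fun y => star (Θ y 0)) x a c
    rw [hH0s a c, HV_symm hΩ hA (hΘs 0) a c x hx, W_eq, smul_eq_mul] at e1
    rw [← H_eq, HV_symm hΩ hA (hΘ2 1) a c x hx, (WV_congr A (hW1 c) a).2,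
      (WV_smul A hAc (hWs c) a).2, hWbA a, W_eq, W_eq, (hh x hx 1).2, hs0 c]
    simp only [smul_eq_mul]
    linear_combination (A' (Θ x)) * e1
  have hc0 : W A c (fun y => MM A Θ 0 a y) x = - (Ga A c a x * MM A Θ 0 1 x) := by
    have h := hH0 a c
    unfold HC at h
    exact eq_neg_of_add_eq_zero_left h
  have hc1 : W A c (fun y => MM A Θ 1 a y) x =
      (MM A Θ 0 a x * dd A' 0 (Θ x) + MM A Θ 1 a x * dd A' 1 (Θ x)) * star (MM A Θ 0 c x) -
        Ga A c a x * MM A Θ 1 1 x := by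
    have h := hH1 a c
    unfold HC at h
    exact eq_sub_of_add_eq h
  have hG : Ga A' 0 0 (Θ x) = dd A' 0 (Θ x) ∧ Ga A' 0 1 (Θ x) = dd A' 1 (Θ x) ∧
      Ga A' 1 0 (Θ x) = 0 ∧ Ga A' 1 1 (Θ x) = 0 := by
    unfold Ga
    simp
  obtain ⟨g00, g01, g10, g11⟩ := hG
  have hlast := (law1 hh hx (hdΘ x hx) (hdf x hx)).2 1
  unfold HV
  rw [h2, hlast]
  change _ = ∑ a', ∑ c', (MM A Θ a' a x * star (MM A Θ c' c x)) • HV A' a' c' f (Θ x)
  simp only [Fin.sum_univ_two, h3, hc0, hc1, g00, g01, g10, g11]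
  module

/-- the real Jacobian -/
theorem law_jac {Ω : Set C2} {A A' : C2 → ℂ} {Θ : C2 → C2} (hh : HolM A A' Ω Θ) {x : C2}
    (hx : x ∈ Ω) (hΘ : DifferentiableAt ℝ Θ x) :
    |(fderiv ℝ Θ x).det| = ‖MM A Θ 0 0 x * MM A Θ 1 1 x - MM A Θ 0 1 x * MM A Θ 1 0 x‖ ^ 2 := by
  -- the shears
  obtain ⟨S, hS⟩ : ∃ S : ℂ → (C2 →ₗ[ℝ] C2), ∀ b v, S b v = ![v 0, v 1 - b * star (v 0)] := by
    refine ⟨fun b => { toFun := fun v => ![v 0, v 1 - b * star (v 0)], map_add' := ?_, map_smul' := ?_ }, fun b v => rfl⟩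
    · intro v w
      ext i
      fin_cases i
      · simp
      · simp
        ring
    · intro r v
      ext i
      fin_cases i
      · simp
      · simp
        ring
  obtain ⟨J, hJ⟩ : ∃ J : C2 →ₗ[ℝ] C2, ∀ v, J v = ![v 0, - v 1] := by
    refine ⟨{ toFun := fun v => ![v 0, - v 1], map_add' := ?_, map_smul' := ?_ }, fun v => rfl⟩
    · intro v w
      ext i
      fin_cases i
      · simp
      · simp
        ring
    · intro r v
      ext i
      fin_cases i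
      · simp
      · simp
  have hJ2 : J ∘ₗ J = LinearMap.id := by
    apply LinearMap.ext
    intro v
    funext i
    fin_cases i <;> simp [hJ]
  have hdJ : LinearMap.det J ^ 2 = 1 := by
    have h := congrArg LinearMap.det hJ2
    rw [LinearMap.det_comp, LinearMap.det_id] at h
    rw [pow_two, h]
  have hdS : ∀ b, LinearMap.det (S b) ^ 2 = 1 := by
    intro b
    have h0 : (J ∘ₗ S b) ∘ₗ (J ∘ₗ S b) = LinearMap.id := by
      apply LinearMap.ext
      intro v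
      funext i
      fin_cases i <;> simp [hJ, hS]
    have h := congrArg LinearMap.det h0
    rw [LinearMap.det_comp, LinearMap.det_comp, LinearMap.det_id] at h
    have h' : LinearMap.det J ^ 2 * LinearMap.det (S b) ^ 2 = 1 := by rw [← h]; ring
    rwa [hdJ, one_mul] at h'
  have habs : ∀ b, |LinearMap.det (S b)| = 1 := by
    intro b
    have h := hdS b
    rw [← sq_abs] at h
    exact (pow_eq_one_iff_of_nonneg (abs_nonneg _) two_ne_zero).1 h
  -- the complex linear map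
  set Mt : Matrix (Fin 2) (Fin 2) ℂ := Matrix.of fun a' a => MM A Θ a' a x with hMt
  have hfr : S (A' (Θ x)) ∘ₗ (fderiv ℝ Θ x : C2 →ₗ[ℝ] C2) =
      (Matrix.toLin' Mt).restrictScalars ℝ ∘ₗ S (A x) := by
    apply LinearMap.ext
    intro v
    have f0 : fderiv ℝ Θ x v 0 = v 0 * MM A Θ 0 0 x + (v 1 - A x * star (v 0)) * MM A Θ 0 1 x := by
      rw [← Vlaw_comp hΘ, fderiv_frame A (fun y => Θ y 0) x v]
      simp only [Wb_eq, W_eq, smul_eq_mul, (hh x hx 0).1, (hh x hx 1).1]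
      unfold MM
      ring
    have f1 : fderiv ℝ Θ x v 1 = v 0 * MM A Θ 1 0 x + (v 1 - A x * star (v 0)) * MM A Θ 1 1 x +
        A' (Θ x) * star (fderiv ℝ Θ x v 0) := by
      rw [f0, ← Vlaw_comp hΘ, fderiv_frame A (fun y => Θ y 1) x v]
      simp only [Wb_eq, W_eq, smul_eq_mul, (hh x hx 0).2, (hh x hx 1).2,
        (W_star A (fun y => Θ y 0) x 0).1, (W_star A (fun y => Θ y 0) x 1).1]
      simp only [star_add, star_mul', star_sub, star_star]
      unfold MM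
      ring
    rw [LinearMap.comp_apply, LinearMap.comp_apply, hS, LinearMap.restrictScalars_apply,
      Matrix.toLin'_apply, hS]
    ext i
    fin_cases i
    · simp only [Fin.zero_eta, Fin.isValue, Matrix.cons_val_zero, ContinuousLinearMap.coe_coe]
      rw [f0]
      simp [hMt, Matrix.mulVec, dotProduct, Fin.sum_univ_two]
      ring
    · simp only [Fin.mk_one, Fin.isValue, Matrix.cons_val_one, ContinuousLinearMap.coe_coe]
      rw [f1]
      simp [hMt, Matrix.mulVec, dotProduct, Fin.sum_univ_two]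
      ring
  have hdet := congrArg (fun L => |LinearMap.det L|) hfr
  simp only [LinearMap.det_comp, abs_mul, habs, one_mul, mul_one] at hdet
  have h1 : |(fderiv ℝ Θ x).det| = |LinearMap.det (fderiv ℝ Θ x : C2 →ₗ[ℝ] C2)| := rfl
  rw [h1, hdet, LinearMap.det_restrictScalars, Algebra.norm_complex_apply,
    Complex.normSq_eq_norm_sq, abs_of_nonneg (by positivity), LinearMap.det_toLin',
    Matrix.det_fin_two]
  rfl

/-- composition of holomorphic maps -/
theorem law_comp {Ω Ω' : Set C2} {A A' A'' : C2 → ℂ} {Θ Θ' : C2 → C2} (hm : ∀ x ∈ Ω, Θ x ∈ Ω')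
    (hh : HolM A A' Ω Θ) (hh' : HolM A' A'' Ω' Θ') {x : C2} (hx : x ∈ Ω)
    (hΘ : DifferentiableAt ℝ Θ x) (hΘ' : DifferentiableAt ℝ Θ' (Θ x)) (a'' a : Fin 2) :
    MM A (fun y => Θ' (Θ y)) a'' a x = ∑ a', MM A' Θ' a'' a' (Θ x) * MM A Θ a' a x := by
  have hd : DifferentiableAt ℝ (fun z => Θ' z a'') (Θ x) := by
    have h := hasFDerivAt_pi'.1 hΘ'.hasFDerivAt a''
    exact h.differentiableAt
  have h := (law1 hh hx hΘ hd).2 a
  rw [Wb_eq] at h
  have h2 : MM A (fun y => Θ' (Θ y)) a'' a x = Wb A a (fun y => Θ' (Θ y) a'') x := rfl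
  rw [h2, h]
  refine Finset.sum_congr rfl fun a' _ => ?_
  rw [Wb_eq, smul_eq_mul, mul_comm]
  rfl

end Pool.Agent.MPd01a95
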