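import Mathlib
import Pool.Agent.Lib.MP_d01a95_gt_S.VDefs
import Pool.Agent.Lib.MP_d01a95_gt_S.Vlaw

/-!
Project SU(2,2), part (2), module Vcht.
-/

set_option autoImplicit false
set_option linter.all false

open Matrix Filter Topology MeasureTheory Measure
open scoped ENNReal NNReal ContDiff

namespace Pool.Agent.MPd01a95

private theorem cht_fd (j : Fin 2) (x u : C2) : fderiv ℝ (fun y : C2 => y j) x u = u j := by
  have h := (hasFDerivAt_apply (𝕜 := ℝ) (F' := fun _ : Fin 2 => ℂ) j x).fderiv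
  have h' : fderiv ℝ (fun y : C2 => y j) x = _ := h
  rw [h']
  rfl

/-- the operators on the coordinates -/
private theorem cht_coord (A : C2 → ℂ) (x : C2) :
    (∀ c, W A c (fun y => y 0) x = 0) ∧ W A 1 (fun y => y 1) x = 0 ∧
    W A 0 (fun y => y 1) x = A x ∧
    Wb A 0 (fun y => y 0) x = 1 ∧ Wb A 1 (fun y => y 0) x = 0 ∧
    Wb A 0 (fun y => y 1) x = 0 ∧ Wb A 1 (fun y => y 1) x = 1 := by
  have hI : Complex.I * Complex.I = -1 := Complex.I_mul_I
  unfold W Wb db dd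
  simp only [cht_fd]
  refine ⟨fun c => ?_, ?_, ?_, ?_, ?_, ?_, ?_⟩
  · fin_cases c <;> simp
  · simp
  · simp
    ring_nf
  · simp
    norm_num
  · simp
  · simp
  · simp
    norm_num

/-- a local inverse of a holomorphic map with invertible derivative is holomorphic -/
private theorem cht_aux {Ω : Set C2} {A A' : C2 → ℂ} {Θ Ξ : C2 → C2} (hh : HolM A A' Ω Θ) {x : C2}
    (hx : x ∈ Ω) (hΘ : DifferentiableAt ℝ Θ x) (hΞ : DifferentiableAt ℝ Ξ (Θ x))
    (hd : MM A Θ 0 0 x * MM A Θ 1 1 x - MM A Θ 0 1 x * MM A Θ 1 0 x ≠ 0)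
    (hinv : ∀ᶠ y in 𝓝 x, Ξ (Θ y) = y) :
    (∀ c, W A' c (fun y => Ξ y 0) (Θ x) = 0 ∧
      W A' c (fun y => Ξ y 1) (Θ x) = A x * W A' c (fun y => star (Ξ y 0)) (Θ x)) ∧
    MM A' Ξ 0 0 (Θ x) * MM A' Ξ 1 1 (Θ x) - MM A' Ξ 0 1 (Θ x) * MM A' Ξ 1 0 (Θ x) ≠ 0 := by
  obtain ⟨k1, k2, k3, k4, k5, k6, k7⟩ := cht_coord A x
  have hf : ∀ j : Fin 2, DifferentiableAt ℝ (fun w => Ξ w j) (Θ x) := fun j =>
    differentiableAt_pi.1 hΞ j
  have hfs : DifferentiableAt ℝ (fun w => star (Ξ w 0)) (Θ x) :=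
    (Complex.conjCLE : ℂ →L[ℝ] ℂ).differentiableAt.comp (Θ x) (hf 0)
  have hco : ∀ j : Fin 2, (fun y => Ξ (Θ y) j) =ᶠ[𝓝 x] fun y => y j := by
    intro j
    filter_upwards [hinv] with y hy
    rw [hy]
  have hcs : (fun y => star (Ξ (Θ y) 0)) =ᶠ[𝓝 x] fun y => star (y 0) := by
    filter_upwards [hinv] with y hy
    rw [hy]
  -- the three systems of type (0,1)
  have e0 : ∀ c, star (MM A Θ 0 c x) * W A' 0 (fun w => Ξ w 0) (Θ x) +
      star (MM A Θ 1 c x) * W A' 1 (fun w => Ξ w 0) (Θ x) = 0 := by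
    intro c
    have h := (law1 hh hx hΘ (hf 0)).1 c
    rw [(WV_congr A (hco 0) c).1, W_eq, k1 c, Fin.sum_univ_two, W_eq, W_eq] at h
    simp only [smul_eq_mul] at h
    exact h.symm
  have e1 : ∀ c, star (MM A Θ 0 c x) * W A' 0 (fun w => Ξ w 1) (Θ x) +
      star (MM A Θ 1 c x) * W A' 1 (fun w => Ξ w 1) (Θ x) = W A c (fun y => y 1) x := by
    intro c
    have h := (law1 hh hx hΘ (hf 1)).1 c
    rw [(WV_congr A (hco 1) c).1, W_eq, Fin.sum_univ_two, W_eq, W_eq] at h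
    simp only [smul_eq_mul] at h
    exact h.symm
  have e2 : ∀ c, star (MM A Θ 0 c x) * W A' 0 (fun w => star (Ξ w 0)) (Θ x) +
      star (MM A Θ 1 c x) * W A' 1 (fun w => star (Ξ w 0)) (Θ x) =
        star (Wb A c (fun y => y 0) x) := by
    intro c
    have h := (law1 hh hx hΘ hfs).1 c
    rw [(WV_congr A hcs c).1, W_eq, (W_star A (fun y => y 0) x c).1, Fin.sum_univ_two, W_eq,
      W_eq] at h
    simp only [smul_eq_mul] at h
    exact h.symm
  -- the systems of type (1,0)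
  have e3 : ∀ j a, MM A Θ 0 a x * MM A' Ξ j 0 (Θ x) + MM A Θ 1 a x * MM A' Ξ j 1 (Θ x) =
      Wb A a (fun y => y j) x := by
    intro j a
    have h := (law1 hh hx hΘ (hf j)).2 a
    rw [(WV_congr A (hco j) a).2, Wb_eq, Fin.sum_univ_two, Wb_eq, Wb_eq] at h
    simp only [smul_eq_mul] at h
    exact h.symm
  have hds : star (MM A Θ 0 0 x) * star (MM A Θ 1 1 x) -
      star (MM A Θ 0 1 x) * star (MM A Θ 1 0 x) ≠ 0 := by
    rw [← star_mul', ← star_mul', ← star_sub]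
    exact star_ne_zero.2 hd
  have hsys : ∀ p q : ℂ, (∀ c, star (MM A Θ 0 c x) * p + star (MM A Θ 1 c x) * q = 0) →
      p = 0 ∧ q = 0 := by
    intro p q h
    have h0 := h 0
    have h1 := h 1
    constructor
    · apply (mul_eq_zero.1 ?_).resolve_left hds
      linear_combination star (MM A Θ 1 1 x) * h0 - star (MM A Θ 1 0 x) * h1
    · apply (mul_eq_zero.1 ?_).resolve_left hds
      linear_combination star (MM A Θ 0 0 x) * h1 - star (MM A Θ 0 1 x) * h0
  have r0 := hsys _ _ e0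
  have r1 := hsys (W A' 0 (fun w => Ξ w 1) (Θ x) - A x * W A' 0 (fun w => star (Ξ w 0)) (Θ x))
    (W A' 1 (fun w => Ξ w 1) (Θ x) - A x * W A' 1 (fun w => star (Ξ w 0)) (Θ x)) (by
      intro c
      have h1 := e1 c
      have h2 := e2 c
      have h3 : W A c (fun y => y 1) x = A x * star (Wb A c (fun y => y 0) x) := by
        fin_cases c
        · change W A 0 (fun y => y 1) x = A x * star (Wb A 0 (fun y => y 0) x)
          rw [k3, k4, star_one, mul_one]
        · change W A 1 (fun y => y 1) x = A x * star (Wb A 1 (fun y => y 0) x)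
          rw [k2, k5, star_zero, mul_zero]
      linear_combination h1 + h3 - A x * h2)
  refine ⟨fun c => ?_, ?_⟩
  · fin_cases c
    · exact ⟨r0.1, sub_eq_zero.1 r1.1⟩
    · exact ⟨r0.2, sub_eq_zero.1 r1.2⟩
  · intro h0
    have a1 := e3 0 0
    have a2 := e3 0 1
    have a3 := e3 1 0
    have a4 := e3 1 1
    rw [k4] at a1
    rw [k5] at a2
    rw [k6] at a3
    rw [k7] at a4
    have key : (MM A Θ 0 0 x * MM A Θ 1 1 x - MM A Θ 0 1 x * MM A Θ 1 0 x) *
        (MM A' Ξ 0 0 (Θ x) * MM A' Ξ 1 1 (Θ x) - MM A' Ξ 0 1 (Θ x) * MM A' Ξ 1 0 (Θ x)) =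
        (MM A Θ 0 0 x * MM A' Ξ 0 0 (Θ x) + MM A Θ 1 0 x * MM A' Ξ 0 1 (Θ x)) *
        (MM A Θ 0 1 x * MM A' Ξ 1 0 (Θ x) + MM A Θ 1 1 x * MM A' Ξ 1 1 (Θ x)) -
        (MM A Θ 0 1 x * MM A' Ξ 0 0 (Θ x) + MM A Θ 1 1 x * MM A' Ξ 0 1 (Θ x)) *
        (MM A Θ 0 0 x * MM A' Ξ 1 0 (Θ x) + MM A Θ 1 0 x * MM A' Ξ 1 1 (Θ x)) := by ring
    rw [a1, a2, a3, a4, h0] at key
    have : (1 : ℂ) = 0 := by linear_combination -key
    exact one_ne_zero this

theorem exists_cht {A : C2 → ℂ} (hA : BA Up A) : ∀ x ∈ Up, ∃ ζ r Ψ, Cht A ζ r Ψ ∧ Ψ ζ = x := by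
  intro x hx
  have hUo : IsOpen Up := by
    have h1 : Continuous fun y : C2 => (y 1).im :=
      Complex.continuous_im.comp (continuous_apply 1)
    exact isOpen_lt continuous_const h1
  -- the coordinate functions of the straightening
  set g : C2 → ℂ := fun y => y 1 + (-(star (y 0) - star (x 0))) * A y with hg
  set Φ : C2 → C2 := fun y => ![y 0, g y] with hΦ
  have hc : ∀ j : Fin 2, ContDiff ℝ ∞ (fun y : C2 => y j) := fun j => contDiff_apply ℝ ℂ j
  have hs : ContDiff ℝ ∞ (fun y : C2 => -(star (y 0) - star (x 0))) :=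
    ((Complex.conjCLE.contDiff.comp (hc 0)).sub contDiff_const).neg
  have hgs : ContDiffOn ℝ ∞ g Up := (hc 1).contDiffOn.add (hs.contDiffOn.mul hA.sm)
  have hΦs : ContDiffOn ℝ ∞ Φ Up := by
    rw [contDiffOn_pi]
    intro j
    fin_cases j
    · exact (hc 0).contDiffOn
    · exact hgs
  have hdΦ : ∀ y ∈ Up, DifferentiableAt ℝ Φ y := fun y hy =>
    (hΦs.contDiffAt (hUo.mem_nhds hy)).differentiableAt (by simp)
  have hdA : ∀ y ∈ Up, DifferentiableAt ℝ A y := fun y hy =>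
    (hA.sm.contDiffAt (hUo.mem_nhds hy)).differentiableAt (by simp)
  have hdc : ∀ (j : Fin 2) (y : C2), DifferentiableAt ℝ (fun y : C2 => y j) y := fun j y =>
    (hc j).differentiable (by simp) y
  have hds : ∀ y : C2, DifferentiableAt ℝ (fun y : C2 => -(star (y 0) - star (x 0))) y := fun y =>
    hs.differentiable (by simp) y
  -- the operators on the factor
  have hφ : ∀ (y : C2) (c : Fin 2),
      W A c (fun y : C2 => -(star (y 0) - star (x 0))) y = -star (Wb A c (fun y => y 0) y) ∧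
      Wb A c (fun y : C2 => -(star (y 0) - star (x 0))) y = -star (W A c (fun y => y 0) y) := by
    intro y c
    have e : ∀ u, fderiv ℝ (fun y : C2 => -(star (y 0) - star (x 0))) y u =
        -fderiv ℝ (fun y : C2 => star (y 0)) y u := by
      intro u
      have h1 : fderiv ℝ (fun y : C2 => -(star (y 0) - star (x 0))) y =
          -fderiv ℝ (fun y : C2 => star (y 0)) y := by
        rw [fderiv_fun_neg, fderiv_sub_const]
      rw [h1]
      rfl
    have h2 := W_star A (fun y => y 0) y c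
    rw [← h2.1, ← h2.2]
    unfold W Wb db dd
    simp only [e]
    constructor <;> split_ifs <;> ring
  have hgo : ∀ y ∈ Up, ∀ c,
      W A c g y = W A c (fun y => y 1) y + (-star (Wb A c (fun y => y 0) y) * A y +
        -(star (y 0) - star (x 0)) * W A c A y) ∧
      Wb A c g y = Wb A c (fun y => y 1) y + (-star (W A c (fun y => y 0) y) * A y +
        -(star (y 0) - star (x 0)) * Wb A c A y) := by
    intro y hy c
    have h1 := WV_smul A (hds y) (hdA y hy) c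
    have h2 := WV_add A (hdc 1 y) ((hds y).mul (hdA y hy)) c
    rw [W_eq, W_eq, Wb_eq, Wb_eq, (hφ y c).1, (hφ y c).2] at h1
    rw [W_eq, W_eq, W_eq, Wb_eq, Wb_eq, Wb_eq] at h2
    simp only [smul_eq_mul] at h1
    constructor
    · rw [← h1.1]
      exact h2.1
    · rw [← h1.2]
      exact h2.2
  have hWA : ∀ y ∈ Up, ∀ c, W A c A y = 0 := by
    intro y hy c
    unfold W
    split_ifs
    · exact hA.h1 y hy
    · exact hA.h0 y hy
  have hol : HolM A (fun _ => 0) Up Φ := by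
    intro y hy c
    obtain ⟨k1, k2, k3, k4, k5, k6, k7⟩ := cht_coord A y
    refine ⟨k1 c, ?_⟩
    change W A c g y = 0 * _
    rw [zero_mul, (hgo y hy c).1, hWA y hy c]
    fin_cases c
    · change W A 0 (fun y => y 1) y + (-star (Wb A 0 (fun y => y 0) y) * A y + _) = 0
      rw [k3, k4, star_one]
      ring
    · change W A 1 (fun y => y 1) y + (-star (Wb A 1 (fun y => y 0) y) * A y + _) = 0
      rw [k2, k5, star_zero]
      ring
  have hMM : MM A Φ 0 0 x * MM A Φ 1 1 x - MM A Φ 0 1 x * MM A Φ 1 0 x = 1 := by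
    obtain ⟨k1, k2, k3, k4, k5, k6, k7⟩ := cht_coord A x
    have m00 : MM A Φ 0 0 x = 1 := k4
    have m01 : MM A Φ 0 1 x = 0 := k5
    have m11 : MM A Φ 1 1 x = 1 := by
      change Wb A 1 g x = 1
      rw [(hgo x hx 1).2, k7, k1 1, star_zero]
      ring
    rw [m00, m01, m11]
    ring
  -- Jacobians
  have hjac : ∀ y ∈ Up, |(fderiv ℝ Φ y).det| =
      ‖MM A Φ 0 0 y * MM A Φ 1 1 y - MM A Φ 0 1 y * MM A Φ 1 0 y‖ ^ 2 := fun y hy =>
    law_jac hol hy (hdΦ y hy)
  have hdx : (fderiv ℝ Φ x).det ≠ 0 := by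
    intro h0
    have h1 := hjac x hx
    rw [h0, hMM, abs_zero, norm_one, one_pow] at h1
    exact zero_ne_one h1
  have hdf : ContinuousOn (fun y => (fderiv ℝ Φ y).det) Up :=
    ContinuousLinearMap.continuous_det.comp_continuousOn
      (hΦs.continuousOn_fderiv_of_isOpen hUo (by simp))
  have hGo : IsOpen (Up ∩ (fun y => (fderiv ℝ Φ y).det) ⁻¹' {0}ᶜ) :=
    hdf.isOpen_inter_preimage hUo isOpen_compl_singleton
  -- the inverse function theorem
  have hfx : HasFDerivAt Φ ((ContinuousLinearMap.toContinuousLinearEquivOfDetNeZero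
      (fderiv ℝ Φ x) hdx : C2 ≃L[ℝ] C2) : C2 →L[ℝ] C2) x := by
    rw [ContinuousLinearMap.coe_toContinuousLinearEquivOfDetNeZero]
    exact (hdΦ x hx).hasFDerivAt
  have hcx : ContDiffAt ℝ ∞ Φ x := hΦs.contDiffAt (hUo.mem_nhds hx)
  set e : OpenPartialHomeomorph C2 C2 := hcx.toOpenPartialHomeomorph Φ hfx (by simp) with he
  have hec : (e : C2 → C2) = Φ := hcx.toOpenPartialHomeomorph_coe hfx (by simp)
  have hxs : x ∈ e.source := hcx.mem_toOpenPartialHomeomorph_source hfx (by simp)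
  have hxt : Φ x ∈ e.target := hcx.image_mem_toOpenPartialHomeomorph_target hfx (by simp)
  have hex : e.symm (Φ x) = x := by
    have := e.left_inv hxs
    rwa [hec] at this
  have hVo : IsOpen (e.target ∩ e.symm ⁻¹' (Up ∩ (fun y => (fderiv ℝ Φ y).det) ⁻¹' {0}ᶜ)) :=
    e.symm.isOpen_inter_preimage hGo
  obtain ⟨r, hr, hrV⟩ := Metric.isOpen_iff.1 hVo (Φ x) ⟨hxt, by
    rw [Set.mem_preimage, hex]
    exact ⟨hx, hdx⟩⟩
  have hm1 : ∀ z ∈ Metric.ball (Φ x) r, z ∈ e.target := fun z hz => (hrV hz).1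
  have hm2 : ∀ z ∈ Metric.ball (Φ x) r, e.symm z ∈ Up := fun z hz => (hrV hz).2.1
  have hm3 : ∀ z ∈ Metric.ball (Φ x) r, (fderiv ℝ Φ (e.symm z)).det ≠ 0 := fun z hz =>
    (hrV hz).2.2
  have hm4 : ∀ z ∈ Metric.ball (Φ x) r, Φ (e.symm z) = z := by
    intro z hz
    have := e.right_inv (hm1 z hz)
    rwa [hec] at this
  have hsm : ∀ z ∈ Metric.ball (Φ x) r, ContDiffAt ℝ ∞ e.symm z := by
    intro z hz
    have h1 : HasFDerivAt e ((ContinuousLinearMap.toContinuousLinearEquivOfDetNeZero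
        (fderiv ℝ Φ (e.symm z)) (hm3 z hz) : C2 ≃L[ℝ] C2) : C2 →L[ℝ] C2) (e.symm z) := by
      rw [hec, ContinuousLinearMap.coe_toContinuousLinearEquivOfDetNeZero]
      exact (hdΦ _ (hm2 z hz)).hasFDerivAt
    have h3 : ContDiffAt ℝ ∞ e (e.symm z) := by
      rw [hec]
      exact hΦs.contDiffAt (hUo.mem_nhds (hm2 z hz))
    exact e.contDiffAt_symm (hm1 z hz) h1 h3
  have haux : ∀ z ∈ Metric.ball (Φ x) r,
      (∀ c, W (fun _ => 0) c (fun y => e.symm y 0) z = 0 ∧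
        W (fun _ => 0) c (fun y => e.symm y 1) z =
          A (e.symm z) * W (fun _ => 0) c (fun y => star (e.symm y 0)) z) ∧
      MM (fun _ => 0) e.symm 0 0 z * MM (fun _ => 0) e.symm 1 1 z -
        MM (fun _ => 0) e.symm 0 1 z * MM (fun _ => 0) e.symm 1 0 z ≠ 0 := by
    intro z hz
    have hy := hm2 z hz
    have h1 : DifferentiableAt ℝ e.symm (Φ (e.symm z)) := by
      rw [hm4 z hz]
      exact (hsm z hz).differentiableAt (by simp)
    have h2 : MM A Φ 0 0 (e.symm z) * MM A Φ 1 1 (e.symm z) -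
        MM A Φ 0 1 (e.symm z) * MM A Φ 1 0 (e.symm z) ≠ 0 := by
      intro h0
      have h3 := hjac _ hy
      rw [h0, norm_zero] at h3
      exact hm3 z hz (abs_eq_zero.1 (by rw [h3]; norm_num))
    have h4 : ∀ᶠ w in 𝓝 (e.symm z), e.symm (Φ w) = w := by
      have h5 : e.source ∈ 𝓝 (e.symm z) := e.open_source.mem_nhds (e.map_target (hm1 z hz))
      filter_upwards [h5] with w hw
      have := e.left_inv hw
      rwa [hec] at this
    have h6 := cht_aux hol hy (hdΦ _ hy) h1 h2 h4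
    rw [hm4 z hz] at h6
    exact h6
  refine ⟨Φ x, r, e.symm, ⟨hr, ?_, hm2, ?_, ?_, ?_, ?_⟩, hex⟩
  · intro z hz
    exact (hsm z hz).contDiffWithinAt
  · intro z hz c
    exact (haux z hz).1 c
  · intro z hz
    exact (haux z hz).2
  · exact e.symm.injOn.mono hm1
  · intro z hz s hs'
    have h1 : IsOpen (Metric.ball z s ∩ Metric.ball (Φ x) r) :=
      Metric.isOpen_ball.inter Metric.isOpen_ball
    have h2 := e.symm.isOpen_image_of_subset_source h1 (fun w hw => hm1 w hw.2)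
    exact h2.mem_nhds ⟨z, ⟨Metric.mem_ball_self hs', hz⟩, rfl⟩

/-- the inverse of a chart is a smooth map -/
theorem cht_inv {A : C2 → ℂ} {ζ : C2} {r : ℝ} {Ψ : C2 → C2} (h : Cht A ζ r Ψ) :
    IsOpen (Ψ '' Metric.ball ζ r) ∧ ∃ Φ : C2 → C2, ContDiffOn ℝ ∞ Φ (Ψ '' Metric.ball ζ r) ∧
      (∀ z ∈ Metric.ball ζ r, Φ (Ψ z) = z) ∧
      HolM A (fun _ => 0) (Ψ '' Metric.ball ζ r) Φ := by
  have hB : IsOpen (Metric.ball ζ r) := Metric.isOpen_ball
  -- the image is open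
  have hO : ∀ U ⊆ Metric.ball ζ r, IsOpen U → IsOpen (Ψ '' U) := by
    intro U hU hUo
    rw [isOpen_iff_mem_nhds]
    rintro _ ⟨z, hz, rfl⟩
    obtain ⟨s, hs, hsU⟩ := Metric.isOpen_iff.1 hUo z hz
    refine mem_of_superset (h.opn z (hU hz) s hs) ?_
    rintro _ ⟨y, hy, rfl⟩
    exact ⟨y, hsU hy.1, rfl⟩
  have hOB := hO _ subset_rfl hB
  have hdiff : ∀ z ∈ Metric.ball ζ r, DifferentiableAt ℝ Ψ z := fun z hz =>
    (h.sm.contDiffAt (hB.mem_nhds hz)).differentiableAt (by simp)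
  -- the inverse map
  set Φ : C2 → C2 := Function.invFunOn Ψ (Metric.ball ζ r) with hΦ
  have hleft : ∀ z ∈ Metric.ball ζ r, Φ (Ψ z) = z := fun z hz => h.inj.leftInvOn_invFunOn hz
  have hcont : ContinuousOn Φ (Ψ '' Metric.ball ζ r) := by
    rintro _ ⟨z, hz, rfl⟩
    refine ContinuousAt.continuousWithinAt ?_
    rw [Metric.continuousAt_iff']
    intro s hs
    filter_upwards [h.opn z hz s hs] with w hw
    obtain ⟨y, hy, rfl⟩ := hw
    rw [hleft y hy.2, hleft z hz]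
    exact hy.1
  let e : OpenPartialHomeomorph C2 C2 :=
    { toFun := Ψ
      invFun := Φ
      source := Metric.ball ζ r
      target := Ψ '' Metric.ball ζ r
      map_source' := fun z hz => ⟨z, hz, rfl⟩
      map_target' := by
        rintro _ ⟨z, hz, rfl⟩
        rw [hleft z hz]
        exact hz
      left_inv' := fun z hz => hleft z hz
      right_inv' := by
        rintro _ ⟨z, hz, rfl⟩
        rw [hleft z hz]
      open_source := hB
      open_target := hOB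
      continuousOn_toFun := h.sm.continuousOn
      continuousOn_invFun := hcont }
  have hdet : ∀ z ∈ Metric.ball ζ r, (fderiv ℝ Ψ z).det ≠ 0 := by
    intro z hz h0
    have h1 := law_jac h.hol hz (hdiff z hz)
    rw [h0, abs_zero] at h1
    have h2 := h.det z hz
    have h3 : ‖MM (fun _ => 0) Ψ 0 0 z * MM (fun _ => 0) Ψ 1 1 z -
      MM (fun _ => 0) Ψ 0 1 z * MM (fun _ => 0) Ψ 1 0 z‖ = 0 :=
      pow_eq_zero_iff (two_ne_zero) |>.1 h1.symm
    exact h2 (norm_eq_zero.1 h3)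
  have hsm : ∀ z ∈ Metric.ball ζ r, ContDiffAt ℝ ∞ Φ (Ψ z) := by
    intro z hz
    have h1 : HasFDerivAt e ((ContinuousLinearMap.toContinuousLinearEquivOfDetNeZero
        (fderiv ℝ Ψ z) (hdet z hz) : C2 ≃L[ℝ] C2) : C2 →L[ℝ] C2) (e.symm (Ψ z)) := by
      have h2 : e.symm (Ψ z) = z := hleft z hz
      rw [h2, ContinuousLinearMap.coe_toContinuousLinearEquivOfDetNeZero]
      exact (hdiff z hz).hasFDerivAt
    have h3 : ContDiffAt ℝ ∞ e (e.symm (Ψ z)) := by
      have h2 : e.symm (Ψ z) = z := hleft z hz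
      rw [h2]
      exact h.sm.contDiffAt (hB.mem_nhds hz)
    exact e.contDiffAt_symm (a := Ψ z) ⟨z, hz, rfl⟩ h1 h3
  refine ⟨hOB, Φ, ?_, hleft, ?_⟩
  · rintro _ ⟨z, hz, rfl⟩
    exact (hsm z hz).contDiffWithinAt
  · rintro _ ⟨z, hz, rfl⟩ c
    have h1 := (cht_aux h.hol hz (hdiff z hz) ((hsm z hz).differentiableAt (by simp))
      (h.det z hz) (by
        filter_upwards [hB.mem_nhds hz] with y hy
        exact hleft y hy)).1 c
    exact h1

/-- change of variables inequality -/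
theorem cht_int {A : C2 → ℂ} {ζ : C2} {r : ℝ} {Ψ : C2 → C2} (h : Cht A ζ r Ψ) {C : Set C2}
    (hC : C ⊆ Metric.ball ζ r) (hCc : IsCompact C) : ∃ N : ℝ≥0, ∀ f : C2 → ℝ≥0∞, Measurable f →
      ∫⁻ z in C, f (Ψ z) ≤ N * ∫⁻ x in Ψ '' C, f x := by
  have hB : IsOpen (Metric.ball ζ r) := Metric.isOpen_ball
  have hdiff : ∀ z ∈ Metric.ball ζ r, DifferentiableAt ℝ Ψ z := fun z hz =>
    (h.sm.contDiffAt (hB.mem_nhds hz)).differentiableAt (by simp)
  have hdet : ∀ z ∈ Metric.ball ζ r, 0 < |(fderiv ℝ Ψ z).det| := by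
    intro z hz
    rw [law_jac h.hol hz (hdiff z hz)]
    have h2 := norm_pos_iff.2 (h.det z hz)
    positivity
  have hcd : ContinuousOn (fun z => |(fderiv ℝ Ψ z).det|) C := by
    have h1 : ContinuousOn (fderiv ℝ Ψ) (Metric.ball ζ r) :=
      h.sm.continuousOn_fderiv_of_isOpen hB (by simp)
    exact ((ContinuousLinearMap.continuous_det.comp_continuousOn h1).abs).mono hC
  rcases C.eq_empty_or_nonempty with hE | hE
  · refine ⟨0, fun f hf => ?_⟩
    rw [hE]
    simp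
  obtain ⟨z0, hz0, hmin⟩ := hCc.exists_isMinOn hE hcd
  set c := |(fderiv ℝ Ψ z0).det| with hc
  have hcpos : 0 < c := hdet z0 (hC hz0)
  refine ⟨Real.toNNReal c⁻¹, fun f hf => ?_⟩
  have h1 := lintegral_image_eq_lintegral_abs_det_fderiv_mul (volume : Measure C2)
    hCc.measurableSet (f := Ψ) (f' := fun z => fderiv ℝ Ψ z)
    (fun z hz => (hdiff z (hC hz)).hasFDerivAt.hasFDerivWithinAt) (h.inj.mono hC) f
  rw [h1, ← lintegral_const_mul' _ _ ENNReal.coe_ne_top]
  refine setLIntegral_mono' hCc.measurableSet fun z hz => ?_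
  rw [← mul_assoc]
  have h2 : (1 : ℝ≥0∞) ≤ (Real.toNNReal c⁻¹ : ℝ≥0∞) * ENNReal.ofReal |(fderiv ℝ Ψ z).det| := by
    have h3 : c ≤ |(fderiv ℝ Ψ z).det| := hmin hz
    have h4 : (Real.toNNReal c⁻¹ : ℝ≥0∞) = ENNReal.ofReal c⁻¹ := rfl
    rw [h4, ← ENNReal.ofReal_mul (by positivity), ← ENNReal.ofReal_one]
    refine ENNReal.ofReal_le_ofReal ?_
    rw [inv_mul_eq_div, le_div_iff₀ hcpos, one_mul]
    exact h3
  calc f (Ψ z) = 1 * f (Ψ z) := (one_mul _).symm
    _ ≤ _ := by gcongr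

end Pool.Agent.MPd01a95
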