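import Mathlib
import Pool.Agent.Lib.MP_d01a95_gt_S.VDefs
import Pool.Agent.Lib.MP_d01a95_gt_S.Vsym

/-!
Project SU(2,2), part (2), module Vgm.
-/

set_option autoImplicit false
set_option linter.all false

open Matrix Filter Topology MeasureTheory Measure
open scoped ENNReal NNReal ContDiff

namespace Pool.Agent.MPd01a95

namespace VgmAux

/-- the real linear functional `Im (x 1)` -/
private noncomputable def imL : C2 →L[ℝ] ℝ :=
  Complex.imCLM.comp (ContinuousLinearMap.proj (R := ℝ) (φ := fun _ : Fin 2 => ℂ) 1)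

private lemma imL_apply (x : C2) : imL x = (x 1).im := rfl

private lemma fd_im {g : ℝ → ℂ} {g' : ℂ} {x : C2} (hg : HasDerivAt g g' (x 1).im) (v : C2) :
    fderiv ℝ (fun y : C2 => g ((y 1).im)) x v = (((v 1).im : ℝ) : ℂ) * g' := by
  have h1 : HasFDerivAt (fun y : C2 => imL y) imL x := imL.hasFDerivAt
  have h2 : HasFDerivAt (fun y : C2 => g (imL y))
      ((ContinuousLinearMap.smulRight (1 : ℝ →L[ℝ] ℝ) g').comp imL) x :=
    HasFDerivAt.comp x (f := fun y : C2 => imL y) (g := g) (hg.hasFDerivAt) h1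
  have h3 := h2.fderiv
  have h4 : (fun y : C2 => g (imL y)) = fun y : C2 => g ((y 1).im) := rfl
  rw [h4] at h3
  rw [h3]
  simp [imL_apply, mul_comm]

private lemma dd_im {g : ℝ → ℂ} {g' : ℂ} {x : C2} (hg : HasDerivAt g g' (x 1).im) :
    dd (fun y : C2 => g ((y 1).im)) 1 x = -Complex.I / 2 * g' ∧
    db (fun y : C2 => g ((y 1).im)) 1 x = Complex.I / 2 * g' ∧
    dd (fun y : C2 => g ((y 1).im)) 0 x = 0 ∧
    db (fun y : C2 => g ((y 1).im)) 0 x = 0 := by
  refine ⟨?_, ?_, ?_, ?_⟩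
  · unfold dd
    rw [fd_im hg, fd_im hg]
    simp
    ring
  · unfold db
    rw [fd_im hg, fd_im hg]
    simp
    ring
  · unfold dd
    rw [fd_im hg, fd_im hg]
    simp
  · unfold db
    rw [fd_im hg, fd_im hg]
    simp

private lemma W_im (A : C2 → ℂ) {g : ℝ → ℂ} {g' : ℂ} {x : C2} (hg : HasDerivAt g g' (x 1).im) :
    W A 1 (fun y : C2 => g ((y 1).im)) x = Complex.I / 2 * g' ∧
    W A 0 (fun y : C2 => g ((y 1).im)) x = A x * (-Complex.I / 2 * g') ∧
    Wb A 1 (fun y : C2 => g ((y 1).im)) x = -Complex.I / 2 * g' ∧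
    Wb A 0 (fun y : C2 => g ((y 1).im)) x = star (A x) * (Complex.I / 2 * g') := by
  obtain ⟨h1, h2, h3, h4⟩ := dd_im hg
  refine ⟨?_, ?_, ?_, ?_⟩
  · simp only [W, if_true]
    exact h2
  · simp only [W]
    rw [if_neg (by decide), h4, h1, zero_add]
  · simp only [Wb, if_true]
    exact h1
  · simp only [Wb]
    rw [if_neg (by decide), h3, h2, zero_add]

private lemma W_congr (A : C2 → ℂ) {f g : C2 → ℂ} {x : C2} (h : f =ᶠ[𝓝 x] g) (c : Fin 2) :
    W A c f x = W A c g x ∧ Wb A c f x = Wb A c g x := by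
  have h1 := WV_congr A h c
  rw [W_eq, W_eq, Wb_eq, Wb_eq] at h1
  exact h1

private lemma up_open : IsOpen Up := by
  have h : Up = {x : C2 | 0 < imL x} := rfl
  rw [h]
  exact isOpen_lt continuous_const imL.continuous

private lemma hd_pot {t : ℝ} (ht : 0 < t) :
    HasDerivAt (fun t : ℝ => ((-Real.log t : ℝ) : ℂ)) (-(1 / (t : ℂ))) t := by
  have h1 : HasDerivAt (fun t : ℝ => -Real.log t) (-(t⁻¹)) t :=
    (Real.hasDerivAt_log ht.ne').neg
  have h2 := h1.ofReal_comp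
  convert h2 using 1
  push_cast
  rw [one_div]

private lemma hd_inv {t : ℝ} (ht : 0 < t) (b : ℂ) :
    HasDerivAt (fun t : ℝ => b / (2 * (t : ℂ))) (-(b / (2 * (t : ℂ) ^ 2))) t := by
  have h0 : HasDerivAt (fun t : ℝ => t⁻¹) (-(t ^ 2)⁻¹) t := hasDerivAt_inv ht.ne'
  have h1 := (h0.ofReal_comp).const_mul (b / 2)
  have htc : (t : ℂ) ≠ 0 := by exact_mod_cast ht.ne'
  have e1 : (fun t : ℝ => b / (2 * (t : ℂ))) = fun y : ℝ => b / 2 * ((y⁻¹ : ℝ) : ℂ) := by
    funext s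
    push_cast
    rw [div_mul_eq_div_div, div_eq_mul_inv (b / 2)]
  have e2 : -(b / (2 * (t : ℂ) ^ 2)) = b / 2 * ((-(t ^ 2)⁻¹ : ℝ) : ℂ) := by
    push_cast
    field_simp
  rw [e1, e2]
  exact h1

end VgmAux

open VgmAux

/-- the first derivatives of the potential -/
private lemma pot_d' {A : C2 → ℂ} : ∀ x ∈ Up,
    Wb A 1 pot x = Complex.I / (2 * (x 1).im) ∧ W A 1 pot x = -Complex.I / (2 * (x 1).im) ∧
    Wb A 0 pot x = -Complex.I * star (A x) / (2 * (x 1).im) ∧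
    W A 0 pot x = Complex.I * A x / (2 * (x 1).im) := by
  intro x hx
  have hx' : 0 < (x 1).im := hx
  have hy : ((x 1).im : ℂ) ≠ 0 := by exact_mod_cast hx'.ne'
  have hp : pot = fun y : C2 => (fun t : ℝ => ((-Real.log t : ℝ) : ℂ)) ((y 1).im) := rfl
  obtain ⟨h1, h2, h3, h4⟩ := W_im A (hd_pot hx')
  rw [hp, h1, h2, h3, h4]
  refine ⟨?_, ?_, ?_, ?_⟩ <;> field_simp

/-- explicit metric -/
theorem gm_explicit {A : C2 → ℂ} (hA : BA Up A) : ∀ x ∈ Up,
    gm A 1 1 x = 1 / (4 * ((x 1).im : ℂ) ^ 2) ∧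
    gm A 1 0 x = -A x / (4 * ((x 1).im : ℂ) ^ 2) + Complex.I * dd A 1 x / (2 * ((x 1).im : ℂ)) ∧
    gm A 0 1 x = star (gm A 1 0 x) ∧
    gm A 0 0 x = ((‖A x‖ ^ 2 / (4 * (x 1).im ^ 2) - (dd A 0 x).im / (x 1).im : ℝ) : ℂ) ∧
    wA A x = -((dd A 0 x + star (A x) * dd A 1 x).im + (x 1).im * ‖dd A 1 x‖ ^ 2) /
      (4 * (x 1).im ^ 3) ∧
    gm A 1 1 x * gm A 0 0 x - gm A 1 0 x * gm A 0 1 x = (wA A x : ℂ) := by
  intro x hx
  have hx' : 0 < (x 1).im := hx
  have hy : ((x 1).im : ℂ) ≠ 0 := by exact_mod_cast hx'.ne'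
  have hUp : Up ∈ 𝓝 x := up_open.mem_nhds hx
  have e1 : (fun y => Wb A 1 pot y) =ᶠ[𝓝 x]
      fun y : C2 => (fun t : ℝ => Complex.I / (2 * (t : ℂ))) ((y 1).im) := by
    filter_upwards [hUp] with y hy
    exact (pot_d' y hy).1
  have hAd : DifferentiableAt ℝ A x :=
    (hA.sm.contDiffAt hUp).differentiableAt (by simp)
  have hAs : DifferentiableAt ℝ (fun y => star (A y)) x := hAd.star
  have hkd := hd_inv hx' (-Complex.I)
  have hk : DifferentiableAt ℝ
      (fun y : C2 => (fun t : ℝ => -Complex.I / (2 * (t : ℂ))) ((y 1).im)) x := by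
    have h1 : DifferentiableAt ℝ (fun y : C2 => imL y) x := imL.differentiableAt
    exact DifferentiableAt.comp x (f := fun y : C2 => imL y)
      (g := fun t : ℝ => -Complex.I / (2 * (t : ℂ))) hkd.differentiableAt h1
  have e0 : (fun y => Wb A 0 pot y) =ᶠ[𝓝 x]
      fun y : C2 => star (A y) • ((fun t : ℝ => -Complex.I / (2 * (t : ℂ))) ((y 1).im)) := by
    filter_upwards [hUp] with y hy
    rw [(pot_d' y hy).2.2.1, smul_eq_mul]
    ring
  obtain ⟨h1a, h1b, -, -⟩ := W_im A (hd_inv hx' Complex.I)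
  obtain ⟨h0a, h0b, -, -⟩ := W_im A hkd
  have g11 : gm A 1 1 x = 1 / (4 * ((x 1).im : ℂ) ^ 2) := by
    unfold gm HC
    rw [(W_congr A e1 1).1, h1a]
    simp only [Ga]
    rw [if_neg (by decide)]
    field_simp
    rw [Complex.I_sq]
    ring
  have g10 : gm A 1 0 x = -A x / (4 * ((x 1).im : ℂ) ^ 2) +
      Complex.I * dd A 1 x / (2 * ((x 1).im : ℂ)) := by
    unfold gm HC
    rw [(W_congr A e1 0).1, h1b, (pot_d' x hx).1]
    simp only [Ga, if_true]
    field_simp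
    ring_nf
    simp only [Complex.I_sq]
    ring
  obtain ⟨hWA, hA1, hA0, -, -⟩ := W_A up_open hA x hx
  have hs1 : W A 1 (fun y => star (A y)) x = star (dd A 1 x) := by
    rw [(W_star A A x 1).1, hA1]
  have hs0 : W A 0 (fun y => star (A y)) x = star (dd A 0 x) := by
    rw [(W_star A A x 0).1, hA0]
  have g01 : gm A 0 1 x = star (dd A 1 x) * (-Complex.I / (2 * ((x 1).im : ℂ))) +
      star (A x) * (-(1 / (4 * ((x 1).im : ℂ) ^ 2))) := by
    unfold gm HC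
    have h := (WV_smul A hAs hk 1).1
    rw [W_eq, W_eq] at h
    rw [(W_congr A e0 1).1, h, hs1, h0a]
    simp only [Ga, smul_eq_mul]
    rw [if_neg (by decide)]
    field_simp
    ring_nf
    simp only [Complex.I_sq]
    ring
  have g00 : gm A 0 0 x = star (dd A 0 x) * (-Complex.I / (2 * ((x 1).im : ℂ))) +
      star (A x) * (A x / (4 * ((x 1).im : ℂ) ^ 2)) +
      dd A 0 x * (Complex.I / (2 * ((x 1).im : ℂ))) := by
    unfold gm HC
    have h := (WV_smul A hAs hk 0).1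
    rw [W_eq, W_eq] at h
    rw [(W_congr A e0 0).1, h, hs0, h0b, (pot_d' x hx).1]
    simp only [Ga, smul_eq_mul, if_true]
    field_simp
    ring_nf
    simp only [Complex.I_sq]
    ring
  set y : ℝ := (x 1).im with hydef
  have g01' : gm A 0 1 x = star (gm A 1 0 x) := by
    rw [g01, g10]
    simp only [star_add, star_div₀, star_mul', star_neg, star_pow, Complex.star_def,
      Complex.conj_I, Complex.conj_ofReal, map_ofNat]
    field_simp
    ring
  have g00' : gm A 0 0 x = ((‖A x‖ ^ 2 / (4 * y ^ 2) - (dd A 0 x).im / y : ℝ) : ℂ) := by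
    rw [g00]
    have h1 : star (A x) * A x = ((‖A x‖ ^ 2 : ℝ) : ℂ) := by
      rw [Complex.star_def, mul_comm, Complex.mul_conj, Complex.normSq_eq_norm_sq]
    have h2 : dd A 0 x - star (dd A 0 x) = 2 * Complex.I * (((dd A 0 x).im : ℝ) : ℂ) := by
      rw [Complex.star_def, Complex.sub_conj]
      push_cast
      ring
    have h3 : star (dd A 0 x) * (-Complex.I / (2 * (y : ℂ))) +
      star (A x) * (A x / (4 * (y : ℂ) ^ 2)) +
      dd A 0 x * (Complex.I / (2 * (y : ℂ))) =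
      (star (A x) * A x) / (4 * (y : ℂ) ^ 2) +
        (dd A 0 x - star (dd A 0 x)) * (Complex.I / (2 * (y : ℂ))) := by ring
    rw [h3, h1, h2]
    push_cast
    field_simp
    rw [Complex.I_sq]
    ring
  have hdet : gm A 1 1 x * gm A 0 0 x - gm A 1 0 x * gm A 0 1 x =
      ((-((dd A 0 x + star (A x) * dd A 1 x).im + y * ‖dd A 1 x‖ ^ 2) / (4 * y ^ 3) : ℝ) : ℂ) := by
    have h1 : gm A 1 0 x * gm A 0 1 x = ((Complex.normSq (gm A 1 0 x) : ℝ) : ℂ) := by
      rw [g01', Complex.star_def, Complex.mul_conj]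
    have hre : (gm A 1 0 x).re = -(A x).re / (4 * y ^ 2) - (dd A 1 x).im / (2 * y) := by
      have : gm A 1 0 x = (((1 / (4 * y ^ 2) : ℝ)) : ℂ) * (-A x) +
          (((1 / (2 * y) : ℝ)) : ℂ) * (Complex.I * dd A 1 x) := by
        rw [g10]; push_cast; ring
      rw [this, Complex.add_re, Complex.re_ofReal_mul, Complex.re_ofReal_mul]
      simp
      ring
    have him : (gm A 1 0 x).im = -(A x).im / (4 * y ^ 2) + (dd A 1 x).re / (2 * y) := by
      have : gm A 1 0 x = (((1 / (4 * y ^ 2) : ℝ)) : ℂ) * (-A x) +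
          (((1 / (2 * y) : ℝ)) : ℂ) * (Complex.I * dd A 1 x) := by
        rw [g10]; push_cast; ring
      rw [this, Complex.add_im, Complex.im_ofReal_mul, Complex.im_ofReal_mul]
      simp
      ring
    have g11' : gm A 1 1 x = (((1 / (4 * y ^ 2) : ℝ)) : ℂ) := by
      rw [g11]; push_cast; rfl
    rw [h1, g11', g00', ← Complex.ofReal_mul, ← Complex.ofReal_sub]
    congr 1
    have hA2 : ‖A x‖ ^ 2 = (A x).re ^ 2 + (A x).im ^ 2 := by
      rw [← Complex.normSq_eq_norm_sq, Complex.normSq_apply]; ring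
    have hD2 : ‖dd A 1 x‖ ^ 2 = (dd A 1 x).re ^ 2 + (dd A 1 x).im ^ 2 := by
      rw [← Complex.normSq_eq_norm_sq, Complex.normSq_apply]; ring
    rw [Complex.normSq_apply, hre, him, hA2, hD2, Complex.add_im, Complex.mul_im]
    simp only [Complex.star_def, Complex.conj_re, Complex.conj_im]
    field_simp
    ring
  have hw : wA A x = -((dd A 0 x + star (A x) * dd A 1 x).im + y * ‖dd A 1 x‖ ^ 2) /
      (4 * y ^ 3) := by
    unfold wA
    rw [hdet, Complex.ofReal_re]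
  refine ⟨g11, g10, g01', g00', hw, ?_⟩
  rw [hw]
  exact hdet

/-- the first derivatives of the potential -/
theorem pot_d {A : C2 → ℂ} (hA : BA Up A) : ∀ x ∈ Up,
    Wb A 1 pot x = Complex.I / (2 * (x 1).im) ∧ W A 1 pot x = -Complex.I / (2 * (x 1).im) ∧
    Wb A 0 pot x = -Complex.I * star (A x) / (2 * (x 1).im) ∧
    W A 0 pot x = Complex.I * A x / (2 * (x 1).im) := pot_d'

private lemma pot_sm : ContDiffOn ℝ ∞ pot Up := by
  have h1 : ContDiffOn ℝ ∞ (fun x : C2 => Real.log (imL x)) Up :=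
    ContDiffOn.log imL.contDiff.contDiffOn (fun x hx => ne_of_gt hx)
  have h2 : ContDiffOn ℝ ∞ (fun x : C2 => Complex.ofRealCLM (-Real.log (imL x))) Up :=
    Complex.ofRealCLM.contDiff.comp_contDiffOn h1.neg
  exact h2

private lemma dd_sm {A : C2 → ℂ} (hA : BA Up A) (a : Fin 2) :
    ContDiffOn ℝ ∞ (fun x => dd A a x) Up := by
  have h : ∀ c, ContDiffOn ℝ ∞ (fun y => WbV A c A y) Up := fun c =>
    (WV_contDiffOn up_open hA.sm hA.sm (m := ∞) (k := ∞) (by simp) le_rfl c).2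
  fin_cases a
  · refine (h 0).congr ?_
    intro x hx
    rw [Wb_eq]
    exact ((W_A up_open hA x hx).2.2.1).symm
  · refine (h 1).congr ?_
    intro x hx
    rw [Wb_eq]
    exact ((W_A up_open hA x hx).2.1).symm

/-- smoothness and positivity -/
theorem gm_sm {A : C2 → ℂ} (hA : BA Up A) (a c : Fin 2) :
    ContDiffOn ℝ ∞ (gm A a c) Up ∧ ContDiffOn ℝ ∞ (wA A) Up ∧
    (∀ x ∈ Up, gm A a c x = star (gm A c a x)) := by
  have hg : ∀ a c, ContDiffOn ℝ ∞ (gm A a c) Up := by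
    intro a c
    have h1 : ContDiffOn ℝ ∞ (fun y => WbV A a pot y) Up :=
      (WV_contDiffOn up_open hA.sm pot_sm (m := ∞) (k := ∞) (by simp) le_rfl a).2
    have h2 : ContDiffOn ℝ ∞ (fun x => WV A c (fun y => WbV A a pot y) x) Up :=
      (WV_contDiffOn up_open hA.sm h1 (m := ∞) (k := ∞) (by simp) le_rfl c).1
    have h3 : ContDiffOn ℝ ∞ (fun y => WbV A 1 pot y) Up :=
      (WV_contDiffOn up_open hA.sm pot_sm (m := ∞) (k := ∞) (by simp) le_rfl 1).2
    have h4 : ContDiffOn ℝ ∞ (fun x => Ga A c a x) Up := by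
      unfold Ga
      by_cases hc : c = 0
      · simp only [hc, if_true]
        exact dd_sm hA a
      · simp only [hc, if_false]
        exact contDiffOn_const
    have h5 := h2.add (h4.mul h3)
    refine h5.congr ?_
    intro x hx
    simp only [gm, HC]
    rw [Wb_eq, W_eq]
    have : (fun y => WbV A a pot y) = fun y => Wb A a pot y := by
      funext y
      exact Wb_eq A pot y a
    rw [this]
  refine ⟨hg a c, ?_, ?_⟩
  · have h1 := ((hg 1 1).mul (hg 0 0)).sub ((hg 1 0).mul (hg 0 1))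
    exact Complex.reCLM.contDiff.comp_contDiffOn h1
  · intro x hx
    have h := HC_symm up_open hA (f := pot) (pot_sm.of_le (WithTop.coe_le_coe.2 (le_top : (2 : ℕ∞) ≤ ⊤))) a c x hx
    have hp : (fun y => star (pot y)) = pot := by
      funext y
      simp only [pot, Complex.star_def, Complex.conj_ofReal]
    rw [hp] at h
    exact h

theorem wA_pos {A : C2 → ℂ} (hA : BA Up A)
    (hpos : ∀ x ∈ Up, (dd A 0 x + star (A x) * dd A 1 x).im + (x 1).im * ‖dd A 1 x‖ ^ 2 < 0) :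
    ∀ x ∈ Up, 0 < wA A x ∧ 0 < (gm A 1 1 x).re ∧ 0 < (gm A 0 0 x).re ∧
      (gm A 1 1 x).im = 0 ∧ (gm A 0 0 x).im = 0 := by
  intro x hx
  have hx' : 0 < (x 1).im := hx
  obtain ⟨g11, g10, g01, g00, hw, hdet⟩ := gm_explicit hA x hx
  have hwp : 0 < wA A x := by
    rw [hw]
    apply div_pos
    · linarith [hpos x hx]
    · positivity
  have g11' : gm A 1 1 x = (((1 / (4 * (x 1).im ^ 2) : ℝ)) : ℂ) := by
    rw [g11]; push_cast; rfl
  have hre1 : (gm A 1 1 x).re = 1 / (4 * (x 1).im ^ 2) := by rw [g11', Complex.ofReal_re]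
  have him1 : (gm A 1 1 x).im = 0 := by rw [g11', Complex.ofReal_im]
  have him0 : (gm A 0 0 x).im = 0 := by rw [g00, Complex.ofReal_im]
  have h1p : 0 < (gm A 1 1 x).re := by rw [hre1]; positivity
  refine ⟨hwp, h1p, ?_, him1, him0⟩
  have h2 : wA A x = (gm A 1 1 x).re * (gm A 0 0 x).re - Complex.normSq (gm A 1 0 x) := by
    have h3 := congrArg Complex.re hdet
    rw [Complex.ofReal_re, g01, Complex.star_def, Complex.mul_conj, Complex.sub_re,
      Complex.ofReal_re, Complex.mul_re, him1, him0] at h3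
    linarith
  have h4 := Complex.normSq_nonneg (gm A 1 0 x)
  by_contra hneg
  rw [not_lt] at hneg
  have h5 : (gm A 1 1 x).re * (gm A 0 0 x).re ≤ 0 := mul_nonpos_of_nonneg_of_nonpos h1p.le hneg
  linarith

private lemma quad {a b c s t w : ℝ} (hw : a * b - c ^ 2 = w) :
    w * (s ^ 2 + t ^ 2) ≤ (a + b) * (a * t ^ 2 + b * s ^ 2 - 2 * (c * (s * t))) := by
  have h1 := sq_nonneg (a * t - c * s)
  have h2 := sq_nonneg (b * s - c * t)
  nlinarith [h1, h2]

private lemma trg_low {H : Type} [NormedAddCommGroup H] [InnerProductSpace ℂ H] {A : C2 → ℂ}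
    {x : C2} {q r : H} {T01 T10 : ℂ}
    (h0 : ‖T01‖ ≤ ‖q‖ * ‖r‖) (h1 : ‖T10‖ ≤ ‖q‖ * ‖r‖)
    (g01 : gm A 0 1 x = star (gm A 1 0 x)) :
    (gm A 0 0 x).re * ‖r‖ ^ 2 + (gm A 1 1 x).re * ‖q‖ ^ 2 - 2 * (‖gm A 1 0 x‖ * (‖q‖ * ‖r‖)) ≤
      (gm A 0 0 x * inner ℂ r r + gm A 1 1 x * inner ℂ q q - gm A 1 0 x * T01 -
        gm A 0 1 x * T10).re := by
  have e1 : (gm A 0 0 x * inner ℂ r r).re = (gm A 0 0 x).re * ‖r‖ ^ 2 := by
    rw [inner_self_eq_norm_sq_to_K]
    have : ((‖r‖ : ℂ)) ^ 2 = (((‖r‖ ^ 2 : ℝ)) : ℂ) := by push_cast; rfl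
    show (gm A 0 0 x * ((‖r‖ : ℂ)) ^ 2).re = _
    rw [this, Complex.re_mul_ofReal]
  have e2 : (gm A 1 1 x * inner ℂ q q).re = (gm A 1 1 x).re * ‖q‖ ^ 2 := by
    rw [inner_self_eq_norm_sq_to_K]
    have : ((‖q‖ : ℂ)) ^ 2 = (((‖q‖ ^ 2 : ℝ)) : ℂ) := by push_cast; rfl
    show (gm A 1 1 x * ((‖q‖ : ℂ)) ^ 2).re = _
    rw [this, Complex.re_mul_ofReal]
  have e3 : (gm A 1 0 x * T01).re ≤ ‖gm A 1 0 x‖ * (‖q‖ * ‖r‖) := by
    refine (Complex.re_le_norm _).trans ?_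
    rw [norm_mul]
    exact mul_le_mul_of_nonneg_left h0 (norm_nonneg _)
  have e4 : (gm A 0 1 x * T10).re ≤ ‖gm A 1 0 x‖ * (‖q‖ * ‖r‖) := by
    refine (Complex.re_le_norm _).trans ?_
    rw [norm_mul, g01, norm_star]
    exact mul_le_mul_of_nonneg_left h1 (norm_nonneg _)
  rw [Complex.sub_re, Complex.sub_re, Complex.add_re, e1, e2]
  linarith

/-- pointwise comparison of the metric with the standard one on compact sets -/
theorem gm_bounds {A : C2 → ℂ} (hA : BA Up A)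
    (hpos : ∀ x ∈ Up, (dd A 0 x + star (A x) * dd A 1 x).im + (x 1).im * ‖dd A 1 x‖ ^ 2 < 0)
    {C : Set C2} (hC : C ⊆ Up) (hCc : IsCompact C) : ∃ c > 0, ∀ x ∈ C,
    (∀ a b, ‖gm A a b x‖ ≤ c⁻¹) ∧ c ≤ wA A x ∧ wA A x ≤ c⁻¹ ∧
    ∀ (H : Type) [NormedAddCommGroup H] [InnerProductSpace ℂ H] (p : Fin 2 → H),
      c * (‖p 0‖ ^ 2 + ‖p 1‖ ^ 2) ≤ (trg A (fun a b => inner ℂ (p b) (p a)) x).re ∧
      c * (‖p 0‖ ^ 2 + ‖p 1‖ ^ 2) ≤ (trg A (fun a b => inner ℂ (p a) (p b)) x).re := by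
  rcases C.eq_empty_or_nonempty with hCe | hCn
  · exact ⟨1, one_pos, fun x hx => by rw [hCe] at hx; exact absurd hx (Set.notMem_empty x)⟩
  have hb : ∀ a b, ∃ M, ∀ x ∈ C, ‖gm A a b x‖ ≤ M := fun a b =>
    hCc.exists_bound_of_continuousOn (((gm_sm hA a b).1.continuousOn).mono hC)
  choose M hM using hb
  have hwc : ContinuousOn (wA A) C := ((gm_sm hA 0 0).2.1.continuousOn).mono hC
  obtain ⟨Mw, hMw⟩ := hCc.exists_bound_of_continuousOn hwc
  obtain ⟨x₀, hx₀, hmin⟩ := hCc.exists_isMinOn hCn hwc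
  set m : ℝ := wA A x₀ with hm
  have hmp : 0 < m := (wA_pos hA hpos x₀ (hC hx₀)).1
  set N : ℝ := 1 + |Mw| + ∑ a, ∑ b, |M a b| with hN
  have hsum : 0 ≤ ∑ a, ∑ b, |M a b| :=
    Finset.sum_nonneg fun a _ => Finset.sum_nonneg fun b _ => abs_nonneg _
  have hN1 : 1 ≤ N := by
    have := abs_nonneg Mw
    linarith
  have hNp : 0 < N := by linarith
  have hMN : ∀ a b, M a b ≤ N := by
    intro a b
    have h1 : |M a b| ≤ ∑ b, |M a b| :=
      Finset.single_le_sum (f := fun b => |M a b|) (fun _ _ => abs_nonneg _) (Finset.mem_univ b)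
    have h2 : ∑ b, |M a b| ≤ ∑ a, ∑ b, |M a b| :=
      Finset.single_le_sum (f := fun a => ∑ b, |M a b|)
        (fun a _ => Finset.sum_nonneg fun b _ => abs_nonneg _) (Finset.mem_univ a)
    have := abs_nonneg Mw
    have := le_abs_self (M a b)
    linarith
  have hMwN : Mw ≤ N := by
    have := le_abs_self Mw
    linarith
  refine ⟨min (m / (2 * N)) (1 / N), by positivity, ?_⟩
  set c : ℝ := min (m / (2 * N)) (1 / N) with hc
  have hcp : 0 < c := by positivity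
  have hc1 : c ≤ m / (2 * N) := min_le_left _ _
  have hc2 : c ≤ 1 / N := min_le_right _ _
  have hNc : N ≤ c⁻¹ := by
    rw [le_inv_comm₀ hNp hcp, ← one_div]
    exact hc2
  intro x hx
  have hxU : x ∈ Up := hC hx
  obtain ⟨hwp, h1p, h0p, h1i, h0i⟩ := wA_pos hA hpos x hxU
  obtain ⟨g11, g10, g01, g00, hw, hdet⟩ := gm_explicit hA x hxU
  have hmw : m ≤ wA A x := hmin hx
  have hwdet : (gm A 0 0 x).re * (gm A 1 1 x).re - ‖gm A 1 0 x‖ ^ 2 = wA A x := by
    have h3 := congrArg Complex.re hdet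
    rw [Complex.ofReal_re, g01, Complex.star_def, Complex.mul_conj, Complex.sub_re,
      Complex.ofReal_re, Complex.mul_re, h1i, h0i, Complex.normSq_eq_norm_sq] at h3
    linarith
  have hlow : ∀ (H : Type) [NormedAddCommGroup H] [InnerProductSpace ℂ H] (q r : H) (v : ℝ),
      (gm A 0 0 x).re * ‖r‖ ^ 2 + (gm A 1 1 x).re * ‖q‖ ^ 2 -
        2 * (‖gm A 1 0 x‖ * (‖q‖ * ‖r‖)) ≤ v → c * (‖q‖ ^ 2 + ‖r‖ ^ 2) ≤ v := by
    intro H _ _ q r v hv
    refine le_trans ?_ hv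
    have hq := quad (s := ‖q‖) (t := ‖r‖) hwdet
    set Q : ℝ := (gm A 0 0 x).re * ‖r‖ ^ 2 + (gm A 1 1 x).re * ‖q‖ ^ 2 -
        2 * (‖gm A 1 0 x‖ * (‖q‖ * ‖r‖)) with hQ
    have hS : 0 ≤ ‖q‖ ^ 2 + ‖r‖ ^ 2 := by positivity
    have hab : 0 < (gm A 0 0 x).re + (gm A 1 1 x).re := by linarith
    have hab2 : (gm A 0 0 x).re + (gm A 1 1 x).re ≤ 2 * N := by
      have h1 := (Complex.re_le_norm (gm A 0 0 x)).trans ((hM 0 0 x hx).trans (hMN 0 0))
      have h2 := (Complex.re_le_norm (gm A 1 1 x)).trans ((hM 1 1 x hx).trans (hMN 1 1))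
      linarith
    have hQ0 : 0 ≤ Q := by
      by_contra hneg
      rw [not_le] at hneg
      have := mul_neg_of_pos_of_neg hab hneg
      have h2 : 0 ≤ wA A x * (‖q‖ ^ 2 + ‖r‖ ^ 2) := mul_nonneg hwp.le hS
      linarith
    have h3 : m * (‖q‖ ^ 2 + ‖r‖ ^ 2) ≤ 2 * N * Q := by
      calc m * (‖q‖ ^ 2 + ‖r‖ ^ 2) ≤ wA A x * (‖q‖ ^ 2 + ‖r‖ ^ 2) :=
            mul_le_mul_of_nonneg_right hmw hS
        _ ≤ ((gm A 0 0 x).re + (gm A 1 1 x).re) * Q := hq
        _ ≤ 2 * N * Q := mul_le_mul_of_nonneg_right hab2 hQ0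
    calc c * (‖q‖ ^ 2 + ‖r‖ ^ 2) ≤ m / (2 * N) * (‖q‖ ^ 2 + ‖r‖ ^ 2) :=
          mul_le_mul_of_nonneg_right hc1 hS
      _ = (m * (‖q‖ ^ 2 + ‖r‖ ^ 2)) / (2 * N) := by ring
      _ ≤ Q := by
          rw [div_le_iff₀ (by positivity)]
          linarith
  refine ⟨fun a b => ((hM a b x hx).trans (hMN a b)).trans hNc, ?_, ?_, ?_⟩
  · refine le_trans hc1 (le_trans ?_ hmw)
    rw [div_le_iff₀ (by positivity)]
    nlinarith
  · have h1 := hMw x hx
    rw [Real.norm_eq_abs] at h1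
    exact (((le_abs_self _).trans h1).trans hMwN).trans hNc
  · intro H _ _ p
    constructor
    · refine hlow H (p 0) (p 1) _ ?_
      refine trg_low (T01 := inner ℂ (p 1) (p 0)) (T10 := inner ℂ (p 0) (p 1)) ?_ ?_ g01
      · rw [mul_comm]; exact norm_inner_le_norm _ _
      · exact norm_inner_le_norm _ _
    · refine hlow H (p 0) (p 1) _ ?_
      refine trg_low (T01 := inner ℂ (p 0) (p 1)) (T10 := inner ℂ (p 1) (p 0)) ?_ ?_ g01
      · exact norm_inner_le_norm _ _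
      · rw [mul_comm]; exact norm_inner_le_norm _ _

end Pool.Agent.MPd01a95
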