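import Mathlib
import Pool.Agent.Lib.MP_d01a95_gt_S.VDefs
import Pool.Agent.Lib.MP_d01a95_gt_S.Vlaw
import Pool.Agent.Lib.MP_d01a95_gt_S.Vgm

/-!
Project SU(2,2), part (2), module Vact.
-/

set_option autoImplicit false
set_option linter.all false

open Matrix Filter Topology MeasureTheory Measure
open scoped ENNReal NNReal ContDiff

namespace Pool.Agent.MPd01a95

private theorem up_open : IsOpen Up :=
  isOpen_lt continuous_const (Complex.continuous_im.comp (continuous_apply 1))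

private theorem W_mul' (A : C2 → ℂ) {f g : C2 → ℂ} {x : C2} (hf : DifferentiableAt ℝ f x)
    (hg : DifferentiableAt ℝ g x) (c : Fin 2) :
    W A c (fun y => f y * g y) x = W A c f x * g x + f x * W A c g x ∧
    Wb A c (fun y => f y * g y) x = Wb A c f x * g x + f x * Wb A c g x := by
  have h := WV_smul A hf hg c
  simp only [smul_eq_mul, W_eq, Wb_eq] at h
  exact h

private theorem W_add' (A : C2 → ℂ) {f g : C2 → ℂ} {x : C2} (hf : DifferentiableAt ℝ f x)
    (hg : DifferentiableAt ℝ g x) (c : Fin 2) :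
    W A c (fun y => f y + g y) x = W A c f x + W A c g x ∧
    Wb A c (fun y => f y + g y) x = Wb A c f x + Wb A c g x := by
  have h := WV_add A hf hg c
  simp only [W_eq, Wb_eq] at h
  exact h

private theorem W_congr' (A : C2 → ℂ) {f g : C2 → ℂ} {x : C2} (h : f =ᶠ[𝓝 x] g) (c : Fin 2) :
    W A c f x = W A c g x ∧ Wb A c f x = Wb A c g x := by
  have h := WV_congr A h c
  simp only [W_eq, Wb_eq] at h
  exact h

private theorem W_const' (A : C2 → ℂ) (k : ℂ) (x : C2) (c : Fin 2) :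
    W A c (fun _ => k) x = 0 ∧ Wb A c (fun _ => k) x = 0 := by
  unfold W Wb db dd
  simp

/-- functions killed by the (0,1) fields at a point -/
private structure H0 (A : C2 → ℂ) (x : C2) (f : C2 → ℂ) : Prop where
  d : DifferentiableAt ℝ f x
  w : ∀ c, W A c f x = 0

private theorem H0.add {A : C2 → ℂ} {x : C2} {f g : C2 → ℂ} (hf : H0 A x f) (hg : H0 A x g) :
    H0 A x (fun y => f y + g y) :=
  ⟨hf.d.add hg.d, fun c => by rw [(W_add' A hf.d hg.d c).1, hf.w, hg.w, add_zero]⟩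

private theorem H0.mul {A : C2 → ℂ} {x : C2} {f g : C2 → ℂ} (hf : H0 A x f) (hg : H0 A x g) :
    H0 A x (fun y => f y * g y) :=
  ⟨hf.d.mul hg.d, fun c => by rw [(W_mul' A hf.d hg.d c).1, hf.w, hg.w, mul_zero, zero_mul,
    add_zero]⟩

private theorem H0.const (A : C2 → ℂ) (x : C2) (k : ℂ) : H0 A x (fun _ => k) :=
  ⟨differentiableAt_const _, fun c => (W_const' A k x c).1⟩

private theorem H0.congr {A : C2 → ℂ} {x : C2} {f g : C2 → ℂ} (hf : H0 A x f)
    (h : g =ᶠ[𝓝 x] f) : H0 A x g :=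
  ⟨hf.d.congr_of_eventuallyEq h, fun c => by rw [(W_congr' A h c).1, hf.w]⟩

private theorem H0.inv {A : C2 → ℂ} {x : C2} {f : C2 → ℂ} (hf : H0 A x f) (h : f x ≠ 0) :
    H0 A x (fun y => (f y)⁻¹) := by
  have hd : DifferentiableAt ℝ (fun y => (f y)⁻¹) x := hf.d.inv h
  refine ⟨hd, fun c => ?_⟩
  have h1 : (fun y => (f y)⁻¹ * f y) =ᶠ[𝓝 x] fun _ => (1 : ℂ) := by
    filter_upwards [hf.d.continuousAt.eventually_ne h] with y hy
    exact inv_mul_cancel₀ hy
  have h2 := (W_congr' A h1 c).1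
  rw [(W_mul' A hd hf.d c).1, hf.w, mul_zero, add_zero, (W_const' A 1 x c).1] at h2
  exact (mul_eq_zero.mp h2).resolve_right h

private theorem W_coord (A : C2 → ℂ) (x : C2) :
    W A 1 (fun y => y 0) x = 0 ∧ W A 0 (fun y => y 0) x = 0 ∧ W A 1 (fun y => y 1) x = 0 ∧
    W A 0 (fun y => y 1) x = A x ∧ Wb A 1 (fun y => y 0) x = 0 ∧ Wb A 0 (fun y => y 0) x = 1 := by
  have e : ∀ i : Fin 2, ∀ v : C2, fderiv ℝ (fun y : C2 => y i) x v = v i := by
    intro i v
    have h : HasFDerivAt (fun y : C2 => y i) (ContinuousLinearMap.proj (R := ℝ) i) x :=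
      (ContinuousLinearMap.proj (R := ℝ) (φ := fun _ : Fin 2 => ℂ) i).hasFDerivAt
    rw [h.fderiv]
    rfl
  have hI : Complex.I * Complex.I = -1 := Complex.I_mul_I
  unfold W Wb db dd
  simp only [e]
  refine ⟨?_, ?_, ?_, ?_, ?_, ?_⟩
  all_goals
    simp [hI]
  all_goals
    ring

private theorem coord_d (x : C2) (i : Fin 2) : DifferentiableAt ℝ (fun y : C2 => y i) x :=
  (ContinuousLinearMap.proj (R := ℝ) (φ := fun _ : Fin 2 => ℂ) i).differentiableAt

private theorem star_d {x : C2} {f : C2 → ℂ} (hf : DifferentiableAt ℝ f x) :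
    DifferentiableAt ℝ (fun y : C2 => star (f y)) x :=
  Complex.conjCLE.differentiableAt.comp x hf

/-- the homogeneous coordinates are holomorphic -/
private theorem vv_H0 {A : C2 → ℂ} (hA : BA Up A) {x : C2} (hx : x ∈ Up) (j : Fin 4) :
    H0 A x (fun y => vv A y j) := by
  have hAd : DifferentiableAt ℝ A x :=
    (hA.sm.differentiableOn (by simp)).differentiableAt (up_open.mem_nhds hx)
  obtain ⟨w10, w00, w11, w01, b10, b00⟩ := W_coord A x
  have hWA : ∀ c, W A c A x = 0 := (W_A up_open hA x hx).1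
  fin_cases j
  · exact ⟨hAd, hWA⟩
  · change H0 A x (fun y => y 1 - star (y 0) * A y)
    have h0 : DifferentiableAt ℝ (fun y : C2 => star (y 0)) x := star_d (coord_d x 0)
    have hm : DifferentiableAt ℝ (fun y : C2 => star (y 0) * A y) x := h0.mul hAd
    have hn : DifferentiableAt ℝ (fun y : C2 => (-1 : ℂ) * (star (y 0) * A y)) x :=
      (differentiableAt_const _).mul hm
    have hfun : (fun y : C2 => y 1 - star (y 0) * A y) =
        fun y => y 1 + (-1 : ℂ) * (star (y 0) * A y) := by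
      funext y
      ring
    rw [hfun]
    refine ⟨(coord_d x 1).add hn, fun c => ?_⟩
    rw [(W_add' A (coord_d x 1) hn c).1, (W_mul' A (differentiableAt_const _) hm c).1,
      (W_mul' A h0 hAd c).1, hWA, (W_const' A _ x c).1, (W_star A (fun y => y 0) x c).1]
    fin_cases c
    · change W A 0 (fun y => y 1) x + (0 * (star (x 0) * A x) +
        -1 * (star (Wb A 0 (fun y => y 0) x) * A x + star (x 0) * 0)) = 0
      rw [w01, b00, star_one]
      ring
    · change W A 1 (fun y => y 1) x + (0 * (star (x 0) * A x) +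
        -1 * (star (Wb A 1 (fun y => y 0) x) * A x + star (x 0) * 0)) = 0
      rw [w11, b10, star_zero]
      ring
  · refine ⟨coord_d x 0, fun c => ?_⟩
    fin_cases c
    · exact w00
    · exact w10
  · exact H0.const A x 1

private theorem coord_sm (i : Fin 2) : ContDiffOn ℝ ∞ (fun y : C2 => y i) Up :=
  (ContinuousLinearMap.proj (R := ℝ) (φ := fun _ : Fin 2 => ℂ) i).contDiff.contDiffOn

private theorem star_sm {k : WithTop ℕ∞} {Ω : Set C2} {f : C2 → ℂ} (hf : ContDiffOn ℝ k f Ω) :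
    ContDiffOn ℝ k (fun y : C2 => star (f y)) Ω :=
  Complex.conjCLE.contDiff.comp_contDiffOn hf

private theorem vv_sm {A : C2 → ℂ} (hA : BA Up A) (j : Fin 4) :
    ContDiffOn ℝ ∞ (fun y => vv A y j) Up := by
  fin_cases j
  · exact hA.sm
  · change ContDiffOn ℝ ∞ (fun y => y 1 - star (y 0) * A y) Up
    exact (coord_sm 1).sub ((star_sm (coord_sm 0)).mul hA.sm)
  · exact coord_sm 0
  · exact contDiffOn_const

variable {G : Type} [Group G] {σ : G →* GU (Fin 2)} (K : Kerr σ)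

private noncomputable def Vq (γ : G) (j : Fin 4) (x : C2) : ℂ := (K.R γ *ᵥ vv K.A x) j

private theorem Vq_eq (γ : G) (j : Fin 4) : Vq K γ j = fun x => K.R γ j 0 * vv K.A x 0 +
    K.R γ j 1 * vv K.A x 1 + K.R γ j 2 * vv K.A x 2 + K.R γ j 3 * vv K.A x 3 := by
  funext x
  unfold Vq
  simp only [Matrix.mulVec, dotProduct, Fin.sum_univ_four]

private theorem Vq_H0 (γ : G) (j : Fin 4) {x : C2} (hx : x ∈ Up) : H0 K.A x (Vq K γ j) := by
  rw [Vq_eq]
  exact ((((H0.const K.A x _).mul (vv_H0 K.ba hx 0)).add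
    ((H0.const K.A x _).mul (vv_H0 K.ba hx 1))).add
    ((H0.const K.A x _).mul (vv_H0 K.ba hx 2))).add
    ((H0.const K.A x _).mul (vv_H0 K.ba hx 3))

private theorem Vq_sm (γ : G) (j : Fin 4) : ContDiffOn ℝ ∞ (Vq K γ j) Up := by
  rw [Vq_eq]
  exact (((contDiffOn_const.mul (vv_sm K.ba 0)).add (contDiffOn_const.mul (vv_sm K.ba 1))).add
    (contDiffOn_const.mul (vv_sm K.ba 2))).add (contDiffOn_const.mul (vv_sm K.ba 3))

private theorem lift_q (γ : G) {x : C2} (hx : x ∈ Up) :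
    Vq K γ 3 x ≠ 0 ∧ vv K.A (K.al γ x) = (Vq K γ 3 x)⁻¹ • (K.R γ *ᵥ vv K.A x) := by
  obtain ⟨c, hc, h⟩ := K.lift γ x hx
  have h3 : (1 : ℂ) = c * Vq K γ 3 x := by
    have := congrFun h 3
    exact this
  have hq : Vq K γ 3 x ≠ 0 := by
    intro h0
    rw [h0, mul_zero] at h3
    exact one_ne_zero h3
  refine ⟨hq, ?_⟩
  have hc' : c = (Vq K γ 3 x)⁻¹ := eq_inv_of_mul_eq_one_left h3.symm
  rw [← hc']
  exact h

private noncomputable def cq (γ : G) (x : C2) : ℂ := (Vq K γ 3 x)⁻¹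

private theorem cq_H0 (γ : G) {x : C2} (hx : x ∈ Up) : H0 K.A x (cq K γ) :=
  (Vq_H0 K γ 3 hx).inv (lift_q K γ hx).1

private theorem cq_sm (γ : G) : ContDiffOn ℝ ∞ (cq K γ) Up :=
  (Vq_sm K γ 3).inv fun x hx => (lift_q K γ hx).1

private theorem al0 (γ : G) {x : C2} (hx : x ∈ Up) : K.al γ x 0 = cq K γ x * Vq K γ 2 x :=
  congrFun (lift_q K γ hx).2 2

private theorem alA (γ : G) {x : C2} (hx : x ∈ Up) :
    K.A (K.al γ x) = cq K γ x * Vq K γ 0 x :=
  congrFun (lift_q K γ hx).2 0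

private theorem al1 (γ : G) {x : C2} (hx : x ∈ Up) : K.al γ x 1 = cq K γ x * Vq K γ 1 x +
    star (K.al γ x 0) * (cq K γ x * Vq K γ 0 x) := by
  have h : K.al γ x 1 - star (K.al γ x 0) * K.A (K.al γ x) = cq K γ x * Vq K γ 1 x :=
    congrFun (lift_q K γ hx).2 1
  rw [alA K γ hx] at h
  rw [← h]
  ring

private theorem al_sm (γ : G) : ContDiffOn ℝ ∞ (K.al γ) Up := by
  have h0 : ContDiffOn ℝ ∞ (fun x => K.al γ x 0) Up :=
    ((cq_sm K γ).mul (Vq_sm K γ 2)).congr fun x hx => al0 K γ hx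
  have h1 : ContDiffOn ℝ ∞ (fun x => K.al γ x 1) Up :=
    (((cq_sm K γ).mul (Vq_sm K γ 1)).add
      ((star_sm h0).mul ((cq_sm K γ).mul (Vq_sm K γ 0)))).congr fun x hx => al1 K γ hx
  rw [contDiffOn_pi]
  intro i
  fin_cases i
  · exact h0
  · exact h1

/-- the action is smooth and holomorphic -/
theorem kerr_hol : (∀ γ, ContDiffOn ℝ ∞ (K.al γ) Up) ∧ ∀ γ, HolM K.A K.A Up (K.al γ) := by
  refine ⟨fun γ => al_sm K γ, fun γ x hx c => ?_⟩
  have hU : Up ∈ 𝓝 x := up_open.mem_nhds hx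
  have e0 : (fun y => K.al γ y 0) =ᶠ[𝓝 x] fun y => cq K γ y * Vq K γ 2 y := by
    filter_upwards [hU] with y hy
    exact al0 K γ hy
  have e1 : (fun y => K.al γ y 1) =ᶠ[𝓝 x] fun y => cq K γ y * Vq K γ 1 y +
      star (K.al γ y 0) * (cq K γ y * Vq K γ 0 y) := by
    filter_upwards [hU] with y hy
    exact al1 K γ hy
  have hc0 : H0 K.A x (fun y => K.al γ y 0) :=
    ((cq_H0 K γ hx).mul (Vq_H0 K γ 2 hx)).congr e0
  have hc1 : H0 K.A x (fun y => cq K γ y * Vq K γ 1 y) :=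
    (cq_H0 K γ hx).mul (Vq_H0 K γ 1 hx)
  have hc2 : H0 K.A x (fun y => cq K γ y * Vq K γ 0 y) :=
    (cq_H0 K γ hx).mul (Vq_H0 K γ 0 hx)
  have hm : DifferentiableAt ℝ
      (fun y => star (K.al γ y 0) * (cq K γ y * Vq K γ 0 y)) x := (star_d hc0.d).mul hc2.d
  refine ⟨hc0.w c, ?_⟩
  rw [(W_congr' K.A e1 c).1, (W_add' K.A hc1.d hm c).1, hc1.w,
    (W_mul' K.A (star_d hc0.d) hc2.d c).1, hc2.w, alA K γ hx]
  ring

private theorem h4_vv (A : C2 → ℂ) (x : C2) : h4 (vv A x) (vv A x) = ((-2 * (x 1).im : ℝ) : ℂ) := by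
  change Complex.I * ((x 1 - star (x 0) * A x) * star (1 : ℂ) -
    1 * star (x 1 - star (x 0) * A x) + A x * star (x 0) - x 0 * star (A x)) = _
  rw [star_one, star_sub, star_mul', star_star]
  have h1 : x 1 - star (x 1) = ((2 * (x 1).im : ℝ) : ℂ) * Complex.I := by
    have h2 := Complex.sub_conj (x 1)
    exact h2
  have h3 : Complex.I * ((x 1 - star (x 0) * A x) * 1 - 1 * (star (x 1) - x 0 * star (A x)) +
      A x * star (x 0) - x 0 * star (A x)) = Complex.I * (x 1 - star (x 1)) := by ring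
  rw [h3, h1]
  push_cast
  linear_combination (2 * ((x 1).im : ℂ)) * Complex.I_mul_I

private theorem h4_smul (c : ℂ) (v w : Fin 4 → ℂ) :
    h4 (c • v) (c • w) = ((‖c‖ ^ 2 : ℝ) : ℂ) * h4 v w := by
  have hc : ((‖c‖ ^ 2 : ℝ) : ℂ) = c * star c := by
    have := Complex.mul_conj' c
    push_cast
    exact this.symm
  rw [hc]
  unfold h4
  simp only [Pi.smul_apply, smul_eq_mul, star_mul']
  ring

/-- the automorphy factor `c` is smooth, holomorphic and nonzero -/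
theorem kerr_fac (γ : G) : ∃ c : C2 → ℂ, ContDiffOn ℝ ∞ c Up ∧ (∀ x ∈ Up, c x ≠ 0) ∧
    (∀ x ∈ Up, ∀ d, W K.A d c x = 0) ∧
    (∀ x ∈ Up, vv K.A (K.al γ x) = c x • (K.R γ *ᵥ vv K.A x)) ∧
    ∀ x ∈ Up, (K.al γ x 1).im = ‖c x‖ ^ 2 * (x 1).im := by
  refine ⟨cq K γ, cq_sm K γ, fun x hx => inv_ne_zero (lift_q K γ hx).1,
    fun x hx d => (cq_H0 K γ hx).w d, fun x hx => (lift_q K γ hx).2, fun x hx => ?_⟩
  have h1 := h4_vv K.A (K.al γ x)
  rw [(lift_q K γ hx).2, h4_smul, K.pres, h4_vv, ← Complex.ofReal_mul, Complex.ofReal_inj] at h1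
  change ‖cq K γ x‖ ^ 2 * (-2 * (x 1).im) = -2 * (K.al γ x 1).im at h1
  linarith

private theorem HC_add {A : C2 → ℂ} {Ω : Set C2} (hΩ : IsOpen Ω) (hA : ContDiffOn ℝ ∞ A Ω)
    {f g : C2 → ℂ} (hf : ContDiffOn ℝ 2 f Ω) (hg : ContDiffOn ℝ 2 g Ω) (a c : Fin 2) {x : C2}
    (hx : x ∈ Ω) : HC A a c (fun y => f y + g y) x = HC A a c f x + HC A a c g x := by
  have hn : Ω ∈ 𝓝 x := hΩ.mem_nhds hx
  have hfd : ∀ y ∈ Ω, DifferentiableAt ℝ f y := fun y hy =>
    (hf.differentiableOn (by norm_num)).differentiableAt (hΩ.mem_nhds hy)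
  have hgd : ∀ y ∈ Ω, DifferentiableAt ℝ g y := fun y hy =>
    (hg.differentiableOn (by norm_num)).differentiableAt (hΩ.mem_nhds hy)
  have h1 : (fun y => Wb A a (fun y => f y + g y) y) =ᶠ[𝓝 x]
      fun y => Wb A a f y + Wb A a g y := by
    filter_upwards [hn] with y hy
    exact (W_add' A (hfd y hy) (hgd y hy) a).2
  have h2 : ∀ {f : C2 → ℂ}, ContDiffOn ℝ 2 f Ω → DifferentiableAt ℝ (fun y => Wb A a f y) x := by
    intro f hf
    have h3 : ContDiffOn ℝ 1 (fun y => WbV A a f y) Ω :=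
      (WV_contDiffOn hΩ hA hf (by norm_num) (by norm_cast) a).2
    simp only [Wb_eq] at h3
    exact (h3.differentiableOn (by norm_num)).differentiableAt hn
  unfold HC
  rw [(W_congr' A h1 c).1, (W_add' A (h2 hf) (h2 hg) c).1, (W_add' A (hfd x hx) (hgd x hx) 1).2]
  ring

/-- holomorphic functions have no complex Hessian -/
private theorem HC_hol {A : C2 → ℂ} (hA : BA Up A) {f : C2 → ℂ} (hf : ContDiffOn ℝ 2 f Up)
    (hw : ∀ x ∈ Up, ∀ d, W A d f x = 0) (a c : Fin 2) {x : C2} (hx : x ∈ Up) :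
    HC A a c f x = 0 := by
  have h := HV_symm up_open hA hf a c x hx
  rw [H_eq] at h
  rw [h]
  have e : (fun y => WV A c f y) =ᶠ[𝓝 x] fun _ => (0 : ℂ) := by
    filter_upwards [up_open.mem_nhds hx] with y hy
    rw [W_eq, hw y hy]
  rw [(WV_congr A e a).2, Wb_eq, W_eq, hw x hx, (W_const' A 0 x a).2, smul_zero, add_zero]

/-- the complex Hessian of `log |c|^2` vanishes -/
private theorem HC_log {A : C2 → ℂ} (hA : BA Up A) {f : C2 → ℂ} (hf : ContDiffOn ℝ 2 f Up)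
    (hn : ∀ x ∈ Up, f x ≠ 0) (hw : ∀ x ∈ Up, ∀ d, W A d f x = 0) (a c : Fin 2) {x : C2}
    (hx : x ∈ Up) : HC A a c (fun y => ((Real.log (‖f y‖ ^ 2) : ℝ) : ℂ)) x = 0 := by
  have hN : ∀ y, ((‖f y‖ ^ 2 : ℝ) : ℂ) = f y * star (f y) := by
    intro y
    have := Complex.mul_conj' (f y)
    push_cast
    exact this.symm
  have hsf : ContDiffOn ℝ 2 (fun y => star (f y)) Up := star_sm hf
  have hu : ContDiffOn ℝ 2 (fun y => ‖f y‖ ^ 2) Up := by
    have h1 : ContDiffOn ℝ 2 (fun y => (f y * star (f y)).re) Up :=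
      Complex.reCLM.contDiff.comp_contDiffOn (hf.mul hsf)
    refine h1.congr fun y hy => ?_
    rw [← hN, Complex.ofReal_re]
  have hpos : ∀ y ∈ Up, ‖f y‖ ^ 2 ∈ Set.Ioi (0 : ℝ) := fun y hy =>
    pow_pos (norm_pos_iff.mpr (hn y hy)) 2
  have hlog : ContDiffOn ℝ 2 Real.log (Set.Ioi (0 : ℝ)) := fun t ht =>
    (Real.contDiffAt_log.mpr (ne_of_gt ht)).contDiffWithinAt
  have h := HC_comp up_open hA hu isOpen_Ioi hlog hpos a c x hx
  have hfd : ∀ y ∈ Up, DifferentiableAt ℝ f y := fun y hy =>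
    (hf.differentiableOn (by norm_num)).differentiableAt (up_open.mem_nhds hy)
  have efun : (fun y => ((‖f y‖ ^ 2 : ℝ) : ℂ)) = fun y => f y * star (f y) := funext hN
  have hm := W_mul' A (hfd x hx) (star_d (hfd x hx)) c
  have hm2 := W_mul' A (hfd x hx) (star_d (hfd x hx)) a
  have hsW := (W_star A f x a).2
  rw [hw x hx, star_zero] at hsW
  have hHf := HC_hol hA hf hw a c hx
  have hHs : HC A a c (fun y => star (f y)) x = 0 := by
    rw [HC_symm up_open hA hsf a c x hx]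
    simp only [star_star]
    rw [HC_hol hA hf hw c a hx, star_zero]
  have hHm := HC_mul up_open hA hf hsf a c x hx
  rw [hHf, hHs, hw x hx] at hHm
  have hd1 : deriv Real.log (‖f x‖ ^ 2) = (‖f x‖ ^ 2)⁻¹ := by
    rw [Real.deriv_log]
  have hd2 : deriv (deriv Real.log) (‖f x‖ ^ 2) = -((‖f x‖ ^ 2) ^ 2)⁻¹ := by
    rw [Real.deriv_log']
    exact deriv_inv
  have hne : ((‖f x‖ ^ 2 : ℝ) : ℂ) ≠ 0 := Complex.ofReal_ne_zero.mpr (ne_of_gt (hpos x hx))
  rw [h, efun, hHm, hm.1, hm2.2, hsW, hw x hx, hd1, hd2]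
  rw [Complex.ofReal_neg, Complex.ofReal_inv, Complex.ofReal_inv, Complex.ofReal_pow (‖f x‖ ^ 2) 2]
  have hN' := hN x
  rw [hN'] at hne ⊢
  have hf0 : f x ≠ 0 := hn x hx
  have hs0 : star (f x) ≠ 0 := star_ne_zero.mpr hf0
  field_simp
  ring

/-- invariance of the metric -/
theorem kerr_gm (γ : G) : ∀ x ∈ Up, ∀ a c, gm K.A a c x =
    ∑ a', ∑ c', MM K.A (K.al γ) a' a x * star (MM K.A (K.al γ) c' c x) *
      gm K.A a' c' (K.al γ x) := by
  intro x hx a c
  obtain ⟨cc, hcs, hcn, hcw, hcv, hci⟩ := kerr_fac K γ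
  have hpot : ContDiffOn ℝ 2 pot Up := by
    have h1 : ContDiffOn ℝ 2 (fun x : C2 => (x 1).im) Up :=
      Complex.imCLM.contDiff.comp_contDiffOn ((coord_sm 1).of_le (by norm_cast))
    have h2 : ContDiffOn ℝ 2 (fun x : C2 => -Real.log (x 1).im) Up :=
      (h1.log fun x hx => ne_of_gt hx).neg
    exact Complex.ofRealCLM.contDiff.comp_contDiffOn h2
  have h := law2 up_open up_open K.ba K.ba (al_sm K γ) (K.maps γ) ((kerr_hol K).2 γ) hpot x hx a c
  simp only [H_eq, smul_eq_mul] at h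
  unfold gm
  rw [← h]
  have hlogc : ContDiffOn ℝ 2 (fun y => ((-Real.log (‖cc y‖ ^ 2) : ℝ) : ℂ)) Up := by
    have h1 : ContDiffOn ℝ 2 (fun y => (cc y * star (cc y)).re) Up :=
      Complex.reCLM.contDiff.comp_contDiffOn
        ((hcs.of_le (by norm_cast)).mul (star_sm (hcs.of_le (by norm_cast))))
    have h2 : ContDiffOn ℝ 2 (fun y => ‖cc y‖ ^ 2) Up := by
      refine h1.congr fun y hy => ?_
      have := Complex.mul_conj' (cc y)
      change ‖cc y‖ ^ 2 = (cc y * (starRingEnd ℂ) (cc y)).re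
      rw [this, ← Complex.ofReal_pow, Complex.ofReal_re]
    exact Complex.ofRealCLM.contDiff.comp_contDiffOn
      ((h2.log fun y hy => ne_of_gt (pow_pos (norm_pos_iff.mpr (hcn y hy)) 2)).neg)
  have e : (fun y => pot (K.al γ y)) =ᶠ[𝓝 x]
      fun y => ((-Real.log (‖cc y‖ ^ 2) : ℝ) : ℂ) + pot y := by
    filter_upwards [up_open.mem_nhds hx] with y hy
    unfold pot
    rw [hci y hy, Real.log_mul (ne_of_gt (pow_pos (norm_pos_iff.mpr (hcn y hy)) 2)) (ne_of_gt hy),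
      ← Complex.ofReal_add]
    congr 1
    ring
  have e2 := HV_congr K.A e a c
  rw [H_eq, H_eq] at e2
  rw [e2, HC_add up_open K.ba.sm hlogc hpot a c hx]
  have hz := HC_log K.ba (hcs.of_le (by norm_cast)) hcn hcw a c hx
  have hz2 : HC K.A a c (fun y => ((-Real.log (‖cc y‖ ^ 2) : ℝ) : ℂ)) x = 0 := by
    have h3 := HC_add up_open K.ba.sm hlogc (g := fun y => ((Real.log (‖cc y‖ ^ 2) : ℝ) : ℂ)) (by
      have h4 := hlogc.neg
      refine h4.congr fun y hy => ?_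
      rw [← Complex.ofReal_neg, neg_neg]) a c hx
    have h5 : (fun y => ((-Real.log (‖cc y‖ ^ 2) : ℝ) : ℂ) + ((Real.log (‖cc y‖ ^ 2) : ℝ) : ℂ)) =
        fun _ => (0 : ℂ) := by
      funext y
      rw [← Complex.ofReal_add, neg_add_cancel, Complex.ofReal_zero]
    rw [h5, hz, add_zero] at h3
    rw [← h3]
    unfold HC
    have h6 : (fun y => Wb K.A a (fun _ : C2 => (0 : ℂ)) y) = fun _ => (0 : ℂ) :=
      funext fun y => (W_const' K.A 0 y a).2
    rw [h6, (W_const' K.A 0 x c).1, (W_const' K.A 0 x 1).2, mul_zero, add_zero]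
  rw [hz2, zero_add]

/-- the complex Jacobian -/
noncomputable def jac (γ : G) (x : C2) : ℂ :=
  MM K.A (K.al γ) 0 0 x * MM K.A (K.al γ) 1 1 x - MM K.A (K.al γ) 0 1 x * MM K.A (K.al γ) 1 0 x

/-- invariance of the volume -/
theorem kerr_wA (γ : G) : ∀ x ∈ Up, wA K.A x = ‖jac K γ x‖ ^ 2 * wA K.A (K.al γ x) ∧
    jac K γ x ≠ 0 := by
  intro x hx
  have h1 := (gm_explicit K.ba x hx).2.2.2.2.2
  have h2 := (gm_explicit K.ba _ (K.maps γ x hx)).2.2.2.2.2
  have h3 := kerr_gm K γ x hx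
  have hj : ((‖jac K γ x‖ ^ 2 : ℝ) : ℂ) = jac K γ x * star (jac K γ x) := by
    have := Complex.mul_conj' (jac K γ x)
    push_cast
    exact this.symm
  have h4 : wA K.A x = ‖jac K γ x‖ ^ 2 * wA K.A (K.al γ x) := by
    rw [← Complex.ofReal_inj, Complex.ofReal_mul, hj, ← h1, ← h2, h3 1 1, h3 0 0, h3 1 0, h3 0 1]
    unfold jac
    simp only [Fin.sum_univ_two, star_sub, star_mul']
    ring
  refine ⟨h4, fun h0 => ?_⟩
  rw [h0, norm_zero] at h4
  have h5 := (wA_pos K.ba K.pos x hx).1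
  rw [h4] at h5
  simp at h5

private theorem al_inj (γ : G) : Set.InjOn (K.al γ) Up := by
  intro x hx y hy h
  have h1 := K.mul γ⁻¹ γ x hx
  have h2 := K.mul γ⁻¹ γ y hy
  rw [inv_mul_cancel, K.one x hx] at h1
  rw [inv_mul_cancel, K.one y hy] at h2
  rw [h1, h2, h]

private theorem al_img (γ : G) : K.al γ '' Up = Up := by
  apply Set.Subset.antisymm
  · rintro _ ⟨x, hx, rfl⟩
    exact K.maps γ x hx
  · intro y hy
    refine ⟨K.al γ⁻¹ y, K.maps _ y hy, ?_⟩
    rw [← K.mul γ γ⁻¹ y hy, mul_inv_cancel, K.one y hy]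

private theorem al_d (γ : G) {x : C2} (hx : x ∈ Up) : DifferentiableAt ℝ (K.al γ) x :=
  ((al_sm K γ).differentiableOn (by simp)).differentiableAt (up_open.mem_nhds hx)

private theorem al_jac (γ : G) {x : C2} (hx : x ∈ Up) :
    |(fderiv ℝ (K.al γ) x).det| = ‖jac K γ x‖ ^ 2 :=
  law_jac ((kerr_hol K).2 γ) hx (al_d K γ hx)

private theorem cov1 (γ : G) (f : C2 → ℝ≥0∞) :
    ∫⁻ x in Up, f (K.al γ x) * ENNReal.ofReal (‖jac K γ x‖ ^ 2) = ∫⁻ x in Up, f x := by
  have h := lintegral_image_eq_lintegral_abs_det_fderiv_mul (volume : Measure C2)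
    up_open.measurableSet (fun x hx => (al_d K γ hx).hasFDerivAt.hasFDerivWithinAt)
    (al_inj K γ) f
  rw [al_img] at h
  rw [h]
  refine setLIntegral_congr_fun up_open.measurableSet fun x hx => ?_
  rw [al_jac K γ hx, mul_comm]

/-- change of variables -/
theorem kerr_cov (γ : G) : Set.InjOn (K.al γ) Up ∧ K.al γ '' Up = Up ∧
    (∀ f : C2 → ℝ≥0∞, Measurable f → ∫⁻ x in Up, f (K.al γ x) * ENNReal.ofReal (‖jac K γ x‖ ^ 2) =
      ∫⁻ x in Up, f x) ∧
    (∀ f : C2 → ℝ≥0∞, Measurable f → ∫⁻ x in Up, f (K.al γ x) * ENNReal.ofReal (wA K.A x) =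
      ∫⁻ x in Up, f x * ENNReal.ofReal (wA K.A x)) ∧
    ∀ f : C2 → ℂ, ∫ x in Up, ((‖jac K γ x‖ ^ 2 : ℝ) : ℂ) * f (K.al γ x) = ∫ x in Up, f x := by
  refine ⟨al_inj K γ, al_img K γ, fun f _ => cov1 K γ f, fun f _ => ?_, fun f => ?_⟩
  · rw [← cov1 K γ fun x => f x * ENNReal.ofReal (wA K.A x)]
    refine setLIntegral_congr_fun up_open.measurableSet fun x hx => ?_
    rw [(kerr_wA K γ x hx).1, ENNReal.ofReal_mul (sq_nonneg _)]
    ring
  · have h := integral_image_eq_integral_abs_det_fderiv_smul (volume : Measure C2)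
      up_open.measurableSet (fun x hx => (al_d K γ hx).hasFDerivAt.hasFDerivWithinAt)
      (al_inj K γ) f
    rw [al_img] at h
    rw [h]
    refine setIntegral_congr_fun up_open.measurableSet fun x hx => ?_
    change ((‖jac K γ x‖ ^ 2 : ℝ) : ℂ) * f (K.al γ x) =
      |(fderiv ℝ (K.al γ) x).det| • f (K.al γ x)
    rw [al_jac K γ hx, Complex.real_smul]

/-- invariance of the Laplacian -/
theorem kerr_lap {E : Type*} [NormedAddCommGroup E] [NormedSpace ℂ E] {f : C2 → E}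
    (hf : ContDiffOn ℝ 2 f Up) (γ : G) : ∀ x ∈ Up,
    LV K.A (fun y => f (K.al γ y)) x = LV K.A f (K.al γ x) := by
  intro x hx
  have h := law2 up_open up_open K.ba K.ba (al_sm K γ) (K.maps γ) ((kerr_hol K).2 γ) hf x hx
  have h3 := kerr_gm K γ x hx
  obtain ⟨hw, hj0⟩ := kerr_wA K γ x hx
  have hj : ((‖jac K γ x‖ ^ 2 : ℝ) : ℂ) = jac K γ x * star (jac K γ x) := by
    have := Complex.mul_conj' (jac K γ x)
    push_cast
    exact this.symm
  have hT : trV K.A (fun a c => HV K.A a c (fun y => f (K.al γ y)) x) x =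
      (jac K γ x * star (jac K γ x)) •
        trV K.A (fun a c => HV K.A a c f (K.al γ x)) (K.al γ x) := by
    unfold trV
    simp only [h, h3 0 0, h3 1 1, h3 1 0, h3 0 1]
    unfold jac
    simp only [Fin.sum_univ_two, star_sub, star_mul']
    match_scalars
    all_goals ring
  unfold LV
  rw [hT, hw, Complex.ofReal_mul, hj, smul_smul]
  congr 1
  have hs0 : star (jac K γ x) ≠ 0 := star_ne_zero.mpr hj0
  have hw0 : ((wA K.A (K.al γ x) : ℝ) : ℂ) ≠ 0 :=
    Complex.ofReal_ne_zero.mpr (ne_of_gt (wA_pos K.ba K.pos _ (K.maps γ x hx)).1)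
  field_simp

end Pool.Agent.MPd01a95
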