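import Mathlib
import Pool.Agent.Lib.MP_d01a95_gt_S.VDefs
import Pool.Agent.Lib.MP_d01a95_gt_S.Vcht
import Pool.Agent.Lib.MP_d01a95_gt_S.Vsym

/-!
Project SU(2,2), part (2), module Vmax.
-/

set_option autoImplicit false
set_option linter.all false

open Matrix Filter Topology MeasureTheory Measure
open scoped ENNReal NNReal ContDiff

namespace Pool.Agent.MPd01a95

namespace Vmax

theorem r_ff {f : C2 → ℝ} {x : C2} (hf : ContDiffAt ℝ 2 f x) (u v : C2) :
    fderiv ℝ (fun y => fderiv ℝ f y u) x v = fderiv ℝ (fderiv ℝ f) x v u := by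
  have h1 : DifferentiableAt ℝ (fderiv ℝ f) x :=
    (hf.fderiv_right (m := 1) (by norm_num)).differentiableAt (by norm_num)
  have h2 := (h1.hasFDerivAt.clm_apply (hasFDerivAt_const u x)).fderiv
  rw [h2]
  simp

theorem r_fd {f : C2 → ℝ} {x : C2} (hf : ContDiffAt ℝ 2 f x) (u : C2) :
    DifferentiableAt ℝ (fun y => fderiv ℝ f y u) x := by
  have h1 : DifferentiableAt ℝ (fderiv ℝ f) x :=
    (hf.fderiv_right (m := 1) (by norm_num)).differentiableAt (by norm_num)
  exact h1.clm_apply (differentiableAt_const u)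

theorem r_sym {f : C2 → ℝ} {x : C2} (hf : ContDiffAt ℝ 2 f x) (u v : C2) :
    fderiv ℝ (fderiv ℝ f) x u v = fderiv ℝ (fderiv ℝ f) x v u :=
  (hf.isSymmSndFDerivAt (by simp)) u v

/-- second derivative test on a line -/
theorem sd_test {f : C2 → ℝ} {x : C2} (hf : ContDiffAt ℝ 2 f x) (hm : IsLocalMax f x) (u : C2) :
    fderiv ℝ (fderiv ℝ f) x u u ≤ 0 := by
  by_contra hcon
  rw [not_le] at hcon
  have hline : ∀ t : ℝ, HasDerivAt (fun t : ℝ => x + t • u) u t := fun t => by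
    simpa using ((hasDerivAt_id t).smul_const u).const_add x
  have hev : ∀ᶠ y in 𝓝 x, ContDiffAt ℝ 2 f y := hf.eventually (by simp)
  have hcont : Tendsto (fun t : ℝ => x + t • u) (𝓝 0) (𝓝 x) := by
    have h := (hline 0).continuousAt
    simpa [ContinuousAt] using h
  have hd : ∀ᶠ t in 𝓝 (0 : ℝ), HasDerivAt (fun t : ℝ => f (x + t • u))
      (fderiv ℝ f (x + t • u) u) t := by
    filter_upwards [hcont.eventually hev] with t ht
    have h1 : HasFDerivAt f (fderiv ℝ f (x + t • u)) (x + t • u) :=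
      (ht.differentiableAt (by norm_num)).hasFDerivAt
    exact h1.comp_hasDerivAt t (hline t)
  have hderiv : deriv (fun t : ℝ => f (x + t • u)) =ᶠ[𝓝 0]
      fun t => fderiv ℝ f (x + t • u) u := by
    filter_upwards [hd] with t ht
    exact ht.deriv
  have hd2 : HasDerivAt (fun t : ℝ => fderiv ℝ f (x + t • u) u)
      (fderiv ℝ (fderiv ℝ f) x u u) 0 := by
    have h1 : HasFDerivAt (fun y => fderiv ℝ f y u) (fderiv ℝ (fun y => fderiv ℝ f y u) x)
        (x + (0 : ℝ) • u) := by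
      rw [zero_smul, add_zero]
      exact (r_fd hf u).hasFDerivAt
    have h2 := h1.comp_hasDerivAt (0 : ℝ) (hline 0)
    rw [r_ff hf] at h2
    exact h2
  have hdd : deriv (deriv (fun t : ℝ => f (x + t • u))) 0 = fderiv ℝ (fderiv ℝ f) x u u := by
    rw [hderiv.deriv_eq]
    exact hd2.deriv
  have hmax : IsLocalMax (fun t : ℝ => f (x + t • u)) 0 := by
    have h1 : ∀ᶠ t in 𝓝 (0 : ℝ), f (x + t • u) ≤ f x := hcont.eventually hm
    change ∀ᶠ t in 𝓝 (0 : ℝ), f (x + t • u) ≤ f (x + (0 : ℝ) • u)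
    rw [zero_smul, add_zero]
    exact h1
  have hd0 : deriv (fun t : ℝ => f (x + t • u)) 0 = 0 := hmax.deriv_eq_zero
  have hc0 : ContinuousAt (fun t : ℝ => f (x + t • u)) 0 := hd.self_of_nhds.continuousAt
  have hmin : IsLocalMin (fun t : ℝ => f (x + t • u)) 0 :=
    isLocalMin_of_deriv_deriv_pos (by rw [hdd]; exact hcon) hd0 hc0
  have heq : (fun t : ℝ => f (x + t • u)) =ᶠ[𝓝 0] fun _ => f (x + (0 : ℝ) • u) := by
    filter_upwards [hmax, hmin] with t h1 h2
    exact le_antisymm h1 h2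
  have h3 : deriv (deriv (fun t : ℝ => f (x + t • u))) 0 = 0 := by
    have h1 : deriv (fun t : ℝ => f (x + t • u)) =ᶠ[𝓝 0]
        deriv (fun _ => f (x + (0 : ℝ) • u)) := heq.deriv
    rw [h1.deriv_eq]
    simp
  linarith

/-- the complexification of a real function -/
theorem cx_fderiv {f : C2 → ℝ} {x : C2} (hf : DifferentiableAt ℝ f x) (u : C2) :
    fderiv ℝ (fun y => (f y : ℂ)) x u = ((fderiv ℝ f x u : ℝ) : ℂ) := by
  have h := (Complex.ofRealCLM.hasFDerivAt (x := f x)).comp x hf.hasFDerivAt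
  have h2 : fderiv ℝ (fun y => (f y : ℂ)) x = _ := h.fderiv
  rw [h2]
  rfl

theorem cx_contDiffAt {f : C2 → ℝ} {x : C2} (hf : ContDiffAt ℝ 2 f x) :
    ContDiffAt ℝ 2 (fun y => (f y : ℂ)) x :=
  (Complex.ofRealCLM.contDiff.contDiffAt (x := f x)).comp x hf

theorem cx_fderiv2 {f : C2 → ℝ} {x : C2} (hf : ContDiffAt ℝ 2 f x) (u v : C2) :
    fderiv ℝ (fderiv ℝ (fun y => (f y : ℂ))) x v u =
      ((fderiv ℝ (fderiv ℝ f) x v u : ℝ) : ℂ) := by
  rw [← Vs.fderiv_fderiv_apply (cx_contDiffAt hf), ← r_ff hf]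
  have hev : ∀ᶠ y in 𝓝 x, ContDiffAt ℝ 2 f y := hf.eventually (by simp)
  have h1 : (fun y => fderiv ℝ (fun y => (f y : ℂ)) y u) =ᶠ[𝓝 x]
      fun y => ((fderiv ℝ f y u : ℝ) : ℂ) := by
    filter_upwards [hev] with y hy
    exact cx_fderiv (hy.differentiableAt (by norm_num)) u
  rw [h1.fderiv_eq]
  exact cx_fderiv (r_fd hf u) v

/-- the complex Hessian at a critical point -/
theorem HC_crit {A : C2 → ℂ} (hA : BA Up A) {f : C2 → ℝ} {x : C2} (hx : x ∈ Up)
    (hf : ContDiffAt ℝ 2 f x) (h0 : fderiv ℝ f x = 0) (X : Fin 2 → ℂ) :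
    (∑ a, ∑ c, X a * star (X c) * HC A a c (fun y => (f y : ℂ)) x).re =
      fderiv ℝ (fderiv ℝ f) x
        (((X 0).re / 2) • (Pi.single 0 1 : C2) + ((X 0).im / 2) • (Pi.single 0 Complex.I : C2) +
          (((X 0 * star (A x)).re + (X 1).re) / 2) • (Pi.single 1 1 : C2) +
          (((X 1).im - (X 0 * star (A x)).im) / 2) • (Pi.single 1 Complex.I : C2))
        (((X 0).re / 2) • (Pi.single 0 1 : C2) + ((X 0).im / 2) • (Pi.single 0 Complex.I : C2) +
          (((X 0 * star (A x)).re + (X 1).re) / 2) • (Pi.single 1 1 : C2) +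
          (((X 1).im - (X 0 * star (A x)).im) / 2) • (Pi.single 1 Complex.I : C2)) +
      fderiv ℝ (fderiv ℝ f) x
        (((X 0).im / 2) • (Pi.single 0 1 : C2) + (-(X 0).re / 2) • (Pi.single 0 Complex.I : C2) +
          (((X 0 * star (A x)).im + (X 1).im) / 2) • (Pi.single 1 1 : C2) +
          (((X 0 * star (A x)).re - (X 1).re) / 2) • (Pi.single 1 Complex.I : C2))
        (((X 0).im / 2) • (Pi.single 0 1 : C2) + (-(X 0).re / 2) • (Pi.single 0 Complex.I : C2) +
          (((X 0 * star (A x)).im + (X 1).im) / 2) • (Pi.single 1 1 : C2) +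
          (((X 0 * star (A x)).re - (X 1).re) / 2) • (Pi.single 1 Complex.I : C2)) := by
  have hUp : IsOpen Up := isOpen_lt continuous_const
    (Complex.continuous_im.comp (continuous_apply 1))
  have hF := cx_contDiffAt hf
  have hF0 : ∀ u, fderiv ℝ (fun y => (f y : ℂ)) x u = 0 := by
    intro u
    rw [cx_fderiv (hf.differentiableAt (by norm_num)), h0]
    simp
  have hdd0 : ∀ a, dd (fun y => (f y : ℂ)) a x = 0 := by
    intro a
    unfold dd
    rw [hF0, hF0]
    simp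
  have hdb0 : ∀ a, db (fun y => (f y : ℂ)) a x = 0 := by
    intro a
    unfold db
    rw [hF0, hF0]
    simp
  -- derivatives of the first derivatives
  have hAs : DifferentiableAt ℝ (fun y => star (A y)) x := Vs.diffAs hUp hA hx
  have hdW1 : ∀ v, fderiv ℝ (fun y => Wb A 1 (fun y => (f y : ℂ)) y) x v =
      (1 / 2 : ℂ) * (((fderiv ℝ (fderiv ℝ f) x v (Pi.single 1 1) : ℝ) : ℂ) -
        Complex.I * ((fderiv ℝ (fderiv ℝ f) x v (Pi.single 1 Complex.I) : ℝ) : ℂ)) := by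
    intro v
    have h1 : (fun y => Wb A 1 (fun y => (f y : ℂ)) y) =
        fun y => ddV (fun y => (f y : ℂ)) 1 y := by
      funext y
      unfold Wb
      simp only [if_true]
      rfl
    rw [h1, Vs.fderiv_ddV hF, cx_fderiv2 hf, cx_fderiv2 hf, smul_eq_mul, smul_eq_mul]
  have hdW0 : ∀ v, fderiv ℝ (fun y => Wb A 0 (fun y => (f y : ℂ)) y) x v =
      (1 / 2 : ℂ) * (((fderiv ℝ (fderiv ℝ f) x v (Pi.single 0 1) : ℝ) : ℂ) -
        Complex.I * ((fderiv ℝ (fderiv ℝ f) x v (Pi.single 0 Complex.I) : ℝ) : ℂ)) +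
      star (A x) * ((1 / 2 : ℂ) * (((fderiv ℝ (fderiv ℝ f) x v (Pi.single 1 1) : ℝ) : ℂ) +
        Complex.I * ((fderiv ℝ (fderiv ℝ f) x v (Pi.single 1 Complex.I) : ℝ) : ℂ))) := by
    intro v
    have h1 : (fun y => Wb A 0 (fun y => (f y : ℂ)) y) =
        fun y => ddV (fun y => (f y : ℂ)) 0 y + star (A y) * dbV (fun y => (f y : ℂ)) 1 y := by
      funext y
      unfold Wb
      simp only [zero_ne_one, if_false]
      rfl
    have h2 := ((Vs.diff_ddV hF 0).1.hasFDerivAt.add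
      (hAs.hasFDerivAt.mul (Vs.diff_ddV hF 1).2.hasFDerivAt)).fderiv
    have h3 : fderiv ℝ (fun y => ddV (fun y => (f y : ℂ)) 0 y +
        star (A y) * dbV (fun y => (f y : ℂ)) 1 y) x = _ := h2
    rw [h1, h3]
    simp only [ContinuousLinearMap.add_apply, ContinuousLinearMap.smul_apply, smul_eq_mul]
    have h4 : dbV (fun y => (f y : ℂ)) 1 x = 0 := hdb0 1
    rw [h4, zero_mul, add_zero, Vs.fderiv_ddV hF, Vs.fderiv_dbV hF, cx_fderiv2 hf, cx_fderiv2 hf,
      cx_fderiv2 hf, cx_fderiv2 hf, smul_eq_mul, smul_eq_mul, smul_eq_mul, smul_eq_mul]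
  have hH : ∀ a c, HC A a c (fun y => (f y : ℂ)) x =
      W A c (fun y => Wb A a (fun y => (f y : ℂ)) y) x := by
    intro a c
    unfold HC
    have h1 : Wb A 1 (fun y => (f y : ℂ)) x = 0 := by
      unfold Wb
      simp only [if_true]
      exact hdd0 1
    rw [h1, mul_zero, add_zero]
  have hW1 : ∀ g : C2 → ℂ, W A 1 g x = (1 / 2 : ℂ) * (fderiv ℝ g x (Pi.single 1 1) +
      Complex.I * fderiv ℝ g x (Pi.single 1 Complex.I)) := by
    intro g
    unfold W db
    simp only [if_true]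
  have hW0 : ∀ g : C2 → ℂ, W A 0 g x = (1 / 2 : ℂ) * (fderiv ℝ g x (Pi.single 0 1) +
      Complex.I * fderiv ℝ g x (Pi.single 0 Complex.I)) +
      A x * ((1 / 2 : ℂ) * (fderiv ℝ g x (Pi.single 1 1) -
      Complex.I * fderiv ℝ g x (Pi.single 1 Complex.I))) := by
    intro g
    unfold W db dd
    simp only [zero_ne_one, if_false]
  have s01 := r_sym hf (Pi.single 0 Complex.I) (Pi.single 0 1)
  have s02 := r_sym hf (Pi.single 1 1) (Pi.single 0 1)
  have s03 := r_sym hf (Pi.single 1 Complex.I) (Pi.single 0 1)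
  have s12 := r_sym hf (Pi.single 1 1) (Pi.single 0 Complex.I)
  have s13 := r_sym hf (Pi.single 1 Complex.I) (Pi.single 0 Complex.I)
  have s23 := r_sym hf (Pi.single 1 Complex.I) (Pi.single 1 1)
  simp only [Fin.sum_univ_two, hH, hW0, hW1, hdW0, hdW1, map_add, map_smul,
    ContinuousLinearMap.add_apply, ContinuousLinearMap.smul_apply, smul_eq_mul]
  rw [s01, s02, s03, s12, s13, s23]
  generalize fderiv ℝ (fderiv ℝ f) x (Pi.single 0 1) (Pi.single 0 1) = h00
  generalize fderiv ℝ (fderiv ℝ f) x (Pi.single 0 1) (Pi.single 0 Complex.I) = h01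
  generalize fderiv ℝ (fderiv ℝ f) x (Pi.single 0 1) (Pi.single 1 1) = h02
  generalize fderiv ℝ (fderiv ℝ f) x (Pi.single 0 1) (Pi.single 1 Complex.I) = h03
  generalize fderiv ℝ (fderiv ℝ f) x (Pi.single 0 Complex.I) (Pi.single 0 Complex.I) = h11
  generalize fderiv ℝ (fderiv ℝ f) x (Pi.single 0 Complex.I) (Pi.single 1 1) = h12
  generalize fderiv ℝ (fderiv ℝ f) x (Pi.single 0 Complex.I) (Pi.single 1 Complex.I) = h13
  generalize fderiv ℝ (fderiv ℝ f) x (Pi.single 1 1) (Pi.single 1 1) = h22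
  generalize fderiv ℝ (fderiv ℝ f) x (Pi.single 1 1) (Pi.single 1 Complex.I) = h23
  generalize fderiv ℝ (fderiv ℝ f) x (Pi.single 1 Complex.I) (Pi.single 1 Complex.I) = h33
  generalize A x = α
  generalize X 0 = p
  generalize X 1 = q
  obtain ⟨α1, α2⟩ := α
  obtain ⟨p1, p2⟩ := p
  obtain ⟨q1, q2⟩ := q
  simp only [Complex.star_def, Complex.add_re, Complex.add_im, Complex.sub_re, Complex.sub_im,
    Complex.mul_re, Complex.mul_im, Complex.conj_re, Complex.conj_im, Complex.I_re, Complex.I_im,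
    Complex.ofReal_re, Complex.ofReal_im, Complex.one_re, Complex.one_im]
  have hhalf : (1 / 2 : ℂ) = ((1 / 2 : ℝ) : ℂ) := by push_cast; ring
  rw [hhalf]
  simp only [Complex.ofReal_re, Complex.ofReal_im]
  ring

end Vmax

/-- the complex Hessian at a local maximum -/
theorem levi_max {A : C2 → ℂ} (hA : BA Up A) {f : C2 → ℝ} (hf : ContDiffOn ℝ 2 f Up) {x : C2}
    (hx : x ∈ Up) (hm : IsLocalMax f x) (X : Fin 2 → ℂ) :
    (∑ a, ∑ c, X a * star (X c) * HC A a c (fun y => (f y : ℂ)) x).re ≤ 0 := by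
  have hUp : IsOpen Up := isOpen_lt continuous_const
    (Complex.continuous_im.comp (continuous_apply 1))
  have hfx : ContDiffAt ℝ 2 f x := hf.contDiffAt (hUp.mem_nhds hx)
  rw [Vmax.HC_crit hA hx hfx hm.fderiv_eq_zero X]
  exact add_nonpos (Vmax.sd_test hfx hm _) (Vmax.sd_test hfx hm _)

/-- maximum principle at infinity for functions which are nowhere strictly concave -/
theorem max_inf {A : C2 → ℂ} (hA : BA Up A) {f p : C2 → ℝ} (hf : ContDiffOn ℝ 2 f Up)
    (hp : ContDiffOn ℝ 2 p Up) (hb : ∃ B : ℝ, ∀ x ∈ Up, |p x| ≤ B)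
    (h1 : ∀ x ∈ Up, ∃ X : Fin 2 → ℂ, X ≠ 0 ∧
      0 ≤ (∑ a, ∑ c, X a * star (X c) * HC A a c (fun y => (f y : ℂ)) x).re)
    (h2 : ∀ x ∈ Up, ∀ X : Fin 2 → ℂ, X ≠ 0 →
      0 < (∑ a, ∑ c, X a * star (X c) * HC A a c (fun y => (p y : ℂ)) x).re)
    (h0 : ∀ δ > 0, ∃ C ⊆ Up, IsCompact C ∧ ∀ x ∈ Up, x ∉ C → f x < δ) :
    ∀ x ∈ Up, f x ≤ 0 := by
  have hUp : IsOpen Up := isOpen_lt continuous_const
    (Complex.continuous_im.comp (continuous_apply 1))
  intro x₀ hx₀
  by_contra hcon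
  rw [not_le] at hcon
  obtain ⟨B, hB⟩ := hb
  have hB0 : 0 ≤ B := (abs_nonneg _).trans (hB x₀ hx₀)
  obtain ⟨e, he, heB⟩ : ∃ e : ℝ, 0 < e ∧ 2 * e * B < f x₀ / 2 := by
    refine ⟨f x₀ / (4 * (B + 1)) / 2, by positivity, ?_⟩
    have h3 : (0 : ℝ) < 4 * (B + 1) := by linarith
    rw [show 2 * (f x₀ / (4 * (B + 1)) / 2) * B = f x₀ * B / (4 * (B + 1)) by ring,
      div_lt_div_iff₀ h3 (by norm_num)]
    nlinarith
  obtain ⟨C, hCU, hC, hCo⟩ := h0 (f x₀ / 2) (by linarith)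
  set F : C2 → ℝ := fun y => f y + e * p y with hFdef
  have hx₀C : x₀ ∈ C := by
    by_contra hn
    have := hCo x₀ hx₀ hn
    linarith
  have hFc : ContinuousOn F C := ((hf.continuousOn.add (hp.continuousOn.const_smul e)).mono hCU)
  obtain ⟨x, hxC, hxm⟩ := hC.exists_isMaxOn ⟨x₀, hx₀C⟩ hFc
  have hxU := hCU hxC
  have hmax : ∀ y ∈ Up, F y ≤ F x := by
    intro y hy
    by_cases hyC : y ∈ C
    · exact hxm hyC
    · have h3 := hCo y hy hyC
      have h4 : F x₀ ≤ F x := hxm hx₀C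
      have h5 := abs_le.1 (hB y hy)
      have h6 := abs_le.1 (hB x₀ hx₀)
      have h7 : e * p y ≤ e * B := mul_le_mul_of_nonneg_left h5.2 he.le
      have h8 : e * (-B) ≤ e * p x₀ := mul_le_mul_of_nonneg_left h6.1 he.le
      simp only [hFdef] at h4 ⊢
      nlinarith
  have hloc : IsLocalMax F x := by
    filter_upwards [hUp.mem_nhds hxU] with y hy
    exact hmax y hy
  have hF2 : ContDiffOn ℝ 2 F Up := hf.add (hp.const_smul e)
  obtain ⟨X, hX, hX1⟩ := h1 x hxU
  have hX2 := h2 x hxU X hX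
  have hlev := levi_max hA hF2 hxU hloc X
  -- additivity
  have hfx := Vmax.cx_contDiffAt (hf.contDiffAt (hUp.mem_nhds hxU))
  have hpx := Vmax.cx_contDiffAt (hp.contDiffAt (hUp.mem_nhds hxU))
  have hfn : ContDiffOn ℝ 2 (fun y => (f y : ℂ)) Up := fun y hy =>
    (Vmax.cx_contDiffAt (hf.contDiffAt (hUp.mem_nhds hy))).contDiffWithinAt
  have hpn : ContDiffOn ℝ 2 (fun y => (p y : ℂ)) Up := fun y hy =>
    (Vmax.cx_contDiffAt (hp.contDiffAt (hUp.mem_nhds hy))).contDiffWithinAt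
  have hadd : ∀ a c, HC A a c (fun y => (F y : ℂ)) x =
      HC A a c (fun y => (f y : ℂ)) x + (e : ℂ) * HC A a c (fun y => (p y : ℂ)) x := by
    intro a c
    have hcast : (fun y => (F y : ℂ)) = fun y => (f y : ℂ) + (e : ℂ) • (p y : ℂ) := by
      funext y
      simp only [hFdef]
      push_cast
      rfl
    have hfd : ∀ y ∈ Up, DifferentiableAt ℝ (fun y => (f y : ℂ)) y := fun y hy =>
      (hfn.contDiffAt (hUp.mem_nhds hy)).differentiableAt (by norm_num)
    have hpd : ∀ y ∈ Up, DifferentiableAt ℝ (fun y => (p y : ℂ)) y := fun y hy =>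
      (hpn.contDiffAt (hUp.mem_nhds hy)).differentiableAt (by norm_num)
    have hcd : ∀ y : C2, DifferentiableAt ℝ (fun _ : C2 => (e : ℂ)) y := fun y =>
      differentiableAt_const _
    have hzW : ∀ (y : C2) (c : Fin 2), W A c (fun _ : C2 => (e : ℂ)) y = 0 ∧
        Wb A c (fun _ : C2 => (e : ℂ)) y = 0 := by
      intro y c
      unfold W Wb db dd
      simp
    have hepd : ∀ y ∈ Up, DifferentiableAt ℝ (fun y => (e : ℂ) • (p y : ℂ)) y := fun y hy =>
      (hcd y).smul (hpd y hy)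
    have hWb : ∀ a, ∀ y ∈ Up, WbV A a (fun y => (f y : ℂ) + (e : ℂ) • (p y : ℂ)) y =
        WbV A a (fun y => (f y : ℂ)) y + (e : ℂ) • WbV A a (fun y => (p y : ℂ)) y := by
      intro a y hy
      rw [(WV_add A (hfd y hy) (hepd y hy) a).2, (WV_smul A (hcd y) (hpd y hy) a).2,
        (hzW y a).2, zero_smul, zero_add]
    have hd1 : DifferentiableAt ℝ (fun y => WbV A a (fun y => (f y : ℂ)) y) x :=
      (((WV_contDiffOn hUp hA.sm (m := 1) hfn (by norm_num) (by exact_mod_cast le_top) a).2).contDiffAt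
        (hUp.mem_nhds hxU)).differentiableAt (by simp)
    have hd2 : DifferentiableAt ℝ (fun y => WbV A a (fun y => (p y : ℂ)) y) x :=
      (((WV_contDiffOn hUp hA.sm (m := 1) hpn (by norm_num) (by exact_mod_cast le_top) a).2).contDiffAt
        (hUp.mem_nhds hxU)).differentiableAt (by simp)
    have hev : (fun y => WbV A a (fun y => (f y : ℂ) + (e : ℂ) • (p y : ℂ)) y) =ᶠ[𝓝 x]
        fun y => WbV A a (fun y => (f y : ℂ)) y + (e : ℂ) • WbV A a (fun y => (p y : ℂ)) y := by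
      filter_upwards [hUp.mem_nhds hxU] with y hy
      exact hWb a y hy
    rw [hcast, ← H_eq, ← H_eq, ← H_eq]
    unfold HV
    have hd3 : DifferentiableAt ℝ (fun y => (e : ℂ) • WbV A a (fun y => (p y : ℂ)) y) x :=
      (hcd x).smul hd2
    rw [(WV_congr A hev c).1, (WV_add A hd1 hd3 c).1,
      (WV_smul A (hcd x) hd2 c).1, (hzW x c).1, hWb 1 x hxU]
    simp only [smul_eq_mul]
    ring
  have hsum : (∑ a, ∑ c, X a * star (X c) * HC A a c (fun y => (F y : ℂ)) x).re =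
      (∑ a, ∑ c, X a * star (X c) * HC A a c (fun y => (f y : ℂ)) x).re +
        e * (∑ a, ∑ c, X a * star (X c) * HC A a c (fun y => (p y : ℂ)) x).re := by
    rw [← Complex.re_ofReal_mul, ← Complex.add_re]
    congr 1
    simp only [hadd, Finset.mul_sum, ← Finset.sum_add_distrib]
    refine Finset.sum_congr rfl fun a _ => Finset.sum_congr rfl fun c _ => ?_
    ring
  rw [hsum] at hlev
  have := mul_pos he hX2
  linarith

end Pool.Agent.MPd01a95
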