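import Mathlib
import Pool.Agent.Lib.MP_d01a95_gt_S.VDefs
import Pool.Agent.Lib.MP_d01a95_gt_S.Vcht
import Pool.Agent.Lib.MP_d01a95_gt_S.Vact
import Pool.Agent.Lib.MP_d01a95_gt_S.Vmax

/-!
Project SU(2,2), part (2), module Vbd.
-/

set_option autoImplicit false
set_option linter.all false

open Matrix Filter Topology MeasureTheory Measure
open scoped ENNReal NNReal ContDiff

namespace Pool.Agent.MPd01a95

variable {G : Type} [Group G] {σ : G →* GU (Fin 2)} (K : Kerr σ)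

/-- bounded holomorphic functions on the surface -/
noncomputable def fb (o : C2) (b : Fin 4 → ℂ) (x : C2) : ℂ :=
  h4 (vv K.A x) b / h4 (vv K.A x) (vv K.A o)

private theorem up_open : IsOpen Up :=
  isOpen_lt continuous_const (Complex.continuous_im.comp (continuous_apply 1))

private theorem W_const' (A : C2 → ℂ) (k : ℂ) (x : C2) (c : Fin 2) :
    W A c (fun _ => k) x = 0 ∧ Wb A c (fun _ => k) x = 0 := by
  unfold W Wb db dd
  simp

/-- functions killed by the (0,1) fields at a point -/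
private structure H0 (A : C2 → ℂ) (x : C2) (f : C2 → ℂ) : Prop where
  d : DifferentiableAt ℝ f x
  w : ∀ c, W A c f x = 0

private theorem H0.add {A : C2 → ℂ} {x : C2} {f g : C2 → ℂ} (hf : H0 A x f) (hg : H0 A x g) :
    H0 A x (fun y => f y + g y) :=
  ⟨hf.d.add hg.d, fun c => by rw [(Vs.W_add A hf.d hg.d c).1, hf.w, hg.w, add_zero]⟩

private theorem H0.mul {A : C2 → ℂ} {x : C2} {f g : C2 → ℂ} (hf : H0 A x f) (hg : H0 A x g) :
    H0 A x (fun y => f y * g y) :=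
  ⟨hf.d.mul hg.d, fun c => by rw [(Vs.W_mul A hf.d hg.d c).1, hf.w, hg.w, mul_zero, zero_mul,
    add_zero]⟩

private theorem H0.const (A : C2 → ℂ) (x : C2) (k : ℂ) : H0 A x (fun _ => k) :=
  ⟨differentiableAt_const _, fun c => (W_const' A k x c).1⟩

private theorem H0.inv {A : C2 → ℂ} {x : C2} {f : C2 → ℂ} (hf : H0 A x f) (h : f x ≠ 0) :
    H0 A x (fun y => (f y)⁻¹) := by
  have hd : DifferentiableAt ℝ (fun y => (f y)⁻¹) x := hf.d.inv h
  refine ⟨hd, fun c => ?_⟩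
  have h1 : (fun y => (f y)⁻¹ * f y) =ᶠ[𝓝 x] fun _ => (1 : ℂ) := by
    filter_upwards [hf.d.continuousAt.eventually_ne h] with y hy
    exact inv_mul_cancel₀ hy
  have h2 := (Vs.W_congr A h1 c).1
  rw [(Vs.W_mul A hd hf.d c).1, hf.w, mul_zero, add_zero, (W_const' A 1 x c).1] at h2
  exact (mul_eq_zero.mp h2).resolve_right h

private theorem W_coord (A : C2 → ℂ) (x : C2) :
    (W A 1 (fun y => y 0) x = 0 ∧ W A 0 (fun y => y 0) x = 0 ∧ W A 1 (fun y => y 1) x = 0 ∧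
    W A 0 (fun y => y 1) x = A x) ∧ Wb A 1 (fun y => y 0) x = 0 ∧ Wb A 0 (fun y => y 0) x = 1 ∧
    Wb A 1 (fun y => y 1) x = 1 := by
  have e : ∀ i : Fin 2, ∀ v : C2, fderiv ℝ (fun y : C2 => y i) x v = v i := by
    intro i v
    have h : HasFDerivAt (fun y : C2 => y i) (ContinuousLinearMap.proj (R := ℝ) i) x :=
      (ContinuousLinearMap.proj (R := ℝ) (φ := fun _ : Fin 2 => ℂ) i).hasFDerivAt
    rw [h.fderiv]
    rfl
  have hI : Complex.I * Complex.I = -1 := Complex.I_mul_I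
  unfold W Wb db dd
  simp only [e]
  refine ⟨⟨?_, ?_, ?_, ?_⟩, ?_, ?_, ?_⟩
  all_goals
    simp [hI]
  all_goals
    ring

private theorem coord_d (x : C2) (i : Fin 2) : DifferentiableAt ℝ (fun y : C2 => y i) x :=
  (ContinuousLinearMap.proj (R := ℝ) (φ := fun _ : Fin 2 => ℂ) i).differentiableAt

private theorem star_d {x : C2} {f : C2 → ℂ} (hf : DifferentiableAt ℝ f x) :
    DifferentiableAt ℝ (fun y : C2 => star (f y)) x :=
  Complex.conjCLE.differentiableAt.comp x hf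

/-- the homogeneous coordinates are holomorphic -/
private theorem vv_H0 {A : C2 → ℂ} (hA : BA Up A) {x : C2} (hx : x ∈ Up) (j : Fin 4) :
    H0 A x (fun y => vv A y j) := by
  have hAd : DifferentiableAt ℝ A x :=
    (hA.sm.differentiableOn (by simp)).differentiableAt (up_open.mem_nhds hx)
  obtain ⟨⟨w10, w00, w11, w01⟩, b10, b00, b11⟩ := W_coord A x
  have hWA : ∀ c, W A c A x = 0 := (W_A up_open hA x hx).1
  fin_cases j
  · exact ⟨hAd, hWA⟩
  · change H0 A x (fun y => y 1 - star (y 0) * A y)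
    have h0 : DifferentiableAt ℝ (fun y : C2 => star (y 0)) x := star_d (coord_d x 0)
    have hm : DifferentiableAt ℝ (fun y : C2 => star (y 0) * A y) x := h0.mul hAd
    have hn : DifferentiableAt ℝ (fun y : C2 => (-1 : ℂ) * (star (y 0) * A y)) x :=
      (differentiableAt_const _).mul hm
    have hfun : (fun y : C2 => y 1 - star (y 0) * A y) =
        fun y => y 1 + (-1 : ℂ) * (star (y 0) * A y) := by
      funext y
      ring
    rw [hfun]
    refine ⟨(coord_d x 1).add hn, fun c => ?_⟩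
    rw [(Vs.W_add A (coord_d x 1) hn c).1, (Vs.W_mul A (differentiableAt_const _) hm c).1,
      (Vs.W_mul A h0 hAd c).1, hWA, (W_const' A _ x c).1, (W_star A (fun y => y 0) x c).1]
    fin_cases c
    · change W A 0 (fun y => y 1) x + (0 * (star (x 0) * A x) +
        -1 * (star (Wb A 0 (fun y => y 0) x) * A x + star (x 0) * 0)) = 0
      rw [w01, b00, star_one]
      ring
    · change W A 1 (fun y => y 1) x + (0 * (star (x 0) * A x) +
        -1 * (star (Wb A 1 (fun y => y 0) x) * A x + star (x 0) * 0)) = 0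
      rw [w11, b10, star_zero]
      ring
  · refine ⟨coord_d x 0, fun c => ?_⟩
    fin_cases c
    · exact w00
    · exact w10
  · exact H0.const A x 1

private theorem coord_sm (i : Fin 2) : ContDiffOn ℝ ∞ (fun y : C2 => y i) Up :=
  (ContinuousLinearMap.proj (R := ℝ) (φ := fun _ : Fin 2 => ℂ) i).contDiff.contDiffOn

private theorem star_sm {k : WithTop ℕ∞} {Ω : Set C2} {f : C2 → ℂ} (hf : ContDiffOn ℝ k f Ω) :
    ContDiffOn ℝ k (fun y : C2 => star (f y)) Ω :=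
  Complex.conjCLE.contDiff.comp_contDiffOn hf

private theorem vv_sm {A : C2 → ℂ} (hA : BA Up A) (j : Fin 4) :
    ContDiffOn ℝ ∞ (fun y => vv A y j) Up := by
  fin_cases j
  · exact hA.sm
  · change ContDiffOn ℝ ∞ (fun y => y 1 - star (y 0) * A y) Up
    exact (coord_sm 1).sub ((star_sm (coord_sm 0)).mul hA.sm)
  · exact coord_sm 0
  · exact contDiffOn_const

private theorem h4_fun (A : C2 → ℂ) (w : Fin 4 → ℂ) : (fun y => h4 (vv A y) w) =
    fun y => ((Complex.I * star (w 3)) * vv A y 1 + (-Complex.I * star (w 1)) * vv A y 3) +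
      ((Complex.I * star (w 2)) * vv A y 0 + (-Complex.I * star (w 0)) * vv A y 2) := by
  funext y
  unfold h4
  ring

private theorem h4_H0 {A : C2 → ℂ} (hA : BA Up A) (w : Fin 4 → ℂ) {x : C2} (hx : x ∈ Up) :
    H0 A x (fun y => h4 (vv A y) w) := by
  rw [h4_fun]
  exact (((H0.const A x _).mul (vv_H0 hA hx 1)).add ((H0.const A x _).mul (vv_H0 hA hx 3))).add
    (((H0.const A x _).mul (vv_H0 hA hx 0)).add ((H0.const A x _).mul (vv_H0 hA hx 2)))

private theorem h4_sm {A : C2 → ℂ} (hA : BA Up A) (w : Fin 4 → ℂ) :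
    ContDiffOn ℝ ∞ (fun y => h4 (vv A y) w) Up := by
  rw [h4_fun]
  exact ((contDiffOn_const.mul (vv_sm hA 1)).add (contDiffOn_const.mul (vv_sm hA 3))).add
    ((contDiffOn_const.mul (vv_sm hA 0)).add (contDiffOn_const.mul (vv_sm hA 2)))

private theorem h4_ne {o : C2} (ho : o ∈ Up) {x : C2} (hx : x ∈ Up) :
    h4 (vv K.A x) (vv K.A o) ≠ 0 := by
  intro h
  have h1 := K.nneg x hx o ho
  unfold ps at h1
  rw [h, norm_zero] at h1
  norm_num at h1

private theorem fb_eq (o : C2) (b : Fin 4 → ℂ) :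
    fb K o b = fun x => h4 (vv K.A x) b * (h4 (vv K.A x) (vv K.A o))⁻¹ := by
  funext y
  exact div_eq_mul_inv _ _

theorem fb_hol {o : C2} (ho : o ∈ Up) (b : Fin 4 → ℂ) : LN.Smo (fb K o b) ∧
    (∀ x ∈ Up, ∀ c, W K.A c (fb K o b) x = 0) ∧
    ∀ x ∈ Up, h4 (vv K.A x) (vv K.A o) ≠ 0 := by
  refine ⟨?_, fun x hx c => ?_, fun x hx => h4_ne K ho hx⟩
  · rw [fb_eq]
    exact (h4_sm K.ba b).mul ((h4_sm K.ba (vv K.A o)).inv fun x hx => h4_ne K ho hx)
  · rw [fb_eq]
    exact ((h4_H0 K.ba b hx).mul ((h4_H0 K.ba (vv K.A o) hx).inv (h4_ne K ho hx))).w c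

private theorem al_cpt (γ : G) {C : Set C2} (hC : C ⊆ Up) (hc : IsCompact C) :
    K.al γ '' C ⊆ Up ∧ IsCompact (K.al γ '' C) := by
  refine ⟨?_, hc.image_of_continuousOn (((kerr_hol K).1 γ).continuousOn.mono hC)⟩
  rintro _ ⟨x, hx, rfl⟩
  exact K.maps γ x (hC hx)

private theorem al_inv (γ : G) {x : C2} (hx : x ∈ Up) : K.al γ⁻¹ (K.al γ x) = x := by
  rw [← K.mul γ⁻¹ γ x hx, inv_mul_cancel, K.one x hx]

private theorem fin_cpt {F : Set G} (hF : F.Finite) {C : Set C2} (hC : C ⊆ Up)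
    (hc : IsCompact C) : (⋃ γ ∈ F, K.al γ '' C) ⊆ Up ∧ IsCompact (⋃ γ ∈ F, K.al γ '' C) :=
  ⟨Set.iUnion₂_subset fun γ _ => (al_cpt K γ hC hc).1,
    hF.isCompact_biUnion fun γ _ => (al_cpt K γ hC hc).2⟩

/-- a property which holds for almost all translates of compact sets holds near infinity -/
theorem inf_of_fin {w : C2 → ℝ} (h : ∀ C ⊆ Up, IsCompact C → ∀ δ > 0,
    {γ | ∃ x ∈ C, δ ≤ w (K.al γ x)}.Finite) :
    ∀ δ > 0, ∃ C ⊆ Up, IsCompact C ∧ ∀ x ∈ Up, x ∉ C → w x < δ := by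
  intro δ hδ
  obtain ⟨K0, hU, hc, hcov⟩ := K.coc
  have hF := h K0 hU hc δ hδ
  obtain ⟨h1, h2⟩ := fin_cpt K hF hU hc
  refine ⟨_, h1, h2, fun x hx hn => ?_⟩
  by_contra hcon
  rw [not_lt] at hcon
  apply hn
  obtain ⟨γ, hγ⟩ := hcov x hx
  have e := al_inv K γ hx
  refine Set.mem_iUnion₂.mpr ⟨γ⁻¹, ⟨K.al γ x, hγ, ?_⟩, ⟨K.al γ x, hγ, e⟩⟩
  rw [e]
  exact hcon

private theorem act_sum (g : GU (Fin 2)) :
    ∑ i, ‖act g.M 0 i‖ ^ 2 = 1 - (GU.c g ^ 2)⁻¹ := by
  have h1 := HypAux.col_n g.M g.pres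
  have h2 := GU.c_ge_one g
  have e : ∀ i : Fin 2 ⊕ Unit, (g.M *ᵥ Sum.elim (0 : Fin 2 → ℂ) fun _ => 1) i =
      g.M i (Sum.inr ()) := by
    intro i
    simp [Matrix.mulVec, dotProduct, Fintype.sum_sum_type]
  have e2 : ∀ i, ‖act g.M 0 i‖ ^ 2 = ‖g.M (Sum.inl i) (Sum.inr ())‖ ^ 2 * (GU.c g ^ 2)⁻¹ := by
    intro i
    unfold act
    rw [e, e, norm_div, div_pow, div_eq_mul_inv]
    rfl
  simp only [e2]
  rw [← Finset.sum_mul, h1]
  change (GU.c g ^ 2 - 1) * (GU.c g ^ 2)⁻¹ = _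
  have h3 : GU.c g ^ 2 ≠ 0 := by positivity
  rw [sub_mul, mul_inv_cancel₀ h3, one_mul]

/-- finitely many neighbourhoods of boundary points catch almost all translates of the origin -/
private theorem cover (hL : Lat σ) (N : C2 → Set C2)
    (hN : ∀ η : C2, ∑ i, ‖η i‖ ^ 2 = 1 → N η ∈ 𝓝 η) :
    ∃ T : Finset C2, (∀ η ∈ T, ∑ i, ‖η i‖ ^ 2 = 1) ∧
      {γ | ∀ η ∈ T, act (σ γ).M 0 ∉ N η}.Finite := by
  have hcont : Continuous fun z : C2 => ∑ i, ‖z i‖ ^ 2 := by fun_prop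
  have hball : IsCompact {z : C2 | ∑ i, ‖z i‖ ^ 2 ≤ 1} := by
    refine Metric.isCompact_of_isClosed_isBounded (isClosed_le hcont continuous_const) ?_
    refine (Metric.isBounded_closedBall (x := (0 : C2)) (r := 1)).subset fun z hz => ?_
    rw [mem_closedBall_zero_iff, pi_norm_le_iff_of_nonneg zero_le_one]
    intro i
    have h1 : ‖z i‖ ^ 2 ≤ 1 :=
      (Finset.single_le_sum (f := fun i => ‖z i‖ ^ 2) (fun i _ => sq_nonneg _)
        (Finset.mem_univ i)).trans hz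
    exact (sq_le_one_iff₀ (norm_nonneg _)).mp h1
  have hsph : IsCompact {z : C2 | ∑ i, ‖z i‖ ^ 2 = 1} :=
    hball.of_isClosed_subset (isClosed_eq hcont continuous_const) fun z hz => le_of_eq hz
  obtain ⟨T, hT, hTc⟩ := hsph.elim_nhds_subcover (fun η => interior (N η))
    fun η hη => interior_mem_nhds.mpr (hN η hη)
  refine ⟨T, hT, ?_⟩
  set U : Set C2 := ⋃ η ∈ T, interior (N η) with hU
  have hUo : IsOpen U := isOpen_biUnion fun η _ => isOpen_interior
  -- a uniform bound outside the neighbourhoods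
  obtain ⟨m, hm1, hm⟩ : ∃ m : ℝ, m < 1 ∧ ∀ z : C2, ∑ i, ‖z i‖ ^ 2 ≤ 1 → z ∉ U →
      ∑ i, ‖z i‖ ^ 2 ≤ m := by
    have hK : IsCompact ({z : C2 | ∑ i, ‖z i‖ ^ 2 ≤ 1} \ U) := hball.diff hUo
    rcases ({z : C2 | ∑ i, ‖z i‖ ^ 2 ≤ 1} \ U).eq_empty_or_nonempty with he | hne
    · refine ⟨0, one_pos, fun z hz hzU => ?_⟩
      have h1 : z ∈ ({z : C2 | ∑ i, ‖z i‖ ^ 2 ≤ 1} \ U) := ⟨hz, hzU⟩
      rw [he] at h1
      exact absurd h1 (Set.notMem_empty z)
    · obtain ⟨z0, hz0, hmax⟩ := hK.exists_isMaxOn hne hcont.continuousOn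
      refine ⟨∑ i, ‖z0 i‖ ^ 2, lt_of_le_of_ne hz0.1 fun h1 => hz0.2 (hTc h1),
        fun z hz hzU => hmax ⟨hz, hzU⟩⟩
  have hfin := hL.finite_c (1 / (1 - m))
  refine hfin.subset fun γ hγ => ?_
  have hc1 := GU.c_ge_one (σ γ)
  have hsum := act_sum (σ γ)
  have hpos : 0 < (GU.c (σ γ) ^ 2)⁻¹ := by positivity
  have hnU : act (σ γ).M 0 ∉ U := by
    intro h1
    rw [hU] at h1
    obtain ⟨η, hη, h2⟩ := Set.mem_iUnion₂.mp h1
    exact hγ η hη (interior_subset h2)
  have h3 := hm (act (σ γ).M 0) (by rw [hsum]; linarith) hnU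
  rw [hsum] at h3
  have h4 : 1 - m ≤ (GU.c (σ γ) ^ 2)⁻¹ := by linarith
  have h5 : 0 < 1 - m := by linarith
  have h6 : GU.c (σ γ) ^ 2 ≤ (1 - m)⁻¹ := by
    rw [← inv_inv (GU.c (σ γ) ^ 2)]
    exact inv_anti₀ h5 h4
  change GU.c (σ γ) ≤ 1 / (1 - m)
  rw [one_div]
  nlinarith

/-- the functions are bounded and vary little on the translates of compact sets -/
theorem fb_bd (hL : Lat σ) {o : C2} (ho : o ∈ Up) (b : Fin 4 → ℂ) :
    (∃ B : ℝ, ∀ x ∈ Up, ‖fb K o b x‖ ≤ B) ∧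
    ∀ C ⊆ Up, IsCompact C → ∀ δ > 0,
      {γ | ∃ x ∈ C, ∃ y ∈ C, δ ≤ ‖fb K o b (K.al γ x) - fb K o b (K.al γ y)‖}.Finite := by
  obtain ⟨g, hg⟩ := K.bd o ho b
  -- the basic covering
  have key : ∀ C ⊆ Up, IsCompact C → ∀ δ > 0, ∃ T : Finset C2,
      {γ | ∀ η ∈ T, ∃ k ∈ C, δ ≤ ‖fb K o b (K.al γ k) - g η‖}.Finite := by
    intro C hC hCc δ hδ
    have h1 : ∀ η : C2, ∃ N : Set C2, ∑ i, ‖η i‖ ^ 2 = 1 → N ∈ 𝓝 η ∧
        ∀ γ, act (σ γ).M 0 ∈ N → ∀ k ∈ C, ‖fb K o b (K.al γ k) - g η‖ < δ := by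
      intro η
      by_cases hη : ∑ i, ‖η i‖ ^ 2 = 1
      · obtain ⟨N, hN, hN2⟩ := hg η hη C hC hCc δ hδ
        exact ⟨N, fun _ => ⟨hN, hN2⟩⟩
      · exact ⟨∅, fun h => absurd h hη⟩
    choose N hN using h1
    obtain ⟨T, hT, hfin⟩ := cover hL N fun η hη => (hN η hη).1
    refine ⟨T, hfin.subset fun γ hγ η hη hmem => ?_⟩
    obtain ⟨k, hk, hk2⟩ := hγ η hη
    exact absurd ((hN η (hT η hη)).2 γ hmem k hk) (not_lt.mpr hk2)
  have hsm := (fb_hol K ho b).1
  constructor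
  · obtain ⟨K0, hU, hc, hcov⟩ := K.coc
    obtain ⟨T, hT⟩ := key K0 hU hc 1 one_pos
    obtain ⟨h1, h2⟩ := fin_cpt K hT hU hc
    obtain ⟨B, hB⟩ := h2.exists_bound_of_continuousOn (f := fb K o b)
      (ContinuousOn.mono (ContDiffOn.continuousOn hsm) h1)
    refine ⟨max B (1 + ∑ η ∈ T, ‖g η‖), fun x hx => ?_⟩
    obtain ⟨γ, hγ⟩ := hcov x hx
    have e := al_inv K γ hx
    by_cases hmem : γ⁻¹ ∈ {γ | ∀ η ∈ T, ∃ k ∈ K0, 1 ≤ ‖fb K o b (K.al γ k) - g η‖}
    · exact (hB x (Set.mem_iUnion₂.mpr ⟨γ⁻¹, hmem, ⟨K.al γ x, hγ, e⟩⟩)).trans (le_max_left _ _)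
    · simp only [Set.mem_setOf_eq, not_forall] at hmem
      obtain ⟨η, hη, h3⟩ := hmem
      push Not at h3
      have h4 := h3 (K.al γ x) hγ
      rw [e] at h4
      have h5 : ‖g η‖ ≤ ∑ η ∈ T, ‖g η‖ :=
        Finset.single_le_sum (f := fun η => ‖g η‖) (fun i _ => norm_nonneg _) hη
      have h6 : ‖fb K o b x‖ ≤ ‖fb K o b x - g η‖ + ‖g η‖ := by
        have := norm_add_le (fb K o b x - g η) (g η)
        rwa [sub_add_cancel] at this
      exact le_max_of_le_right (by linarith)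
  · intro C hC hCc δ hδ
    obtain ⟨T, hT⟩ := key C hC hCc (δ / 2) (by positivity)
    refine hT.subset fun γ hγ => ?_
    obtain ⟨x, hx, y, hy, hxy⟩ := hγ
    intro η hη
    by_contra hcon
    push Not at hcon
    have h1 := hcon x hx
    have h2 := hcon y hy
    have h3 : ‖fb K o b (K.al γ x) - fb K o b (K.al γ y)‖ ≤
        ‖fb K o b (K.al γ x) - g η‖ + ‖fb K o b (K.al γ y) - g η‖ := by
      have h4 := norm_sub_le (fb K o b (K.al γ x) - g η) (fb K o b (K.al γ y) - g η)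
      rwa [sub_sub_sub_cancel_right] at h4
    linarith

private theorem HC_add {A : C2 → ℂ} (hA : ContDiffOn ℝ ∞ A Up)
    {f g : C2 → ℂ} (hf : ContDiffOn ℝ 2 f Up) (hg : ContDiffOn ℝ 2 g Up) (a c : Fin 2) {x : C2}
    (hx : x ∈ Up) : HC A a c (fun y => f y + g y) x = HC A a c f x + HC A a c g x := by
  have hn : Up ∈ 𝓝 x := up_open.mem_nhds hx
  have hfd : ∀ y ∈ Up, DifferentiableAt ℝ f y := fun y hy =>
    (hf.differentiableOn (by norm_num)).differentiableAt (up_open.mem_nhds hy)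
  have hgd : ∀ y ∈ Up, DifferentiableAt ℝ g y := fun y hy =>
    (hg.differentiableOn (by norm_num)).differentiableAt (up_open.mem_nhds hy)
  have h1 : (fun y => Wb A a (fun y => f y + g y) y) =ᶠ[𝓝 x]
      fun y => Wb A a f y + Wb A a g y := by
    filter_upwards [hn] with y hy
    exact (Vs.W_add A (hfd y hy) (hgd y hy) a).2
  unfold HC
  rw [(Vs.W_congr A h1 c).1, (Vs.W_add A (Vs.W_diff up_open hA hf a hx).2
    (Vs.W_diff up_open hA hg a hx).2 c).1, (Vs.W_add A (hfd x hx) (hgd x hx) 1).2]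
  ring

/-- holomorphic functions have no complex Hessian -/
private theorem HC_hol {A : C2 → ℂ} (hA : BA Up A) {f : C2 → ℂ} (hf : ContDiffOn ℝ 2 f Up)
    (hw : ∀ x ∈ Up, ∀ d, W A d f x = 0) (a c : Fin 2) {x : C2} (hx : x ∈ Up) :
    HC A a c f x = 0 ∧ HC A a c (fun y => star (f y)) x = 0 := by
  have key : ∀ a c, HC A a c f x = 0 := by
    intro a c
    have h := HV_symm up_open hA hf a c x hx
    rw [H_eq] at h
    rw [h]
    have e : (fun y => WV A c f y) =ᶠ[𝓝 x] fun _ => (0 : ℂ) := by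
      filter_upwards [up_open.mem_nhds hx] with y hy
      rw [W_eq, hw y hy]
    rw [(WV_congr A e a).2, Wb_eq, W_eq, hw x hx, (W_const' A 0 x a).2, smul_zero, add_zero]
  refine ⟨key a c, ?_⟩
  rw [HC_symm up_open hA (star_sm hf) a c x hx]
  simp only [star_star]
  rw [key c a, star_zero]

/-- Hessian of the square of the absolute value of a holomorphic function -/
private theorem HC_abs {A : C2 → ℂ} (hA : BA Up A) {f : C2 → ℂ} (hf : ContDiffOn ℝ 2 f Up)
    (hw : ∀ x ∈ Up, ∀ d, W A d f x = 0) (a c : Fin 2) {x : C2} (hx : x ∈ Up) :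
    HC A a c (fun y => f y * star (f y)) x = Wb A a f x * star (Wb A c f x) := by
  rw [HC_mul up_open hA hf (star_sm hf) a c x hx, (HC_hol hA hf hw a c hx).1,
    (HC_hol hA hf hw a c hx).2, hw x hx, (W_star A f x c).1]
  ring

/-- the derivative in the direction `X` -/
private noncomputable def DX (A : C2 → ℂ) (X : Fin 2 → ℂ) (f : C2 → ℂ) (x : C2) : ℂ :=
  X 0 * Wb A 0 f x + X 1 * Wb A 1 f x

private theorem DX_mul (A : C2 → ℂ) (X : Fin 2 → ℂ) {f g : C2 → ℂ} {x : C2}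
    (hf : DifferentiableAt ℝ f x) (hg : DifferentiableAt ℝ g x) :
    DX A X (fun y => f y * g y) x = DX A X f x * g x + f x * DX A X g x := by
  unfold DX
  rw [(Vs.W_mul A hf hg 0).2, (Vs.W_mul A hf hg 1).2]
  ring

private theorem DX_congr (A : C2 → ℂ) (X : Fin 2 → ℂ) {f g : C2 → ℂ} {x : C2}
    (h : f =ᶠ[𝓝 x] g) : DX A X f x = DX A X g x := by
  unfold DX
  rw [(Vs.W_congr A h 0).2, (Vs.W_congr A h 1).2]

/-- a vector which kills all the functions vanishes -/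
private theorem DX_zero {o : C2} (ho : o ∈ Up) {x : C2} (hx : x ∈ Up) {X : Fin 2 → ℂ}
    (h : ∀ j : Fin 4, DX K.A X (fb K o (Pi.single j 1)) x = 0) : X = 0 := by
  set u : C2 → ℂ := fun y => h4 (vv K.A y) (vv K.A o) with hu
  have hu0 : u x ≠ 0 := h4_ne K ho hx
  have hud : DifferentiableAt ℝ u x := (h4_H0 K.ba (vv K.A o) hx).d
  set s : Fin 4 → C2 → ℂ := fun j y => h4 (vv K.A y) (Pi.single j 1) with hs
  have hsm : ∀ j, LN.Smo (fb K o (Pi.single j 1)) := fun j => (fb_hol K ho _).1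
  have hfd : ∀ j, DifferentiableAt ℝ (fb K o (Pi.single j 1)) x := fun j =>
    (ContDiffOn.differentiableOn (hsm j) (by simp)).differentiableAt (up_open.mem_nhds hx)
  have hv : ∀ j, DX K.A X (s j) x * u x = s j x * DX K.A X u x := by
    intro j
    have e : s j =ᶠ[𝓝 x] fun y => fb K o (Pi.single j 1) y * u y := by
      filter_upwards [up_open.mem_nhds hx] with y hy
      exact (div_mul_cancel₀ _ (h4_ne K ho hy)).symm
    have h1 := DX_congr K.A X e
    rw [DX_mul K.A X (hfd j) hud, h j, zero_mul, zero_add] at h1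
    have h2 : fb K o (Pi.single j 1) x * u x = s j x := div_mul_cancel₀ _ hu0
    rw [h1, mul_right_comm, h2]
  -- the four functions
  have s0 : s 0 = fun y => -Complex.I * y 0 := by
    funext y
    simp [hs, h4, vv]
  have s1 : s 1 = fun _ => -Complex.I := by
    funext y
    simp [hs, h4, vv]
  have s2 : s 2 = fun y => Complex.I * K.A y := by
    funext y
    simp [hs, h4, vv]
  have s3 : s 3 = fun y => Complex.I * vv K.A y 1 := by
    funext y
    simp [hs, h4]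
  have hDc : ∀ k : ℂ, DX K.A X (fun _ => k) x = 0 := by
    intro k
    unfold DX
    rw [(W_const' K.A k x 0).2, (W_const' K.A k x 1).2, mul_zero, mul_zero, add_zero]
  have hDu : DX K.A X u x = 0 := by
    have h1 := hv 1
    rw [s1, hDc, zero_mul] at h1
    have h2 : -Complex.I ≠ 0 := neg_ne_zero.mpr Complex.I_ne_zero
    exact (mul_eq_zero.mp h1.symm).resolve_left h2
  have hD : ∀ j, DX K.A X (s j) x = 0 := by
    intro j
    have h1 := hv j
    rw [hDu, mul_zero] at h1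
    exact (mul_eq_zero.mp h1).resolve_right hu0
  have hDm : ∀ (k : ℂ) (f : C2 → ℂ), k ≠ 0 → DifferentiableAt ℝ f x →
      DX K.A X (fun y => k * f y) x = 0 → DX K.A X f x = 0 := by
    intro k f hk hf h1
    rw [DX_mul K.A X (differentiableAt_const k) hf, hDc, zero_mul, zero_add] at h1
    exact (mul_eq_zero.mp h1).resolve_left hk
  obtain ⟨⟨w10, w00, w11, w01⟩, b10, b00, b11⟩ := W_coord K.A x
  have hAd : DifferentiableAt ℝ K.A x := (vv_H0 K.ba hx 0).d
  have hX0 : X 0 = 0 := by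
    have h1 := hDm (-Complex.I) (fun y => y 0) (neg_ne_zero.mpr Complex.I_ne_zero) (coord_d x 0)
      (by rw [← s0]; exact hD 0)
    unfold DX at h1
    rw [b10, b00, mul_one, mul_zero, add_zero] at h1
    exact h1
  have hA1 : X 1 * Wb K.A 1 K.A x = 0 := by
    have h1 := hDm Complex.I K.A Complex.I_ne_zero hAd (by rw [← s2]; exact hD 2)
    unfold DX at h1
    rw [hX0, zero_mul, zero_add] at h1
    exact h1
  have hV1 : X 1 * Wb K.A 1 (fun y => vv K.A y 1) x = 0 := by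
    have h1 := hDm Complex.I (fun y => vv K.A y 1) Complex.I_ne_zero (vv_H0 K.ba hx 1).d
      (by rw [← s3]; exact hD 3)
    unfold DX at h1
    rw [hX0, zero_mul, zero_add] at h1
    exact h1
  have hX1 : X 1 = 0 := by
    have h0 : DifferentiableAt ℝ (fun y : C2 => star (y 0)) x := star_d (coord_d x 0)
    have hm : DifferentiableAt ℝ (fun y : C2 => star (y 0) * K.A y) x := h0.mul hAd
    have hn : DifferentiableAt ℝ (fun y : C2 => (-1 : ℂ) * (star (y 0) * K.A y)) x :=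
      (differentiableAt_const _).mul hm
    have hfun : (fun y : C2 => vv K.A y 1) =
        fun y => y 1 + (-1 : ℂ) * (star (y 0) * K.A y) := by
      funext y
      change y 1 - star (y 0) * K.A y = _
      ring
    rw [hfun, (Vs.W_add K.A (coord_d x 1) hn 1).2,
      (Vs.W_mul K.A (differentiableAt_const _) hm 1).2, (Vs.W_mul K.A h0 hAd 1).2,
      (W_const' K.A _ x 1).2, (W_star K.A (fun y => y 0) x 1).2, w10, b11, star_zero] at hV1
    linear_combination hV1 + star (x 0) * hA1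
  funext a
  fin_cases a
  · exact hX0
  · exact hX1

/-- a bounded strictly plurisubharmonic function -/
theorem exists_psh (hL : Lat σ) : ∃ p : C2 → ℝ, LN.Smo p ∧ (∃ B : ℝ, ∀ x ∈ Up, |p x| ≤ B) ∧
    ∀ x ∈ Up, ∀ X : Fin 2 → ℂ, X ≠ 0 →
      0 < (∑ a, ∑ c, X a * star (X c) * HC K.A a c (fun y => (p y : ℂ)) x).re := by
  obtain ⟨o, ho⟩ : ∃ o : C2, o ∈ Up := ⟨fun _ => Complex.I, by
    change 0 < Complex.I.im
    rw [Complex.I_im]
    exact one_pos⟩
  set f : Fin 4 → C2 → ℂ := fun j => fb K o (Pi.single j 1) with hf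
  have hol : ∀ j, LN.Smo (f j) ∧ (∀ x ∈ Up, ∀ c, W K.A c (f j) x = 0) := fun j =>
    ⟨(fb_hol K ho _).1, (fb_hol K ho _).2.1⟩
  have hsm : ∀ j, ContDiffOn ℝ ∞ (f j) Up := fun j => (hol j).1
  have hsm2 : ∀ j, ContDiffOn ℝ 2 (f j) Up := fun j => (hsm j).of_le (by norm_cast)
  have hsq : ∀ z : ℂ, ((‖z‖ ^ 2 : ℝ) : ℂ) = z * star z := by
    intro z
    have := Complex.mul_conj' z
    push_cast
    exact this.symm
  have hB : ∀ j, ∃ B : ℝ, ∀ x ∈ Up, ‖f j x‖ ≤ B := fun j => (fb_bd K hL ho _).1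
  choose B hB using hB
  refine ⟨fun x => ∑ j, ‖f j x‖ ^ 2, ?_, ⟨∑ j, B j ^ 2, fun x hx => ?_⟩, fun x hx X hX => ?_⟩
  · change ContDiffOn ℝ ∞ (fun x => ∑ j, ‖f j x‖ ^ 2) Up
    have h1 : ContDiffOn ℝ ∞ (fun x => ∑ j, (f j x * star (f j x)).re) Up := by
      refine ContDiffOn.sum fun j _ => ?_
      exact Complex.reCLM.contDiff.comp_contDiffOn ((hsm j).mul (star_sm (hsm j)))
    refine h1.congr fun x hx => Finset.sum_congr rfl fun j _ => ?_
    rw [← hsq, Complex.ofReal_re]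
  · rw [abs_of_nonneg (Finset.sum_nonneg fun j _ => sq_nonneg _)]
    exact Finset.sum_le_sum fun j _ => pow_le_pow_left₀ (norm_nonneg _) (hB j x hx) 2
  · have hfs : ∀ j, ContDiffOn ℝ 2 (fun y => f j y * star (f j y)) Up := fun j =>
      (hsm2 j).mul (star_sm (hsm2 j))
    have e : (fun y => ((∑ j, ‖f j y‖ ^ 2 : ℝ) : ℂ)) =
        fun y => (f 0 y * star (f 0 y) + f 1 y * star (f 1 y)) +
          (f 2 y * star (f 2 y) + f 3 y * star (f 3 y)) := by
      funext y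
      rw [Fin.sum_univ_four, Complex.ofReal_add, Complex.ofReal_add, Complex.ofReal_add, hsq, hsq,
        hsq, hsq]
      ring
    have hH : ∀ a c, HC K.A a c (fun y => ((∑ j, ‖f j y‖ ^ 2 : ℝ) : ℂ)) x =
        ∑ j, Wb K.A a (f j) x * star (Wb K.A c (f j) x) := by
      intro a c
      rw [e, HC_add K.ba.sm ((hfs 0).add (hfs 1)) ((hfs 2).add (hfs 3)) a c hx,
        HC_add K.ba.sm (hfs 0) (hfs 1) a c hx, HC_add K.ba.sm (hfs 2) (hfs 3) a c hx,
        HC_abs K.ba (hsm2 0) (hol 0).2 a c hx, HC_abs K.ba (hsm2 1) (hol 1).2 a c hx,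
        HC_abs K.ba (hsm2 2) (hol 2).2 a c hx, HC_abs K.ba (hsm2 3) (hol 3).2 a c hx,
        Fin.sum_univ_four]
      ring
    have hsum : (∑ a, ∑ c, X a * star (X c) *
        HC K.A a c (fun y => ((∑ j, ‖f j y‖ ^ 2 : ℝ) : ℂ)) x) =
        ((∑ j, ‖DX K.A X (f j) x‖ ^ 2 : ℝ) : ℂ) := by
      simp only [hH]
      simp only [Fin.sum_univ_two, Fin.sum_univ_four]
      rw [Complex.ofReal_add, Complex.ofReal_add, Complex.ofReal_add, hsq, hsq, hsq, hsq]
      unfold DX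
      simp only [star_add, star_mul']
      ring
    rw [hsum, Complex.ofReal_re]
    have hnn : 0 ≤ ∑ j, ‖DX K.A X (f j) x‖ ^ 2 := Finset.sum_nonneg fun j _ => sq_nonneg _
    refine lt_of_le_of_ne hnn fun h0 => hX ?_
    refine DX_zero K ho hx fun j => ?_
    have h1 := (Finset.sum_eq_zero_iff_of_nonneg fun j _ => sq_nonneg _).mp h0.symm j
      (Finset.mem_univ j)
    exact norm_eq_zero.mp (pow_eq_zero_iff (two_ne_zero) |>.mp h1)

/-- maximum principle for holomorphic functions tending to 0 at infinity -/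
theorem max_hol (hL : Lat σ) {f : C2 → ℂ} (hf : LN.Smo f) (hh : ∀ x ∈ Up, ∀ c, W K.A c f x = 0)
    (h0 : ∀ δ > 0, ∃ C ⊆ Up, IsCompact C ∧ ∀ x ∈ Up, x ∉ C → ‖f x‖ < δ) :
    ∀ x ∈ Up, f x = 0 := by
  intro x₀ hx₀
  obtain ⟨p, hps, hpb, hp⟩ := exists_psh K hL
  have hfs : ContDiffOn ℝ ∞ f Up := hf
  set e : ℂ := star (f x₀) / 2 with he
  set F : C2 → ℂ := fun y => e * f y with hF
  have hFs : ContDiffOn ℝ 2 F Up := (contDiffOn_const.mul hfs).of_le (by norm_cast)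
  have hFw : ∀ x ∈ Up, ∀ c, W K.A c F x = 0 := by
    intro x hx c
    have hd : DifferentiableAt ℝ f x :=
      (hfs.differentiableOn (by simp)).differentiableAt (up_open.mem_nhds hx)
    rw [hF, (Vs.W_mul K.A (differentiableAt_const e) hd c).1, (W_const' K.A e x c).1, hh x hx]
    ring
  have hre : ∀ y, (((F y + star (F y)).re : ℝ) : ℂ) = F y + star (F y) := by
    intro y
    apply Complex.ext
    · simp
    · simp
  have hg : ContDiffOn ℝ 2 (fun y => (F y + star (F y)).re) Up :=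
    Complex.reCLM.contDiff.comp_contDiffOn (hFs.add (star_sm hFs))
  have hmax := max_inf K.ba (f := fun y => (F y + star (F y)).re) (p := p) hg
    (ContDiffOn.of_le hps (by norm_cast)) hpb ?_ hp ?_ x₀ hx₀
  · have h1 : (F x₀ + star (F x₀)).re = ‖f x₀‖ ^ 2 := by
      have h2 : F x₀ + star (F x₀) = ((‖f x₀‖ ^ 2 : ℝ) : ℂ) := by
        have h3 := Complex.mul_conj' (f x₀)
        have h4 : f x₀ * star (f x₀) = ((‖f x₀‖ ^ 2 : ℝ) : ℂ) := by
          push_cast
          exact h3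
        have h5 : star (2 : ℂ) = 2 := by
          change (starRingEnd ℂ) 2 = 2
          exact map_ofNat _ 2
        rw [← h4, hF, he]
        simp only [star_mul', star_div₀, star_star, h5]
        ring
      rw [h2, Complex.ofReal_re]
    change (F x₀ + star (F x₀)).re ≤ 0 at hmax
    rw [h1] at hmax
    have h6 : ‖f x₀‖ ^ 2 = 0 := le_antisymm hmax (sq_nonneg _)
    exact norm_eq_zero.mp (pow_eq_zero_iff (two_ne_zero) |>.mp h6)
  · intro x hx
    refine ⟨fun _ => 1, fun h => one_ne_zero (congrFun h 0), ?_⟩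
    have hz : ∀ a c, HC K.A a c (fun y => (((F y + star (F y)).re : ℝ) : ℂ)) x = 0 := by
      intro a c
      simp only [hre]
      rw [HC_add K.ba.sm hFs (star_sm hFs) a c hx, (HC_hol K.ba hFs hFw a c hx).1,
        (HC_hol K.ba hFs hFw a c hx).2, add_zero]
    simp only [hz, mul_zero, Finset.sum_const_zero, Complex.zero_re]
    exact le_refl 0
  · intro δ hδ
    obtain ⟨C, hC, hCc, hC2⟩ := h0 (δ / (2 * ‖e‖ + 1)) (by positivity)
    refine ⟨C, hC, hCc, fun x hx hn => ?_⟩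
    have h1 := hC2 x hx hn
    have h2 : (F x + star (F x)).re ≤ 2 * (‖e‖ * ‖f x‖) := by
      refine (Complex.re_le_norm _).trans ((norm_add_le _ _).trans ?_)
      rw [norm_star, hF, norm_mul]
      linarith
    have h3 : (0 : ℝ) < 2 * ‖e‖ + 1 := by positivity
    rw [lt_div_iff₀ h3] at h1
    have h4 := norm_nonneg (f x)
    nlinarith

end Pool.Agent.MPd01a95
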