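import Mathlib
import Pool.Agent.Lib.MP_d01a95_gt_S.VDefs
import Pool.Agent.Lib.MP_d01a95_gt_S.Vcalc
import Pool.Agent.Lib.MP_d01a95_gt_L.LGrn
import Pool.Agent.Lib.MP_d01a95_gt_L.LCs

/-!
Project SU(2,2), part (2), module Vpart.
-/

set_option autoImplicit false
set_option linter.all false

open Matrix Filter Topology MeasureTheory Measure
open scoped ENNReal NNReal ContDiff

namespace Pool.Agent.MPd01a95

variable {E : Type*} [NormedAddCommGroup E] [NormedSpace ℂ E]

theorem Om_eq : LN.Om = Up := rfl

/-- the operators in real coordinates -/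
theorem WV_co (A : C2 → ℂ) (f : C2 → E) (x : C2) (c : Fin 2) :
    WV A c f x = ∑ i, wco A c x i • LN.dr i f x ∧
    WbV A c f x = ∑ i, star (wco A c x i) • LN.dr i f x := by
  fin_cases c
  · simp only [WV, WbV, wco, Fin.sum_univ_four, LN.dr, LN.bs, dbV, ddV, Fin.zero_eta,
      Fin.isValue, zero_ne_one, if_false, Matrix.cons_val_zero, Matrix.cons_val_one,
      Matrix.cons_val]
    constructor
    · module
    · simp only [star_div₀, star_neg, star_mul', star_one, RCLike.star_def, Complex.conj_I,
        map_ofNat]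
      module
  · simp only [WV, WbV, wco, Fin.sum_univ_four, LN.dr, LN.bs, dbV, ddV, Fin.mk_one,
      Fin.isValue, if_true, Matrix.cons_val_zero, Matrix.cons_val_one,
      Matrix.cons_val]
    constructor
    · module
    · simp only [star_div₀, star_neg, star_mul', star_one, star_zero, RCLike.star_def,
        Complex.conj_I, map_ofNat]
      module

/-- smoothness of the derivatives in the language of `LN` -/
theorem Smo_WV {A : C2 → ℂ} (hA : BA Up A) {f : C2 → E} (hf : LN.Smo f) (c : Fin 2) :
    LN.Smo (fun y => WV A c f y) ∧ LN.Smo (fun y => WbV A c f y) :=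
  WV_contDiffOn (Ω := Up) LN.isOpen_Om hA.sm (m := ∞) (k := ∞) hf (by simp) le_rfl c

/-- integrability of derivatives -/
private theorem dr_int {F : C2 → E} (hF : LN.Smo F) (hc : LN.CS F) (i : Fin 4) :
    Integrable (LN.dr i F) (volume.restrict Up) := by
  have h1 := LN.CS.indicator_cont (hF.dr i).cont (hc.dr i)
  have h2 : Integrable (Set.indicator Up (LN.dr i F)) volume :=
    h1.1.integrable_of_hasCompactSupport h1.2.1
  exact (integrable_indicator_iff LN.measurableSet_Om).1 h2

/-- divergence theorem for the operators of type (0,1) -/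
theorem int_WV {A : C2 → ℂ} (hA : BA Up A) {F : C2 → E} (hF : LN.Smo F) (hc : LN.CS F) :
    ∫ x in Up, WV A 1 F x = 0 ∧ ∫ x in Up, (WV A 0 F x + dd A 1 x • F x) = 0 := by
  have ki : ∀ (G : C2 → E), LN.Smo G → LN.CS G → ∀ (c : ℂ) (i : Fin 4),
      Integrable (fun x => c • LN.dr i G x) (volume.restrict Up) :=
    fun G hG hGc c i => (dr_int hG hGc i).smul c
  have key : ∀ (G : C2 → E), LN.Smo G → LN.CS G → ∀ (c : ℂ) (i : Fin 4),
      ∫ x in Up, c • LN.dr i G x = 0 := fun G hG hGc c i => by
    rw [integral_smul]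
    have h : ∫ x in Up, LN.dr i G x = 0 := LN.int_dr hG hGc i
    rw [h, smul_zero]
  constructor
  · have e : ∀ x, WV A 1 F x = (1 / 2 : ℂ) • LN.dr 2 F x + (Complex.I / 2) • LN.dr 3 F x := by
      intro x
      rw [(WV_co A F x 1).1]
      simp [wco, Fin.sum_univ_four]
    simp only [e]
    rw [integral_add (ki F hF hc _ 2) (ki F hF hc _ 3), key F hF hc, key F hF hc, add_zero]
  · have hAs : LN.Smo (fun x => A x) := hA.sm
    have hG : LN.Smo (fun x => A x • F x) := by
      have := hA.sm.smul (hF : ContDiffOn ℝ ∞ F Up)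
      exact this
    have hGc : LN.CS (fun x => A x • F x) := hc.of_imp fun p _ h => by rw [h, smul_zero]
    have e : ∀ x ∈ Up, WV A 0 F x + dd A 1 x • F x =
        (1 / 2 : ℂ) • LN.dr 0 F x + (Complex.I / 2) • LN.dr 1 F x +
        ((1 / 2 : ℂ) • LN.dr 2 (fun x => A x • F x) x +
          (-(Complex.I / 2)) • LN.dr 3 (fun x => A x • F x) x) := by
      intro x hx
      have hAd : DifferentiableAt ℝ A x := LN.Smo.diff hAs hx
      have hFd : DifferentiableAt ℝ F x := LN.Smo.diff hF hx
      have hm : ∀ i, LN.dr i (fun x => A x • F x) x = A x • LN.dr i F x + LN.dr i A x • F x := by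
        intro i
        simp only [LN.dr]
        rw [fderiv_fun_smul hAd hFd]
        simp
      rw [(WV_co A F x 0).1, hm, hm]
      simp only [wco, Fin.sum_univ_four, dd, LN.dr, LN.bs]
      simp
      module
    have hme : MeasurableSet Up := LN.measurableSet_Om
    rw [setIntegral_congr_fun hme e]
    have ka : ∀ (G : C2 → E), LN.Smo G → LN.CS G → ∀ (c c' : ℂ) (i j : Fin 4),
        Integrable (fun x => c • LN.dr i G x + c' • LN.dr j G x) (volume.restrict Up) ∧
        ∫ x in Up, (c • LN.dr i G x + c' • LN.dr j G x) = 0 := fun G hG hGc c c' i j =>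
      ⟨(ki G hG hGc c i).add (ki G hG hGc c' j), by
        rw [integral_add (ki G hG hGc c i) (ki G hG hGc c' j), key G hG hGc, key G hG hGc,
          add_zero]⟩
    rw [integral_add (ka F hF hc _ _ 0 1).1 (ka _ hG hGc _ _ 2 3).1, (ka F hF hc _ _ 0 1).2,
      (ka _ hG hGc _ _ 2 3).2, add_zero]

end Pool.Agent.MPd01a95
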