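import Mathlib
import Pool.Agent.Lib.MP_d01a95_gt_S.VDefs
import Pool.Agent.Lib.MP_d01a95_gt_S.Vgm
import Pool.Agent.Lib.MP_d01a95_gt_S.Vpart

/-!
Project SU(2,2), part (2), module Vlap.
-/

set_option autoImplicit false
set_option linter.all false

open Matrix Filter Topology MeasureTheory Measure
open scoped ENNReal NNReal ContDiff

namespace Pool.Agent.MPd01a95

variable {E : Type*} [NormedAddCommGroup E] [NormedSpace ℂ E]

private lemma cofs (A : C2 → ℂ) (x : C2) : cof A 0 0 x = gm A 1 1 x ∧ cof A 0 1 x = -gm A 1 0 x ∧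
    cof A 1 0 x = -gm A 0 1 x ∧ cof A 1 1 x = gm A 0 0 x := ⟨rfl, rfl, rfl, rfl⟩

theorem trV_cof (A : C2 → ℂ) (T : Fin 2 → Fin 2 → E) (x : C2) :
    trV A T x = ∑ a, ∑ c, cof A a c x • T a c := by
  obtain ⟨h1, h2, h3, h4⟩ := cofs A x
  unfold trV
  simp only [Fin.sum_univ_two]
  rw [h1, h2, h3, h4]
  module

theorem cof_star {A : C2 → ℂ} (hA : BA Up A) : ∀ x ∈ Up, ∀ a c, star (cof A a c x) = cof A c a x := by
  intro x hx a c
  have h : ∀ a c, star (gm A a c x) = gm A c a x := by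
    intro a c
    rw [(gm_sm hA c a).2.2 x hx]
  fin_cases a <;> fin_cases c <;> simp only [cof, Fin.zero_eta, Fin.mk_one, Fin.isValue,
    zero_ne_one, if_false, if_true, one_ne_zero, star_neg, h]

private lemma up_open' : IsOpen Up := LN.isOpen_Om

private lemma pot_sm' : ContDiffOn ℝ ∞ pot Up := by
  have hL : ContDiff ℝ ∞ (fun x : C2 => (x 1).im) := by
    have : ContDiff ℝ ∞ (fun x : C2 => Complex.imCLM (x 1)) :=
      Complex.imCLM.contDiff.comp (contDiff_apply ℝ ℂ (1 : Fin 2))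
    exact this
  have h1 : ContDiffOn ℝ ∞ (fun x : C2 => Real.log (x 1).im) Up :=
    ContDiffOn.log hL.contDiffOn (fun x hx => ne_of_gt hx)
  have h2 : ContDiffOn ℝ ∞ (fun x : C2 => Complex.ofRealCLM (-Real.log (x 1).im)) Up :=
    Complex.ofRealCLM.contDiff.comp_contDiffOn h1.neg
  exact h2

private lemma gmV (A : C2 → ℂ) (a c : Fin 2) :
    gm A a c = fun x => WV A c (fun y => WbV A a pot y) x + Ga A c a x • WbV A 1 pot x := by
  funext x
  exact (H_eq A pot x a c).symm

private lemma dif {F : C2 → E} (h : ContDiffOn ℝ ∞ F Up) {x : C2} (hx : x ∈ Up) :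
    DifferentiableAt ℝ F x :=
  (h.contDiffAt (up_open'.mem_nhds hx)).differentiableAt (by simp)

private lemma WVsm {A : C2 → ℂ} (hA : BA Up A) {F : C2 → E} (h : ContDiffOn ℝ ∞ F Up) (c : Fin 2) :
    ContDiffOn ℝ ∞ (fun y => WV A c F y) Up ∧ ContDiffOn ℝ ∞ (fun y => WbV A c F y) Up :=
  WV_contDiffOn up_open' hA.sm (m := ∞) (k := ∞) h (by simp) le_rfl c

private lemma dd_sm' {A : C2 → ℂ} (hA : BA Up A) (a : Fin 2) :
    ContDiffOn ℝ ∞ (fun x => dd A a x) Up := by
  have h : ∀ c, ContDiffOn ℝ ∞ (fun y => WbV A c A y) Up := fun c => (WVsm hA hA.sm c).2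
  fin_cases a
  · refine (h 0).congr ?_
    intro x hx
    rw [Wb_eq]
    exact ((W_A up_open' hA x hx).2.2.1).symm
  · refine (h 1).congr ?_
    intro x hx
    rw [Wb_eq]
    exact ((W_A up_open' hA x hx).2.1).symm

/-- the key computation -/
private lemma key {A : C2 → ℂ} (hA : BA Up A) (a : Fin 2) : ∀ x ∈ Up,
    WV A 1 (gm A a 0) x = WV A 0 (gm A a 1) x + dd A a x * gm A 1 1 x := by
  intro x hx
  have hP : ∀ b, ContDiffOn ℝ ∞ (fun y => WbV A b pot y) Up := fun b => (WVsm hA pot_sm' b).2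
  have e0 : gm A a 0 = fun x => WV A 0 (fun y => WbV A a pot y) x + dd A a x • WbV A 1 pot x := by
    rw [gmV]
    funext y
    simp only [Ga, if_true]
  have e1 : ∀ b, gm A b 1 = fun x => WV A 1 (fun y => WbV A b pot y) x := by
    intro b
    rw [gmV]
    funext y
    simp only [Ga]
    rw [if_neg (by decide), zero_smul, add_zero]
  have hd1 : DifferentiableAt ℝ (fun y => WV A 0 (fun z => WbV A a pot z) y) x :=
    dif (WVsm hA (hP a) 0).1 hx
  have hd2 : DifferentiableAt ℝ (fun y => dd A a y) x := dif (dd_sm' hA a) hx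
  have hd3 : DifferentiableAt ℝ (fun y => WbV A 1 pot y) x := dif (hP 1) hx
  have hd4 : DifferentiableAt ℝ (fun y => dd A a y • WbV A 1 pot y) x := hd2.smul hd3
  rw [e0, (WV_add A hd1 hd4 1).1, (WV_smul A hd2 hd3 1).1]
  have hc := (WV_comm up_open' hA ((hP a).of_le (WithTop.coe_le_coe.2 (le_top : (2 : ℕ∞) ≤ ⊤))) x hx).1
  rw [hc, (W_A up_open' hA x hx).2.2.2.1 a, e1 a, e1 1, zero_smul, zero_add, smul_eq_mul]

private lemma W_neg (A : C2 → ℂ) (g : C2 → ℂ) (x : C2) (c : Fin 2) :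
    W A c (fun y => -g y) x = -W A c g x := by
  have e : ∀ v, fderiv ℝ (fun y => -g y) x v = -fderiv ℝ g x v := by
    intro v
    rw [fderiv_fun_neg]
    rfl
  unfold W db dd
  simp only [e]
  split_ifs <;> ring

/-- closedness of the Kaehler form -/
theorem cof_div {A : C2 → ℂ} (hA : BA Up A) : ∀ x ∈ Up, ∀ a,
    W A 1 (cof A a 1) x + W A 0 (cof A a 0) x + dd A 1 x * cof A a 0 x =
      if a = 1 then ∑ b, cof A b 0 x * dd A b x else 0 := by
  intro x hx a
  have k0 := key hA 0 x hx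
  have k1 := key hA 1 x hx
  rw [W_eq, W_eq] at k0 k1
  fin_cases a
  · have c1 : cof A 0 1 = fun y => -gm A 1 0 y := rfl
    have c0 : cof A 0 0 = fun y => gm A 1 1 y := rfl
    simp only [Fin.zero_eta]
    rw [c1, c0, W_neg, if_neg (by decide)]
    have : W A 1 (fun y => gm A 1 0 y) x = W A 1 (gm A 1 0) x := rfl
    rw [k1]
    ring
  · have c1 : cof A 1 1 = fun y => gm A 0 0 y := rfl
    have c0 : cof A 1 0 = fun y => -gm A 0 1 y := rfl
    have c2 : cof A 0 0 x = gm A 1 1 x := rfl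
    simp only [Fin.mk_one, if_true, Fin.sum_univ_two]
    rw [c2, c1, c0, W_neg, k0]
    ring

/-- divergence form of the Laplacian -/
theorem lap_div {A : C2 → ℂ} (hA : BA Up A) {f : C2 → E} (hf : ContDiffOn ℝ 2 f Up) :
    ∀ x ∈ Up, trV A (fun a c => HV A a c f x) x =
      WV A 1 (fun y => ∑ a, cof A a 1 y • WbV A a f y) x +
      WV A 0 (fun y => ∑ a, cof A a 0 y • WbV A a f y) x +
      dd A 1 x • ∑ a, cof A a 0 x • WbV A a f x := by
  intro x hx
  have hfd : ∀ a, DifferentiableAt ℝ (fun y => WbV A a f y) x := by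
    intro a
    have h2 : ContDiffOn ℝ 1 (fun y => WbV A a f y) Up :=
      (WV_contDiffOn up_open' hA.sm hf (by norm_num) (by norm_cast) a).2
    exact (h2.contDiffAt (up_open'.mem_nhds hx)).differentiableAt (by norm_num)
  have hgd : ∀ a c, DifferentiableAt ℝ (gm A a c) x := fun a c => dif (gm_sm hA a c).1 hx
  have hcd : ∀ a c, DifferentiableAt ℝ (fun y => cof A a c y) x := by
    intro a c
    unfold cof
    fin_cases a <;> fin_cases c
    · exact hgd 1 1
    · exact (hgd 1 0).neg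
    · exact (hgd 0 1).neg
    · exact hgd 0 0
  have key2 : ∀ c, WV A c (fun y => ∑ a, cof A a c y • WbV A a f y) x =
      (W A c (cof A 0 c) x • WbV A 0 f x + cof A 0 c x • WV A c (fun y => WbV A 0 f y) x) +
      (W A c (cof A 1 c) x • WbV A 1 f x + cof A 1 c x • WV A c (fun y => WbV A 1 f y) x) := by
    intro c
    have e : (fun y => ∑ a, cof A a c y • WbV A a f y) =
        fun y => cof A 0 c y • WbV A 0 f y + cof A 1 c y • WbV A 1 f y := by
      funext y
      rw [Fin.sum_univ_two]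
    have g0 : DifferentiableAt ℝ (fun y => cof A 0 c y • WbV A 0 f y) x :=
      (hcd 0 c).smul (hfd 0)
    have g1 : DifferentiableAt ℝ (fun y => cof A 1 c y • WbV A 1 f y) x :=
      (hcd 1 c).smul (hfd 1)
    rw [e, (WV_add A g0 g1 c).1,
      (WV_smul A (hcd 0 c) (hfd 0) c).1, (WV_smul A (hcd 1 c) (hfd 1) c).1]
  have hd0 := cof_div hA x hx 0
  have hd1 := cof_div hA x hx 1
  rw [if_neg (by decide)] at hd0
  rw [if_pos rfl, Fin.sum_univ_two] at hd1
  rw [trV_cof, key2, key2]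
  simp only [Fin.sum_univ_two, HV, Ga, if_true]
  have hz : (if (1 : Fin 2) = 0 then (dd A 0 x : ℂ) else 0) = 0 := if_neg (by decide)
  have hz1 : (if (1 : Fin 2) = 0 then (dd A 1 x : ℂ) else 0) = 0 := if_neg (by decide)
  rw [hz, hz1]
  have h0 : W A 1 (cof A 0 1) x = -(W A 0 (cof A 0 0) x + dd A 1 x * cof A 0 0 x) := by
    linear_combination hd0
  have h1 : W A 1 (cof A 1 1) x = cof A 0 0 x * dd A 0 x + cof A 1 0 x * dd A 1 x -
      (W A 0 (cof A 1 0) x + dd A 1 x * cof A 1 0 x) := by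
    linear_combination hd1
  rw [h0, h1]
  module

/-- the Laplacian of a real function is real -/
theorem lap_real {A : C2 → ℂ} (hA : BA Up A) {f : C2 → ℝ} (hf : ContDiffOn ℝ 2 f Up) :
    ∀ x ∈ Up, (trg A (fun a c => HC A a c (fun y => (f y : ℂ)) x) x).im = 0 := by
  intro x hx
  have hF : ContDiffOn ℝ 2 (fun y => (f y : ℂ)) Up :=
    Complex.ofRealCLM.contDiff.comp_contDiffOn hf
  have hs : (fun y => star ((f y : ℝ) : ℂ)) = fun y => ((f y : ℝ) : ℂ) := by
    funext y
    rw [Complex.star_def, Complex.conj_ofReal]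
  have hT : ∀ a c, star (HC A a c (fun y => (f y : ℂ)) x) = HC A c a (fun y => (f y : ℂ)) x := by
    intro a c
    have h := HC_symm up_open' hA hF c a x hx
    rw [hs] at h
    exact h.symm
  have hg : ∀ a c, star (gm A a c x) = gm A c a x := by
    intro a c
    rw [(gm_sm hA c a).2.2 x hx]
  have hst : star (trg A (fun a c => HC A a c (fun y => (f y : ℂ)) x) x) =
      trg A (fun a c => HC A a c (fun y => (f y : ℂ)) x) x := by
    unfold trg
    simp only [star_sub, star_add, star_mul', hT, hg]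
    ring
  rw [Complex.star_def] at hst
  exact Complex.conj_eq_iff_im.1 hst

end Pool.Agent.MPd01a95
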