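import Mathlib
import Pool.Agent.Lib.MP_d01a95_gt_S.VDefs
import Pool.Agent.Lib.MP_d01a95_gt_S.Vlap

/-!
Project SU(2,2), part (2), module Vell.
-/

set_option autoImplicit false
set_option linter.all false

open Matrix Filter Topology MeasureTheory Measure
open scoped ENNReal NNReal ContDiff

namespace Pool.Agent.MPd01a95

private theorem Vell_quad (A : C2 → ℂ) (x : C2) (p q : Fin 4 → ℂ) :
    ∑ i, ∑ j, mij A i j x * p i * q j = ∑ a, ∑ c, cof A a c x *
      ((∑ i, wco A c x i * p i) * (∑ j, star (wco A a x j) * q j)) := by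
  unfold mij
  simp only [Fin.sum_univ_four, Fin.sum_univ_two]
  ring

private theorem Vell_mij_star {A : C2 → ℂ} (hA : BA Up A) (i j : Fin 4) :
    ∀ x ∈ Up, mij A i j x = star (mij A j i x) := by
  intro x hx
  have hc := cof_star hA x hx
  unfold mij
  simp only [Fin.sum_univ_two, star_add, star_mul', star_star, hc]
  ring

private theorem Vell_cof {A : C2 → ℂ} (hA : BA Up A) (a c : Fin 2) :
    ContDiffOn ℝ ∞ (cof A a c) Up := by
  have h := fun a c => (gm_sm hA a c).1
  fin_cases a <;> fin_cases c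
  · exact (h 1 1).congr fun x _ => by simp [cof]
  · exact (h 1 0).neg.congr fun x _ => by simp [cof]
  · exact (h 0 1).neg.congr fun x _ => by simp [cof]
  · exact (h 0 0).congr fun x _ => by simp [cof]

private theorem Vell_wco {A : C2 → ℂ} (hA : BA Up A) (c : Fin 2) (i : Fin 4) :
    ContDiffOn ℝ ∞ (fun x => wco A c x i) Up := by
  have h1 : ∀ b : ℂ, ContDiffOn ℝ ∞ (fun _ : C2 => b) Up := fun b => contDiffOn_const
  have h2 : ∀ b : ℂ, ContDiffOn ℝ ∞ (fun x : C2 => b * A x) Up := fun b =>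
    contDiffOn_const.mul hA.sm
  fin_cases c <;> fin_cases i
  · exact (h1 (1 / 2)).congr fun x _ => by simp [wco]
  · exact (h1 (Complex.I / 2)).congr fun x _ => by simp [wco]
  · exact (h2 (1 / 2)).congr fun x _ => by simp [wco]; ring
  · exact (h2 (-(Complex.I / 2))).congr fun x _ => by simp [wco]; ring
  · exact (h1 0).congr fun x _ => by simp [wco]
  · exact (h1 0).congr fun x _ => by simp [wco]
  · exact (h1 (1 / 2)).congr fun x _ => by simp [wco]
  · exact (h1 (Complex.I / 2)).congr fun x _ => by simp [wco]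

private theorem Vell_star {f : C2 → ℂ} (hf : ContDiffOn ℝ ∞ f Up) :
    ContDiffOn ℝ ∞ (fun x => star (f x)) Up :=
  (Complex.conjCLE.contDiff (n := ∞)).comp_contDiffOn hf

private theorem Vell_mij {A : C2 → ℂ} (hA : BA Up A) (i j : Fin 4) :
    ContDiffOn ℝ ∞ (mij A i j) Up := by
  unfold mij
  refine ContDiffOn.sum fun a _ => ContDiffOn.sum fun c _ => ?_
  exact ((Vell_cof hA a c).mul (Vell_wco hA c i)).mul (Vell_star (Vell_wco hA a j))

private theorem Vell_re {A : C2 → ℂ} (hA : BA Up A) (i j : Fin 4) :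
    ContDiffOn ℝ ∞ (fun x => (mij A i j x).re) Up :=
  Complex.reCLM.contDiff.comp_contDiffOn (Vell_mij hA i j)

private theorem Vell_im {A : C2 → ℂ} (hA : BA Up A) (i j : Fin 4) :
    ContDiffOn ℝ ∞ (fun x => (mij A i j x).im) Up :=
  Complex.imCLM.contDiff.comp_contDiffOn (Vell_mij hA i j)

theorem rho_facts {A : C2 → ℂ} (hA : BA Up A) (hp : SPL A) :
    ContDiffOn ℝ ∞ (wA A) Up ∧ ∀ x ∈ Up, 0 < wA A x :=
  ⟨(gm_sm hA 0 0).2.1, fun x hx => (wA_pos hA hp x hx).1⟩

private theorem Vell_tr (A : C2 → ℂ) (T : Fin 2 → Fin 2 → ℂ) (x : C2) :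
    trg A T x = ∑ a, ∑ c, cof A a c x * T a c := by
  have h := trV_cof A T x
  simp only [smul_eq_mul] at h
  rw [← h]
  rfl

theorem aR_facts {A : C2 → ℂ} (hA : BA Up A) (hp : SPL A) :
    (∀ i j, ContDiffOn ℝ ∞ (aR A i j) Up) ∧ (∀ i j, ∀ x ∈ Up, aR A i j x = aR A j i x) ∧
    ∀ x ∈ Up, ∀ v : Fin 4 → ℝ, v ≠ 0 → 0 < ∑ i, ∑ j, aR A i j x * v i * v j := by
  refine ⟨fun i j => ?_, fun i j x hx => ?_, fun x hx v hv => ?_⟩
  · exact (Vell_re hA i j).div (rho_facts hA hp).1 fun x hx => ((rho_facts hA hp).2 x hx).ne'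
  · unfold aR
    rw [Vell_mij_star hA i j x hx]
    rfl
  · have hw := (rho_facts hA hp).2 x hx
    set w : Fin 2 → ℂ := fun c => ∑ i, wco A c x i * (v i : ℂ) with hwd
    have hws : ∀ a, star (w a) = ∑ j, star (wco A a x j) * (v j : ℂ) := by
      intro a
      simp only [hwd, star_sum, star_mul', Complex.star_def, Complex.conj_ofReal]
    obtain ⟨c, hc, hb⟩ := gm_bounds hA hp (C := {x}) (Set.singleton_subset_iff.2 hx)
      isCompact_singleton
    have h1 := ((hb x rfl).2.2.2 ℂ w).2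
    have h2 : trg A (fun a b => inner ℂ (w a) (w b)) x = ∑ i, ∑ j, mij A i j x * v i * v j := by
      rw [Vell_quad A x (fun i => (v i : ℂ)) (fun i => (v i : ℂ)), Vell_tr]
      refine Finset.sum_congr rfl fun a _ => Finset.sum_congr rfl fun b _ => ?_
      rw [← hws a]
      simp only [RCLike.inner_apply, Complex.star_def]
      try ring
    rw [h2] at h1
    have h3 : (∑ i, ∑ j, mij A i j x * v i * v j).re = wA A x * ∑ i, ∑ j, aR A i j x * v i * v j := by
      rw [Complex.re_sum, Finset.mul_sum]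
      refine Finset.sum_congr rfl fun i _ => ?_
      rw [Complex.re_sum, Finset.mul_sum]
      refine Finset.sum_congr rfl fun j _ => ?_
      unfold aR
      rw [mul_assoc, ← Complex.ofReal_mul, Complex.re_mul_ofReal]
      field_simp
    rw [h3] at h1
    have h4 : 0 < ‖w 0‖ ^ 2 + ‖w 1‖ ^ 2 := by
      by_contra hneg
      have e0 : ‖w 0‖ ^ 2 = 0 := by nlinarith [sq_nonneg ‖w 0‖, sq_nonneg ‖w 1‖]
      have e1 : ‖w 1‖ ^ 2 = 0 := by nlinarith [sq_nonneg ‖w 0‖, sq_nonneg ‖w 1‖]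
      have f0 : w 0 = 0 := norm_eq_zero.1 (pow_eq_zero_iff (two_ne_zero)|>.1 e0)
      have f1 : w 1 = 0 := norm_eq_zero.1 (pow_eq_zero_iff (two_ne_zero)|>.1 e1)
      simp only [hwd, wco, Fin.sum_univ_four, if_true, Matrix.cons_val_zero, Matrix.cons_val_one,
        Matrix.cons_val] at f1
      have r1 := congrArg Complex.re f1
      have i1 := congrArg Complex.im f1
      simp at r1 i1
      have r1' : v 2 = 0 := by linarith
      have i1' : v 3 = 0 := by linarith
      simp only [hwd, wco, Fin.sum_univ_four, Matrix.cons_val_zero, Matrix.cons_val_one,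
        Matrix.cons_val] at f0
      rw [if_neg (by decide)] at f0
      simp only [Matrix.cons_val_zero, Matrix.cons_val_one, Matrix.cons_val, r1', i1'] at f0
      have r0 := congrArg Complex.re f0
      have i0 := congrArg Complex.im f0
      simp at r0 i0
      apply hv
      funext i
      fin_cases i
      · simpa using r0
      · simpa using i0
      · exact r1'
      · exact i1'
    have h5 : 0 < wA A x * ∑ i, ∑ j, aR A i j x * v i * v j := lt_of_lt_of_le (mul_pos hc h4) h1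
    exact (mul_pos_iff_of_pos_left hw).1 h5

/-- the elliptic operator of the surface -/
noncomputable def ellA {A : C2 → ℂ} (hA : BA Up A) (hp : SPL A) : LN.Ell where
  a := aR A
  rho := wA A
  a_smo := (aR_facts hA hp).1
  rho_smo := (rho_facts hA hp).1
  rho_pos := (rho_facts hA hp).2
  a_symm := (aR_facts hA hp).2.1
  a_pos := (aR_facts hA hp).2.2

section aux

variable {E : Type*} [NormedAddCommGroup E] [NormedSpace ℂ E]

private theorem Vell_dr_smul {φ : C2 → ℂ} {f : C2 → E} {x : C2} (hφ : DifferentiableAt ℝ φ x)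
    (hf : DifferentiableAt ℝ f x) (i : Fin 4) :
    LN.dr i (fun y => φ y • f y) x = LN.dr i φ x • f x + φ x • LN.dr i f x := by
  simp only [LN.dr]
  rw [fderiv_fun_smul hφ hf]
  simp [add_comm]

private theorem Vell_smo_smul {φ : C2 → ℂ} {f : C2 → E} (hφ : ContDiffOn ℝ ∞ φ Up)
    (hf : LN.Smo f) : LN.Smo (fun y => φ y • f y) := by
  have := hφ.smul (hf : ContDiffOn ℝ ∞ f Up)
  exact this

private theorem Vell_diff {f : C2 → E} (hf : LN.Smo f) {x : C2} (hx : x ∈ Up) :
    DifferentiableAt ℝ f x := LN.Smo.diff hf hx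

/-- divergence form -/
private theorem Vell_div {A : C2 → ℂ} (hA : BA Up A) {G : Fin 2 → C2 → E} (hG : ∀ c, LN.Smo (G c))
    {x : C2} (hx : x ∈ Up) : WV A 1 (G 1) x + WV A 0 (G 0) x + dd A 1 x • G 0 x =
      ∑ i, LN.dr i (fun y => ∑ c, wco A c y i • G c y) x := by
  have h1 : ∀ i, LN.dr i (fun y => ∑ c, wco A c y i • G c y) x =
      ∑ c, (LN.dr i (fun y => wco A c y i) x • G c x + wco A c x i • LN.dr i (G c) x) := by
    intro i
    have hs : ∀ c ∈ (Finset.univ : Finset (Fin 2)), LN.Smo (fun y => wco A c y i • G c y) :=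
      fun c _ => Vell_smo_smul (Vell_wco hA c i) (hG c)
    rw [LN.dr_sum Finset.univ (u := fun c y => wco A c y i • G c y) hs hx i]
    refine Finset.sum_congr rfl fun c _ => ?_
    exact Vell_dr_smul (Vell_diff (E := ℂ) (Vell_wco hA c i) hx) (Vell_diff (hG c) hx) i
  have hcst : ∀ (b : ℂ) (i : Fin 4), LN.dr i (fun _ : C2 => b) x = 0 := fun b i =>
    LN.dr_const b x i
  have hAd : DifferentiableAt ℝ A x := Vell_diff (E := ℂ) hA.sm hx
  have e10 : (fun y => wco A 1 y 0) = fun _ => (0 : ℂ) := by funext y; simp [wco]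
  have e11 : (fun y => wco A 1 y 1) = fun _ => (0 : ℂ) := by funext y; simp [wco]
  have e12 : (fun y => wco A 1 y 2) = fun _ => (1 / 2 : ℂ) := by funext y; simp [wco]
  have e13 : (fun y => wco A 1 y 3) = fun _ => (Complex.I / 2 : ℂ) := by funext y; simp [wco]
  have e00 : (fun y => wco A 0 y 0) = fun _ => (1 / 2 : ℂ) := by funext y; simp [wco]
  have e01 : (fun y => wco A 0 y 1) = fun _ => (Complex.I / 2 : ℂ) := by funext y; simp [wco]
  have e02 : (fun y => wco A 0 y 2) = fun y => (fun _ => (1 / 2 : ℂ)) y • A y := by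
    funext y; simp [wco]; ring
  have e03 : (fun y => wco A 0 y 3) = fun y => (fun _ => (-(Complex.I / 2) : ℂ)) y • A y := by
    funext y; simp [wco]; ring
  have d02 : LN.dr 2 (fun y => wco A 0 y 2) x = (1 / 2 : ℂ) * LN.dr 2 A x := by
    rw [e02, Vell_dr_smul (differentiableAt_const _) hAd, hcst, zero_smul, zero_add, smul_eq_mul]
  have d03 : LN.dr 3 (fun y => wco A 0 y 3) x = (-(Complex.I / 2) : ℂ) * LN.dr 3 A x := by
    rw [e03, Vell_dr_smul (differentiableAt_const _) hAd, hcst, zero_smul, zero_add, smul_eq_mul]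
  have hdd : dd A 1 x = (1 / 2 : ℂ) * LN.dr 2 A x + (-(Complex.I / 2) : ℂ) * LN.dr 3 A x := by
    simp only [dd, LN.dr, LN.bs, Matrix.cons_val]
    ring
  rw [(WV_co A (G 1) x 1).1, (WV_co A (G 0) x 0).1]
  simp_rw [h1, Fin.sum_univ_two, Fin.sum_univ_four]
  rw [e10, e11, e12, e13, e00, e01, d02, d03, hcst, hcst, hcst, hcst, hcst, hcst, hdd]
  module

/-- the trace in real coordinates -/
private theorem Vell_tr_div {A : C2 → ℂ} (hA : BA Up A) {u : C2 → E} (hu : LN.Smo u) {x : C2}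
    (hx : x ∈ Up) : trV A (fun a c => HV A a c u x) x =
      ∑ i, ∑ j, (mij A i j x • LN.dr i (LN.dr j u) x + LN.dr i (mij A i j) x • LN.dr j u x) := by
  have hu2 : ContDiffOn ℝ 2 u Up :=
    (hu : ContDiffOn ℝ ∞ u Up).of_le (WithTop.coe_le_coe.2 (le_top : (2 : ℕ∞) ≤ ⊤))
  have hG : ∀ c : Fin 2, LN.Smo (fun y => ∑ a, cof A a c y • WbV A a u y) := fun c =>
    LN.Smo.sum Finset.univ (u := fun a y => cof A a c y • WbV A a u y)
      fun a _ => Vell_smo_smul (Vell_cof hA a c) (Smo_WV hA hu a).2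
  rw [lap_div hA hu2 x hx,
    Vell_div hA (G := fun c y => ∑ a, cof A a c y • WbV A a u y) hG hx]
  refine Finset.sum_congr rfl fun i _ => ?_
  have e : (fun y => ∑ c, wco A c y i • ∑ a, cof A a c y • WbV A a u y) =
      fun y => ∑ j, mij A i j y • LN.dr j u y := by
    funext y
    simp only [(WV_co A u y _).2, mij, Fin.sum_univ_two, Fin.sum_univ_four]
    module
  rw [e, LN.dr_sum Finset.univ (u := fun j y => mij A i j y • LN.dr j u y)
    (fun j _ => Vell_smo_smul (Vell_mij hA i j) (hu.dr j)) hx i]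
  refine Finset.sum_congr rfl fun j _ => ?_
  rw [Vell_dr_smul (Vell_diff (E := ℂ) (Vell_mij hA i j) hx) (Vell_diff (hu.dr j) hx) i, add_comm]

end aux

private noncomputable def Vell_coL (j : Fin 4) : C2 →L[ℝ] ℝ :=
  ![Complex.reCLM.comp (ContinuousLinearMap.proj (R := ℝ) (φ := fun _ : Fin 2 => ℂ) 0),
    Complex.imCLM.comp (ContinuousLinearMap.proj (R := ℝ) (φ := fun _ : Fin 2 => ℂ) 0),
    Complex.reCLM.comp (ContinuousLinearMap.proj (R := ℝ) (φ := fun _ : Fin 2 => ℂ) 1),
    Complex.imCLM.comp (ContinuousLinearMap.proj (R := ℝ) (φ := fun _ : Fin 2 => ℂ) 1)] j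

private theorem Vell_bs (i j : Fin 4) : Vell_coL j (LN.bs i) = if i = j then 1 else 0 := by
  fin_cases i <;> fin_cases j <;> simp [Vell_coL, LN.bs]

private theorem Vell_k {A : C2 → ℂ} (hA : BA Up A) (j : Fin 4) {x : C2} (hx : x ∈ Up) :
    (∑ i, LN.dr i (mij A i j) x).im = 0 := by
  have hsm : ContDiff ℝ ∞ (fun y : C2 => Vell_coL j y) := (Vell_coL j).contDiff
  have hS : LN.Smo (fun y : C2 => ((Vell_coL j y : ℝ) : ℂ)) :=
    (Complex.ofRealCLM.contDiff.comp hsm).contDiffOn
  have h1 := lap_real hA (f := fun y => Vell_coL j y)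
    (hsm.contDiffOn.of_le (WithTop.coe_le_coe.2 (le_top : (2 : ℕ∞) ≤ ⊤))) x hx
  have h2 := Vell_tr_div hA hS hx
  have hd : ∀ i, ∀ y, LN.dr i (fun y : C2 => ((Vell_coL j y : ℝ) : ℂ)) y = if i = j then 1 else 0 := by
    intro i y
    have h3 : HasFDerivAt (fun y : C2 => ((Vell_coL j y : ℝ) : ℂ))
        (Complex.ofRealCLM.comp (Vell_coL j)) y :=
      (Complex.ofRealCLM.comp (Vell_coL j)).hasFDerivAt
    simp only [LN.dr]
    rw [h3.fderiv, ContinuousLinearMap.comp_apply, Vell_bs]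
    split_ifs <;> simp
  have hdf : ∀ i, LN.dr i (fun y : C2 => ((Vell_coL j y : ℝ) : ℂ)) =
      fun _ => if i = j then 1 else 0 := fun i => funext (hd i)
  have h4 : trV A (fun a c => HV A a c (fun y : C2 => ((Vell_coL j y : ℝ) : ℂ)) x) x =
      ∑ i, LN.dr i (mij A i j) x := by
    rw [h2]
    refine Finset.sum_congr rfl fun i _ => ?_
    simp only [hdf, LN.dr_const, smul_zero, zero_add, smul_eq_mul, mul_ite, mul_one, mul_zero,
      Finset.sum_ite_eq', Finset.mem_univ, if_true]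
  rw [← h4]
  have h5 : trV A (fun a c => HV A a c (fun y : C2 => ((Vell_coL j y : ℝ) : ℂ)) x) x =
      trg A (fun a c => HC A a c (fun y : C2 => ((Vell_coL j y : ℝ) : ℂ)) x) x := by
    unfold trV trg
    simp only [H_eq, smul_eq_mul]
  rw [h5]
  exact h1

/-- it is the Laplace operator of the metric -/
theorem L_ell {E : Type*} [NormedAddCommGroup E] [NormedSpace ℂ E] {A : C2 → ℂ} (hA : BA Up A)
    (hp : SPL A) {u : C2 → E} (hu : LN.Smo u) : ∀ x ∈ Up, (ellA hA hp).L u x = LV A u x := by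
  intro x hx
  have hw := (rho_facts hA hp).2 x hx
  have hS : ∀ i j, DifferentiableAt ℝ (mij A i j) x := fun i j =>
    Vell_diff (E := ℂ) (Vell_mij hA i j) hx
  have hre : ∀ i j k, LN.dr k (fun y => (mij A i j y).re) x = (LN.dr k (mij A i j) x).re := by
    intro i j k
    exact LN.dr_clm (F := ℂ) (F' := ℝ) (Vell_mij hA i j) Complex.reCLM hx k
  have him : ∀ i j, (mij A i j x).im = - (mij A j i x).im := by
    intro i j
    have h := congrArg Complex.im (Vell_mij_star hA i j x hx)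
    rw [h, Complex.star_def, Complex.conj_im]
  -- the first order coefficients
  have hb : ∀ j, (ellA hA hp).b j x = (wA A x)⁻¹ * ∑ i, (LN.dr i (mij A i j) x).re := by
    intro j
    unfold LN.Ell.b
    change (wA A x)⁻¹ * ∑ i, LN.dr i (fun q => wA A q * aR A i j q) x = _
    congr 1
    refine Finset.sum_congr rfl fun i _ => ?_
    rw [← hre]
    refine LN.dr_congr (fun q hq => ?_) hx i
    have hwq := ((rho_facts hA hp).2 q hq).ne'
    unfold aR
    field_simp
  have hk : ∀ j, ∑ i, LN.dr i (mij A i j) x = ((∑ i, (LN.dr i (mij A i j) x).re : ℝ) : ℂ) := by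
    intro j
    apply Complex.ext
    · rw [Complex.ofReal_re, Complex.re_sum]
    · rw [Complex.ofReal_im]
      exact Vell_k hA j hx
  -- the antisymmetric part
  have hanti : ∑ i, ∑ j, (mij A i j x) • LN.dr i (LN.dr j u) x =
      ∑ i, ∑ j, ((mij A i j x).re : ℂ) • LN.dr i (LN.dr j u) x := by
    have h1 : ∀ i j, (mij A i j x) • LN.dr i (LN.dr j u) x =
        ((mij A i j x).re : ℂ) • LN.dr i (LN.dr j u) x +
          (((mij A i j x).im : ℂ) * Complex.I) • LN.dr i (LN.dr j u) x := by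
      intro i j
      rw [← add_smul, Complex.re_add_im]
    have h2 : ∑ i, ∑ j, (((mij A i j x).im : ℂ) * Complex.I) • LN.dr i (LN.dr j u) x = 0 := by
      have h3 : ∑ i, ∑ j, (((mij A i j x).im : ℂ) * Complex.I) • LN.dr i (LN.dr j u) x =
          - ∑ i, ∑ j, (((mij A i j x).im : ℂ) * Complex.I) • LN.dr i (LN.dr j u) x := by
        conv_lhs => rw [Finset.sum_comm]
        rw [← Finset.sum_neg_distrib]
        refine Finset.sum_congr rfl fun i _ => ?_
        rw [← Finset.sum_neg_distrib]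
        refine Finset.sum_congr rfl fun j _ => ?_
        rw [him j i, LN.dr_comm hu hx j i]
        push_cast
        module
      set S := ∑ i, ∑ j, (((mij A i j x).im : ℂ) * Complex.I) • LN.dr i (LN.dr j u) x with hSd
      have h4 : (2 : ℂ) • S = 0 := by
        rw [two_smul]
        exact add_eq_zero_iff_eq_neg.2 h3
      exact (smul_eq_zero.1 h4).resolve_left two_ne_zero
    simp_rw [h1, Finset.sum_add_distrib]
    rw [h2, add_zero]
  have hfirst : ∑ i, ∑ j, LN.dr i (mij A i j) x • LN.dr j u x =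
      ∑ j, ((∑ i, (LN.dr i (mij A i j) x).re : ℝ) : ℂ) • LN.dr j u x := by
    rw [Finset.sum_comm]
    refine Finset.sum_congr rfl fun j _ => ?_
    rw [← Finset.sum_smul, hk j]
  have hsm : ∀ (r : ℝ) (e : E), r • e = ((r : ℝ) : ℂ) • e := fun r e => (Complex.coe_smul r e).symm
  unfold LV
  rw [Vell_tr_div hA hu hx]
  simp_rw [Finset.sum_add_distrib]
  rw [hanti, hfirst]
  unfold LN.Ell.L
  simp_rw [hb, hsm]
  change ∑ i, ∑ j, ((aR A i j x : ℝ) : ℂ) • LN.dr i (LN.dr j u) x + _ = _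
  rw [smul_add, Finset.smul_sum, Finset.smul_sum]
  congr 1
  · refine Finset.sum_congr rfl fun i _ => ?_
    rw [Finset.smul_sum]
    refine Finset.sum_congr rfl fun j _ => ?_
    rw [smul_smul]
    congr 1
    unfold aR
    push_cast
    rw [div_eq_inv_mul]
  · refine Finset.sum_congr rfl fun j _ => ?_
    rw [smul_smul]
    push_cast
    rfl

/-- for real functions -/
theorem L_ell_real {A : C2 → ℂ} (hA : BA Up A) (hp : SPL A) {u : C2 → ℝ} (hu : LN.Smo u) :
    ∀ x ∈ Up, (((ellA hA hp).L u x : ℝ) : ℂ) = LV A (fun y => (u y : ℂ)) x := by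
  intro x hx
  have h1 := LN.L_clm (ellA hA hp) hu Complex.ofRealCLM (p := x) hx
  have h2 : LN.Smo (fun y => (u y : ℂ)) := LN.Smo.clm hu Complex.ofRealCLM
  rw [← L_ell hA hp h2 x hx]
  exact h1.symm

theorem Gam_ell {A : C2 → ℂ} (hA : BA Up A) (hp : SPL A) {u : C2 → ℝ} (hu : LN.Smo u) :
    ∀ x ∈ Up, (ellA hA hp).Gam u u x * wA A x =
      (trg A (fun a c => Wb A a (fun y => (u y : ℂ)) x * W A c (fun y => (u y : ℂ)) x) x).re := by
  intro x hx
  have hw := ((rho_facts hA hp).2 x hx).ne'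
  have hd : ∀ i, LN.dr i (fun y => (u y : ℂ)) x = ((LN.dr i u x : ℝ) : ℂ) := fun i =>
    LN.dr_clm hu Complex.ofRealCLM hx i
  have h1 : trg A (fun a c => Wb A a (fun y => (u y : ℂ)) x * W A c (fun y => (u y : ℂ)) x) x =
      ∑ i, ∑ j, mij A i j x * ((LN.dr i u x : ℝ) : ℂ) * ((LN.dr j u x : ℝ) : ℂ) := by
    rw [Vell_quad A x (fun i => ((LN.dr i u x : ℝ) : ℂ)) (fun i => ((LN.dr i u x : ℝ) : ℂ)), Vell_tr]
    refine Finset.sum_congr rfl fun a _ => Finset.sum_congr rfl fun c _ => ?_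
    rw [← W_eq, ← Wb_eq, (WV_co A _ x c).1, (WV_co A _ x a).2]
    simp only [hd, smul_eq_mul]
    ring
  rw [h1, Complex.re_sum]
  unfold LN.Ell.Gam
  rw [Finset.sum_mul]
  refine Finset.sum_congr rfl fun i _ => ?_
  rw [Complex.re_sum, Finset.sum_mul]
  refine Finset.sum_congr rfl fun j _ => ?_
  have h5 : (mij A i j x * ((LN.dr i u x : ℝ) : ℂ) * ((LN.dr j u x : ℝ) : ℂ)).re =
      (mij A i j x).re * (LN.dr i u x * LN.dr j u x) := by
    rw [mul_assoc, ← Complex.ofReal_mul, Complex.re_mul_ofReal]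
  have h6 : inner ℝ (LN.dr i u x) (LN.dr j u x) = LN.dr i u x * LN.dr j u x := by
    rw [real_inner_comm]
    simp [mul_comm]
  rw [h5, h6]
  change aR A i j x * (LN.dr i u x * LN.dr j u x) * wA A x = _
  unfold aR
  field_simp

end Pool.Agent.MPd01a95
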