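import Mathlib
import Pool.Agent.Lib.MP_d01a95_gt_S.VDefs
import Pool.Agent.Lib.MP_d01a95_gt_S.Vell
import Pool.Agent.Lib.MP_d01a95_gt_S.Vact

/-!
Project SU(2,2), part (2), module Vfor.
-/

set_option autoImplicit false
set_option linter.all false

open Matrix Filter Topology MeasureTheory Measure
open scoped ENNReal NNReal ContDiff

namespace Pool.Agent.MPd01a95

private theorem Vfor_up : IsOpen Up := isOpen_lt continuous_const
  (Complex.continuous_im.comp (continuous_apply 1))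

private theorem Vfor_alg (A Ac a0 a0c a1 a1c x0 x0c x1 x1c w0 w1 w2 w3 w0c w1c w2c w3c η f fc
    f1 f1c f0 f0c n nc q : ℂ)
    (hη : η ≠ 0) (he : x1 = x1c + η)
    (hf : f = (x1 - x0c * A) * w3c - w1c + A * w2c - x0 * w0c)
    (hfc : fc = (x1c - x0 * Ac) * w3 - w1 + Ac * w2 - x0c * w0)
    (hf1 : f1 = (1 - x0c * a1) * w3c + a1 * w2c)
    (hf1c : f1c = (1 - x0 * a1c) * w3 + a1c * w2)
    (hf0 : f0 = -x0c * a0 * w3c + a0 * w2c - w0c)
    (hf0c : f0c = -x0 * a0c * w3 + a0c * w2 - w0)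
    (hn : n = -w1 * a1 - w3 * (A - x1 * a1 - x0 * a0) + w0 * (1 - x0c * a1) - w2 * a0)
    (hnc : nc = -w1c * a1c - w3c * (Ac - x1c * a1c - x0c * a0c) + w0c * (1 - x0 * a1c) - w2c * a0c)
    (hq : q = w1 * w3c - w3 * w1c + w0 * w2c - w2 * w0c) :
    (-(A * Ac) / η ^ 2 - (a0 - a0c) / η) * ((f1 - f / η) * (f1c + fc / η)) +
      (-1 / η ^ 2) * ((f0 + Ac * f / η) * (f0c - A * fc / η)) -
      (A / η ^ 2 - a1 / η) * ((f0 + Ac * f / η) * (f1c + fc / η)) -
      (Ac / η ^ 2 + a1c / η) * ((f1 - f / η) * (f0c - A * fc / η)) =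
    (a0 - a0c + Ac * a1 - A * a1c + η * a1 * a1c) / η ^ 3 * (f * fc + η * q) - n * nc / η ^ 2 := by
  subst he hf hfc hf1 hf1c hf0 hf0c hn hnc hq
  field_simp
  ring

theorem h4_NK (A : C2 → ℂ) (x y : C2) : h4 (vv A y) (nn A x) = Complex.I * NK A x y := by
  simp only [h4, vv, nn, NK, Matrix.cons_val_zero, Matrix.cons_val_one, Matrix.cons_val, star_star]
  ring

/-! ### first derivatives of the coordinates -/

private theorem Vfor_fd (b : Fin 2) (x v : C2) : fderiv ℝ (fun z : C2 => z b) x v = v b := by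
  have h : HasFDerivAt (fun z : C2 => z b) (ContinuousLinearMap.proj (R := ℝ) (φ := fun _ : Fin 2 => ℂ) b) x :=
    (ContinuousLinearMap.proj (R := ℝ) (φ := fun _ : Fin 2 => ℂ) b).hasFDerivAt
  rw [h.fderiv]
  rfl

private theorem Vfor_W1 (A : C2 → ℂ) (x : C2) :
    Wb A 1 (fun z => z 1) x = 1 ∧ Wb A 0 (fun z => z 1) x = 0 ∧
    W A 1 (fun z => z 1) x = 0 ∧ W A 0 (fun z => z 1) x = A x := by
  refine ⟨?_, ?_, ?_, ?_⟩
  · simp only [Wb, dd, Vfor_fd, if_true, Pi.single_eq_same]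
    rw [Complex.I_mul_I]
    norm_num
  · simp only [Wb, dd, db, Vfor_fd, if_neg (show ¬ (0 : Fin 2) = 1 by decide), Pi.single_eq_same]
    rw [Complex.I_mul_I]
    simp
  · simp only [W, db, Vfor_fd, if_true, Pi.single_eq_same]
    rw [Complex.I_mul_I]
    norm_num
  · simp only [W, dd, db, Vfor_fd, if_neg (show ¬ (0 : Fin 2) = 1 by decide), Pi.single_eq_same]
    rw [Complex.I_mul_I]
    simp
    norm_num

private theorem Vfor_W0 (A : C2 → ℂ) (x : C2) :
    Wb A 1 (fun z => z 0) x = 0 ∧ Wb A 0 (fun z => z 0) x = 1 ∧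
    W A 1 (fun z => z 0) x = 0 ∧ W A 0 (fun z => z 0) x = 0 := by
  refine ⟨?_, ?_, ?_, ?_⟩
  · simp [Wb, dd, Vfor_fd]
  · simp only [Wb, dd, db, Vfor_fd, if_neg (show ¬ (0 : Fin 2) = 1 by decide), Pi.single_eq_same]
    rw [Complex.I_mul_I]
    simp
    norm_num
  · simp [W, db, Vfor_fd]
  · simp only [W, dd, db, Vfor_fd, if_neg (show ¬ (0 : Fin 2) = 1 by decide), Pi.single_eq_same]
    rw [Complex.I_mul_I]
    simp

private theorem Vfor_W0s (A : C2 → ℂ) (x : C2) :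
    Wb A 1 (fun z => star (z 0)) x = 0 ∧ Wb A 0 (fun z => star (z 0)) x = 0 ∧
    W A 1 (fun z => star (z 0)) x = 0 ∧ W A 0 (fun z => star (z 0)) x = 1 := by
  obtain ⟨h1, h2, h3, h4⟩ := Vfor_W0 A x
  refine ⟨?_, ?_, ?_, ?_⟩
  · rw [(W_star A (fun z => z 0) x 1).2, h3, star_zero]
  · rw [(W_star A (fun z => z 0) x 0).2, h4, star_zero]
  · rw [(W_star A (fun z => z 0) x 1).1, h1, star_zero]
  · rw [(W_star A (fun z => z 0) x 0).1, h2, star_one]

private theorem Vfor_d (b : Fin 2) (x : C2) : DifferentiableAt ℝ (fun z : C2 => z b) x :=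
  (ContinuousLinearMap.proj (R := ℝ) (φ := fun _ : Fin 2 => ℂ) b).differentiableAt

private theorem Vfor_Ad {A : C2 → ℂ} (hA : BA Up A) {x : C2} (hx : x ∈ Up) :
    DifferentiableAt ℝ A x :=
  (hA.sm.contDiffAt (Vfor_up.mem_nhds hx)).differentiableAt (by simp)

private theorem Vfor_Wc (A : C2 → ℂ) (k : ℂ) (x : C2) (c : Fin 2) :
    W A c (fun _ => k) x = 0 ∧ Wb A c (fun _ => k) x = 0 := by
  constructor
  · simp [W, dd, db]
  · simp [Wb, dd, db]

/-- linear combinations with constant coefficients -/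
private theorem Vfor_lin (A : C2 → ℂ) {f : C2 → ℂ} (k : ℂ) {x : C2} (hf : DifferentiableAt ℝ f x)
    (c : Fin 2) : W A c (fun y => f y * k) x = W A c f x * k ∧
      Wb A c (fun y => f y * k) x = Wb A c f x * k := by
  have h := Vs.W_mul A hf (differentiableAt_const k) c
  rw [(Vfor_Wc A k x c).1, (Vfor_Wc A k x c).2, mul_zero, add_zero, add_zero] at h
  exact h

/-- the function `h4 (vv A z) w` without the factor `I` -/
private noncomputable def Vfor_f (A : C2 → ℂ) (w : Fin 4 → ℂ) (z : C2) : ℂ :=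
  (z 1 - star (z 0) * A z) * star (w 3) - star (w 1) + A z * star (w 2) - z 0 * star (w 0)

private theorem Vfor_h4 (A : C2 → ℂ) (w : Fin 4 → ℂ) (z : C2) :
    h4 (vv A z) w = Complex.I * Vfor_f A w z := by
  simp only [h4, vv, Vfor_f, Matrix.cons_val_zero, Matrix.cons_val_one, Matrix.cons_val]
  ring

private theorem Vfor_fsm {A : C2 → ℂ} (hA : BA Up A) (w : Fin 4 → ℂ) :
    ContDiffOn ℝ ∞ (Vfor_f A w) Up := by
  have h0 : ContDiffOn ℝ ∞ (fun z : C2 => z 0) Up :=
    (ContinuousLinearMap.proj (R := ℝ) (φ := fun _ : Fin 2 => ℂ) 0).contDiff.contDiffOn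
  have h1 : ContDiffOn ℝ ∞ (fun z : C2 => z 1) Up :=
    (ContinuousLinearMap.proj (R := ℝ) (φ := fun _ : Fin 2 => ℂ) 1).contDiff.contDiffOn
  have h2 : ContDiffOn ℝ ∞ (fun z : C2 => star (z 0)) Up :=
    Complex.conjCLE.contDiff.comp_contDiffOn h0
  have h3 := ((((h1.sub (h2.mul hA.sm)).mul (contDiffOn_const (c := star (w 3)))).sub
    (contDiffOn_const (c := star (w 1)))).add (hA.sm.mul (contDiffOn_const (c := star (w 2))))).sub
    (h0.mul (contDiffOn_const (c := star (w 0))))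
  exact h3

private theorem Vfor_fW {A : C2 → ℂ} (hA : BA Up A) (w : Fin 4 → ℂ) {x : C2} (hx : x ∈ Up) :
    Wb A 1 (Vfor_f A w) x = (1 - star (x 0) * dd A 1 x) * star (w 3) + dd A 1 x * star (w 2) ∧
    Wb A 0 (Vfor_f A w) x = -star (x 0) * dd A 0 x * star (w 3) + dd A 0 x * star (w 2) -
      star (w 0) ∧
    ∀ c, W A c (Vfor_f A w) x = 0 := by
  have dA := Vfor_Ad hA hx
  have d0 := Vfor_d 0 x
  have d1 := Vfor_d 1 x
  have ds : DifferentiableAt ℝ (fun z : C2 => star (z 0)) x := d0.star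
  obtain ⟨hWA, hA1, hA0, -, -⟩ := W_A Vfor_up hA x hx
  obtain ⟨e1, e2, e3, e4⟩ := Vfor_W1 A x
  obtain ⟨f1, f2, f3, f4⟩ := Vfor_W0 A x
  obtain ⟨g1, g2, g3, g4⟩ := Vfor_W0s A x
  have key : ∀ c, W A c (Vfor_f A w) x = (W A c (fun z => z 1) x -
      (W A c (fun z => star (z 0)) x * A x + star (x 0) * W A c A x)) * star (w 3) +
      W A c A x * star (w 2) - W A c (fun z => z 0) x * star (w 0) ∧
      Wb A c (Vfor_f A w) x = (Wb A c (fun z => z 1) x -
      (Wb A c (fun z => star (z 0)) x * A x + star (x 0) * Wb A c A x)) * star (w 3) +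
      Wb A c A x * star (w 2) - Wb A c (fun z => z 0) x * star (w 0) := by
    intro c
    have hfun : Vfor_f A w = fun z => (z 1 * star (w 3) + (star (z 0) * A z) * (-star (w 3))) +
        (A z * star (w 2) + (z 0 * (-star (w 0)) + (-star (w 1)))) := by
      funext z
      simp only [Vfor_f]
      ring
    have q1 : DifferentiableAt ℝ (fun z : C2 => z 1 * star (w 3)) x :=
      d1.mul (differentiableAt_const (star (w 3)))
    have q2 : DifferentiableAt ℝ (fun z : C2 => star (z 0) * A z) x := ds.mul dA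
    have q3 : DifferentiableAt ℝ (fun z : C2 => star (z 0) * A z * (-star (w 3))) x :=
      q2.mul (differentiableAt_const (-star (w 3)))
    have q4 : DifferentiableAt ℝ (fun z : C2 => A z * star (w 2)) x :=
      dA.mul (differentiableAt_const (star (w 2)))
    have q5 : DifferentiableAt ℝ (fun z : C2 => z 0 * (-star (w 0))) x :=
      d0.mul (differentiableAt_const (-star (w 0)))
    have q6 : DifferentiableAt ℝ (fun z : C2 => z 0 * (-star (w 0)) + (-star (w 1))) x :=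
      q5.add (differentiableAt_const (-star (w 1)))
    have q7 : DifferentiableAt ℝ (fun z : C2 => z 1 * star (w 3) +
      star (z 0) * A z * (-star (w 3))) x := q1.add q3
    have q8 : DifferentiableAt ℝ (fun z : C2 => A z * star (w 2) +
      (z 0 * (-star (w 0)) + (-star (w 1)))) x := q4.add q6
    have m1 := Vfor_lin A (star (w 3)) d1 c
    have m2 := Vs.W_mul A ds dA c
    have m3 := Vfor_lin A (-star (w 3)) q2 c
    have m4 := Vfor_lin A (star (w 2)) dA c
    have m5 := Vfor_lin A (-star (w 0)) d0 c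
    have m6 := Vfor_Wc A (-star (w 1)) x c
    have n1 := Vs.W_add A q1 q3 c
    have n2 := Vs.W_add A q5 (differentiableAt_const (-star (w 1))) c
    have n3 := Vs.W_add A q4 q6 c
    have n4 := Vs.W_add A q7 q8 c
    rw [hfun]
    constructor
    · rw [n4.1, n1.1, n3.1, n2.1, m1.1, m3.1, m4.1, m5.1, m6.1, m2.1]
      ring
    · rw [n4.2, n1.2, n3.2, n2.2, m1.2, m3.2, m4.2, m5.2, m6.2, m2.2]
      ring
  refine ⟨?_, ?_, ?_⟩
  · rw [(key 1).2, e1, g1, f1, hA1]
    ring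
  · rw [(key 0).2, e2, g2, f2, hA0]
    ring
  · intro c
    rw [(key c).1, hWA c]
    fin_cases c
    · change (W A 0 (fun z => z 1) x - (W A 0 (fun z => star (z 0)) x * A x + star (x 0) * 0)) * star (w 3) +
        0 * star (w 2) - W A 0 (fun z => z 0) x * star (w 0) = 0
      rw [e4, g4, f4]
      ring
    · change (W A 1 (fun z => z 1) x - (W A 1 (fun z => star (z 0)) x * A x + star (x 0) * 0)) * star (w 3) +
        0 * star (w 2) - W A 1 (fun z => z 0) x * star (w 0) = 0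
      rw [e3, g3, f3]
      ring

/-- derivatives of `h4 (vv A z) w` -/
private theorem Vfor_hW {A : C2 → ℂ} (hA : BA Up A) (w : Fin 4 → ℂ) {x : C2} (hx : x ∈ Up)
    (c : Fin 2) :
    Wb A c (fun z => h4 (vv A z) w) x = Complex.I * Wb A c (Vfor_f A w) x ∧
    W A c (fun z => h4 (vv A z) w) x = 0 := by
  have hd : DifferentiableAt ℝ (Vfor_f A w) x :=
    ((Vfor_fsm hA w).contDiffAt (Vfor_up.mem_nhds hx)).differentiableAt (by simp)
  have h := Vfor_lin A Complex.I hd c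
  have e : (fun z => h4 (vv A z) w) = fun z => Vfor_f A w z * Complex.I := by
    funext z
    rw [Vfor_h4]
    ring
  rw [e, h.1, h.2, (Vfor_fW hA w hx).2.2 c, zero_mul]
  exact ⟨mul_comm _ _, rfl⟩

private theorem Vfor_im (z : ℂ) : ((z.im : ℝ) : ℂ) = (z - star z) / (2 * Complex.I) := by
  have h := Complex.sub_conj z
  have h' : z - star z = ((2 * z.im : ℝ) : ℂ) * Complex.I := h
  rw [h', mul_div_mul_right _ _ Complex.I_ne_zero]
  push_cast
  ring

private theorem Vfor_ns (z : ℂ) : ((‖z‖ ^ 2 : ℝ) : ℂ) = z * star z := by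
  have h := Complex.mul_conj' z
  rw [show star z = (starRingEnd ℂ) z from rfl, h]
  push_cast
  rfl

/-- the coefficients in terms of `η = 2 i Im tau` -/
private theorem Vfor_gm {A : C2 → ℂ} (hA : BA Up A) {x : C2} (hx : x ∈ Up) (η : ℂ)
    (hη : η = 2 * Complex.I * ((x 1).im : ℂ)) :
    η ≠ 0 ∧ x 1 = star (x 1) + η ∧ star η = -η ∧
    gm A 1 1 x = -1 / η ^ 2 ∧ gm A 1 0 x = A x / η ^ 2 - dd A 1 x / η ∧
    gm A 0 1 x = star (A x) / η ^ 2 + star (dd A 1 x) / η ∧
    gm A 0 0 x = -(A x * star (A x)) / η ^ 2 - (dd A 0 x - star (dd A 0 x)) / η ∧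
    Wb A 1 pot x = -1 / η ∧ Wb A 0 pot x = star (A x) / η ∧
    ((sK A x / (4 * (x 1).im ^ 3) : ℝ) : ℂ) = (dd A 0 x - star (dd A 0 x) +
      star (A x) * dd A 1 x - A x * star (dd A 1 x) + η * dd A 1 x * star (dd A 1 x)) / η ^ 3 ∧
    ((2 * (x 1).im : ℝ) : ℂ) = -Complex.I * η ∧
    ((4 * (x 1).im ^ 2 : ℝ) : ℂ) = - η ^ 2 := by
  have hx' : 0 < (x 1).im := hx
  obtain ⟨g11, g10, g01, g00, hw, hdet⟩ := gm_explicit hA x hx
  obtain ⟨p1, -, p0, -⟩ := pot_d hA x hx
  have hy : ((x 1).im : ℂ) ≠ 0 := by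
    exact_mod_cast hx'.ne'
  have hI := Complex.I_mul_I
  have hI0 := Complex.I_ne_zero
  have hI4 : Complex.I ^ 4 = 1 := Complex.I_pow_four
  have hη0 : η ≠ 0 := by
    rw [hη]
    exact mul_ne_zero (mul_ne_zero two_ne_zero hI0) hy
  have hy2 : ((x 1).im : ℂ) = -Complex.I * η / 2 := by
    rw [hη]
    linear_combination ((x 1).im : ℂ) * hI
  have hsη : star η = -η := by
    rw [hη, star_mul', star_mul']
    have h1 : star Complex.I = -Complex.I := Complex.conj_I
    have h2 : star ((x 1).im : ℂ) = ((x 1).im : ℂ) := Complex.conj_ofReal _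
    have h3 : star (2 : ℂ) = 2 := by
      have := Complex.conj_ofReal 2
      push_cast at this
      exact this
    rw [h1, h2, h3]
    ring
  have hx1 : x 1 = star (x 1) + η := by
    have h := Vfor_im (x 1)
    rw [hη, h]
    field_simp
    ring
  have h10 : gm A 1 0 x = A x / η ^ 2 - dd A 1 x / η := by
    rw [g10, hy2]
    field_simp
    linear_combination (-4 * A x) * hI
  refine ⟨hη0, hx1, hsη, ?_, h10, ?_, ?_, ?_, ?_, ?_, ?_, ?_⟩
  · rw [g11, hy2]
    field_simp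
    linear_combination 4 * hI
  · rw [g01, h10, star_sub, star_div₀, star_div₀, star_pow, hsη]
    ring
  · rw [g00]
    push_cast
    rw [Vfor_im (dd A 0 x)]
    have := Vfor_ns (A x)
    push_cast at this
    rw [this, hy2]
    field_simp
    ring_nf
    simp only [Complex.I_sq]
    ring
  · rw [p1, hy2]
    field_simp
  · rw [p0, hy2]
    field_simp
  · have e1 : ((sK A x / (4 * (x 1).im ^ 3) : ℝ) : ℂ) =
        -((((dd A 0 x + star (A x) * dd A 1 x).im : ℝ) : ℂ) +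
          ((x 1).im : ℂ) * ((‖dd A 1 x‖ ^ 2 : ℝ) : ℂ)) / (4 * ((x 1).im : ℂ) ^ 3) := by
      unfold sK
      push_cast
      ring
    rw [e1, Vfor_im, Vfor_ns, star_add, star_mul', star_star, hy2]
    field_simp
    ring_nf
    simp only [Complex.I_sq, hI4]
    ring
  · push_cast
    rw [hy2]
    ring
  · push_cast
    rw [hy2]
    linear_combination η ^ 2 * hI

private theorem Vfor_hh (w : Fin 4 → ℂ) : h4 w w = (((h4 w w).re : ℝ) : ℂ) := by
  apply Complex.ext
  · simp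
  · simp only [Complex.ofReal_im]
    have h : star (h4 w w) = h4 w w := by
      simp only [h4, star_mul', star_add, star_sub, star_star]
      rw [show star Complex.I = -Complex.I from Complex.conj_I]
      ring
    have h2 := congrArg Complex.im h
    have h3 : (star (h4 w w)).im = -(h4 w w).im := rfl
    rw [h3] at h2
    linarith

/-- algebraic identity: orthogonal decomposition of a vector `w` -/
theorem frame_id {A : C2 → ℂ} (hA : BA Up A) (w : Fin 4 → ℂ) : ∀ x ∈ Up,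
    trg A (fun a c =>
      (Wb A a (fun z => h4 (vv A z) w) x + h4 (vv A x) w * Wb A a pot x) *
      star (Wb A c (fun z => h4 (vv A z) w) x + h4 (vv A x) w * Wb A c pot x)) x =
    ((sK A x / (4 * (x 1).im ^ 3) * (‖h4 (vv A x) w‖ ^ 2 + 2 * (x 1).im * (h4 w w).re) +
      ‖h4 w (nn A x)‖ ^ 2 / (4 * (x 1).im ^ 2) : ℝ) : ℂ) := by
  intro x hx
  obtain ⟨hη0, hx1, hsη, g11, g10, g01, g00, p1, p0, hs, h2y, h4y⟩ :=
    Vfor_gm hA hx (2 * Complex.I * ((x 1).im : ℂ)) rfl
  generalize 2 * Complex.I * ((x 1).im : ℂ) = η at *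
  have hI := Complex.I_mul_I
  have hsI : star Complex.I = -Complex.I := Complex.conj_I
  obtain ⟨w1, w0, -⟩ := Vfor_fW hA w hx
  have h1 := (Vfor_hW hA w hx 1).1
  have h0 := (Vfor_hW hA w hx 0).1
  have key := Vfor_alg (A x) (star (A x)) (dd A 0 x) (star (dd A 0 x)) (dd A 1 x)
    (star (dd A 1 x)) (x 0) (star (x 0)) (x 1) (star (x 1)) (w 0) (w 1) (w 2) (w 3)
    (star (w 0)) (star (w 1)) (star (w 2)) (star (w 3)) η (Vfor_f A w x) (star (Vfor_f A w x))
    (Wb A 1 (Vfor_f A w) x) (star (Wb A 1 (Vfor_f A w) x))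
    (Wb A 0 (Vfor_f A w) x) (star (Wb A 0 (Vfor_f A w) x))
    (-w 1 * dd A 1 x - w 3 * (A x - x 1 * dd A 1 x - x 0 * dd A 0 x) +
      w 0 * (1 - star (x 0) * dd A 1 x) - w 2 * dd A 0 x)
    (star (-w 1 * dd A 1 x - w 3 * (A x - x 1 * dd A 1 x - x 0 * dd A 0 x) +
      w 0 * (1 - star (x 0) * dd A 1 x) - w 2 * dd A 0 x))
    (w 1 * star (w 3) - w 3 * star (w 1) + w 0 * star (w 2) - w 2 * star (w 0))
    hη0 hx1 (by unfold Vfor_f; ring)
    (by
      unfold Vfor_f
      simp only [star_sub, star_add, star_mul', star_star])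
    (by rw [w1])
    (by
      rw [w1]
      simp only [star_sub, star_add, star_mul', star_star, star_one])
    (by rw [w0])
    (by
      rw [w0]
      simp only [star_sub, star_add, star_mul', star_star, star_neg])
    rfl
    (by
      simp only [star_sub, star_add, star_mul', star_star, star_neg, star_one])
    rfl
  have eR : ((sK A x / (4 * (x 1).im ^ 3) * (‖h4 (vv A x) w‖ ^ 2 + 2 * (x 1).im * (h4 w w).re) +
      ‖h4 w (nn A x)‖ ^ 2 / (4 * (x 1).im ^ 2) : ℝ) : ℂ) =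
      ((sK A x / (4 * (x 1).im ^ 3) : ℝ) : ℂ) * (((‖h4 (vv A x) w‖ ^ 2 : ℝ) : ℂ) +
        ((2 * (x 1).im : ℝ) : ℂ) * (((h4 w w).re : ℝ) : ℂ)) +
      ((‖h4 w (nn A x)‖ ^ 2 : ℝ) : ℂ) / ((4 * (x 1).im ^ 2 : ℝ) : ℂ) := by
    push_cast
    ring
  have eN : h4 w (nn A x) = Complex.I *
      (-w 1 * dd A 1 x - w 3 * (A x - x 1 * dd A 1 x - x 0 * dd A 0 x) +
      w 0 * (1 - star (x 0) * dd A 1 x) - w 2 * dd A 0 x) := by
    simp only [h4, nn, Matrix.cons_val_zero, Matrix.cons_val_one, Matrix.cons_val, star_star]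
    ring
  have eW : h4 w w = Complex.I *
      (w 1 * star (w 3) - w 3 * star (w 1) + w 0 * star (w 2) - w 2 * star (w 0)) := rfl
  have E1 : Wb A 1 (fun z => h4 (vv A z) w) x + h4 (vv A x) w * Wb A 1 pot x =
      Complex.I * (Wb A 1 (Vfor_f A w) x - Vfor_f A w x / η) := by
    rw [h1, Vfor_h4, p1]
    ring
  have E0 : Wb A 0 (fun z => h4 (vv A z) w) x + h4 (vv A x) w * Wb A 0 pot x =
      Complex.I * (Wb A 0 (Vfor_f A w) x + star (A x) * Vfor_f A w x / η) := by
    rw [h0, Vfor_h4, p0]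
    ring
  have F1 : star (Complex.I * (Wb A 1 (Vfor_f A w) x - Vfor_f A w x / η)) =
      -Complex.I * (star (Wb A 1 (Vfor_f A w) x) + star (Vfor_f A w x) / η) := by
    rw [star_mul', star_sub, star_div₀, hsη, hsI]
    ring
  have F0 : star (Complex.I * (Wb A 0 (Vfor_f A w) x + star (A x) * Vfor_f A w x / η)) =
      -Complex.I * (star (Wb A 0 (Vfor_f A w) x) - A x * star (Vfor_f A w x) / η) := by
    rw [star_mul', star_add, star_div₀, star_mul', star_star, hsη, hsI]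
    ring
  have hII : ∀ u v : ℂ, Complex.I * u * (-Complex.I * v) = u * v := by
    intro u v
    linear_combination (-(u * v)) * hI
  have hIs : ∀ u : ℂ, Complex.I * u * star (Complex.I * u) = u * star u := by
    intro u
    rw [star_mul', hsI, hII]
  have hIq : ∀ u : ℂ, -Complex.I * η * (Complex.I * u) = η * u := by
    intro u
    linear_combination (-(η * u)) * hI
  rw [trg, E1, E0, F1, F0, eR, hs, Vfor_ns, h2y, ← Vfor_hh, Vfor_ns, h4y, Vfor_h4, eN, eW,
    g11, g10, g01, g00, hII, hII, hII, hII, hIs, hIs, hIq, key]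
  ring

/-! ### the invariant as a product -/

private noncomputable def Vfor_Q (c : ℝ) (z : C2) : ℂ :=
  ((c * Real.exp (-Real.log (z 1).im) : ℝ) : ℂ)

private theorem Vfor_lsm : ContDiffOn ℝ ∞ (fun z : C2 => -Real.log (z 1).im) Up := by
  have h1 : ContDiffOn ℝ ∞ (fun z : C2 => (z 1).im) Up :=
    (Complex.imCLM.contDiff.comp
      (ContinuousLinearMap.proj (R := ℝ) (φ := fun _ : Fin 2 => ℂ) 1).contDiff).contDiffOn
  exact (h1.log (fun z hz => (ne_of_gt hz))).neg

private theorem Vfor_two {E : Type*} [NormedAddCommGroup E] [NormedSpace ℝ E] {f : C2 → E}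
    (h : ContDiffOn ℝ ∞ f Up) : ContDiffOn ℝ 2 f Up :=
  h.of_le (WithTop.coe_le_coe.2 (le_top : (2 : ℕ∞) ≤ ⊤))

private theorem Vfor_Qsm (c : ℝ) : ContDiffOn ℝ ∞ (Vfor_Q c) Up := by
  have h1 : ContDiffOn ℝ ∞ (fun z : C2 => c * Real.exp (-Real.log (z 1).im)) Up :=
    contDiffOn_const.mul Vfor_lsm.exp
  exact Complex.ofRealCLM.contDiff.comp_contDiffOn h1

private theorem Vfor_QW {A : C2 → ℂ} (hA : BA Up A) (k : ℝ) {x : C2} (hx : x ∈ Up) (a c : Fin 2) :
    Wb A a (Vfor_Q k) x = Vfor_Q k x * Wb A a pot x ∧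
    W A c (Vfor_Q k) x = Vfor_Q k x * star (Wb A c pot x) ∧
    HC A a c (Vfor_Q k) x = Vfor_Q k x * (gm A a c x + Wb A a pot x * star (Wb A c pot x)) := by
  have hφ : ContDiff ℝ ∞ (fun t : ℝ => k * Real.exp t) := contDiff_const.mul Real.contDiff_exp
  have hd : deriv (fun t : ℝ => k * Real.exp t) = fun t => k * Real.exp t := by
    funext t
    rw [deriv_const_mul _ (Real.differentiable_exp t)]
    simp
  have hf : DifferentiableAt ℝ (fun z : C2 => -Real.log (z 1).im) x :=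
    (Vfor_lsm.contDiffAt (Vfor_up.mem_nhds hx)).differentiableAt (by simp)
  have hφd : DifferentiableAt ℝ (fun t : ℝ => k * Real.exp t) (-Real.log (x 1).im) :=
    (hφ.differentiable (by simp)) _
  have hs : star (Wb A c pot x) = W A c pot x := by
    rw [← (W_star A pot x c).1]
    congr 1
    funext y
    exact Complex.conj_ofReal _
  have h1 := Vs.W_comp A hf hφd a
  have h2 := Vs.W_comp A hf hφd c
  have h3 := HC_comp Vfor_up hA (Vfor_two Vfor_lsm) isOpen_univ
    ((hφ.of_le (WithTop.coe_le_coe.2 (le_top : (2 : ℕ∞) ≤ ⊤))).contDiffOn) (fun _ _ => Set.mem_univ _)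
    a c x hx
  rw [hd] at h1 h2 h3
  rw [hd] at h3
  refine ⟨h1.2, ?_, ?_⟩
  · rw [hs]
    exact h2.1
  · rw [hs]
    refine h3.trans ?_
    change Vfor_Q k x * gm A a c x + Vfor_Q k x * (Wb A a pot x * W A c pot x) = _
    ring

private theorem Vfor_H0 {A : C2 → ℂ} (hA : BA Up A) (w : Fin 4 → ℂ) {x : C2} (hx : x ∈ Up)
    (a c : Fin 2) : HC A a c (Vfor_f A w) x = 0 ∧
    HC A a c (fun z => star (Vfor_f A w z)) x = 0 := by
  have key : ∀ a c, HC A a c (Vfor_f A w) x = 0 := by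
    intro a c
    have h := HV_symm Vfor_up hA (Vfor_two (Vfor_fsm hA w)) a c x hx
    rw [H_eq] at h
    have e : (fun y => WV A c (Vfor_f A w) y) =ᶠ[𝓝 x] fun _ => (0 : ℂ) := by
      filter_upwards [Vfor_up.mem_nhds hx] with y hy
      rw [W_eq]
      exact (Vfor_fW hA w hy).2.2 c
    rw [h, (WV_congr A e a).2, Wb_eq, (Vfor_Wc A 0 x a).2, W_eq, (Vfor_fW hA w hx).2.2 1, smul_zero,
      add_zero]
  refine ⟨key a c, ?_⟩
  have hs : ContDiffOn ℝ ∞ (fun z => star (Vfor_f A w z)) Up :=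
    Complex.conjCLE.contDiff.comp_contDiffOn (Vfor_fsm hA w)
  rw [HC_symm Vfor_up hA (Vfor_two hs) a c x hx]
  have e : (fun y => star (star (Vfor_f A w y))) = Vfor_f A w := by
    funext y
    rw [star_star]
  rw [e, key c a, star_zero]

private noncomputable def Vfor_P (A : C2 → ℂ) (w : Fin 4 → ℂ) (z : C2) : ℂ :=
  Vfor_f A w z * star (Vfor_f A w z)

private theorem Vfor_Psm {A : C2 → ℂ} (hA : BA Up A) (w : Fin 4 → ℂ) :
    ContDiffOn ℝ ∞ (Vfor_P A w) Up :=
  (Vfor_fsm hA w).mul (Complex.conjCLE.contDiff.comp_contDiffOn (Vfor_fsm hA w))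

private theorem Vfor_PW {A : C2 → ℂ} (hA : BA Up A) (w : Fin 4 → ℂ) {x : C2} (hx : x ∈ Up)
    (a c : Fin 2) :
    Wb A a (Vfor_P A w) x = Wb A a (Vfor_f A w) x * star (Vfor_f A w x) ∧
    W A c (Vfor_P A w) x = Vfor_f A w x * star (Wb A c (Vfor_f A w) x) ∧
    HC A a c (Vfor_P A w) x = Wb A a (Vfor_f A w) x * star (Wb A c (Vfor_f A w) x) := by
  have hs : ContDiffOn ℝ ∞ (fun z => star (Vfor_f A w z)) Up :=
    Complex.conjCLE.contDiff.comp_contDiffOn (Vfor_fsm hA w)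
  have d1 : DifferentiableAt ℝ (Vfor_f A w) x :=
    ((Vfor_fsm hA w).contDiffAt (Vfor_up.mem_nhds hx)).differentiableAt (by simp)
  have d2 : DifferentiableAt ℝ (fun z => star (Vfor_f A w z)) x := d1.star
  have m := fun c => Vs.W_mul A d1 d2 c
  have z := fun c => (Vfor_fW hA w hx).2.2 c
  have s := fun c => W_star A (Vfor_f A w) x c
  have h := HC_mul Vfor_up hA (Vfor_two (Vfor_fsm hA w)) (Vfor_two hs) a c x hx
  refine ⟨?_, ?_, ?_⟩
  · refine (m a).2.trans ?_
    rw [(s a).2, z a, star_zero, mul_zero, add_zero]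
  · refine (m c).1.trans ?_
    rw [z c, (s c).1, zero_mul, zero_add]
  · refine h.trans ?_
    rw [(Vfor_H0 hA w hx a c).1, (Vfor_H0 hA w hx a c).2, z c, (s c).1]
    ring

private noncomputable def Vfor_Y (A : C2 → ℂ) (w : Fin 4 → ℂ) (k : ℝ) (z : C2) : ℂ :=
  Vfor_P A w z * Vfor_Q k z

private noncomputable def Vfor_u (A : C2 → ℂ) (w : Fin 4 → ℂ) (a : Fin 2) (x : C2) : ℂ :=
  Wb A a (Vfor_f A w) x + Vfor_f A w x * Wb A a pot x

private theorem Vfor_YW {A : C2 → ℂ} (hA : BA Up A) (w : Fin 4 → ℂ) (k : ℝ) {x : C2} (hx : x ∈ Up)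
    (a c : Fin 2) :
    Wb A a (Vfor_Y A w k) x = Vfor_Q k x * star (Vfor_f A w x) * Vfor_u A w a x ∧
    W A c (Vfor_Y A w k) x = Vfor_Q k x * Vfor_f A w x * star (Vfor_u A w c x) ∧
    HC A a c (Vfor_Y A w k) x = Vfor_Y A w k x * gm A a c x +
      Vfor_Q k x * (Vfor_u A w a x * star (Vfor_u A w c x)) := by
  have d1 : DifferentiableAt ℝ (Vfor_P A w) x :=
    ((Vfor_Psm hA w).contDiffAt (Vfor_up.mem_nhds hx)).differentiableAt (by simp)
  have d2 : DifferentiableAt ℝ (Vfor_Q k) x :=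
    ((Vfor_Qsm k).contDiffAt (Vfor_up.mem_nhds hx)).differentiableAt (by simp)
  have m := fun c => Vs.W_mul A d1 d2 c
  have p := fun a c => Vfor_PW hA w hx a c
  have q := fun a c => Vfor_QW hA k hx a c
  have h := HC_mul Vfor_up hA (Vfor_two (Vfor_Psm hA w)) (Vfor_two (Vfor_Qsm k)) a c x hx
  refine ⟨?_, ?_, ?_⟩
  · refine (m a).2.trans ?_
    rw [(p a a).1, (q a a).1, Vfor_u, Vfor_P]
    ring
  · refine (m c).1.trans ?_
    rw [(p c c).2.1, (q c c).2.1, Vfor_u, Vfor_P, star_add, star_mul']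
    ring
  · refine h.trans ?_
    rw [(p a c).1, (p a c).2.1, (p a c).2.2, (q a c).1, (q a c).2.1, (q a c).2.2, Vfor_u, Vfor_u,
      Vfor_Y, Vfor_P, star_add, star_mul']
    ring

private theorem Vfor_trs (A : C2 → ℂ) (k : ℂ) (S : Fin 2 → Fin 2 → ℂ) (x : C2) :
    trg A (fun a c => k * S a c) x = k * trg A S x := by
  unfold trg
  ring

private theorem Vfor_tra (A : C2 → ℂ) (S T : Fin 2 → Fin 2 → ℂ) (x : C2) :
    trg A (fun a c => S a c + T a c) x = trg A S x + trg A T x := by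
  unfold trg
  ring

private theorem Vfor_vv (A : C2 → ℂ) (y : C2) : (h4 (vv A y) (vv A y)).re = -2 * (y 1).im := by
  have e : h4 (vv A y) (vv A y) = Complex.I * (y 1 - star (y 1)) := by
    simp only [h4, vv, Matrix.cons_val_zero, Matrix.cons_val_one, Matrix.cons_val, star_sub,
      star_mul', star_star, star_one]
    ring
  have h : y 1 - star (y 1) = ((2 * (y 1).im : ℝ) : ℂ) * Complex.I := Complex.sub_conj (y 1)
  rw [e, h]
  have e2 : Complex.I * (((2 * (y 1).im : ℝ) : ℂ) * Complex.I) = ((-2 * (y 1).im : ℝ) : ℂ) := by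
    push_cast
    linear_combination (2 * ((y 1).im : ℂ)) * Complex.I_mul_I
  rw [e2, Complex.ofReal_re]

private theorem Vfor_nf (A : C2 → ℂ) (w : Fin 4 → ℂ) (z : C2) :
    ‖h4 (vv A z) w‖ = ‖Vfor_f A w z‖ := by
  rw [Vfor_h4, norm_mul, Complex.norm_I, one_mul]

private theorem Vfor_fr {A : C2 → ℂ} (hA : BA Up A) (hp : SPL A) {x y : C2} (hx : x ∈ Up)
    (hy : y ∈ Up) :
    trg A (fun a c => Vfor_u A (vv A y) a x * star (Vfor_u A (vv A y) c x)) x =
      ((4 * (x 1).im * (y 1).im * wA A x * (ps A x y + aK A x y) : ℝ) : ℂ) := by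
  have hx' : 0 < (x 1).im := hx
  have hy' : 0 < (y 1).im := hy
  have h := frame_id hA (vv A y) x hx
  have hI := Complex.I_mul_I
  have hsI : star Complex.I = -Complex.I := Complex.conj_I
  have e1 : ∀ a, Wb A a (fun z => h4 (vv A z) (vv A y)) x + h4 (vv A x) (vv A y) * Wb A a pot x =
      Complex.I * Vfor_u A (vv A y) a x := by
    intro a
    rw [(Vfor_hW hA (vv A y) hx a).1, Vfor_h4, Vfor_u]
    ring
  have e2 : (fun a c => (Wb A a (fun z => h4 (vv A z) (vv A y)) x +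
      h4 (vv A x) (vv A y) * Wb A a pot x) *
      star (Wb A c (fun z => h4 (vv A z) (vv A y)) x + h4 (vv A x) (vv A y) * Wb A c pot x)) =
      fun a c => Vfor_u A (vv A y) a x * star (Vfor_u A (vv A y) c x) := by
    funext a c
    rw [e1, e1, star_mul', hsI]
    linear_combination (-(Vfor_u A (vv A y) a x * star (Vfor_u A (vv A y) c x))) * hI
  rw [e2] at h
  rw [h]
  congr 1
  have hs : 0 < sK A x := by
    have := hp x hx
    unfold sK
    linarith
  have hw : wA A x = sK A x / (4 * (x 1).im ^ 3) := (gm_explicit hA x hx).2.2.2.2.1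
  have hN : ‖h4 (vv A y) (nn A x)‖ = ‖NK A x y‖ := by
    rw [h4_NK, norm_mul, Complex.norm_I, one_mul]
  rw [Vfor_vv, hN, hw]
  unfold ps aK
  field_simp
  ring

private theorem Vfor_HCc (A : C2 → ℂ) {f g : C2 → ℂ} {x : C2} (h : f =ᶠ[𝓝 x] g) (a c : Fin 2) :
    HC A a c f x = HC A a c g x := by
  have e : (fun y => Wb A a f y) =ᶠ[𝓝 x] fun y => Wb A a g y := by
    filter_upwards [eventually_eventually_nhds.2 h] with y hy
    exact (Vs.W_congr A hy a).2
  rw [HC, HC, (Vs.W_congr A e c).1, (Vs.W_congr A h 1).2]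

private theorem Vfor_YK {A : C2 → ℂ} {x y : C2} (hx : x ∈ Up) (hy : y ∈ Up) :
    YK A y =ᶠ[𝓝 x] Vfor_Y A (vv A y) (1 / (4 * (y 1).im)) ∧
    Vfor_Q (1 / (4 * (y 1).im)) x = ((1 / (4 * (x 1).im * (y 1).im) : ℝ) : ℂ) := by
  have hy' : 0 < (y 1).im := hy
  have hQ : ∀ z ∈ Up, Vfor_Q (1 / (4 * (y 1).im)) z = ((1 / (4 * (z 1).im * (y 1).im) : ℝ) : ℂ) := by
    intro z hz
    have hz' : 0 < (z 1).im := hz
    unfold Vfor_Q
    rw [Real.exp_neg, Real.exp_log hz']
    congr 1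
    field_simp
  refine ⟨?_, hQ x hx⟩
  filter_upwards [Vfor_up.mem_nhds hx] with z hz
  have hz' : 0 < (z 1).im := hz
  rw [Vfor_Y, Vfor_P, hQ z hz, ← Vfor_ns, YK, ps, Vfor_nf, ← Complex.ofReal_mul]
  congr 1
  field_simp
  ring

/-- gradient of the invariant -/
theorem Y_grad {A : C2 → ℂ} (hA : BA Up A) (hp : SPL A) {x y : C2} (hx : x ∈ Up) (hy : y ∈ Up)
    (h0 : h4 (vv A x) (vv A y) ≠ 0) :
    trg A (fun a c => Wb A a (YK A y) x * W A c (YK A y) x) x =
      ((wA A x * (1 + ps A x y) * (ps A x y + aK A x y) : ℝ) : ℂ) := by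
  have hx' : 0 < (x 1).im := hx
  have hy' : 0 < (y 1).im := hy
  obtain ⟨hY, hQ⟩ := Vfor_YK (A := A) hx hy
  have hv : YK A y x = Vfor_Y A (vv A y) (1 / (4 * (y 1).im)) x := hY.self_of_nhds
  have e : (fun a c => Wb A a (YK A y) x * W A c (YK A y) x) = fun a c =>
      (Vfor_Q (1 / (4 * (y 1).im)) x * YK A y x) *
        (Vfor_u A (vv A y) a x * star (Vfor_u A (vv A y) c x)) := by
    funext a c
    rw [(Vs.W_congr A hY a).2, (Vs.W_congr A hY c).1, (Vfor_YW hA (vv A y) _ hx a c).1,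
      (Vfor_YW hA (vv A y) _ hx a c).2.1, hv, Vfor_Y, Vfor_P]
    ring
  rw [e, Vfor_trs, Vfor_fr hA hp hx hy, hQ, YK]
  rw [← Complex.ofReal_mul, ← Complex.ofReal_mul]
  congr 1
  field_simp

/-- Laplacian of the invariant -/
theorem Y_lap {A : C2 → ℂ} (hA : BA Up A) (hp : SPL A) {x y : C2} (hx : x ∈ Up) (hy : y ∈ Up)
    (h0 : h4 (vv A x) (vv A y) ≠ 0) :
    LV A (YK A y) x = ((3 * (1 + ps A x y) - 1 + aK A x y : ℝ) : ℂ) := by
  have hx' : 0 < (x 1).im := hx
  have hy' : 0 < (y 1).im := hy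
  have hw := (wA_pos hA hp x hx).1
  obtain ⟨hY, hQ⟩ := Vfor_YK (A := A) hx hy
  have hv : YK A y x = Vfor_Y A (vv A y) (1 / (4 * (y 1).im)) x := hY.self_of_nhds
  have e : (fun a c => HV A a c (YK A y) x) = fun a c =>
      YK A y x * gm A a c x + Vfor_Q (1 / (4 * (y 1).im)) x *
        (Vfor_u A (vv A y) a x * star (Vfor_u A (vv A y) c x)) := by
    funext a c
    rw [H_eq, Vfor_HCc A hY, (Vfor_YW hA (vv A y) _ hx a c).2.2, hv]
  have ht : trg A (fun a c => gm A a c x) x = ((2 * wA A x : ℝ) : ℂ) := by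
    have := (gm_explicit hA x hx).2.2.2.2.2
    unfold trg
    push_cast
    rw [← this]
    ring
  have hL : LV A (YK A y) x = ((wA A x : ℂ))⁻¹ * trg A (fun a c => HV A a c (YK A y) x) x := rfl
  rw [hL, e, Vfor_tra A (fun a c => YK A y x * gm A a c x), Vfor_trs A (YK A y x), Vfor_trs,
    Vfor_fr hA hp hx hy, hQ, ht, YK]
  rw [← Complex.ofReal_inv, ← Complex.ofReal_mul, ← Complex.ofReal_mul, ← Complex.ofReal_add,
    ← Complex.ofReal_mul]
  congr 1
  field_simp
  ring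

private theorem Vfor_psy (A : C2 → ℂ) (x y : C2) : ps A x y = ps A y x := by
  have h : h4 (vv A y) (vv A x) = star (h4 (vv A x) (vv A y)) := by
    simp only [h4, star_mul', star_add, star_sub, star_star]
    rw [show star Complex.I = -Complex.I from Complex.conj_I]
    ring
  unfold ps
  rw [h, norm_star]
  congr 2
  ring

private theorem Vfor_psm {A : C2 → ℂ} (hA : BA Up A) {y : C2} (hy : y ∈ Up) :
    ContDiffOn ℝ ∞ (fun z => 1 + ps A z y) Up := by
  have h1 : ContDiffOn ℝ ∞ (fun z => (Vfor_Y A (vv A y) (1 / (4 * (y 1).im)) z).re) Up :=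
    Complex.reCLM.contDiff.comp_contDiffOn ((Vfor_Psm hA (vv A y)).mul (Vfor_Qsm _))
  refine h1.congr fun z hz => ?_
  have h := (Vfor_YK (A := A) hz hy).1.self_of_nhds
  rw [← h, YK, Complex.ofReal_re]

/-- half of the commutator formula -/
private theorem Vfor_L {A : C2 → ℂ} (hA : BA Up A) (hp : SPL A) {ph : ℝ → ℝ}
    (h : ContDiff ℝ ∞ ph) {x y : C2} (hx : x ∈ Up) (hy : y ∈ Up)
    (h0 : h4 (vv A x) (vv A y) ≠ 0) :
    (ellA hA hp).L (fun z => ph (1 + ps A z y)) x =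
      deriv ph (1 + ps A x y) * (3 * (1 + ps A x y) - 1 + aK A x y) +
      deriv (deriv ph) (1 + ps A x y) * ((1 + ps A x y) * (ps A x y + aK A x y)) := by
  have hw := (wA_pos hA hp x hx).1
  have hwc : (wA A x : ℂ) ≠ 0 := by
    exact_mod_cast hw.ne'
  have hsm := Vfor_psm hA hy
  have hu : LN.Smo (fun z => ph (1 + ps A z y)) := h.comp_contDiffOn hsm
  have h1 := L_ell_real hA hp hu x hx
  have h2 := fun a c => HC_comp Vfor_up hA (Vfor_two hsm) isOpen_univ
    ((h.of_le (WithTop.coe_le_coe.2 (le_top : (2 : ℕ∞) ≤ ⊤))).contDiffOn) (fun _ _ => Set.mem_univ _)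
    a c x hx
  have hg := Y_grad hA hp hx hy h0
  have hl := Y_lap hA hp hx hy h0
  have hL : ∀ f : C2 → ℂ, LV A f x = ((wA A x : ℂ))⁻¹ * trg A (fun a c => HC A a c f x) x := by
    intro f
    have e : (fun a c => HC A a c f x) = fun a c => HV A a c f x := by
      funext a c
      rw [H_eq]
    rw [e]
    rfl
  have e : (fun a c => HC A a c (fun z => ((ph (1 + ps A z y) : ℝ) : ℂ)) x) = fun a c =>
      ((deriv ph (1 + ps A x y) : ℝ) : ℂ) * HC A a c (YK A y) x +
      ((deriv (deriv ph) (1 + ps A x y) : ℝ) : ℂ) * (Wb A a (YK A y) x * W A c (YK A y) x) := by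
    funext a c
    exact h2 a c
  have hc : (((ellA hA hp).L (fun z => ph (1 + ps A z y)) x : ℝ) : ℂ) =
      ((deriv ph (1 + ps A x y) * (3 * (1 + ps A x y) - 1 + aK A x y) +
      deriv (deriv ph) (1 + ps A x y) * ((1 + ps A x y) * (ps A x y + aK A x y)) : ℝ) : ℂ) := by
    rw [h1, hL, e, Vfor_tra A (fun a c => ((deriv ph (1 + ps A x y) : ℝ) : ℂ) * HC A a c (YK A y) x),
      Vfor_trs, Vfor_trs, hg]
    rw [hL] at hl
    have hl2 : trg A (fun a c => HC A a c (YK A y) x) x =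
        (wA A x : ℂ) * ((3 * (1 + ps A x y) - 1 + aK A x y : ℝ) : ℂ) := by
      rw [← hl, mul_inv_cancel_left₀ hwc]
    rw [hl2]
    push_cast
    field_simp
  exact_mod_cast hc

/-- the commutator formula -/
theorem Y_commK {G : Type} [Group G] {σ : G →* GU (Fin 2)} (K : Kerr σ) {ph : ℝ → ℝ}
    (h : ContDiff ℝ ∞ ph) : ∀ x ∈ Up, ∀ y ∈ Up,
    (ellA K.ba K.pos).L (fun z => ph (1 + ps K.A z y)) x -
      (ellA K.ba K.pos).L (fun z => ph (1 + ps K.A x z)) y =
    (deriv ph (1 + ps K.A x y) + (1 + ps K.A x y) * deriv (deriv ph) (1 + ps K.A x y)) *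
      bK K.A x y := by
  intro x hx y hy
  have hx' : 0 < (x 1).im := hx
  have hy' : 0 < (y 1).im := hy
  have h0 : h4 (vv K.A x) (vv K.A y) ≠ 0 := by
    intro h0
    have h1 := K.nneg x hx y hy
    unfold ps at h1
    rw [h0, norm_zero] at h1
    norm_num at h1
  have h0' : h4 (vv K.A y) (vv K.A x) ≠ 0 := by
    intro h0
    have h1 := K.nneg y hy x hx
    unfold ps at h1
    rw [h0, norm_zero] at h1
    norm_num at h1
  have e : (fun z => ph (1 + ps K.A x z)) = fun z => ph (1 + ps K.A z x) := by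
    funext z
    rw [Vfor_psy]
  rw [e, Vfor_L K.ba K.pos h hx hy h0, Vfor_L K.ba K.pos h hy hx h0', Vfor_psy K.A y x]
  unfold bK
  ring

end Pool.Agent.MPd01a95
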