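import Mathlib
import Pool.Agent.Lib.MP_d01a95_gt_S.VDefs
import Pool.Agent.Lib.MP_d01a95_gt_S.Vfor
import Pool.Agent.Lib.MP_d01a95_gt_S.Vcalc
import Pool.Agent.Lib.MP_d01a95_gt_L.LCs

/-!
Project SU(2,2), part (2), module Vbet.
-/

set_option autoImplicit false
set_option linter.all false

open Matrix Filter Topology MeasureTheory Measure
open scoped ENNReal NNReal ContDiff

namespace Pool.Agent.MPd01a95

section gen

variable {E G : Type*} [NormedAddCommGroup E] [NormedSpace ℝ E] [NormedAddCommGroup G]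
  [NormedSpace ℝ G]

private theorem vb_lip {Ω : Set E} (hΩ : IsOpen Ω) {f : E → G} (hf : ContDiffOn ℝ 1 f Ω)
    {K : Set E} (hK : IsCompact K) (hcv : Convex ℝ K) (hKΩ : K ⊆ Ω) :
    ∃ c : ℝ, 0 ≤ c ∧ ∀ x ∈ K, ∀ y ∈ K, ‖f y - f x‖ ≤ c * ‖y - x‖ := by
  have hc : ContinuousOn (fderiv ℝ f) K := (hf.continuousOn_fderiv_of_isOpen hΩ le_rfl).mono hKΩ
  obtain ⟨c, hc'⟩ := hK.exists_bound_of_continuousOn hc
  refine ⟨max c 0, le_max_right _ _, fun x hx y hy => ?_⟩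
  have hd : ∀ z ∈ K, HasFDerivWithinAt f (fderiv ℝ f z) K z := fun z hz =>
    ((hf.differentiableOn (by norm_num)).differentiableAt
      (hΩ.mem_nhds (hKΩ hz))).hasFDerivAt.hasFDerivWithinAt
  have h := hcv.norm_image_sub_le_of_norm_hasFDerivWithin_le hd hc' hx hy
  exact h.trans (mul_le_mul_of_nonneg_right (le_max_left _ _) (norm_nonneg _))

private theorem vb_tay2 {Ω : Set E} (hΩ : IsOpen Ω) {f : E → G} (hf : ContDiffOn ℝ 2 f Ω)
    {K : Set E} (hK : IsCompact K) (hcv : Convex ℝ K) (hKΩ : K ⊆ Ω) :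
    ∃ c : ℝ, 0 ≤ c ∧ ∀ x ∈ K, ∀ y ∈ K,
      ‖f y - f x - fderiv ℝ f x (y - x)‖ ≤ c * ‖y - x‖ ^ 2 := by
  have hf1 : ContDiffOn ℝ 1 (fderiv ℝ f) Ω := hf.fderiv_of_isOpen hΩ (by norm_num)
  obtain ⟨c, hc0, hc⟩ := vb_lip hΩ hf1 hK hcv hKΩ
  refine ⟨c, hc0, fun x hx y hy => ?_⟩
  have hS : segment ℝ x y ⊆ K := hcv.segment_subset hx hy
  have hd : ∀ z ∈ segment ℝ x y, HasFDerivWithinAt (fun z => f z - fderiv ℝ f x z)
      (fderiv ℝ f z - fderiv ℝ f x) (segment ℝ x y) z := fun z hz =>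
    (((hf.differentiableOn (by norm_num)).differentiableAt
      (hΩ.mem_nhds (hKΩ (hS hz)))).hasFDerivAt.sub
      (fderiv ℝ f x).hasFDerivAt).hasFDerivWithinAt
  have hb : ∀ z ∈ segment ℝ x y, ‖fderiv ℝ f z - fderiv ℝ f x‖ ≤ c * ‖y - x‖ := fun z hz =>
    (hc x hx z (hS hz)).trans
      (mul_le_mul_of_nonneg_left (norm_sub_le_of_mem_segment hz) hc0)
  have h := (convex_segment x y).norm_image_sub_le_of_norm_hasFDerivWithin_le hd hb
    (left_mem_segment ℝ x y) (right_mem_segment ℝ x y)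
  have e : f y - f x - fderiv ℝ f x (y - x) =
      (f y - fderiv ℝ f x y) - (f x - fderiv ℝ f x x) := by
    rw [map_sub]
    abel
  rw [e]
  calc _ ≤ c * ‖y - x‖ * ‖y - x‖ := h
    _ = c * ‖y - x‖ ^ 2 := by ring

private theorem vb_trap {Ω : Set E} (hΩ : IsOpen Ω) {f : E → G} (hf : ContDiffOn ℝ 3 f Ω)
    {K : Set E} (hK : IsCompact K) (hcv : Convex ℝ K) (hKΩ : K ⊆ Ω) :
    ∃ c : ℝ, 0 ≤ c ∧ ∀ x ∈ K, ∀ y ∈ K,
      ‖(2 : ℝ) • (f y - f x) - (fderiv ℝ f x (y - x) + fderiv ℝ f y (y - x))‖ ≤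
        c * ‖y - x‖ ^ 3 := by
  have hf2 : ContDiffOn ℝ 2 (fderiv ℝ f) Ω := hf.fderiv_of_isOpen hΩ (by norm_num)
  obtain ⟨c, hc0, hc⟩ := vb_tay2 hΩ hf2 hK hcv hKΩ
  refine ⟨c, hc0, fun x hx y hy => ?_⟩
  set D := y - x with hD
  have hz : ∀ t ∈ Set.Icc (0 : ℝ) 1, x + t • D ∈ K := fun t ht =>
    hcv.add_smul_sub_mem hx hy ht
  have hl : ∀ t : ℝ, HasDerivAt (fun t : ℝ => x + t • D) D t := fun t => by
    simpa using ((hasDerivAt_id t).smul_const D).const_add x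
  have h1 : ∀ t ∈ Set.Icc (0 : ℝ) 1, HasDerivAt (fun t : ℝ => f (x + t • D))
      (fderiv ℝ f (x + t • D) D) t := fun t ht =>
    (((hf.differentiableOn (by norm_num)).differentiableAt
      (hΩ.mem_nhds (hKΩ (hz t ht)))).hasFDerivAt).comp_hasDerivAt t (hl t)
  have h2 : ∀ t ∈ Set.Icc (0 : ℝ) 1, HasDerivAt (fun t : ℝ => fderiv ℝ f (x + t • D))
      (fderiv ℝ (fderiv ℝ f) (x + t • D) D) t := fun t ht =>
    (((hf2.differentiableOn (by norm_num)).differentiableAt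
      (hΩ.mem_nhds (hKΩ (hz t ht)))).hasFDerivAt).comp_hasDerivAt t (hl t)
  have h3 : ∀ t ∈ Set.Icc (0 : ℝ) 1, HasDerivAt (fun t : ℝ => fderiv ℝ f (x + t • D) D)
      ((fderiv ℝ (fderiv ℝ f) (x + t • D) D) D) t := fun t ht => by
    simpa using (h2 t ht).clm_apply (hasDerivAt_const t D)
  have h4 : ∀ t ∈ Set.Icc (0 : ℝ) 1, HasDerivAt
      (fun t : ℝ => (2 : ℝ) • (f (x + t • D) - f x) -
        t • (fderiv ℝ f x D + fderiv ℝ f (x + t • D) D))
      ((2 : ℝ) • fderiv ℝ f (x + t • D) D -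
        (t • ((fderiv ℝ (fderiv ℝ f) (x + t • D) D) D) +
          (1 : ℝ) • (fderiv ℝ f x D + fderiv ℝ f (x + t • D) D))) t := fun t ht =>
    (((h1 t ht).sub_const (f x)).const_smul (2 : ℝ)).sub
      ((hasDerivAt_id t).smul ((h3 t ht).const_add (fderiv ℝ f x D)))
  have hb : ∀ t ∈ Set.Ico (0 : ℝ) 1, ‖(2 : ℝ) • fderiv ℝ f (x + t • D) D -
        (t • ((fderiv ℝ (fderiv ℝ f) (x + t • D) D) D) +
          (1 : ℝ) • (fderiv ℝ f x D + fderiv ℝ f (x + t • D) D))‖ ≤ c * ‖D‖ ^ 3 := by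
    intro t ht
    have ht' : t ∈ Set.Icc (0 : ℝ) 1 := ⟨ht.1, ht.2.le⟩
    have hb1 := hc (x + t • D) (hz t ht') x hx
    have e1 : x - (x + t • D) = -(t • D) := by abel
    have e2 : (2 : ℝ) • fderiv ℝ f (x + t • D) D -
        (t • ((fderiv ℝ (fderiv ℝ f) (x + t • D) D) D) +
          (1 : ℝ) • (fderiv ℝ f x D + fderiv ℝ f (x + t • D) D)) =
        -((fderiv ℝ f x - fderiv ℝ f (x + t • D) -
          fderiv ℝ (fderiv ℝ f) (x + t • D) (x - (x + t • D))) D) := by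
      rw [e1, map_neg, map_smul]
      simp only [ContinuousLinearMap.sub_apply, ContinuousLinearMap.neg_apply,
        ContinuousLinearMap.smul_apply]
      module
    rw [e2, norm_neg]
    refine (ContinuousLinearMap.le_opNorm _ _).trans ?_
    have e3 : ‖x - (x + t • D)‖ ≤ ‖D‖ := by
      rw [e1, norm_neg, norm_smul, Real.norm_eq_abs, abs_of_nonneg ht.1]
      exact mul_le_of_le_one_left (norm_nonneg _) ht.2.le
    have e4 : ‖x - (x + t • D)‖ ^ 2 ≤ ‖D‖ ^ 2 := pow_le_pow_left₀ (norm_nonneg _) e3 2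
    calc _ ≤ c * ‖x - (x + t • D)‖ ^ 2 * ‖D‖ := mul_le_mul_of_nonneg_right hb1 (norm_nonneg _)
      _ ≤ c * ‖D‖ ^ 2 * ‖D‖ :=
        mul_le_mul_of_nonneg_right (mul_le_mul_of_nonneg_left e4 hc0) (norm_nonneg _)
      _ = c * ‖D‖ ^ 3 := by ring
  have h := norm_image_sub_le_of_norm_deriv_le_segment_01'
    (fun t ht => (h4 t ht).hasDerivWithinAt) hb
  have e5 : x + D = y := by rw [hD]; abel
  simp only [zero_smul, add_zero, sub_self, smul_zero, sub_zero, one_smul, e5] at h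
  exact h

end gen

private theorem vb_open : IsOpen Up :=
  isOpen_lt continuous_const (Complex.continuous_im.comp (continuous_apply 1))

private theorem vb_dd {A : C2 → ℂ} (hA : BA Up A) (a : Fin 2) : ContDiffOn ℝ 1 (dd A a) Up := by
  have h : ContDiffOn ℝ 1 (fderiv ℝ A) Up := hA.sm.fderiv_of_isOpen vb_open (by norm_cast)
  unfold dd
  exact contDiffOn_const.mul ((h.clm_apply contDiffOn_const).sub
    (contDiffOn_const.mul (h.clm_apply contDiffOn_const)))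

private theorem vb_im : ContDiffOn ℝ 1 (fun x : C2 => (x 1).im) Up :=
  (Complex.imCLM.contDiff.comp (contDiff_apply ℝ ℂ (1 : Fin 2))).contDiffOn

private theorem vb_sK {A : C2 → ℂ} (hA : BA Up A) : ContDiffOn ℝ 1 (sK A) Up := by
  have hA1 : ContDiffOn ℝ 1 A Up := hA.sm.of_le (by norm_cast)
  have hs : ContDiffOn ℝ 1 (fun x => star (A x)) Up :=
    (Complex.conjCLE.contDiff.comp_contDiffOn hA1 :)
  unfold sK
  refine ((Complex.imCLM.contDiff.comp_contDiffOn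
    ((vb_dd hA 0).add (hs.mul (vb_dd hA 1)))).add (vb_im.mul ?_)).neg
  exact (vb_dd hA 1).norm_sq ℝ

/-- the derivative of `A` -/
private theorem vb_fd {A : C2 → ℂ} (hA : BA Up A) {x : C2} (hx : x ∈ Up) (v : C2) :
    fderiv ℝ A x v = v 0 * dd A 0 x + (v 1 - A x * star (v 0)) * dd A 1 x := by
  have h1 := hA.h1 x hx
  have h0 := hA.h0 x hx
  have e := fderiv_frame A A x v
  rw [W_eq, W_eq, Wb_eq, Wb_eq] at e
  have w1 : W A 1 A x = 0 := by unfold W; rw [if_pos rfl]; exact h1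
  have w0 : W A 0 A x = 0 := by unfold W; rw [if_neg (by decide)]; exact h0
  have b1 : Wb A 1 A x = dd A 1 x := by unfold Wb; rw [if_pos rfl]
  have b0 : Wb A 0 A x = dd A 0 x := by
    unfold Wb
    rw [if_neg (by decide), h1, mul_zero, add_zero]
  rw [w1, w0, b1, b0] at e
  rw [e]
  simp only [smul_eq_mul, mul_zero, add_zero]

/-- the defect of symmetry is of order five -/
theorem bK_bd {A : C2 → ℂ} (hA : BA Up A) (hp : SPL A) {C : Set C2} (hC : C ⊆ Up)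
    (hCc : IsCompact C) : ∃ c : ℝ, ∀ x ∈ C, ∀ y ∈ C, |bK A x y| ≤ c * ‖y - x‖ ^ 5 := by
  obtain ⟨K, hK, hKU, hCK, hcv⟩ := LN.exists_hull hCc hC
  have hKU' : K ⊆ Up := hKU
  have hA1 : ContDiffOn ℝ 1 A Up := hA.sm.of_le (by norm_cast)
  have hA2 : ContDiffOn ℝ 2 A Up := hA.sm.of_le (by norm_cast)
  have hA3 : ContDiffOn ℝ 3 A Up := hA.sm.of_le (by norm_cast)
  have hspos : ∀ x ∈ Up, 0 < sK A x := fun x hx => by
    have := hp x hx
    unfold sK
    linarith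
  have ha : ContDiffOn ℝ 1 (fun x => (sK A x)⁻¹) Up :=
    (vb_sK hA).inv fun x hx => (hspos x hx).ne'
  have hb : ContDiffOn ℝ 1 (fun x : C2 => ((x 1).im)⁻¹) Up :=
    vb_im.inv fun x hx => (show 0 < (x 1).im from hx).ne'
  obtain ⟨L0, hL0, l0⟩ := vb_lip vb_open hA1 hK hcv hKU'
  obtain ⟨L1, hL1, l1⟩ := vb_lip vb_open (vb_dd hA 1) hK hcv hKU'
  obtain ⟨La, hLa, la⟩ := vb_lip vb_open ha hK hcv hKU'
  obtain ⟨Lb, hLb, lb⟩ := vb_lip vb_open hb hK hcv hKU'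
  obtain ⟨c2, hc2, t2⟩ := vb_tay2 vb_open hA2 hK hcv hKU'
  obtain ⟨c3, hc3, t3⟩ := vb_trap vb_open hA3 hK hcv hKU'
  obtain ⟨m1, hm1⟩ := hK.exists_bound_of_continuousOn ((vb_dd hA 1).continuousOn.mono hKU')
  obtain ⟨ma, hma⟩ := hK.exists_bound_of_continuousOn (ha.continuousOn.mono hKU')
  obtain ⟨mb, hmb⟩ := hK.exists_bound_of_continuousOn (hb.continuousOn.mono hKU')
  have nz : ∀ x y : C2, ‖star (y 0) - star (x 0)‖ ≤ ‖y - x‖ := fun x y => by
    rw [← star_sub, norm_star]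
    exact norm_le_pi_norm (y - x) 0
  -- formula for the normal component
  have f1 : ∀ x ∈ K, ∀ y : C2, NK A x y = (A y - A x - fderiv ℝ A x (y - x)) +
      (A y - A x) * dd A 1 x * (star (y 0) - star (x 0)) := by
    intro x hx y
    rw [vb_fd hA (hKU' hx)]
    simp only [Pi.sub_apply, star_sub]
    unfold NK
    ring
  set N2 : ℝ := c2 + L0 * |m1| with hN2
  have hN2' : 0 ≤ N2 := by positivity
  have b2 : ∀ x ∈ K, ∀ y ∈ K, ‖NK A x y‖ ≤ N2 * ‖y - x‖ ^ 2 := by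
    intro x hx y hy
    rw [f1 x hx y]
    refine (norm_add_le _ _).trans ?_
    have h1 := t2 x hx y hy
    have h2 : ‖(A y - A x) * dd A 1 x * (star (y 0) - star (x 0))‖ ≤
        L0 * ‖y - x‖ * |m1| * ‖y - x‖ := by
      rw [norm_mul, norm_mul]
      have g1 := l0 x hx y hy
      have g2 : ‖dd A 1 x‖ ≤ |m1| := (hm1 x hx).trans (le_abs_self _)
      have g3 := nz x y
      have : 0 ≤ ‖y - x‖ := norm_nonneg _
      gcongr
    calc _ ≤ c2 * ‖y - x‖ ^ 2 + L0 * ‖y - x‖ * |m1| * ‖y - x‖ := add_le_add h1 h2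
      _ = N2 * ‖y - x‖ ^ 2 := by rw [hN2]; ring
  set N3 : ℝ := c3 + L0 * L1 with hN3
  have hN3' : 0 ≤ N3 := by positivity
  have b3 : ∀ x ∈ K, ∀ y ∈ K, ‖NK A x y - NK A y x‖ ≤ N3 * ‖y - x‖ ^ 3 := by
    intro x hx y hy
    have e : NK A x y - NK A y x =
        ((2 : ℝ) • (A y - A x) - (fderiv ℝ A x (y - x) + fderiv ℝ A y (y - x))) +
        (A y - A x) * (dd A 1 x - dd A 1 y) * (star (y 0) - star (x 0)) := by
      rw [f1 x hx y, f1 y hy x, ← neg_sub y x, map_neg, Complex.real_smul]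
      push_cast
      ring
    rw [e]
    refine (norm_add_le _ _).trans ?_
    have h1 := t3 x hx y hy
    have h2 : ‖(A y - A x) * (dd A 1 x - dd A 1 y) * (star (y 0) - star (x 0))‖ ≤
        L0 * ‖y - x‖ * (L1 * ‖y - x‖) * ‖y - x‖ := by
      rw [norm_mul, norm_mul]
      have g1 := l0 x hx y hy
      have g2 : ‖dd A 1 x - dd A 1 y‖ ≤ L1 * ‖y - x‖ := by
        rw [norm_sub_rev]
        exact l1 x hx y hy
      have g3 := nz x y
      have : 0 ≤ ‖y - x‖ := norm_nonneg _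
      gcongr
    calc _ ≤ c3 * ‖y - x‖ ^ 3 + L0 * ‖y - x‖ * (L1 * ‖y - x‖) * ‖y - x‖ := add_le_add h1 h2
      _ = N3 * ‖y - x‖ ^ 3 := by rw [hN3]; ring
  refine ⟨N3 * (2 * N2) * (|ma| * |mb|) / 4 + N2 ^ 2 * (|ma| * Lb + |mb| * La) / 4,
    fun x hx y hy => ?_⟩
  have hx' := hCK hx
  have hy' := hCK hy
  set d := ‖y - x‖ with hd
  have hd0 : 0 ≤ d := norm_nonneg _
  set a : C2 → ℝ := fun x => (sK A x)⁻¹ with haa
  set b : C2 → ℝ := fun x => ((x 1).im)⁻¹ with hbb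
  have ea : ∀ z w : C2, aK A z w = ‖NK A z w‖ ^ 2 * (a z * b w) / 4 := by
    intro z w
    simp only [haa, hbb]
    unfold aK
    rw [div_eq_mul_inv, mul_inv, mul_inv]
    ring
  have e : bK A x y = (‖NK A x y‖ - ‖NK A y x‖) * (‖NK A x y‖ + ‖NK A y x‖) * (a x * b y) / 4 +
      ‖NK A y x‖ ^ 2 * (a x * (b y - b x) + b x * (a x - a y)) / 4 := by
    unfold bK
    rw [ea, ea]
    ring
  have n1 := b2 x hx' y hy'
  have n2 : ‖NK A y x‖ ≤ N2 * d ^ 2 := by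
    have := b2 y hy' x hx'
    rwa [norm_sub_rev] at this
  have n3 : |‖NK A x y‖ - ‖NK A y x‖| ≤ N3 * d ^ 3 :=
    (abs_norm_sub_norm_le _ _).trans (b3 x hx' y hy')
  have n4 : |‖NK A x y‖ + ‖NK A y x‖| ≤ 2 * N2 * d ^ 2 := by
    rw [abs_of_nonneg (by positivity)]
    linarith
  have g1 : |a x| ≤ |ma| := (hma x hx').trans (le_abs_self _)
  have g2 : |b y| ≤ |mb| := (hmb y hy').trans (le_abs_self _)
  have g3 : |b x| ≤ |mb| := (hmb x hx').trans (le_abs_self _)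
  have g4 : |b y - b x| ≤ Lb * d := lb x hx' y hy'
  have g5 : |a x - a y| ≤ La * d := by
    rw [abs_sub_comm]
    exact la x hx' y hy'
  have n5 : |‖NK A y x‖ ^ 2| ≤ (N2 * d ^ 2) ^ 2 := by
    rw [abs_of_nonneg (by positivity)]
    exact pow_le_pow_left₀ (norm_nonneg _) n2 2
  have k1 : |(‖NK A x y‖ - ‖NK A y x‖) * (‖NK A x y‖ + ‖NK A y x‖) * (a x * b y) / 4| ≤
      N3 * d ^ 3 * (2 * N2 * d ^ 2) * (|ma| * |mb|) / 4 := by
    rw [abs_div, abs_mul, abs_mul, abs_mul, abs_of_pos (by norm_num : (0 : ℝ) < 4)]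
    gcongr
  have k2 : |a x * (b y - b x) + b x * (a x - a y)| ≤ |ma| * (Lb * d) + |mb| * (La * d) := by
    refine (abs_add_le _ _).trans ?_
    rw [abs_mul, abs_mul]
    gcongr
  have k3 : |‖NK A y x‖ ^ 2 * (a x * (b y - b x) + b x * (a x - a y)) / 4| ≤
      (N2 * d ^ 2) ^ 2 * (|ma| * (Lb * d) + |mb| * (La * d)) / 4 := by
    rw [abs_div, abs_mul, abs_of_pos (by norm_num : (0 : ℝ) < 4)]
    gcongr
  rw [e]
  refine (abs_add_le _ _).trans ((add_le_add k1 k3).trans (le_of_eq ?_))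
  ring

end Pool.Agent.MPd01a95
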