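import Mathlib
import Pool.Agent.Lib.MP_d01a95_gt_S.VDefs
import Pool.Agent.Lib.MP_d01a95_gt_S.Vact

/-!
Project SU(2,2), part (2), module Vpsi.
-/

set_option autoImplicit false
set_option linter.all false

open Matrix Filter Topology MeasureTheory Measure
open scoped ENNReal NNReal ContDiff

namespace Pool.Agent.MPd01a95

namespace VpsiAux

private theorem up_open : IsOpen Up :=
  isOpen_lt continuous_const (Complex.continuous_im.comp (continuous_apply 1))

private theorem coord_sm (i : Fin 2) : ContDiffOn ℝ ∞ (fun y : C2 => y i) Up :=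
  (ContinuousLinearMap.proj (R := ℝ) (φ := fun _ : Fin 2 => ℂ) i).contDiff.contDiffOn

private theorem star_sm {E : Type*} [NormedAddCommGroup E] [NormedSpace ℝ E] {k : WithTop ℕ∞}
    {Ω : Set E} {f : E → ℂ} (hf : ContDiffOn ℝ k f Ω) :
    ContDiffOn ℝ k (fun y : E => star (f y)) Ω :=
  Complex.conjCLE.contDiff.comp_contDiffOn hf

private theorem vv_sm {A : C2 → ℂ} (hA : BA Up A) (j : Fin 4) :
    ContDiffOn ℝ ∞ (fun y => vv A y j) Up := by
  fin_cases j
  · exact hA.sm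
  · change ContDiffOn ℝ ∞ (fun y => y 1 - star (y 0) * A y) Up
    exact (coord_sm 1).sub ((star_sm (coord_sm 0)).mul hA.sm)
  · exact coord_sm 0
  · exact contDiffOn_const

private theorem h4_smul (c d : ℂ) (v w : Fin 4 → ℂ) :
    h4 (c • v) (d • w) = c * star d * h4 v w := by
  unfold h4
  simp only [Pi.smul_apply, smul_eq_mul, star_mul']
  ring

private theorem h4_symm (v w : Fin 4 → ℂ) : h4 w v = star (h4 v w) := by
  unfold h4
  have hI : star Complex.I = -Complex.I := Complex.conj_I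
  simp only [star_mul', star_add, star_sub, star_star, hI]
  ring

/-- the form on the surface -/
private theorem h4_xy (A : C2 → ℂ) (x y : C2) : h4 (vv A x) (vv A y) =
    Complex.I * (x 1 - star (y 1) + A x * (star (y 0) - star (x 0)) +
      star (A y) * (y 0 - x 0)) := by
  change Complex.I * ((x 1 - star (x 0) * A x) * star (1 : ℂ) -
    1 * star (y 1 - star (y 0) * A y) + A x * star (y 0) - x 0 * star (A y)) = _
  rw [star_one, star_sub, star_mul', star_star]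
  ring

private theorem X0 (A : C2 → ℂ) (x v : C2) : Xc A x v 0 = v 0 := by
  unfold Xc
  rw [if_neg (by decide)]

private theorem X1 (A : C2 → ℂ) (x v : C2) : Xc A x v 1 = v 1 - A x * star (v 0) := by
  unfold Xc
  rw [if_pos rfl]

private theorem nsq (z : ℂ) : ‖z‖ ^ 2 = z.re ^ 2 + z.im ^ 2 := by
  rw [Complex.sq_norm, Complex.normSq_apply]
  ring

private theorem ps_self (A : C2 → ℂ) {x : C2} (hx : x ∈ Up) : ps A x x = 0 := by
  have hx' : 0 < (x 1).im := hx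
  unfold ps
  rw [h4_xy, nsq]
  have e1 : (Complex.I * (x 1 - star (x 1) + A x * (star (x 0) - star (x 0)) +
      star (A x) * (x 0 - x 0))).re = -2 * (x 1).im := by
    have : (star (x 1)).im = -(x 1).im := rfl
    simp [this]
    ring
  have e2 : (Complex.I * (x 1 - star (x 1) + A x * (star (x 0) - star (x 0)) +
      star (A x) * (x 0 - x 0))).im = 0 := by
    have : (star (x 1)).re = (x 1).re := rfl
    simp [this]
  rw [e1, e2]
  field_simp
  ring

/-- exact formula for the numerator -/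
private theorem num_exact (A : C2 → ℂ) (x v : C2) :
    ‖h4 (vv A x) (vv A (x + v))‖ ^ 2 - 4 * (x 1).im * ((x + v) 1).im =
      ‖-star (v 1 - A x * star (v 0)) + A x * star (v 0) +
        star (A (x + v) - A x) * v 0‖ ^ 2 +
      4 * (x 1).im * (star (A (x + v) - A x) * v 0).im := by
  rw [h4_xy, nsq, nsq]
  simp only [Pi.add_apply]
  have s1 : ∀ z : ℂ, (star z).re = z.re := fun _ => rfl
  have s2 : ∀ z : ℂ, (star z).im = -z.im := fun _ => rfl
  simp only [Complex.add_re, Complex.add_im, Complex.sub_re, Complex.sub_im, Complex.mul_re,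
    Complex.mul_im, Complex.neg_re, Complex.neg_im, s1, s2, Complex.I_re, Complex.I_im]
  ring

/-- the quadratic form -/
private theorem gqf_exact {A : C2 → ℂ} (hA : BA Up A) {x : C2} (hx : x ∈ Up) (v : C2) :
    4 * (x 1).im ^ 2 * gqf A x v =
      ‖-star (v 1 - A x * star (v 0)) + A x * star (v 0)‖ ^ 2 +
      4 * (x 1).im * (star (dd A 1 x * (v 1 - A x * star (v 0)) + dd A 0 x * v 0) * v 0).im := by
  have hx' : 0 < (x 1).im := hx
  obtain ⟨g11, g10, g01, g00, -, -⟩ := gm_explicit hA x hx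
  have e10 : gm A 1 0 x = ((4 * (x 1).im ^ 2 : ℝ) : ℂ)⁻¹ *
      (-A x + 2 * ((x 1).im : ℂ) * Complex.I * dd A 1 x) := by
    rw [g10]
    have hy : ((x 1).im : ℂ) ≠ 0 := by exact_mod_cast hx'.ne'
    push_cast
    field_simp
    ring
  have e11 : gm A 1 1 x = ((4 * (x 1).im ^ 2 : ℝ) : ℂ)⁻¹ := by
    rw [g11]
    push_cast
    rw [one_div]
  have e00 : gm A 0 0 x = ((4 * (x 1).im ^ 2 : ℝ) : ℂ)⁻¹ *
      ((‖A x‖ ^ 2 - 4 * (x 1).im * (dd A 0 x).im : ℝ) : ℂ) := by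
    rw [g00]
    rw [← Complex.ofReal_inv, ← Complex.ofReal_mul]
    congr 1
    field_simp
  have e01 : gm A 0 1 x = ((4 * (x 1).im ^ 2 : ℝ) : ℂ)⁻¹ *
      star (-A x + 2 * ((x 1).im : ℂ) * Complex.I * dd A 1 x) := by
    rw [g01, e10, star_mul']
    congr 1
    rw [← Complex.ofReal_inv]
    exact Complex.conj_ofReal _
  unfold gqf
  simp only [Fin.sum_univ_two, X0, X1]
  rw [e11, e10, e00, e01]
  have hfac : ∀ (a b c d p : ℂ), (p⁻¹ * a + p⁻¹ * b + (p⁻¹ * c + p⁻¹ * d)) =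
      p⁻¹ * (a + b + (c + d)) := by
    intros; ring
  have h4y : (4 * (x 1).im ^ 2 : ℝ) ≠ 0 := by positivity
  simp only [mul_assoc (((4 * (x 1).im ^ 2 : ℝ) : ℂ)⁻¹)]
  rw [hfac, ← Complex.ofReal_inv, Complex.re_ofReal_mul, ← mul_assoc, mul_inv_cancel₀ h4y, one_mul]
  rw [nsq, nsq]
  have s1 : ∀ z : ℂ, (star z).re = z.re := fun _ => rfl
  have s2 : ∀ z : ℂ, (star z).im = -z.im := fun _ => rfl
  simp only [Complex.add_re, Complex.add_im, Complex.sub_re, Complex.sub_im, Complex.mul_re,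
    Complex.mul_im, Complex.neg_re, Complex.neg_im, s1, s2, Complex.I_re, Complex.I_im,
    Complex.ofReal_re, Complex.ofReal_im, Complex.re_ofNat, Complex.im_ofNat]
  ring

end VpsiAux

open VpsiAux

variable {G : Type} [Group G] {σ : G →* GU (Fin 2)} (K : Kerr σ)

private theorem ps_smooth {A : C2 → ℂ} (hA : BA Up A) :
    ContDiffOn ℝ ∞ (fun p : C2 × C2 => ps A p.1 p.2) (Up ×ˢ Up) := by
  have h1 : ∀ j, ContDiffOn ℝ ∞ (fun p : C2 × C2 => vv A p.1 j) (Up ×ˢ Up) := fun j =>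
    (vv_sm hA j).comp contDiff_fst.contDiffOn fun p hp => hp.1
  have h2 : ∀ j, ContDiffOn ℝ ∞ (fun p : C2 × C2 => star (vv A p.2 j)) (Up ×ˢ Up) := fun j =>
    star_sm ((vv_sm hA j).comp contDiff_snd.contDiffOn fun p hp => hp.2)
  have h3 : ContDiffOn ℝ ∞ (fun p : C2 × C2 => h4 (vv A p.1) (vv A p.2)) (Up ×ˢ Up) := by
    unfold h4
    exact contDiffOn_const.mul (((((h1 1).mul (h2 3)).sub ((h1 3).mul (h2 1))).add
      ((h1 0).mul (h2 2))).sub ((h1 2).mul (h2 0)))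
  have him : ContDiffOn ℝ ∞ (fun y : C2 => (y 1).im) Up :=
    Complex.imCLM.contDiff.comp_contDiffOn (coord_sm 1)
  have h4' : ContDiffOn ℝ ∞ (fun p : C2 × C2 => (p.1 1).im) (Up ×ˢ Up) :=
    him.comp contDiff_fst.contDiffOn fun p hp => hp.1
  have h5 : ContDiffOn ℝ ∞ (fun p : C2 × C2 => (p.2 1).im) (Up ×ˢ Up) :=
    him.comp contDiff_snd.contDiffOn fun p hp => hp.2
  unfold ps
  refine ((h3.norm_sq ℝ).div ((contDiffOn_const.mul h4').mul h5) ?_).sub contDiffOn_const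
  rintro ⟨x, y⟩ ⟨hx, hy⟩
  have hx' : 0 < (x 1).im := hx
  have hy' : 0 < (y 1).im := hy
  positivity

/-- the point pair invariant: smooth, symmetric, invariant, nondegenerate on the diagonal -/
theorem kerr_psi : ContDiffOn ℝ ∞ (fun p : C2 × C2 => ps K.A p.1 p.2) (Up ×ˢ Up) ∧
    (∀ x ∈ Up, ∀ y ∈ Up, ps K.A x y = ps K.A y x) ∧
    (∀ x ∈ Up, ps K.A x x = 0) ∧
    ∀ γ, ∀ x ∈ Up, ∀ y ∈ Up, ps K.A (K.al γ x) (K.al γ y) = ps K.A x y := by
  refine ⟨ps_smooth K.ba, fun x _ y _ => ?_, fun x hx => ps_self K.A hx, fun γ x hx y hy => ?_⟩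
  · unfold ps
    rw [h4_symm (vv K.A y) (vv K.A x), norm_star]
    ring
  · obtain ⟨c, -, hn, -, hv, hi⟩ := kerr_fac K γ
    have hx' : 0 < (x 1).im := hx
    have hy' : 0 < (y 1).im := hy
    have h1 : 0 < ‖c x‖ := norm_pos_iff.mpr (hn x hx)
    have h2 : 0 < ‖c y‖ := norm_pos_iff.mpr (hn y hy)
    unfold ps
    rw [hv x hx, hv y hy, hi x hx, hi y hy, h4_smul, K.pres, norm_mul, norm_mul, norm_star]
    congr 1
    field_simp

private theorem gqf_smul (A : C2 → ℂ) (x v : C2) (t : ℝ) : gqf A x (t • v) = t ^ 2 * gqf A x v := by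
  unfold gqf
  have hX : ∀ a, Xc A x (t • v) a = (t : ℂ) * Xc A x v a := by
    intro a
    unfold Xc
    have hs : star (t : ℂ) = (t : ℂ) := Complex.conj_ofReal t
    split_ifs
    · simp only [Pi.smul_apply, Complex.real_smul, star_mul', hs]
      ring
    · simp only [Pi.smul_apply, Complex.real_smul]
  have hs : star (t : ℂ) = (t : ℂ) := Complex.conj_ofReal t
  have e : (∑ a, ∑ c, gm A a c x * Xc A x (t • v) a * star (Xc A x (t • v) c)) =
      ((t ^ 2 : ℝ) : ℂ) * ∑ a, ∑ c, gm A a c x * Xc A x v a * star (Xc A x v c) := by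
    simp only [hX, star_mul', hs, Fin.sum_univ_two]
    push_cast
    ring
  rw [e, Complex.re_ofReal_mul]

private theorem gqf_cont {A : C2 → ℂ} (hA : BA Up A) :
    ContinuousOn (fun p : C2 × C2 => gqf A p.1 p.2) (Up ×ˢ Set.univ) := by
  have h1 : ∀ a c, ContinuousOn (fun p : C2 × C2 => gm A a c p.1) (Up ×ˢ Set.univ) := fun a c =>
    (gm_sm hA a c).1.continuousOn.comp continuousOn_fst fun p hp => hp.1
  have hAc : ContinuousOn (fun p : C2 × C2 => A p.1) (Up ×ˢ Set.univ) :=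
    hA.sm.continuousOn.comp continuousOn_fst fun p hp => hp.1
  have h2 : ∀ i : Fin 2, ContinuousOn (fun p : C2 × C2 => p.2 i) (Up ×ˢ Set.univ) := fun i =>
    ((continuous_apply i).comp continuous_snd).continuousOn
  have hX : ∀ a, ContinuousOn (fun p : C2 × C2 => Xc A p.1 p.2 a) (Up ×ˢ Set.univ) := by
    intro a
    unfold Xc
    split_ifs
    · exact (h2 1).sub (hAc.mul (continuous_star.comp_continuousOn (h2 0)))
    · exact h2 0
  unfold gqf
  refine Complex.continuous_re.comp_continuousOn ?_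
  refine continuousOn_finset_sum _ fun a _ => continuousOn_finset_sum _ fun c _ => ?_
  exact ((h1 a c).mul (hX a)).mul (continuous_star.comp_continuousOn (hX c))

private theorem gqf_pos' {A : C2 → ℂ} (hA : BA Up A)
    (hpos : ∀ x ∈ Up, (dd A 0 x + star (A x) * dd A 1 x).im + (x 1).im * ‖dd A 1 x‖ ^ 2 < 0)
    {x : C2} (hx : x ∈ Up) {v : C2} (hv : v ≠ 0) : 0 < gqf A x v := by
  obtain ⟨hw, h11, h00, i11, i00⟩ := wA_pos hA hpos x hx
  obtain ⟨-, -, g01, -, -, hdet⟩ := gm_explicit hA x hx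
  set d := v 0 with hd
  set b := v 1 - A x * star (v 0) with hb
  have hg : gqf A x v = (gm A 1 1 x).re * ‖b‖ ^ 2 + (gm A 0 0 x).re * ‖d‖ ^ 2 +
      2 * (gm A 1 0 x * b * star d).re := by
    unfold gqf
    simp only [Fin.sum_univ_two, X0, X1]
    rw [← hb, ← hd, g01, nsq, nsq]
    have s1 : ∀ z : ℂ, (star z).re = z.re := fun _ => rfl
    have s2 : ∀ z : ℂ, (star z).im = -z.im := fun _ => rfl
    simp only [Complex.add_re, Complex.add_im, Complex.mul_re, Complex.mul_im, s1, s2, i11, i00]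
    ring
  have hdet' : (gm A 1 1 x).re * (gm A 0 0 x).re - ‖gm A 1 0 x‖ ^ 2 = wA A x := by
    have h := congrArg Complex.re hdet
    rw [g01] at h
    have s1 : ∀ z : ℂ, (star z).re = z.re := fun _ => rfl
    have s2 : ∀ z : ℂ, (star z).im = -z.im := fun _ => rfl
    simp only [Complex.sub_re, Complex.mul_re, s1, s2, i11, i00, Complex.ofReal_re] at h
    rw [← h, nsq]
    ring
  have hid : (gm A 1 1 x).re * gqf A x v =
      ‖((gm A 1 1 x).re : ℂ) * b + star (gm A 1 0 x) * d‖ ^ 2 + wA A x * ‖d‖ ^ 2 := by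
    rw [hg, ← hdet', nsq, nsq, nsq, nsq]
    have s1 : ∀ z : ℂ, (star z).re = z.re := fun _ => rfl
    have s2 : ∀ z : ℂ, (star z).im = -z.im := fun _ => rfl
    simp only [Complex.add_re, Complex.add_im, Complex.mul_re, Complex.mul_im, s1, s2,
      Complex.ofReal_re, Complex.ofReal_im]
    ring
  have hfin : 0 < (gm A 1 1 x).re * gqf A x v := by
    rw [hid]
    by_cases h0 : d = 0
    · have hb0 : b ≠ 0 := by
        intro hb0
        apply hv
        have h1 : v 1 = 0 := by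
          rw [hb, ← hd, h0, star_zero, mul_zero, sub_zero] at hb0
          exact hb0
        funext i
        fin_cases i
        · exact h0
        · exact h1
      rw [h0, mul_zero, add_zero, norm_zero]
      have : 0 < ‖((gm A 1 1 x).re : ℂ) * b‖ :=
        norm_pos_iff.mpr (mul_ne_zero (Complex.ofReal_ne_zero.mpr h11.ne') hb0)
      positivity
    · have : 0 < ‖d‖ := norm_pos_iff.mpr h0
      positivity
  exact (mul_pos_iff_of_pos_left h11).mp hfin

theorem gqf_pos {A : C2 → ℂ} (hA : BA Up A)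
    (hpos : ∀ x ∈ Up, (dd A 0 x + star (A x) * dd A 1 x).im + (x 1).im * ‖dd A 1 x‖ ^ 2 < 0)
    {C : Set C2} (hC : C ⊆ Up) (hCc : IsCompact C) : ∃ c > 0, ∀ x ∈ C, ∀ v : C2,
    c * ‖v‖ ^ 2 ≤ gqf A x v ∧ gqf A x v ≤ c⁻¹ * ‖v‖ ^ 2 := by
  rcases C.eq_empty_or_nonempty with hCe | hCn
  · exact ⟨1, one_pos, fun x hx => by rw [hCe] at hx; exact absurd hx (Set.notMem_empty x)⟩
  have hScp : IsCompact (C ×ˢ Metric.sphere (0 : C2) 1) := hCc.prod (isCompact_sphere 0 1)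
  have hSn : (C ×ˢ Metric.sphere (0 : C2) 1).Nonempty :=
    hCn.prod (NormedSpace.sphere_nonempty.mpr zero_le_one)
  have hcont : ContinuousOn (fun p : C2 × C2 => gqf A p.1 p.2) (C ×ˢ Metric.sphere (0 : C2) 1) :=
    (gqf_cont hA).mono (Set.prod_mono hC (Set.subset_univ _))
  obtain ⟨p, hp, hmin⟩ := hScp.exists_isMinOn hSn hcont
  obtain ⟨q, hq, hmax⟩ := hScp.exists_isMaxOn hSn hcont
  have hne : ∀ w ∈ Metric.sphere (0 : C2) 1, w ≠ 0 := by
    intro w hw h0
    rw [h0] at hw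
    simp at hw
  have hp0 : 0 < gqf A p.1 p.2 := gqf_pos' hA hpos (hC hp.1) (hne _ hp.2)
  have hq0 : 0 < gqf A q.1 q.2 := gqf_pos' hA hpos (hC hq.1) (hne _ hq.2)
  refine ⟨min (gqf A p.1 p.2) (gqf A q.1 q.2)⁻¹, lt_min hp0 (inv_pos.mpr hq0), fun x hx v => ?_⟩
  by_cases hv : v = 0
  · have h0 : gqf A x v = 0 := by
      have := gqf_smul A x v 0
      rw [zero_smul] at this
      rw [hv, this]
      ring
    rw [h0, hv, norm_zero]
    simp
  have hvn : 0 < ‖v‖ := norm_pos_iff.mpr hv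
  set w : C2 := ‖v‖⁻¹ • v with hw
  have hvw : v = ‖v‖ • w := by
    rw [hw, smul_smul, mul_inv_cancel₀ hvn.ne', one_smul]
  have hws : w ∈ Metric.sphere (0 : C2) 1 := by
    rw [mem_sphere_zero_iff_norm, hw, norm_smul, norm_inv, norm_norm, inv_mul_cancel₀ hvn.ne']
  have e : gqf A x v = ‖v‖ ^ 2 * gqf A x w := by
    conv_lhs => rw [hvw]
    exact gqf_smul A x w ‖v‖
  have h1 : gqf A p.1 p.2 ≤ gqf A x w := isMinOn_iff.mp hmin (x, w) (Set.mk_mem_prod hx hws)
  have h2 : gqf A x w ≤ gqf A q.1 q.2 := isMaxOn_iff.mp hmax (x, w) (Set.mk_mem_prod hx hws)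
  rw [e]
  constructor
  · rw [mul_comm]
    exact mul_le_mul_of_nonneg_left ((min_le_left _ _).trans h1) (by positivity)
  · rw [mul_comm]
    refine mul_le_mul_of_nonneg_right (h2.trans ?_) (by positivity)
    rw [← inv_inv (gqf A q.1 q.2)]
    exact inv_anti₀ (lt_min hp0 (by rw [inv_inv]; exact inv_pos.mpr hq0))
      (by rw [inv_inv]; exact min_le_right _ _)

private theorem taylor_A {A : C2 → ℂ} (hA : BA Up A) {x v : C2} {B : ℝ}
    (hB : ∀ z ∈ Metric.closedBall x ‖v‖, z ∈ Up ∧ ‖fderiv ℝ (fderiv ℝ A) z‖ ≤ B) :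
    ‖(A (x + v) - A x) - (dd A 1 x * (v 1 - A x * star (v 0)) + dd A 0 x * v 0)‖ ≤
      B * ‖v‖ ^ 2 := by
  have hxs : x ∈ Metric.closedBall x ‖v‖ := Metric.mem_closedBall_self (norm_nonneg v)
  have hys : x + v ∈ Metric.closedBall x ‖v‖ := by
    rw [Metric.mem_closedBall, dist_eq_norm, add_sub_cancel_left]
  have hconv : Convex ℝ (Metric.closedBall x ‖v‖) := convex_closedBall x ‖v‖
  have hx : x ∈ Up := (hB x hxs).1
  have hd : ∀ z ∈ Metric.closedBall x ‖v‖, DifferentiableAt ℝ A z := fun z hz =>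
    (hA.sm.contDiffAt (up_open.mem_nhds (hB z hz).1)).differentiableAt (by simp)
  have hd2 : ∀ z ∈ Metric.closedBall x ‖v‖, DifferentiableAt ℝ (fderiv ℝ A) z := by
    intro z hz
    have h := (hA.sm.contDiffAt (up_open.mem_nhds (hB z hz).1)).of_le
      (WithTop.coe_le_coe.2 (le_top : (2 : ℕ∞) ≤ ⊤))
    exact (h.fderiv_right (m := 1) (by norm_num)).differentiableAt (by norm_num)
  have hb1 : ∀ z ∈ Metric.closedBall x ‖v‖, ‖fderiv ℝ A z - fderiv ℝ A x‖ ≤ B * ‖v‖ := by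
    intro z hz
    have h := hconv.norm_image_sub_le_of_norm_fderiv_le (𝕜 := ℝ) hd2
      (fun w hw => (hB w hw).2) hxs hz
    have hB0 : 0 ≤ B := (norm_nonneg (fderiv ℝ (fderiv ℝ A) x)).trans (hB x hxs).2
    refine h.trans (mul_le_mul_of_nonneg_left ?_ hB0)
    rw [← dist_eq_norm]
    exact hz
  have h := hconv.norm_image_sub_le_of_norm_fderiv_le' (𝕜 := ℝ) hd hb1 hxs hys
  rw [add_sub_cancel_left] at h
  have hf := fderiv_frame A A x v
  obtain ⟨hW, h1, h0, -, -⟩ := W_A up_open hA x hx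
  rw [Wb_eq, Wb_eq, W_eq, W_eq, hW, hW, h1, h0] at hf
  simp only [smul_eq_mul, mul_zero, add_zero] at hf
  rw [hf] at h
  have e : dd A 1 x * (v 1 - A x * star (v 0)) + dd A 0 x * v 0 =
      v 0 * dd A 0 x + (v 1 - A x * star (v 0)) * dd A 1 x := by ring
  rw [e]
  refine h.trans (le_of_eq ?_)
  ring

/-- the algebraic estimate -/
private theorem alg_est {B t Y Y' P g : ℝ} {z z0 w w0 d : ℂ} (hB : 1 ≤ B) (ht : 0 ≤ t)
    (ht1 : t ≤ 1) (hY : 0 < Y) (hY' : 0 < Y') (hYB : Y ≤ B) (hYi : Y⁻¹ ≤ B) (hYi' : Y'⁻¹ ≤ B)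
    (hYY : |Y' - Y| ≤ t) (hd : ‖d‖ ≤ t) (hw0 : ‖w0‖ ≤ 3 * B ^ 2 * t) (hw : ‖w - w0‖ ≤ B * t ^ 2)
    (hz0 : ‖z0‖ ≤ 3 * B * t) (hz : z = z0 + star w * d)
    (hP : P = (‖z‖ ^ 2 + 4 * Y * (star w * d).im) / (4 * Y * Y'))
    (hg : 4 * Y ^ 2 * g = ‖z0‖ ^ 2 + 4 * Y * (star w0 * d).im) :
    |P - g| ≤ 65 * B ^ 8 * t ^ 3 := by
  have hB0 : 0 < B := lt_of_lt_of_le one_pos hB
  have hB1 : B ≤ B ^ 2 := by nlinarith
  have ht2 : t ^ 2 ≤ t := by nlinarith
  have hwn : ‖w‖ ≤ 4 * B ^ 2 * t := by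
    have h1 : ‖w‖ ≤ ‖w - w0‖ + ‖w0‖ := by
      have := norm_add_le (w - w0) w0
      rwa [sub_add_cancel] at this
    have h2 : B * t ^ 2 ≤ B ^ 2 * t := mul_le_mul hB1 ht2 (by positivity) (by positivity)
    linarith
  have hsd : ‖star w * d‖ ≤ 4 * B ^ 2 * t ^ 2 := by
    rw [norm_mul, norm_star]
    calc ‖w‖ * ‖d‖ ≤ (4 * B ^ 2 * t) * t := mul_le_mul hwn hd (norm_nonneg _) (by positivity)
      _ = _ := by ring
  have hzn : ‖z‖ ≤ 7 * B ^ 2 * t := by
    rw [hz]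
    have h1 : 3 * B * t ≤ 3 * B ^ 2 * t := by
      have := mul_le_mul_of_nonneg_right hB1 ht
      linarith
    have h2 : 4 * B ^ 2 * t ^ 2 ≤ 4 * B ^ 2 * t := mul_le_mul_of_nonneg_left ht2 (by positivity)
    have := norm_add_le z0 (star w * d)
    linarith
  have hzz : |‖z‖ ^ 2 - ‖z0‖ ^ 2| ≤ 40 * B ^ 4 * t ^ 3 := by
    have h1 : |‖z‖ - ‖z0‖| ≤ 4 * B ^ 2 * t ^ 2 := by
      have := abs_norm_sub_norm_le z z0
      rw [hz, add_sub_cancel_left] at this
      rw [hz]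
      exact this.trans hsd
    have h2 : |‖z‖ + ‖z0‖| ≤ 10 * B ^ 2 * t := by
      rw [abs_of_nonneg (by positivity)]
      have h3 : 3 * B * t ≤ 3 * B ^ 2 * t := by
        have := mul_le_mul_of_nonneg_right hB1 ht
        linarith
      linarith
    have e : ‖z‖ ^ 2 - ‖z0‖ ^ 2 = (‖z‖ - ‖z0‖) * (‖z‖ + ‖z0‖) := by ring
    rw [e, abs_mul]
    calc |‖z‖ - ‖z0‖| * |‖z‖ + ‖z0‖| ≤ (4 * B ^ 2 * t ^ 2) * (10 * B ^ 2 * t) :=
          mul_le_mul h1 h2 (abs_nonneg _) (by positivity)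
      _ = _ := by ring
  have him : |4 * Y * (star w * d).im - 4 * Y * (star w0 * d).im| ≤ 4 * B ^ 2 * t ^ 3 := by
    have e : 4 * Y * (star w * d).im - 4 * Y * (star w0 * d).im =
        4 * Y * (star (w - w0) * d).im := by
      rw [star_sub, sub_mul, Complex.sub_im]
      ring
    have h1 : |(star (w - w0) * d).im| ≤ B * t ^ 2 * t := by
      refine (Complex.abs_im_le_norm _).trans ?_
      rw [norm_mul, norm_star]
      exact mul_le_mul hw hd (norm_nonneg _) (by positivity)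
    rw [e, abs_mul, abs_of_nonneg (by positivity)]
    calc 4 * Y * |(star (w - w0) * d).im| ≤ 4 * B * (B * t ^ 2 * t) :=
          mul_le_mul (by linarith) h1 (abs_nonneg _) (by positivity)
      _ = _ := by ring
  set N := ‖z‖ ^ 2 + 4 * Y * (star w * d).im with hN
  set M := ‖z0‖ ^ 2 + 4 * Y * (star w0 * d).im with hM
  have hNM : |N - M| ≤ 44 * B ^ 4 * t ^ 3 := by
    have e : N - M = (‖z‖ ^ 2 - ‖z0‖ ^ 2) +
        (4 * Y * (star w * d).im - 4 * Y * (star w0 * d).im) := by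
      rw [hN, hM]
      ring
    rw [e]
    have h1 : 4 * B ^ 2 * t ^ 3 ≤ 4 * B ^ 4 * t ^ 3 := by
      have : B ^ 2 ≤ B ^ 4 := pow_le_pow_right₀ hB (by norm_num)
      have h3 : 0 ≤ t ^ 3 := by positivity
      have := mul_le_mul_of_nonneg_right this h3
      linarith
    have := abs_add_le (‖z‖ ^ 2 - ‖z0‖ ^ 2)
      (4 * Y * (star w * d).im - 4 * Y * (star w0 * d).im)
    linarith
  have hMb : |M| ≤ 21 * B ^ 3 * t ^ 2 := by
    have h1 : |‖z0‖ ^ 2| ≤ 9 * B ^ 2 * t ^ 2 := by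
      rw [abs_of_nonneg (by positivity)]
      calc ‖z0‖ ^ 2 ≤ (3 * B * t) ^ 2 := pow_le_pow_left₀ (norm_nonneg _) hz0 2
        _ = _ := by ring
    have h2 : |4 * Y * (star w0 * d).im| ≤ 12 * B ^ 3 * t ^ 2 := by
      have h3 : |(star w0 * d).im| ≤ 3 * B ^ 2 * t * t := by
        refine (Complex.abs_im_le_norm _).trans ?_
        rw [norm_mul, norm_star]
        exact mul_le_mul hw0 hd (norm_nonneg _) (by positivity)
      rw [abs_mul, abs_of_nonneg (by positivity)]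
      calc 4 * Y * |(star w0 * d).im| ≤ 4 * B * (3 * B ^ 2 * t * t) :=
            mul_le_mul (by linarith) h3 (abs_nonneg _) (by positivity)
        _ = _ := by ring
    have h4 : 9 * B ^ 2 * t ^ 2 ≤ 9 * B ^ 3 * t ^ 2 := by
      have : B ^ 2 ≤ B ^ 3 := pow_le_pow_right₀ hB (by norm_num)
      have h3 : 0 ≤ t ^ 2 := by positivity
      have := mul_le_mul_of_nonneg_right this h3
      linarith
    have := abs_add_le (‖z0‖ ^ 2) (4 * Y * (star w0 * d).im)
    linarith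
  have hkey : P - g = ((N - M) * Y - M * (Y' - Y)) * ((1 / 4) * (Y⁻¹ * Y⁻¹ * Y'⁻¹)) := by
    have hg' : g = M / (4 * Y ^ 2) := by
      rw [← hg]
      field_simp
    rw [hP, hg']
    field_simp
    ring
  have h5 : |(N - M) * Y - M * (Y' - Y)| ≤ 65 * B ^ 5 * t ^ 3 := by
    have h6 : |(N - M) * Y| ≤ 44 * B ^ 5 * t ^ 3 := by
      rw [abs_mul, abs_of_pos hY]
      calc |N - M| * Y ≤ (44 * B ^ 4 * t ^ 3) * B :=
            mul_le_mul hNM hYB hY.le (by positivity)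
        _ = _ := by ring
    have h7 : |M * (Y' - Y)| ≤ 21 * B ^ 5 * t ^ 3 := by
      rw [abs_mul]
      have h8 : B ^ 3 ≤ B ^ 5 := pow_le_pow_right₀ hB (by norm_num)
      calc |M| * |Y' - Y| ≤ (21 * B ^ 3 * t ^ 2) * t :=
            mul_le_mul hMb hYY (abs_nonneg _) (by positivity)
        _ = B ^ 3 * (21 * t ^ 3) := by ring
        _ ≤ B ^ 5 * (21 * t ^ 3) := mul_le_mul_of_nonneg_right h8 (by positivity)
        _ = _ := by ring
    have := abs_sub ((N - M) * Y) (M * (Y' - Y))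
    linarith
  have h9 : |(1 / 4) * (Y⁻¹ * Y⁻¹ * Y'⁻¹)| ≤ B ^ 3 := by
    have hi : 0 < Y⁻¹ := inv_pos.mpr hY
    have hi' : 0 < Y'⁻¹ := inv_pos.mpr hY'
    rw [abs_of_nonneg (by positivity)]
    have h10 : Y⁻¹ * Y⁻¹ * Y'⁻¹ ≤ B * B * B :=
      mul_le_mul (mul_le_mul hYi hYi hi.le hB0.le) hYi' hi'.le (by positivity)
    have h11 : 0 < Y⁻¹ * Y⁻¹ * Y'⁻¹ := by positivity
    nlinarith
  rw [hkey, abs_mul]
  calc |(N - M) * Y - M * (Y' - Y)| * |(1 / 4) * (Y⁻¹ * Y⁻¹ * Y'⁻¹)| ≤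
        (65 * B ^ 5 * t ^ 3) * B ^ 3 := mul_le_mul h5 h9 (abs_nonneg _) (by positivity)
    _ = _ := by ring

/-- second order Taylor expansion on the diagonal, uniform on compact sets -/
theorem psi_taylor {C : Set C2} (hC : C ⊆ Up) (hCc : IsCompact C) : ∃ r > 0, ∃ c : ℝ,
    ∀ x ∈ C, ∀ v : C2, ‖v‖ ≤ r → x + v ∈ Up ∧ |ps K.A x (x + v) - gqf K.A x v| ≤ c * ‖v‖ ^ 3 := by
  obtain ⟨r, hr, hrs⟩ := hCc.exists_cthickening_subset_open up_open hC
  have hQc : IsCompact (Metric.cthickening r C) := hCc.cthickening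
  have hA := K.ba
  have hfd : ContinuousOn (fderiv ℝ K.A) Up :=
    hA.sm.continuousOn_fderiv_of_isOpen up_open (by simp)
  have hc1 : ContDiffOn ℝ ∞ (fderiv ℝ K.A) Up := hA.sm.fderiv_of_isOpen up_open (by simp)
  have hfd2 : ContinuousOn (fderiv ℝ (fderiv ℝ K.A)) Up :=
    hc1.continuousOn_fderiv_of_isOpen up_open (by simp)
  have hdd : ∀ a, ContinuousOn (dd K.A a) Up := by
    intro a
    have h : ∀ u : C2, ContinuousOn (fun x => fderiv ℝ K.A x u) Up := fun u =>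
      hfd.clm_apply continuousOn_const
    exact continuousOn_const.mul ((h _).sub (continuousOn_const.mul (h _)))
  have him : ContinuousOn (fun y : C2 => (y 1).im) Up :=
    (Complex.continuous_im.comp (continuous_apply 1)).continuousOn
  have hinv : ContinuousOn (fun y : C2 => ((y 1).im)⁻¹) Up := him.inv₀ fun x hx => ne_of_gt hx
  obtain ⟨B1, hB1⟩ := hQc.exists_bound_of_continuousOn (hA.sm.continuousOn.mono hrs)
  obtain ⟨B2, hB2⟩ := hQc.exists_bound_of_continuousOn ((hdd 0).mono hrs)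
  obtain ⟨B3, hB3⟩ := hQc.exists_bound_of_continuousOn ((hdd 1).mono hrs)
  obtain ⟨B4, hB4⟩ := hQc.exists_bound_of_continuousOn (f := fderiv ℝ (fderiv ℝ K.A))
    (hfd2.mono hrs)
  obtain ⟨B5, hB5⟩ := hQc.exists_bound_of_continuousOn (him.mono hrs)
  obtain ⟨B6, hB6⟩ := hQc.exists_bound_of_continuousOn (hinv.mono hrs)
  set B := 1 + |B1| + |B2| + |B3| + |B4| + |B5| + |B6| with hBd
  have n1 := abs_nonneg B1
  have n2 := abs_nonneg B2
  have n3 := abs_nonneg B3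
  have n4 := abs_nonneg B4
  have n5 := abs_nonneg B5
  have n6 := abs_nonneg B6
  have l1 := le_abs_self B1
  have l2 := le_abs_self B2
  have l3 := le_abs_self B3
  have l4 := le_abs_self B4
  have l5 := le_abs_self B5
  have l6 := le_abs_self B6
  refine ⟨min r 1, lt_min hr one_pos, 65 * B ^ 8, fun x hx v hv => ?_⟩
  have hvr : ‖v‖ ≤ r := hv.trans (min_le_left _ _)
  have hv1 : ‖v‖ ≤ 1 := hv.trans (min_le_right _ _)
  have hball : ∀ z ∈ Metric.closedBall x ‖v‖, z ∈ Metric.cthickening r C := by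
    intro z hz
    exact Metric.closedBall_subset_cthickening hx r (Metric.closedBall_subset_closedBall hvr hz)
  have hxQ : x ∈ Metric.cthickening r C :=
    hball x (Metric.mem_closedBall_self (norm_nonneg v))
  have hyQ : x + v ∈ Metric.cthickening r C := by
    apply hball
    rw [Metric.mem_closedBall, dist_eq_norm, add_sub_cancel_left]
  have hyU : x + v ∈ Up := hrs hyQ
  have hxU : x ∈ Up := hrs hxQ
  refine ⟨hyU, ?_⟩
  have hB : 1 ≤ B := by linarith
  have hd : ‖v 0‖ ≤ ‖v‖ := norm_le_pi_norm v 0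
  have he : ‖v 1‖ ≤ ‖v‖ := norm_le_pi_norm v 1
  have hAn : ‖K.A x‖ ≤ B := (hB1 x hxQ).trans (by linarith)
  have hA0 : ‖dd K.A 0 x‖ ≤ B := (hB2 x hxQ).trans (by linarith)
  have hA1 : ‖dd K.A 1 x‖ ≤ B := (hB3 x hxQ).trans (by linarith)
  have hnv := norm_nonneg v
  have hB0 : 0 < B := lt_of_lt_of_le one_pos hB
  have hAd : ‖K.A x * star (v 0)‖ ≤ B * ‖v‖ := by
    rw [norm_mul, norm_star]
    exact mul_le_mul hAn hd (norm_nonneg _) hB0.le
  have hvB : ‖v‖ ≤ B * ‖v‖ := by nlinarith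
  have hb : ‖v 1 - K.A x * star (v 0)‖ ≤ 2 * B * ‖v‖ := by
    have := norm_sub_le (v 1) (K.A x * star (v 0))
    linarith
  have hw0 : ‖dd K.A 1 x * (v 1 - K.A x * star (v 0)) + dd K.A 0 x * v 0‖ ≤
      3 * B ^ 2 * ‖v‖ := by
    have h1 : ‖dd K.A 1 x * (v 1 - K.A x * star (v 0))‖ ≤ B * (2 * B * ‖v‖) := by
      rw [norm_mul]
      exact mul_le_mul hA1 hb (norm_nonneg _) hB0.le
    have h2 : ‖dd K.A 0 x * v 0‖ ≤ B * ‖v‖ := by
      rw [norm_mul]
      exact mul_le_mul hA0 hd (norm_nonneg _) hB0.le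
    have h3 := norm_add_le (dd K.A 1 x * (v 1 - K.A x * star (v 0))) (dd K.A 0 x * v 0)
    have h4 : B * ‖v‖ ≤ B ^ 2 * ‖v‖ := mul_le_mul_of_nonneg_right (by nlinarith) hnv
    nlinarith
  have hw := taylor_A hA (x := x) (v := v) (B := B) fun z hz =>
    ⟨hrs (hball z hz), (hB4 z (hball z hz)).trans (by linarith)⟩
  have hz0 : ‖-star (v 1 - K.A x * star (v 0)) + K.A x * star (v 0)‖ ≤ 3 * B * ‖v‖ := by
    have h1 := norm_add_le (-star (v 1 - K.A x * star (v 0))) (K.A x * star (v 0))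
    rw [norm_neg, norm_star] at h1
    linarith
  have hY : 0 < (x 1).im := hxU
  have hY' : 0 < ((x + v) 1).im := hyU
  have hYB : (x 1).im ≤ B := (le_abs_self _).trans ((hB5 x hxQ).trans (by linarith))
  have hYi : ((x 1).im)⁻¹ ≤ B := (le_abs_self _).trans ((hB6 x hxQ).trans (by linarith))
  have hYi' : (((x + v) 1).im)⁻¹ ≤ B := (le_abs_self _).trans ((hB6 _ hyQ).trans (by linarith))
  have hYY : |((x + v) 1).im - (x 1).im| ≤ ‖v‖ := by
    have e : ((x + v) 1).im - (x 1).im = (v 1).im := by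
      simp
    rw [e]
    exact (Complex.abs_im_le_norm _).trans he
  refine alg_est hB hnv hv1 hY hY' hYB hYi hYi' hYY hd hw0 hw hz0 rfl ?_ (gqf_exact hA hxU v)
  rw [← num_exact K.A x v]
  unfold ps
  field_simp

/-- smallness of `ps` forces closeness, uniformly on compact sets -/
theorem psi_close {C : Set C2} (hC : C ⊆ Up) (hCc : IsCompact C) : ∃ δ > 0, ∃ c : ℝ,
    ∀ x ∈ C, ∀ y ∈ Up, ps K.A x y ≤ δ → ‖y - x‖ ^ 2 ≤ c * ps K.A x y := by
  obtain ⟨r, hr, c, hT⟩ := psi_taylor K hC hCc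
  obtain ⟨q, hq, hQ⟩ := gqf_pos K.ba K.pos hC hCc
  obtain ⟨K', hK', hKc, hKp⟩ := K.psp C hC hCc 1
  -- the good radius
  obtain ⟨s, hs, hsr, hsc⟩ : ∃ s > 0, s ≤ r ∧ |c| * s ≤ q / 2 := by
    refine ⟨min r (q / (2 * (|c| + 1))), lt_min hr (by positivity), min_le_left _ _, ?_⟩
    calc |c| * min r (q / (2 * (|c| + 1))) ≤ (|c| + 1) * (q / (2 * (|c| + 1))) :=
          mul_le_mul (by linarith) (min_le_right _ _) (by positivity) (by positivity)
      _ = q / 2 := by field_simp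
  have hnear : ∀ x ∈ C, ∀ y ∈ Up, ‖y - x‖ ≤ s → q / 2 * ‖y - x‖ ^ 2 ≤ ps K.A x y := by
    intro x hx y hy hxy
    have h1 := (hT x hx (y - x) (hxy.trans hsr)).2
    have h2 := (hQ x hx (y - x)).1
    rw [add_sub_cancel] at h1
    have h3 : c * ‖y - x‖ ^ 3 ≤ q / 2 * ‖y - x‖ ^ 2 := by
      have h4 : c * ‖y - x‖ ≤ q / 2 := by
        calc c * ‖y - x‖ ≤ |c| * s :=
              mul_le_mul (le_abs_self c) hxy (norm_nonneg _) (abs_nonneg c)
          _ ≤ q / 2 := hsc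
      calc c * ‖y - x‖ ^ 3 = (c * ‖y - x‖) * ‖y - x‖ ^ 2 := by ring
        _ ≤ q / 2 * ‖y - x‖ ^ 2 := mul_le_mul_of_nonneg_right h4 (by positivity)
    have h5 := (abs_le.mp h1).1
    linarith
  -- the rest
  have hfar : ∃ δ > 0, ∀ x ∈ C, ∀ y ∈ K', s ≤ ‖y - x‖ → δ ≤ ps K.A x y := by
    set S : Set (C2 × C2) := (C ×ˢ K') ∩ {p | s ≤ ‖p.2 - p.1‖} with hS
    have hSc : IsCompact S := by
      refine (hCc.prod hKc).inter_right ?_
      exact isClosed_le continuous_const (continuous_snd.sub continuous_fst).norm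
    rcases S.eq_empty_or_nonempty with hSe | hSn
    · refine ⟨1, one_pos, fun x hx y hy hxy => ?_⟩
      have : (x, y) ∈ S := ⟨⟨hx, hy⟩, hxy⟩
      rw [hSe] at this
      exact absurd this (Set.notMem_empty _)
    · have hcont : ContinuousOn (fun p : C2 × C2 => ps K.A p.1 p.2) S :=
        (ps_smooth K.ba).continuousOn.mono fun p hp => ⟨hC hp.1.1, hK' hp.1.2⟩
      obtain ⟨p, hp, hmin⟩ := hSc.exists_isMinOn hSn hcont
      refine ⟨ps K.A p.1 p.2, ?_, fun x hx y hy hxy =>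
        isMinOn_iff.mp hmin (x, y) ⟨⟨hx, hy⟩, hxy⟩⟩
      have h1 := K.nneg p.1 (hC hp.1.1) p.2 (hK' hp.1.2)
      refine lt_of_le_of_ne h1 fun h0 => ?_
      have h2 := K.sep p.1 (hC hp.1.1) p.2 (hK' hp.1.2) h0.symm
      have h3 : s ≤ ‖p.2 - p.1‖ := hp.2
      rw [h2, sub_self, norm_zero] at h3
      exact absurd hs (not_lt.mpr h3)
  obtain ⟨δ, hδ, hfar⟩ := hfar
  refine ⟨min 1 (δ / 2), lt_min one_pos (by positivity), 2 / q, fun x hx y hy hxy => ?_⟩
  have hyK : y ∈ K' := hKp x hx y hy (hxy.trans (min_le_left _ _))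
  have hlt : ‖y - x‖ < s := by
    by_contra hcon
    have h1 := hfar x hx y hyK (not_lt.mp hcon)
    have h2 := hxy.trans (min_le_right _ _)
    linarith
  have h3 := hnear x hx y hy hlt.le
  calc ‖y - x‖ ^ 2 = 2 / q * (q / 2 * ‖y - x‖ ^ 2) := by field_simp
    _ ≤ 2 / q * ps K.A x y := mul_le_mul_of_nonneg_left h3 (by positivity)

end Pool.Agent.MPd01a95
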