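import Mathlib
import Pool.Agent.Lib.MP_d01a95_gt_S.VDefs
import Pool.Agent.Lib.MP_d01a95_gt_S.Vpsi
import Pool.Agent.Lib.MP_d01a95_gt_S.Vell
import Pool.Agent.Lib.MP_d01a95_gt_L.LBas

/-!
Project SU(2,2), part (2), module Vdet.
-/

set_option autoImplicit false
set_option linter.all false

open Matrix Filter Topology MeasureTheory Measure
open scoped ENNReal NNReal ContDiff

namespace Pool.Agent.MPd01a95

namespace VdetAux

private theorem X0 (A : C2 → ℂ) (x v : C2) : Xc A x v 0 = v 0 := by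
  simp [Xc]

private theorem X1 (A : C2 → ℂ) (x v : C2) : Xc A x v 1 = v 1 - A x * star (v 0) := by
  simp [Xc]

private theorem bs_vals : (LN.bs 0 0 = 1 ∧ LN.bs 0 1 = 0) ∧ (LN.bs 1 0 = Complex.I ∧ LN.bs 1 1 = 0) ∧
    (LN.bs 2 0 = 0 ∧ LN.bs 2 1 = 1) ∧ (LN.bs 3 0 = 0 ∧ LN.bs 3 1 = Complex.I) := by
  refine ⟨⟨?_, ?_⟩, ⟨?_, ?_⟩, ⟨?_, ?_⟩, ⟨?_, ?_⟩⟩ <;> simp [LN.bs]

private theorem Xc_lin (A : C2 → ℂ) (x : C2) (w : Fin 4 → ℝ) (a : Fin 2) :
    Xc A x (∑ i, w i • LN.bs i) a = ∑ i, (w i : ℂ) * Xc A x (LN.bs i) a := by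
  obtain ⟨⟨h00, h01⟩, ⟨h10, h11⟩, ⟨h20, h21⟩, ⟨h30, h31⟩⟩ := bs_vals
  have e0 : (∑ i, w i • LN.bs i) 0 = (w 0 : ℂ) + (w 1 : ℂ) * Complex.I := by
    simp only [Finset.sum_apply, Fin.sum_univ_four, Pi.add_apply, Pi.smul_apply, h00, h10, h20, h30,
      Complex.real_smul]
    ring
  have e1 : (∑ i, w i • LN.bs i) 1 = (w 2 : ℂ) + (w 3 : ℂ) * Complex.I := by
    simp only [Finset.sum_apply, Fin.sum_univ_four, Pi.add_apply, Pi.smul_apply, h01, h11, h21, h31,
      Complex.real_smul]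
    ring
  have ha : a = 0 ∨ a = 1 := by
    fin_cases a
    · exact Or.inl rfl
    · exact Or.inr rfl
  rcases ha with ha | ha
  · subst ha
    rw [X0, e0]
    simp only [X0, Fin.sum_univ_four, h00, h10, h20, h30]
    ring
  · subst ha
    rw [X1, e0, e1]
    simp only [X1, Fin.sum_univ_four, h00, h10, h20, h30, h01, h11, h21, h31]
    simp only [Complex.star_def, map_add, map_mul, Complex.conj_ofReal, Complex.conj_I, map_one,
      map_zero]
    ring

private theorem gqf_lin (A : C2 → ℂ) (x : C2) (w : Fin 4 → ℝ) :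
    gqf A x (∑ i, w i • LN.bs i) = ∑ i, ∑ j, qR A i j x * w i * w j := by
  have h : ∀ i j, qR A i j x * w i * w j =
      ((w i : ℂ) * (w j : ℂ) * ∑ a, ∑ c, gm A a c x * Xc A x (LN.bs i) a *
        star (Xc A x (LN.bs j) c)).re := by
    intro i j
    have e : ((w i : ℂ) * (w j : ℂ)) = ((w i * w j : ℝ) : ℂ) := by push_cast; rfl
    rw [e, Complex.re_ofReal_mul, qR]
    ring
  simp only [h]
  have hX0 := Xc_lin A x w 0
  have hX1 := Xc_lin A x w 1
  rw [gqf]
  simp only [← Complex.re_sum]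
  congr 1
  simp only [Fin.sum_univ_two]
  rw [hX0, hX1]
  simp only [Fin.sum_univ_four, Complex.star_def, map_add, map_mul, Complex.conj_ofReal]
  ring

private theorem co_sum (w : Fin 4 → ℝ) : LN.co (∑ i, w i • LN.bs i) = w := by
  obtain ⟨⟨h00, h01⟩, ⟨h10, h11⟩, ⟨h20, h21⟩, ⟨h30, h31⟩⟩ := bs_vals
  have e0 : (∑ i, w i • LN.bs i) 0 = (w 0 : ℂ) + (w 1 : ℂ) * Complex.I := by
    simp only [Finset.sum_apply, Fin.sum_univ_four, Pi.add_apply, Pi.smul_apply, h00, h10, h20, h30,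
      Complex.real_smul]
    ring
  have e1 : (∑ i, w i • LN.bs i) 1 = (w 2 : ℂ) + (w 3 : ℂ) * Complex.I := by
    simp only [Finset.sum_apply, Fin.sum_univ_four, Pi.add_apply, Pi.smul_apply, h01, h11, h21, h31,
      Complex.real_smul]
    ring
  rw [LN.co, e0, e1]
  ext i
  fin_cases i <;> simp

private theorem gmH {A : C2 → ℂ} (hA : BA Up A) {x : C2} (hx : x ∈ Up) :
    (gm A 0 0 x).im = 0 ∧ (gm A 1 1 x).im = 0 ∧ (gm A 0 1 x).re = (gm A 1 0 x).re ∧
    (gm A 0 1 x).im = -(gm A 1 0 x).im := by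
  have h0 := (gm_sm hA 0 0).2.2 x hx
  have h1 := (gm_sm hA 1 1).2.2 x hx
  have h2 := (gm_sm hA 0 1).2.2 x hx
  have k0 := congrArg Complex.im h0
  have k1 := congrArg Complex.im h1
  have k2 := congrArg Complex.re h2
  have k3 := congrArg Complex.im h2
  simp only [Complex.star_def, Complex.conj_im, Complex.conj_re] at k0 k1 k2 k3
  exact ⟨by linarith, by linarith, k2, k3⟩

/-- the explicit matrix -/
private def NM (a b P Q r s : ℝ) : Matrix (Fin 4) (Fin 4) ℝ :=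
  !![P - 2 * (r * a - s * b) + Q * (a ^ 2 + b ^ 2), -2 * (r * b + s * a), r - Q * a, -s - Q * b;
    -2 * (r * b + s * a), P + 2 * (r * a - s * b) + Q * (a ^ 2 + b ^ 2), s - Q * b, r + Q * a;
    r - Q * a, s - Q * b, Q, 0;
    -s - Q * b, r + Q * a, 0, Q]

private theorem NM_det (a b P Q r s : ℝ) :
    (NM a b P Q r s).det = (P * Q - r ^ 2 - s ^ 2) ^ 2 := by
  rw [NM, Matrix.det_succ_row_zero]
  simp only [Fin.sum_univ_four, Matrix.det_fin_three]
  simp [Matrix.submatrix, Fin.succAbove, Matrix.of_apply]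
  ring

private theorem qR_eq {A : C2 → ℂ} (hA : BA Up A) {x : C2} (hx : x ∈ Up) :
    (Matrix.of fun i j => qR A i j x) = NM (A x).re (A x).im (gm A 0 0 x).re (gm A 1 1 x).re
      (gm A 1 0 x).re (gm A 1 0 x).im := by
  obtain ⟨g0, g1, g2, g3⟩ := gmH hA hx
  obtain ⟨⟨h00, h01⟩, ⟨h10, h11⟩, ⟨h20, h21⟩, ⟨h30, h31⟩⟩ := bs_vals
  have key : ∀ i j, qR A i j x =
      (gm A 0 0 x * LN.bs i 0 * star (LN.bs j 0)).re +
      (gm A 0 1 x * LN.bs i 0 * star (LN.bs j 1 - A x * star (LN.bs j 0))).re +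
      (gm A 1 0 x * (LN.bs i 1 - A x * star (LN.bs i 0)) * star (LN.bs j 0)).re +
      (gm A 1 1 x * (LN.bs i 1 - A x * star (LN.bs i 0)) *
        star (LN.bs j 1 - A x * star (LN.bs j 0))).re := by
    intro i j
    rw [qR]
    simp only [Fin.sum_univ_two, X0, X1, Complex.add_re]
    ring
  ext i j
  rw [Matrix.of_apply, key]
  fin_cases i <;> fin_cases j <;>
    simp [NM, h00, h01, h10, h11, h20, h21, h30, h31, g0, g1, g2, g3, Complex.mul_re,
      Complex.mul_im] <;> ring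

private theorem NM_symm (a b P Q r s : ℝ) (i j : Fin 4) :
    NM a b P Q r s i j = NM a b P Q r s j i := by
  fin_cases i <;> fin_cases j <;> simp [NM]

private theorem up_eq : Up = LN.Om := rfl

private theorem qR_cont {A : C2 → ℂ} (hA : BA Up A) (i j : Fin 4) : ContinuousOn (qR A i j) Up := by
  have hAc : ContinuousOn A Up := hA.sm.continuousOn
  have hX : ∀ v : C2, ∀ a, ContinuousOn (fun x => Xc A x v a) Up := by
    intro v a
    unfold Xc
    split_ifs
    · exact continuousOn_const.sub (hAc.mul continuousOn_const)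
    · exact continuousOn_const
  have h1 : ContinuousOn (fun x => ∑ a, ∑ c, gm A a c x * Xc A x (LN.bs i) a *
      star (Xc A x (LN.bs j) c)) Up := by
    refine continuousOn_finsetSum _ fun a _ => continuousOn_finsetSum _ fun c _ => ?_
    exact (((gm_sm hA a c).1.continuousOn).mul (hX _ a)).mul ((hX _ c).star)
  exact Complex.continuous_re.comp_continuousOn h1

end VdetAux

open VdetAux

theorem qR_facts {A : C2 → ℂ} (hA : BA Up A) (hp : SPL A) :
    (∀ i j, ContinuousOn (qR A i j) Up) ∧ (∀ i j, ∀ x ∈ Up, qR A i j x = qR A j i x) ∧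
    (∀ x ∈ Up, ∀ v : C2, ∑ i, ∑ j, qR A i j x * LN.co v i * LN.co v j = gqf A x v) ∧
    (∀ x ∈ Up, ∀ v : Fin 4 → ℝ, v ≠ 0 → 0 < ∑ i, ∑ j, qR A i j x * v i * v j) ∧
    ∀ x ∈ Up, (Matrix.of fun i j => qR A i j x).det = wA A x ^ 2 := by
  refine ⟨qR_cont hA, ?_, ?_, ?_, ?_⟩
  · intro i j x hx
    have h := qR_eq hA hx
    have h1 := congrFun (congrFun h i) j
    have h2 := congrFun (congrFun h j) i
    rw [Matrix.of_apply] at h1 h2
    rw [h1, h2, NM_symm]
  · intro x hx v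
    rw [← gqf_lin, LN.sum_co]
  · intro x hx v hv
    rw [← gqf_lin]
    obtain ⟨c, hc, h⟩ := gqf_pos hA hp (C := {x}) (by simpa using hx) isCompact_singleton
    have h1 := (h x rfl (∑ i, v i • LN.bs i)).1
    have hne : (∑ i, v i • LN.bs i) ≠ 0 := by
      intro h0
      apply hv
      have h2 := co_sum v
      rw [h0] at h2
      rw [← h2]
      ext i
      fin_cases i <;> simp [LN.co]
    have h3 : 0 < ‖∑ i, v i • LN.bs i‖ := norm_pos_iff.2 hne
    have h4 : 0 < c * ‖∑ i, v i • LN.bs i‖ ^ 2 := by positivity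
    linarith
  · intro x hx
    rw [qR_eq hA hx, NM_det]
    obtain ⟨g0, g1, g2, g3⟩ := gmH hA hx
    rw [wA, Complex.sub_re, Complex.mul_re, Complex.mul_re, g0, g1, g2, g3]
    ring

theorem Y_quadK {G : Type} [Group G] {σ : G →* GU (Fin 2)} (K : Kerr σ) {C : Set C2}
    (hC : C ⊆ Up) (hCc : IsCompact C) : ∃ c : ℝ, ∀ p ∈ C, ∀ q ∈ C,
    |ps K.A p q - ∑ i, ∑ j, qR K.A i j p * LN.co (q - p) i * LN.co (q - p) j| ≤
      c * ‖q - p‖ ^ 3 := by
  have hp : SPL K.A := K.pos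
  obtain ⟨r, hr, c, h⟩ := psi_taylor K hC hCc
  have f := qR_facts K.ba hp
  have hco : ∀ i, Continuous (fun x : C2 => LN.co x i) := by
    intro i
    fin_cases i
    · exact Complex.continuous_re.comp (continuous_apply 0)
    · exact Complex.continuous_im.comp (continuous_apply 0)
    · exact Complex.continuous_re.comp (continuous_apply 1)
    · exact Complex.continuous_im.comp (continuous_apply 1)
  have hcont : ContinuousOn (fun z : C2 × C2 => ps K.A z.1 z.2 -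
      ∑ i, ∑ j, qR K.A i j z.1 * LN.co (z.2 - z.1) i * LN.co (z.2 - z.1) j) (C ×ˢ C) := by
    refine ContinuousOn.sub ?_ ?_
    · exact ((kerr_psi K).1.continuousOn).mono (Set.prod_mono hC hC)
    · refine continuousOn_finsetSum _ fun i _ => continuousOn_finsetSum _ fun j _ => ?_
      have h1 : ContinuousOn (fun z : C2 × C2 => qR K.A i j z.1) (C ×ˢ C) :=
        ((f.1 i j).mono hC).comp continuousOn_fst (fun z hz => hz.1)
      have h2 : ∀ i, Continuous (fun z : C2 × C2 => LN.co (z.2 - z.1) i) := fun i =>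
        (hco i).comp (continuous_snd.sub continuous_fst)
      exact (h1.mul (h2 i).continuousOn).mul (h2 j).continuousOn
  obtain ⟨B, hB⟩ := (hCc.prod hCc).exists_bound_of_continuousOn hcont
  refine ⟨|c| + |B| / r ^ 3, fun p hpC q hqC => ?_⟩
  have hn : 0 ≤ ‖q - p‖ ^ 3 := by positivity
  by_cases hq : ‖q - p‖ ≤ r
  · have h1 := (h p hpC (q - p) hq).2
    rw [← f.2.2.1 p (hC hpC), add_sub_cancel] at h1
    have h2 : c * ‖q - p‖ ^ 3 ≤ |c| * ‖q - p‖ ^ 3 := mul_le_mul_of_nonneg_right (le_abs_self c) hn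
    have h3 : 0 ≤ |B| / r ^ 3 * ‖q - p‖ ^ 3 := by positivity
    rw [add_mul]
    linarith
  · have hq' : r ≤ ‖q - p‖ := (not_le.1 hq).le
    have h1 := hB (p, q) ⟨hpC, hqC⟩
    rw [Real.norm_eq_abs] at h1
    have h2 : r ^ 3 ≤ ‖q - p‖ ^ 3 := pow_le_pow_left₀ hr.le hq' 3
    have h3 : B ≤ |B| / r ^ 3 * ‖q - p‖ ^ 3 := by
      have h4 : |B| = |B| / r ^ 3 * r ^ 3 := by field_simp
      have h5 : |B| / r ^ 3 * r ^ 3 ≤ |B| / r ^ 3 * ‖q - p‖ ^ 3 :=
        mul_le_mul_of_nonneg_left h2 (by positivity)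
      have h6 := le_abs_self B
      linarith
    have h7 : 0 ≤ |c| * ‖q - p‖ ^ 3 := by positivity
    rw [add_mul]
    linarith

end Pool.Agent.MPd01a95
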