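import Mathlib
import Pool.Agent.Lib.MP_d01a95_gt_S.VDefs
import Pool.Agent.Lib.MP_d01a95_gt_S.Vell
import Pool.Agent.Lib.MP_d01a95_gt_S.Vact

/-!
Project SU(2,2), part (2), module Vphi.
-/

set_option autoImplicit false
set_option linter.all false

open Matrix Filter Topology MeasureTheory Measure
open scoped ENNReal NNReal ContDiff

namespace Pool.Agent.MPd01a95

private theorem up_open : IsOpen Up :=
  isOpen_lt continuous_const (Complex.continuous_im.comp (continuous_apply 1))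

/-- the form in the first variable -/
private noncomputable def hL (b : Fin 4 → ℂ) : (Fin 4 → ℂ) →L[ℂ] ℂ :=
  Complex.I • (star (b 3) • ContinuousLinearMap.proj 1 - star (b 1) • ContinuousLinearMap.proj 3 +
    star (b 2) • ContinuousLinearMap.proj 0 - star (b 0) • ContinuousLinearMap.proj 2)

private theorem hL_apply (b v : Fin 4 → ℂ) : hL b v = h4 v b := by
  unfold hL h4
  simp only [ContinuousLinearMap.smul_apply, ContinuousLinearMap.sub_apply,
    ContinuousLinearMap.add_apply, ContinuousLinearMap.proj_apply, smul_eq_mul]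
  ring

private theorem h4_smul_right (c : ℂ) (v b : Fin 4 → ℂ) : h4 v (c • b) = star c * h4 v b := by
  unfold h4
  simp only [Pi.smul_apply, smul_eq_mul, star_mul']
  ring

private theorem h4_smul_left (c : ℂ) (v b : Fin 4 → ℂ) : h4 (c • v) b = c * h4 v b := by
  unfold h4
  simp only [Pi.smul_apply, smul_eq_mul]
  ring

private theorem star_sm {k : WithTop ℕ∞} {Ω : Set C2} {f : C2 → ℂ} (hf : ContDiffOn ℝ k f Ω) :
    ContDiffOn ℝ k (fun y : C2 => star (f y)) Ω :=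
  Complex.conjCLE.contDiff.comp_contDiffOn hf

private theorem coord_sm (i : Fin 2) : ContDiffOn ℝ ∞ (fun y : C2 => y i) Up :=
  (ContinuousLinearMap.proj (R := ℝ) (φ := fun _ : Fin 2 => ℂ) i).contDiff.contDiffOn

private theorem vv_smV {A : C2 → ℂ} (hA : BA Up A) : ContDiffOn ℝ ∞ (vv A) Up := by
  rw [contDiffOn_pi]
  intro j
  fin_cases j
  · exact hA.sm
  · change ContDiffOn ℝ ∞ (fun y => y 1 - star (y 0) * A y) Up
    exact (coord_sm 1).sub ((star_sm (coord_sm 0)).mul hA.sm)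
  · exact coord_sm 0
  · exact contDiffOn_const

private theorem pot_smV : ContDiffOn ℝ ∞ pot Up := by
  have h1 : ContDiffOn ℝ ∞ (fun x : C2 => (x 1).im) Up :=
    Complex.imCLM.contDiff.comp_contDiffOn (coord_sm 1)
  have h2 : ContDiffOn ℝ ∞ (fun x : C2 => -Real.log (x 1).im) Up :=
    (h1.log fun x hx => ne_of_gt hx).neg
  exact Complex.ofRealCLM.contDiff.comp_contDiffOn h2

/-- the pairing of the homogeneous coordinates with a fixed vector -/
private noncomputable def hb (A : C2 → ℂ) (b : Fin 4 → ℂ) (x : C2) : ℂ := h4 (vv A x) b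

private theorem hb_sm {A : C2 → ℂ} (hA : BA Up A) (b : Fin 4 → ℂ) :
    ContDiffOn ℝ ∞ (hb A b) Up := by
  have h1 : ContDiffOn ℝ ∞ (fun x => ((hL b).restrictScalars ℝ) (vv A x)) Up :=
    ((hL b).restrictScalars ℝ).contDiff.comp_contDiffOn (vv_smV hA)
  refine h1.congr fun x hx => ?_
  change h4 (vv A x) b = hL b (vv A x)
  rw [hL_apply]

private theorem sm_d {E : Type*} [NormedAddCommGroup E] [NormedSpace ℝ E] {f : C2 → E}
    (hf : ContDiffOn ℝ ∞ f Up) {x : C2} (hx : x ∈ Up) : DifferentiableAt ℝ f x :=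
  (hf.differentiableOn (by simp)).differentiableAt (up_open.mem_nhds hx)

private theorem Wb_hb {A : C2 → ℂ} (hA : BA Up A) (b : Fin 4 → ℂ) {x : C2} (hx : x ∈ Up)
    (a : Fin 2) : Wb A a (hb A b) x = h4 (WbV A a (vv A) x) b := by
  have h1 := (WV_clm A (hL b) (sm_d (vv_smV hA) hx) a).2
  rw [Wb_eq, hL_apply] at h1
  rw [← h1]
  congr 1
  funext y
  exact (hL_apply b _).symm

/-- the (1,0) part of the logarithmic derivative of the potential seen from a boundary point -/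
private noncomputable def Uf (A : C2 → ℂ) (b : Fin 4 → ℂ) (a : Fin 2) (x : C2) : ℂ :=
  Wb A a (hb A b) x / hb A b x + Wb A a pot x

private theorem hb_smul (A : C2 → ℂ) (c : ℂ) (b : Fin 4 → ℂ) :
    hb A (c • b) = fun x => star c * hb A b x := by
  funext x
  exact h4_smul_right c _ b

private theorem Uf_smul {A : C2 → ℂ} (hA : BA Up A) {c : ℂ} (hc : c ≠ 0) (b : Fin 4 → ℂ)
    (a : Fin 2) {x : C2} (hx : x ∈ Up) : Uf A (c • b) a x = Uf A b a x := by
  unfold Uf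
  rw [Wb_hb hA _ hx, Wb_hb hA _ hx, h4_smul_right, hb_smul]
  have hs : star c ≠ 0 := star_ne_zero.mpr hc
  rw [mul_div_mul_left _ _ hs]

private theorem Wb_zero (A : C2 → ℂ) (k : ℂ) (x : C2) (c : Fin 2) :
    Wb A c (fun _ => k) x = 0 := by
  unfold Wb db dd
  simp

private theorem Uf_base {A : C2 → ℂ} (a : Fin 2) (x : C2) :
    Uf A (Pi.single 1 1) a x = Wb A a pot x := by
  have h : hb A (Pi.single 1 1) = fun _ => -Complex.I := by
    funext y
    unfold hb h4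
    simp [vv]
  unfold Uf
  rw [h, Wb_zero, zero_div, zero_add]

private theorem pot_star : (fun y => star (pot y)) = pot := by
  funext y
  unfold pot
  exact Complex.conj_ofReal _

private theorem W_pot (A : C2 → ℂ) (c : Fin 2) (x : C2) : W A c pot x = star (Wb A c pot x) := by
  have h := (W_star A pot x c).1
  rw [pot_star] at h
  exact h

section eqv

variable {G : Type} [Group G] {σ : G →* GU (Fin 2)} (K : Kerr σ)

private theorem Uf_eqv (γ : G) (b : Fin 4 → ℂ) {x : C2} (hx : x ∈ Up) (hb0 : hb K.A b x ≠ 0)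
    (a : Fin 2) : Uf K.A b a x =
      ∑ a', MM K.A (K.al γ) a' a x * Uf K.A (K.R γ *ᵥ b) a' (K.al γ x) := by
  obtain ⟨c, hcs, hcn, hcw, hcv, hci⟩ := kerr_fac K γ
  have hU : Up ∈ 𝓝 x := up_open.mem_nhds hx
  have hgx := K.maps γ x hx
  have hol := (kerr_hol K).2 γ
  have hd : DifferentiableAt ℝ (K.al γ) x := sm_d ((kerr_hol K).1 γ) hx
  -- the function `l`
  have el : (fun y => hb K.A (K.R γ *ᵥ b) (K.al γ y)) =ᶠ[𝓝 x] fun y => c y * hb K.A b y := by
    filter_upwards [hU] with y hy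
    unfold hb
    rw [hcv y hy, h4_smul_left, K.pres]
  have elx : hb K.A (K.R γ *ᵥ b) (K.al γ x) = c x * hb K.A b x := el.self_of_nhds
  have l1 := (law1 hol hx hd (sm_d (hb_sm K.ba (K.R γ *ᵥ b)) hgx)).2 a
  have e1 := (WV_congr K.A el a).2
  rw [l1, Wb_eq, (Vs.W_mul K.A (sm_d hcs hx) (sm_d (hb_sm K.ba b) hx) a).2] at e1
  simp only [Wb_eq, smul_eq_mul] at e1
  -- the potential
  have hpos : ∀ y ∈ Up, 0 < ‖c y‖ ^ 2 := fun y hy => pow_pos (norm_pos_iff.mpr (hcn y hy)) 2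
  have hN : ∀ y, ((‖c y‖ ^ 2 : ℝ) : ℂ) = c y * star (c y) := by
    intro y
    have := Complex.mul_conj' (c y)
    push_cast
    exact this.symm
  have hNs : ContDiffOn ℝ ∞ (fun y => ‖c y‖ ^ 2) Up := by
    have h1 : ContDiffOn ℝ ∞ (fun y => (c y * star (c y)).re) Up :=
      Complex.reCLM.contDiff.comp_contDiffOn (hcs.mul (star_sm hcs))
    refine h1.congr fun y hy => ?_
    rw [← hN, Complex.ofReal_re]
  have hls : ContDiffOn ℝ ∞ (fun y => ((-Real.log (‖c y‖ ^ 2) : ℝ) : ℂ)) Up :=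
    Complex.ofRealCLM.contDiff.comp_contDiffOn (hNs.log fun y hy => ne_of_gt (hpos y hy)).neg
  have ep : (fun y => pot (K.al γ y)) =ᶠ[𝓝 x]
      fun y => ((-Real.log (‖c y‖ ^ 2) : ℝ) : ℂ) + pot y := by
    filter_upwards [hU] with y hy
    unfold pot
    rw [hci y hy, Real.log_mul (ne_of_gt (hpos y hy)) (ne_of_gt hy), ← Complex.ofReal_add]
    congr 1
    ring
  have l2 := (law1 hol hx hd (sm_d pot_smV hgx)).2 a
  have e2 := (WV_congr K.A ep a).2
  rw [l2, Wb_eq, (Vs.W_add K.A (sm_d hls hx) (sm_d pot_smV hx) a).2] at e2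
  simp only [Wb_eq, smul_eq_mul] at e2
  -- the derivative of the logarithm
  have e3 : Wb K.A a (fun y => ((-Real.log (‖c y‖ ^ 2) : ℝ) : ℂ)) x = -(Wb K.A a c x / c x) := by
    have h1 := (Vs.W_comp K.A (f := fun y => ‖c y‖ ^ 2) (φ := fun t => -Real.log t)
      (sm_d hNs hx) ((Real.hasDerivAt_log (ne_of_gt (hpos x hx))).neg.differentiableAt) a).2
    have h2 : deriv (fun t => -Real.log t) (‖c x‖ ^ 2) = -(‖c x‖ ^ 2)⁻¹ :=
      (Real.hasDerivAt_log (ne_of_gt (hpos x hx))).neg.deriv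
    have h3 : (fun y => ((‖c y‖ ^ 2 : ℝ) : ℂ)) = fun y => c y * star (c y) := funext hN
    have hs : DifferentiableAt ℝ (fun y => star (c y)) x := sm_d (star_sm hcs) hx
    rw [h2, h3, (Vs.W_mul K.A (sm_d hcs hx) hs a).2, (W_star K.A c x a).2, hcw x hx, star_zero,
      mul_zero, add_zero, Complex.ofReal_neg, Complex.ofReal_inv, hN x] at h1
    rw [h1]
    have hc0 := hcn x hx
    have hs0 : star (c x) ≠ 0 := star_ne_zero.mpr hc0
    field_simp
  rw [e3] at e2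
  unfold Uf
  have hc0 := hcn x hx
  rw [elx]
  rw [Fin.sum_univ_two] at e1 e2 ⊢
  have h5 : Wb K.A a (hb K.A b) x / hb K.A b x + Wb K.A a pot x =
      (Wb K.A a c x * hb K.A b x + c x * Wb K.A a (hb K.A b) x) / (c x * hb K.A b x) +
        (-(Wb K.A a c x / c x) + Wb K.A a pot x) := by
    field_simp
    ring
  rw [h5, ← e1, ← e2]
  ring

/-- the squared norm of the gradient, times the volume density -/
private noncomputable def Dn (A : C2 → ℂ) (x : C2) (b : Fin 4 → ℂ) : ℝ :=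
  (trg A (fun a c => Uf A b a x * star (Uf A b c x)) x).re

private theorem Dn_eqv (γ : G) (b : Fin 4 → ℂ) {x : C2} (hx : x ∈ Up) (hb0 : hb K.A b x ≠ 0) :
    Dn K.A x b = ‖jac K γ x‖ ^ 2 * Dn K.A (K.al γ x) (K.R γ *ᵥ b) := by
  have h3 := kerr_gm K γ x hx
  have hj : ((‖jac K γ x‖ ^ 2 : ℝ) : ℂ) = jac K γ x * star (jac K γ x) := by
    have := Complex.mul_conj' (jac K γ x)
    push_cast
    exact this.symm
  have h4 : trg K.A (fun a c => Uf K.A b a x * star (Uf K.A b c x)) x =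
      ((‖jac K γ x‖ ^ 2 : ℝ) : ℂ) * trg K.A (fun a c => Uf K.A (K.R γ *ᵥ b) a (K.al γ x) *
        star (Uf K.A (K.R γ *ᵥ b) c (K.al γ x))) (K.al γ x) := by
    rw [hj]
    unfold trg
    simp only [Uf_eqv K γ b hx hb0, h3 0 0, h3 1 1, h3 1 0, h3 0 1]
    unfold jac
    simp only [Fin.sum_univ_two, star_sub, star_mul', star_add]
    ring
  unfold Dn
  rw [h4, Complex.re_ofReal_mul]

private theorem Dn_smul {c : ℂ} (hc : c ≠ 0) (b : Fin 4 → ℂ) {x : C2} (hx : x ∈ Up) :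
    Dn K.A x (c • b) = Dn K.A x b := by
  unfold Dn
  simp only [Uf_smul K.ba hc b _ hx]

private theorem WbVv_cont (a : Fin 2) :
    ContinuousOn (fun y => WbV K.A a (vv K.A) y) Up := by
  have h := (WV_contDiffOn up_open K.ba.sm (vv_smV K.ba) (m := ∞) (k := ∞) (by simp) le_rfl a).2
  exact h.continuousOn

private theorem Wbpot_cont (a : Fin 2) : ContinuousOn (fun y => Wb K.A a pot y) Up := by
  have h := (WV_contDiffOn up_open K.ba.sm pot_smV (m := ∞) (k := ∞) (by simp) le_rfl a).2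
  have h1 := h.continuousOn
  simpa only [Wb_eq] using h1

private theorem h4_contOn {X : Type} [TopologicalSpace X] {S : Set X} {f g : X → (Fin 4 → ℂ)}
    (hf : ContinuousOn f S) (hg : ContinuousOn g S) : ContinuousOn (fun p => h4 (f p) (g p)) S := by
  have hfj : ∀ j, ContinuousOn (fun p => f p j) S := fun j => continuousOn_pi.1 hf j
  have hgj : ∀ j, ContinuousOn (fun p => star (g p j)) S := fun j =>
    Complex.continuous_conj.comp_continuousOn (continuousOn_pi.1 hg j)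
  unfold h4
  exact continuousOn_const.mul (((((hfj 1).mul (hgj 3)).sub ((hfj 3).mul (hgj 1))).add
    ((hfj 0).mul (hgj 2))).sub ((hfj 2).mul (hgj 0)))

private theorem Uf_cont (a : Fin 2) :
    ContinuousOn (fun p : C2 × (Fin 4 → ℂ) => Uf K.A p.2 a p.1) (Up ×ˢ K.lam) := by
  have hf : ContinuousOn (Prod.fst : C2 × (Fin 4 → ℂ) → C2) (Up ×ˢ K.lam) := continuousOn_fst
  have hs : ContinuousOn (Prod.snd : C2 × (Fin 4 → ℂ) → (Fin 4 → ℂ)) (Up ×ˢ K.lam) :=
    continuousOn_snd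
  have hm : Set.MapsTo (Prod.fst : C2 × (Fin 4 → ℂ) → C2) (Up ×ˢ K.lam) Up := fun p hp => hp.1
  have h1 := h4_contOn ((WbVv_cont K a).comp hf hm) hs
  have h2 := h4_contOn (((vv_smV K.ba).continuousOn).comp hf hm) hs
  have h4 := (Wbpot_cont K a).comp hf hm
  have h3 := (h1.div h2 fun p hp => K.lam_ne p.1 hp.1 p.2 hp.2).add h4
  refine h3.congr fun p hp => ?_
  unfold Uf
  rw [Wb_hb K.ba _ hp.1]
  simp only [Pi.add_apply, Pi.div_apply, Function.comp_apply]
  unfold hb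
  exact Eq.refl _

private theorem Dn_cont :
    ContinuousOn (fun p : C2 × (Fin 4 → ℂ) => Dn K.A p.1 p.2 / wA K.A p.1) (Up ×ˢ K.lam) := by
  have hf : ContinuousOn (Prod.fst : C2 × (Fin 4 → ℂ) → C2) (Up ×ˢ K.lam) := continuousOn_fst
  have hm : Set.MapsTo (Prod.fst : C2 × (Fin 4 → ℂ) → C2) (Up ×ˢ K.lam) Up := fun p hp => hp.1
  have hg : ∀ a c, ContinuousOn (fun p : C2 × (Fin 4 → ℂ) => gm K.A a c p.1) (Up ×ˢ K.lam) :=
    fun a c => ((gm_sm K.ba a c).1.continuousOn).comp hf hm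
  have hw : ContinuousOn (fun p : C2 × (Fin 4 → ℂ) => wA K.A p.1) (Up ×ˢ K.lam) :=
    ((gm_sm K.ba 0 0).2.1.continuousOn).comp hf hm
  have hU := Uf_cont K
  have hT : ∀ a c, ContinuousOn (fun p : C2 × (Fin 4 → ℂ) =>
      Uf K.A p.2 a p.1 * star (Uf K.A p.2 c p.1)) (Up ×ˢ K.lam) := fun a c => by
    have h1 : ContinuousOn (fun p : C2 × (Fin 4 → ℂ) => star (Uf K.A p.2 c p.1)) (Up ×ˢ K.lam) :=
      continuous_star.comp_continuousOn (hU c)
    exact (hU a).mul h1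
  have hD : ContinuousOn (fun p : C2 × (Fin 4 → ℂ) => Dn K.A p.1 p.2) (Up ×ˢ K.lam) := by
    refine Complex.continuous_re.comp_continuousOn ?_
    exact ((((hg 0 0).mul (hT 1 1)).add ((hg 1 1).mul (hT 0 0))).sub ((hg 1 0).mul (hT 0 1))).sub
      ((hg 0 1).mul (hT 1 0))
  exact hD.div hw fun p hp => ne_of_gt (wA_pos K.ba K.pos p.1 hp.1).1

end eqv

/-- the gradient of `-log Im tau` is bounded -/
theorem phi_bd {G : Type} [Group G] {σ : G →* GU (Fin 2)} (K : Kerr σ) :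
    ∃ C : ℝ, ∀ x ∈ Up, (trg K.A (fun a c => Wb K.A a pot x * W K.A c pot x) x).re ≤
      C * wA K.A x := by
  obtain ⟨K0, hK0, hK0c, hcov⟩ := K.coc
  have hcpt : IsCompact (K0 ×ˢ K.lam) := hK0c.prod K.lam_cpt
  obtain ⟨C, hC⟩ := hcpt.exists_bound_of_continuousOn
    ((Dn_cont K).mono (Set.prod_mono hK0 le_rfl))
  refine ⟨C, fun x hx => ?_⟩
  obtain ⟨γ, hγ⟩ := hcov x hx
  have hgx := K.maps γ x hx
  -- the base vector
  obtain ⟨c1, hc1, hb1⟩ := K.lam_inf
  obtain ⟨c2, hc2, hb2⟩ := K.lam_inv γ _ hb1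
  have e0 : (trg K.A (fun a c => Wb K.A a pot x * W K.A c pot x) x).re =
      Dn K.A x (Pi.single 1 1) := by
    unfold Dn
    simp only [Uf_base, W_pot]
  have hb0 : hb K.A (c1 • (Pi.single 1 1 : Fin 4 → ℂ)) x ≠ 0 := K.lam_ne x hx _ hb1
  have e1 : Dn K.A x (Pi.single 1 1) = ‖jac K γ x‖ ^ 2 *
      Dn K.A (K.al γ x) (c2 • (K.R γ *ᵥ (c1 • (Pi.single 1 1 : Fin 4 → ℂ)))) := by
    rw [Dn_smul K hc2 _ hgx, ← Dn_eqv K γ _ hx hb0, Dn_smul K hc1 _ hx]
  have h2 := hC (K.al γ x, c2 • (K.R γ *ᵥ (c1 • (Pi.single 1 1 : Fin 4 → ℂ)))) ⟨hγ, hb2⟩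
  have hw := (wA_pos K.ba K.pos _ hgx).1
  have h3 : Dn K.A (K.al γ x) (c2 • (K.R γ *ᵥ (c1 • (Pi.single 1 1 : Fin 4 → ℂ)))) ≤
      C * wA K.A (K.al γ x) := by
    rw [← div_le_iff₀ hw]
    exact (le_abs_self _).trans h2
  rw [e0, e1, (kerr_wA K γ x hx).1]
  calc _ ≤ ‖jac K γ x‖ ^ 2 * (C * wA K.A (K.al γ x)) :=
        mul_le_mul_of_nonneg_left h3 (sq_nonneg _)
    _ = C * (‖jac K γ x‖ ^ 2 * wA K.A (K.al γ x)) := by ring

theorem phi_L {A : C2 → ℂ} (hA : BA Up A) (hp : SPL A) : ∀ x ∈ Up, LV A pot x = 2 := by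
  intro x hx
  have h1 := (gm_explicit hA x hx).2.2.2.2.2
  have hw : ((wA A x : ℝ) : ℂ) ≠ 0 :=
    Complex.ofReal_ne_zero.mpr (ne_of_gt (wA_pos hA hp x hx).1)
  unfold LV trV
  simp only [H_eq, smul_eq_mul]
  change ((wA A x : ℝ) : ℂ)⁻¹ * (gm A 0 0 x * gm A 1 1 x + gm A 1 1 x * gm A 0 0 x -
    gm A 1 0 x * gm A 0 1 x - gm A 0 1 x * gm A 1 0 x) = 2
  rw [inv_mul_eq_iff_eq_mul₀ hw]
  linear_combination 2 * h1

end Pool.Agent.MPd01a95
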