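import Mathlib
import Pool.Agent.Lib.MP_d01a95_gt_S.VDefs
import Pool.Agent.Lib.MP_d01a95_gt_S.Vdet
import Pool.Agent.Lib.MP_d01a95_gt_S.Vbet
import Pool.Agent.Lib.MP_d01a95_gt_S.Vphi

/-!
Project SU(2,2), part (2), module Vinst.
-/

set_option autoImplicit false
set_option linter.all false

open Matrix Filter Topology MeasureTheory Measure
open scoped ENNReal NNReal ContDiff

namespace Pool.Agent.MPd01a95

variable {G : Type} [Group G] {σ : G →* GU (Fin 2)} (K : Kerr σ)

private theorem Vinst_open : IsOpen Up :=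
  isOpen_lt continuous_const (Complex.continuous_im.comp (continuous_apply 1))

private theorem Vinst_of {u : C2 → ℝ} (hu : LN.Smo u) :
    ContDiffOn ℝ 2 (fun y => (u y : ℂ)) Up :=
  Complex.ofRealCLM.contDiff.comp_contDiffOn (hu.of_le (WithTop.coe_le_coe.2 (le_top : (2 : ℕ∞) ≤ ⊤)))

theorem VK_jac (γ : G) : ∀ x ∈ Up,
    wA K.A (K.al γ x) * |(fderiv ℝ (K.al γ) x).det| = wA K.A x := by
  intro x hx
  have hd : DifferentiableAt ℝ (K.al γ) x :=
    (((kerr_hol K).1 γ).contDiffAt (Vinst_open.mem_nhds hx)).differentiableAt (by simp)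
  have h := (kerr_wA K γ x hx).1
  unfold jac at h
  rw [law_jac ((kerr_hol K).2 γ) hx hd, h]
  ring

theorem VK_inv (γ : G) (u : C2 → ℝ) (hu : LN.Smo u) : ∀ x ∈ Up,
    (ellA K.ba K.pos).L (fun y => u (K.al γ y)) x = (ellA K.ba K.pos).L u (K.al γ x) := by
  intro x hx
  have hs : LN.Smo (fun y => u (K.al γ y)) :=
    ContDiffOn.comp hu ((kerr_hol K).1 γ) (K.maps γ)
  have h1 := L_ell_real K.ba K.pos hs x hx
  have h2 := L_ell_real K.ba K.pos hu (K.al γ x) (K.maps γ x hx)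
  have h3 := kerr_lap K (Vinst_of hu) γ x hx
  rw [h3, ← h2] at h1
  exact Complex.ofReal_injective h1

theorem VK_phi : LN.Smo (fun x : C2 => -Real.log (x 1).im) ∧
    (∀ x ∈ Up, 1 ≤ (ellA K.ba K.pos).L (fun x : C2 => -Real.log (x 1).im) x) ∧
    ∃ C : ℝ, ∀ x ∈ Up, (ellA K.ba K.pos).Gam (fun x : C2 => -Real.log (x 1).im)
      (fun x : C2 => -Real.log (x 1).im) x ≤ C := by
  have hs : LN.Smo (fun x : C2 => -Real.log (x 1).im) := by
    have h1 : ContDiffOn ℝ ∞ (fun x : C2 => (x 1).im) Up :=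
      (Complex.imCLM.contDiff.comp (contDiff_apply ℝ ℂ (1 : Fin 2))).contDiffOn
    exact (h1.log fun x hx => ne_of_gt hx).neg
  refine ⟨hs, fun x hx => ?_, ?_⟩
  · have h1 := L_ell_real K.ba K.pos hs x hx
    have h2 : LV K.A (fun y : C2 => ((-Real.log (y 1).im : ℝ) : ℂ)) x = 2 :=
      phi_L K.ba K.pos x hx
    rw [h2] at h1
    have h3 : (ellA K.ba K.pos).L (fun x : C2 => -Real.log (x 1).im) x = 2 := by
      exact_mod_cast h1
    rw [h3]
    norm_num
  · obtain ⟨C, hC⟩ := phi_bd K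
    refine ⟨C, fun x hx => ?_⟩
    have h1 := Gam_ell K.ba K.pos hs x hx
    have h2 : (trg K.A (fun a c => Wb K.A a (fun y : C2 => ((-Real.log (y 1).im : ℝ) : ℂ)) x *
        W K.A c (fun y : C2 => ((-Real.log (y 1).im : ℝ) : ℂ)) x) x).re ≤ C * wA K.A x := hC x hx
    rw [← h1] at h2
    exact le_of_mul_le_mul_right h2 (wA_pos K.ba K.pos x hx).1

/-- the surface as an instance of `LN.VG` -/
noncomputable def VK : LN.VG G where
  toEll := ellA K.ba K.pos
  act := K.al
  act_mem := K.maps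
  act_one := K.one
  act_mul := K.mul
  act_smo := (kerr_hol K).1
  jac := VK_jac K
  proper := fun C hC hO => K.proper C hO hC
  cocpt := by
    obtain ⟨C, h1, h2, h3⟩ := K.coc
    exact ⟨C, h2, h1, h3⟩
  L_inv := VK_inv K
  phi := fun x => -Real.log (x 1).im
  phi_smo := (VK_phi K).1
  phi_L := (VK_phi K).2.1
  phi_G := (VK_phi K).2.2
  Y := fun p q => 1 + ps K.A p q
  Y_smo := contDiffOn_const.add (kerr_psi K).1
  Y_symm := fun p hp q hq => by rw [(kerr_psi K).2.1 p hp q hq]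
  Y_inv := fun g p hp q hq => by rw [(kerr_psi K).2.2.2 g p hp q hq]
  Y_ge := fun p hp q hq => by have := K.nneg p hp q hq; linarith
  Y_diag := fun p hp => by rw [(kerr_psi K).2.2.1 p hp, add_zero]
  Y_sep := fun p hp q hq h => K.sep p hp q hq (by linarith)
  Y_proper := fun C hC hO R => by
    obtain ⟨C', h1, h2, h3⟩ := K.psp C hO hC R
    exact ⟨C', h2, h1, fun p hp q hq h => h3 p hp q hq (by linarith)⟩
  qf := qR K.A
  qf_cont := (qR_facts K.ba K.pos).1
  qf_symm := (qR_facts K.ba K.pos).2.1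
  qf_pos := (qR_facts K.ba K.pos).2.2.2.1
  Y_quad := fun C hC hO => by
    obtain ⟨c, hc⟩ := Y_quadK K hO hC
    exact ⟨c, fun p hp q hq => by simpa using hc p hp q hq⟩
  kap := 1
  kap_pos := one_pos
  qf_det := fun p hp => by rw [one_mul]; exact (qR_facts K.ba K.pos).2.2.2.2 p hp
  beta := bK K.A
  beta_bd := fun C hC hO => bK_bd K.ba K.pos hO hC
  Y_comm := fun ph h p hp q hq => Y_commK K h p hp q hq

end Pool.Agent.MPd01a95
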