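import Mathlib
import Pool.Agent.Lib.MP_d01a95_gt_S.VDefs
import Pool.Agent.Lib.MP_d01a95_gt_S.Vlap

/-!
Project SU(2,2), part (2), module Vkah1.
-/

set_option autoImplicit false
set_option linter.all false

open Matrix Filter Topology MeasureTheory Measure
open scoped ENNReal NNReal ContDiff

namespace Pool.Agent.MPd01a95

variable {H : Type*} [NormedAddCommGroup H] [InnerProductSpace ℂ H]

/-- the mixed determinant of a tensor with values in a Hilbert space -/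
noncomputable def DT (T : Fin 2 → Fin 2 → H) : ℂ :=
  inner ℂ (T 0 0) (T 1 1) + inner ℂ (T 1 1) (T 0 0) - inner ℂ (T 0 1) (T 0 1) -
    inner ℂ (T 1 0) (T 1 0)

/-- the vector field whose divergence is the mixed determinant of the Hessian -/
noncomputable def kv (A : C2 → ℂ) (h : C2 → H) (c : Fin 2) (x : C2) : ℂ :=
  if c = 1 then inner ℂ (HV A 0 0 h x) (WbV A 1 h x) - inner ℂ (HV A 0 1 h x) (WbV A 0 h x)
  else inner ℂ (HV A 1 1 h x) (WbV A 0 h x) - inner ℂ (HV A 1 0 h x) (WbV A 1 h x)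

private theorem W_sub' (A : C2 → ℂ) {f g : C2 → ℂ} {x : C2} (hf : DifferentiableAt ℝ f x)
    (hg : DifferentiableAt ℝ g x) (c : Fin 2) :
    W A c (fun y => f y - g y) x = W A c f x - W A c g x := by
  have e : fderiv ℝ (fun y => f y - g y) x = fderiv ℝ f x - fderiv ℝ g x := fderiv_fun_sub hf hg
  unfold W db dd
  rw [e]
  simp only [ContinuousLinearMap.sub_apply]
  split_ifs <;> ring

private theorem Ga_one (A : C2 → ℂ) (a : Fin 2) (x : C2) : Ga A 1 a x = 0 := by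
  unfold Ga
  rw [if_neg (by decide)]

private theorem Ga_zero (A : C2 → ℂ) (a : Fin 2) (x : C2) : Ga A 0 a x = dd A a x := by
  unfold Ga
  rw [if_pos rfl]

/-- smoothness of the Hessian -/
private theorem HV_sm {A : C2 → ℂ} (hA : BA Up A) {h : C2 → H} (hh : LN.Smo h) (a c : Fin 2) :
    LN.Smo (fun y => HV A a c h y) := by
  have h1 : LN.Smo (fun y => WV A c (fun z => WbV A a h z) y) :=
    (Smo_WV hA (Smo_WV hA hh a).2 c).1
  have hdd : ContDiffOn ℝ ∞ (fun y => Ga A c a y) Up := by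
    have hw : ∀ e, ContDiffOn ℝ ∞ (fun y => WbV A e A y) Up := fun e =>
      (WV_contDiffOn LN.isOpen_Om hA.sm hA.sm (m := ∞) (k := ∞) (by simp) le_rfl e).2
    have hd : ∀ e : Fin 2, ContDiffOn ℝ ∞ (fun y => dd A e y) Up := by
      intro e
      refine (hw e).congr ?_
      intro y hy
      have h2 := W_A LN.isOpen_Om hA y hy
      rw [Wb_eq]
      fin_cases e
      · exact h2.2.2.1.symm
      · exact h2.2.1.symm
    unfold Ga
    by_cases hc : c = 0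
    · simp only [hc, if_true]
      exact hd a
    · simp only [hc, if_false]
      exact contDiffOn_const
  have h2 : LN.Smo (fun y => Ga A c a y • WbV A 1 h y) := hdd.smul (Smo_WV hA hh 1).2
  exact ContDiffOn.add h1 h2

/-- closedness of the Hessian -/
private theorem clo {A : C2 → ℂ} (hA : BA Up A) {h : C2 → H} (hh : LN.Smo h) {x : C2}
    (hx : x ∈ Up) (c : Fin 2) :
    WbV A 1 (fun y => HV A 0 c h y) x =
      WbV A 0 (fun y => HV A 1 c h y) x + star (dd A c x) • HV A 1 1 h x := by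
  have hop : IsOpen Up := LN.isOpen_Om
  have h2 : ContDiffOn ℝ 2 h Up := hh.of_le (WithTop.coe_le_coe.2 (le_top : (2 : ℕ∞) ≤ ⊤))
  have sW : ∀ e, LN.Smo (fun y => WV A e h y) := fun e => (Smo_WV hA hh e).1
  have e0 : (fun y => HV A 0 c h y) =ᶠ[𝓝 x]
      fun y => WbV A 0 (fun z => WV A c h z) y + star (dd A c y) • WV A 1 h y := by
    filter_upwards [hop.mem_nhds hx] with y hy
    rw [HV_symm hop hA h2 0 c y hy, Ga_zero]
  have e1 : (fun y => HV A 1 c h y) =ᶠ[𝓝 x] fun y => WbV A 1 (fun z => WV A c h z) y := by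
    filter_upwards [hop.mem_nhds hx] with y hy
    rw [HV_symm hop hA h2 1 c y hy, Ga_one, star_zero, zero_smul, add_zero]
  have e2 : HV A 1 1 h x = WbV A 1 (fun z => WV A 1 h z) x := by
    rw [HV_symm hop hA h2 1 1 x hx, Ga_one, star_zero, zero_smul, add_zero]
  have hd1 : DifferentiableAt ℝ (fun y => WbV A 0 (fun z => WV A c h z) y) x :=
    LN.Smo.diff (Smo_WV hA (sW c) 0).2 hx
  have hdd : DifferentiableAt ℝ (fun y => star (dd A c y)) x := by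
    have hw : DifferentiableAt ℝ (fun y => WbV A c A y) x :=
      LN.Smo.diff (Smo_WV hA (f := A) hA.sm c).2 hx
    have he : (fun y => dd A c y) =ᶠ[𝓝 x] fun y => WbV A c A y := by
      filter_upwards [hop.mem_nhds hx] with y hy
      have h3 := W_A hop hA y hy
      rw [Wb_eq]
      fin_cases c
      · exact h3.2.2.1.symm
      · exact h3.2.1.symm
    have hw2 : DifferentiableAt ℝ (fun y => dd A c y) x := hw.congr_of_eventuallyEq he
    exact (Complex.conjCLE.differentiableAt).comp x hw2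
  have hd2 : DifferentiableAt ℝ (fun y => WV A 1 h y) x := LN.Smo.diff (sW 1) hx
  have hd3 : DifferentiableAt ℝ (fun y => star (dd A c y) • WV A 1 h y) x := hdd.smul hd2
  have h0 : Wb A 1 (fun y => star (dd A c y)) x = 0 := by
    rw [(W_star A (fun y => dd A c y) x 1).2, (W_A hop hA x hx).2.2.2.1 c, star_zero]
  rw [(WV_congr A e0 1).2, (WV_congr A e1 0).2, (WV_add A hd1 hd3 1).2, (WV_smul A hdd hd2 1).2,
    h0, zero_smul, zero_add, e2]
  have h4 : ContDiffOn ℝ 2 (fun z => WV A c h z) Up :=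
    (sW c).of_le (WithTop.coe_le_coe.2 (le_top : (2 : ℕ∞) ≤ ⊤))
  rw [(WV_comm hop hA h4 x hx).2]

/-- the mixed determinant of the Hessian is a divergence -/
theorem kah_div {A : C2 → ℂ} (hA : BA Up A) {h : C2 → H} (hh : LN.Smo h) : ∀ x ∈ Up,
    DT (fun a c => HV A a c h x) =
      W A 1 (kv A h 1) x + W A 0 (kv A h 0) x + dd A 1 x * kv A h 0 x := by
  intro x hx
  have hT : ∀ a c, DifferentiableAt ℝ (fun y => HV A a c h y) x := fun a c =>
    LN.Smo.diff (HV_sm hA hh a c) hx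
  have hp : ∀ a, DifferentiableAt ℝ (fun y => WbV A a h y) x := fun a =>
    LN.Smo.diff (Smo_WV hA hh a).2 hx
  have k1 : (fun y => kv A h 1 y) = fun y => inner ℂ (HV A 0 0 h y) (WbV A 1 h y) -
      inner ℂ (HV A 0 1 h y) (WbV A 0 h y) := by
    funext y
    unfold kv
    rw [if_pos rfl]
  have k0 : (fun y => kv A h 0 y) = fun y => inner ℂ (HV A 1 1 h y) (WbV A 0 h y) -
      inner ℂ (HV A 1 0 h y) (WbV A 1 h y) := by
    funext y
    unfold kv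
    rw [if_neg (by decide)]
  have i : ∀ a c e, DifferentiableAt ℝ (fun y => inner ℂ (HV A a c h y) (WbV A e h y)) x :=
    fun a c e => (hT a c).inner ℂ (hp e)
  have w1 : W A 1 (kv A h 1) x = inner ℂ (WbV A 1 (fun y => HV A 0 0 h y) x) (WbV A 1 h x) +
      inner ℂ (HV A 0 0 h x) (WV A 1 (fun y => WbV A 1 h y) x) -
      (inner ℂ (WbV A 1 (fun y => HV A 0 1 h y) x) (WbV A 0 h x) +
      inner ℂ (HV A 0 1 h x) (WV A 1 (fun y => WbV A 0 h y) x)) := by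
    change W A 1 (fun y => kv A h 1 y) x = _
    rw [k1, W_sub' A (i 0 0 1) (i 0 1 0) 1, (WV_inner A (hT 0 0) (hp 1) 1).1,
      (WV_inner A (hT 0 1) (hp 0) 1).1]
  have w0 : W A 0 (kv A h 0) x = inner ℂ (WbV A 0 (fun y => HV A 1 1 h y) x) (WbV A 0 h x) +
      inner ℂ (HV A 1 1 h x) (WV A 0 (fun y => WbV A 0 h y) x) -
      (inner ℂ (WbV A 0 (fun y => HV A 1 0 h y) x) (WbV A 1 h x) +
      inner ℂ (HV A 1 0 h x) (WV A 0 (fun y => WbV A 1 h y) x)) := by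
    change W A 0 (fun y => kv A h 0 y) x = _
    rw [k0, W_sub' A (i 1 1 0) (i 1 0 1) 0, (WV_inner A (hT 1 1) (hp 0) 0).1,
      (WV_inner A (hT 1 0) (hp 1) 0).1]
  have t1 : ∀ a, WV A 1 (fun y => WbV A a h y) x = HV A a 1 h x := by
    intro a
    unfold HV
    rw [Ga_one, zero_smul, add_zero]
  have t0 : ∀ a, WV A 0 (fun y => WbV A a h y) x = HV A a 0 h x - dd A a x • WbV A 1 h x := by
    intro a
    unfold HV
    rw [Ga_zero, add_sub_cancel_right]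
  have kk0 : kv A h 0 x = inner ℂ (HV A 1 1 h x) (WbV A 0 h x) -
      inner ℂ (HV A 1 0 h x) (WbV A 1 h x) := by
    have := congrFun k0 x
    exact this
  rw [w1, w0, kk0, t1, t1, t0, t0, clo hA hh hx 0, clo hA hh hx 1]
  unfold DT
  simp only [inner_add_left, inner_sub_right, inner_smul_left, inner_smul_right,
    starRingEnd_apply, star_star]
  ring

private theorem alg0 (k w : ℝ) (c : ℂ) (P Q R S t00 t01 t10 : H)
    (h00 : t00 = (k : ℂ) • (P + c • Q + star c • R + (((Complex.normSq c * k : ℝ)) : ℂ) • S))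
    (h01 : t01 = Q + (star c * k) • S) (h10 : t10 = R + (c * k) • S) :
    ‖P + ((w * k : ℝ) : ℂ) • S‖ ^ 2 - w * (inner ℂ t00 S + inner ℂ S t00 - inner ℂ t01 t01 -
      inner ℂ t10 t10 : ℂ).re =
      ‖P‖ ^ 2 + w * ‖Q‖ ^ 2 + w * ‖R‖ ^ 2 + (w * k) ^ 2 * ‖S‖ ^ 2 := by
  have hn : ∀ v : H, ‖v‖ ^ 2 = (inner ℂ v v : ℂ).re := fun v => by
    rw [← inner_self_eq_norm_sq (𝕜 := ℂ) v]
    rfl
  simp only [hn]
  rw [h00, h01, h10]
  simp only [inner_add_left, inner_add_right, inner_smul_left, inner_smul_right]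
  have s1 : inner ℂ S P = star (inner ℂ P S) := (inner_conj_symm S P).symm
  have s2 : inner ℂ S Q = star (inner ℂ Q S) := (inner_conj_symm S Q).symm
  have s3 : inner ℂ S R = star (inner ℂ R S) := (inner_conj_symm S R).symm
  have im0 : ∀ v : H, (inner ℂ v v : ℂ).im = 0 := fun v => by
    have := inner_self_im (𝕜 := ℂ) v
    exact this
  have iS := im0 S
  have iQ := im0 Q
  have iR := im0 R
  have iP := im0 P
  rw [s1, s2, s3, Complex.normSq_apply]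
  generalize (inner ℂ P S : ℂ) = z1 at *
  generalize (inner ℂ Q S : ℂ) = z2 at *
  generalize (inner ℂ R S : ℂ) = z3 at *
  generalize (inner ℂ S S : ℂ) = z4 at *
  generalize (inner ℂ Q Q : ℂ) = z5 at *
  generalize (inner ℂ R R : ℂ) = z6 at *
  generalize (inner ℂ P P : ℂ) = z7 at *
  simp only [Complex.star_def, map_mul, Complex.conj_conj, Complex.conj_ofReal,
    Complex.add_re, Complex.sub_re, Complex.mul_re, Complex.add_im, Complex.sub_im, Complex.mul_im,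
    Complex.conj_re, Complex.conj_im, Complex.ofReal_re, Complex.ofReal_im, iS, iQ, iR, iP]
  ring

/-- the change of frame -/
private theorem alg (a b w : ℝ) (c : ℂ) (ha : 0 < a) (hw : w = a * b - Complex.normSq c)
    (T : Fin 2 → Fin 2 → H) (V : H)
    (hV : V = (b : ℂ) • T 1 1 + (a : ℂ) • T 0 0 - c • T 0 1 - star c • T 1 0) :
    ‖V‖ ^ 2 - w * (DT T).re =
      ‖V - ((w * a⁻¹ : ℝ) : ℂ) • T 1 1‖ ^ 2 + w * ‖T 0 1 - (star c * (a⁻¹ : ℝ)) • T 1 1‖ ^ 2 +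
        w * ‖T 1 0 - (c * (a⁻¹ : ℝ)) • T 1 1‖ ^ 2 + (w * a⁻¹) ^ 2 * ‖T 1 1‖ ^ 2 := by
  set k : ℝ := a⁻¹ with hk
  have hak : (a : ℂ) * (k : ℂ) = 1 := by
    rw [← Complex.ofReal_mul, hk, mul_inv_cancel₀ ha.ne', Complex.ofReal_one]
  have hN : ((Complex.normSq c : ℝ) : ℂ) = star c * c := by
    rw [Complex.star_def, Complex.normSq_eq_conj_mul_self]
  have h := alg0 k w c (V - ((w * k : ℝ) : ℂ) • T 1 1) (T 0 1 - (star c * k) • T 1 1)
    (T 1 0 - (c * k) • T 1 1) (T 1 1) (T 0 0) (T 0 1) (T 1 0) ?_ (by module) (by module)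
  · rw [← h, sub_add_cancel]
    rfl
  · rw [hV, hw]
    push_cast
    rw [hN]
    have e : T 0 0 = ((a : ℂ) * k) • T 0 0 := by rw [hak, one_smul]
    conv_lhs => rw [e]
    have e2 : (k : ℂ) • ((b : ℂ) • T 1 1 + (a : ℂ) • T 0 0 - c • T 0 1 - star c • T 1 0 -
        ((a * b - star c * c) * k) • T 1 1 + c • (T 0 1 - (star c * k) • T 1 1) +
        star c • (T 1 0 - (c * k) • T 1 1) + (star c * c * k) • T 1 1) =
        ((a : ℂ) * k) • T 0 0 + ((b : ℂ) * k * (1 - (a * k))) • T 1 1 := by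
      module
    rw [e2, hak, sub_self, mul_zero, zero_smul, add_zero]

private theorem alg_at {A : C2 → ℂ} (hA : BA Up A) (hp : SPL A) (T : Fin 2 → Fin 2 → H) {x : C2}
    (hx : x ∈ Up) : ∃ a b : ℝ, gm A 1 1 x = a ∧ gm A 0 0 x = b ∧ 0 < a ∧
      wA A x = a * b - Complex.normSq (gm A 1 0 x) ∧
      trV A T x = (b : ℂ) • T 1 1 + (a : ℂ) • T 0 0 - gm A 1 0 x • T 0 1 -
        star (gm A 1 0 x) • T 1 0 := by
  obtain ⟨hwp, h1p, h0p, h1i, h0i⟩ := wA_pos hA hp x hx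
  obtain ⟨g11, g10, g01, g00, hw, hdet⟩ := gm_explicit hA x hx
  have e1 : gm A 1 1 x = (((gm A 1 1 x).re : ℝ) : ℂ) := by
    apply Complex.ext
    · rw [Complex.ofReal_re]
    · rw [Complex.ofReal_im, h1i]
  have e0 : gm A 0 0 x = (((gm A 0 0 x).re : ℝ) : ℂ) := by
    apply Complex.ext
    · rw [Complex.ofReal_re]
    · rw [Complex.ofReal_im, h0i]
  refine ⟨(gm A 1 1 x).re, (gm A 0 0 x).re, e1, e0, h1p, ?_, ?_⟩
  · have h3 := congrArg Complex.re hdet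
    rw [Complex.ofReal_re, g01, Complex.star_def, Complex.mul_conj, Complex.sub_re,
      Complex.ofReal_re, Complex.mul_re, h1i, h0i] at h3
    linarith
  · unfold trV
    rw [← e1, ← e0, g01]

/-- `w² |T|² = |trV T|² - w DT(T)` is nonnegative ... -/
theorem kah_nonneg {A : C2 → ℂ} (hA : BA Up A) (hp : SPL A) (T : Fin 2 → Fin 2 → H) : ∀ x ∈ Up,
    wA A x * (DT T).re ≤ ‖trV A T x‖ ^ 2 := by
  intro x hx
  obtain ⟨a, b, ea, eb, ha, hw, hV⟩ := alg_at hA hp T hx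
  have hwp := (wA_pos hA hp x hx).1
  have h := alg a b (wA A x) (gm A 1 0 x) ha hw T (trV A T x) hV
  have : 0 ≤ ‖trV A T x‖ ^ 2 - wA A x * (DT T).re := by
    rw [h]
    positivity
  linarith

private theorem nsq_add (u v : H) : ‖u + v‖ ^ 2 ≤ 2 * ‖u‖ ^ 2 + 2 * ‖v‖ ^ 2 := by
  have h1 := norm_add_le u v
  have h2 := norm_nonneg (u + v)
  nlinarith [sq_nonneg (‖u‖ - ‖v‖), norm_nonneg u, norm_nonneg v]

/-- ... and comparable with the Euclidean norm on compact sets -/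
theorem kah_point {A : C2 → ℂ} (hA : BA Up A) (hp : SPL A) {C : Set C2} (hC : C ⊆ Up)
    (hCc : IsCompact C) : ∃ c > 0, ∀ x ∈ C, ∀ T : Fin 2 → Fin 2 → H,
    c * ∑ a, ∑ b, ‖T a b‖ ^ 2 ≤ ‖trV A T x‖ ^ 2 - wA A x * (DT T).re := by
  obtain ⟨κ, hκ, hb⟩ := gm_bounds hA hp hC hCc
  refine ⟨κ ^ 10 / 64, by positivity, ?_⟩
  intro x hx T
  have hxU := hC hx
  obtain ⟨hg, hw1, hw2, -⟩ := hb x hx
  obtain ⟨a, b, ea, eb, ha, hw, hV⟩ := alg_at hA hp T hxU
  have hwp := (wA_pos hA hp x hxU).1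
  have h := alg a b (wA A x) (gm A 1 0 x) ha hw T (trV A T x) hV
  set w := wA A x with hwdef
  set c := gm A 1 0 x with hcdef
  set V := trV A T x with hVdef
  set D : ℝ := ‖V‖ ^ 2 - w * (DT T).re with hD
  set N : ℝ := κ⁻¹ with hN
  have hNp : 0 < N := inv_pos.2 hκ
  have hκN : κ * N = 1 := mul_inv_cancel₀ hκ.ne'
  have hκ1 : κ ≤ N := hw1.trans hw2
  have hN1 : 1 ≤ N := by nlinarith
  have hcN : ‖c‖ ≤ N := hg 1 0
  have haN : a ≤ N := by
    have := hg 1 1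
    rw [ea, Complex.norm_real, Real.norm_eq_abs] at this
    exact (le_abs_self a).trans this
  have hbN : |b| ≤ N := by
    have := hg 0 0
    rwa [eb, Complex.norm_real, Real.norm_eq_abs] at this
  have hk : 0 < a⁻¹ := inv_pos.2 ha
  have hak : a * a⁻¹ = 1 := mul_inv_cancel₀ ha.ne'
  -- the four terms
  set S := T 1 1 with hS
  set P := V - ((w * a⁻¹ : ℝ) : ℂ) • S with hP
  set Q := T 0 1 - (star c * (a⁻¹ : ℝ)) • S with hQ
  set R := T 1 0 - (c * (a⁻¹ : ℝ)) • S with hR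
  have hD' : D = ‖P‖ ^ 2 + w * ‖Q‖ ^ 2 + w * ‖R‖ ^ 2 + (w * a⁻¹) ^ 2 * ‖S‖ ^ 2 := h
  have p1 : 0 ≤ ‖P‖ ^ 2 := by positivity
  have p2 : 0 ≤ w * ‖Q‖ ^ 2 := by positivity
  have p3 : 0 ≤ w * ‖R‖ ^ 2 := by positivity
  have p4 : 0 ≤ (w * a⁻¹) ^ 2 * ‖S‖ ^ 2 := by positivity
  have hD0 : 0 ≤ D := by rw [hD']; positivity
  have hNw : 1 ≤ N * w := by
    calc (1 : ℝ) = N * κ := by rw [mul_comm]; exact hκN.symm
      _ ≤ N * w := mul_le_mul_of_nonneg_left hw1 hNp.le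
  -- bound for S
  have bS : ‖S‖ ^ 2 ≤ N ^ 4 * D := by
    have e : ‖S‖ ^ 2 ≤ N ^ 4 * ((w * a⁻¹) ^ 2 * ‖S‖ ^ 2) := by
      have h1 : 1 ≤ N ^ 2 * (w * a⁻¹) := by
        have h2 : a ≤ N ^ 2 * w := by nlinarith
        calc (1 : ℝ) = a * a⁻¹ := hak.symm
          _ ≤ (N ^ 2 * w) * a⁻¹ := mul_le_mul_of_nonneg_right h2 hk.le
          _ = N ^ 2 * (w * a⁻¹) := by ring
      have h2 : 1 ≤ (N ^ 2 * (w * a⁻¹)) ^ 2 := one_le_pow₀ h1
      calc ‖S‖ ^ 2 = 1 * ‖S‖ ^ 2 := (one_mul _).symm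
        _ ≤ (N ^ 2 * (w * a⁻¹)) ^ 2 * ‖S‖ ^ 2 := mul_le_mul_of_nonneg_right h2 (by positivity)
        _ = N ^ 4 * ((w * a⁻¹) ^ 2 * ‖S‖ ^ 2) := by ring
    refine e.trans (mul_le_mul_of_nonneg_left ?_ (by positivity))
    linarith
  have hN24 : N ≤ N ^ 4 := by
    calc N = N ^ 1 := (pow_one N).symm
      _ ≤ N ^ 4 := pow_le_pow_right₀ hN1 (by norm_num)
  have bc : (‖c‖ * a⁻¹) ^ 2 * ‖S‖ ^ 2 ≤ N ^ 4 * D := by
    have e : (‖c‖ * a⁻¹) ^ 2 * ‖S‖ ^ 2 ≤ N ^ 4 * ((w * a⁻¹) ^ 2 * ‖S‖ ^ 2) := by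
      have h1 : ‖c‖ * a⁻¹ ≤ N ^ 2 * (w * a⁻¹) := by
        have h2 : ‖c‖ ≤ N ^ 2 * w := by nlinarith
        calc ‖c‖ * a⁻¹ ≤ (N ^ 2 * w) * a⁻¹ := mul_le_mul_of_nonneg_right h2 hk.le
          _ = N ^ 2 * (w * a⁻¹) := by ring
      have h2 : (‖c‖ * a⁻¹) ^ 2 ≤ (N ^ 2 * (w * a⁻¹)) ^ 2 :=
        pow_le_pow_left₀ (by positivity) h1 2
      calc (‖c‖ * a⁻¹) ^ 2 * ‖S‖ ^ 2 ≤ (N ^ 2 * (w * a⁻¹)) ^ 2 * ‖S‖ ^ 2 :=
            mul_le_mul_of_nonneg_right h2 (by positivity)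
        _ = N ^ 4 * ((w * a⁻¹) ^ 2 * ‖S‖ ^ 2) := by ring
    refine e.trans (mul_le_mul_of_nonneg_left ?_ (by positivity))
    linarith
  have bw : ∀ r : ℝ, 0 ≤ r → r ≤ N * (w * r) := by
    intro r hr
    calc r = 1 * r := (one_mul r).symm
      _ ≤ (N * w) * r := mul_le_mul_of_nonneg_right hNw hr
      _ = N * (w * r) := by ring
  have b01 : ‖T 0 1‖ ^ 2 ≤ 4 * N ^ 4 * D := by
    have e : T 0 1 = Q + (star c * (a⁻¹ : ℝ)) • S := by rw [hQ, sub_add_cancel]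
    have h1 := nsq_add Q ((star c * (a⁻¹ : ℝ)) • S)
    rw [← e, norm_smul, norm_mul, norm_star, Complex.norm_real, Real.norm_eq_abs,
      abs_of_pos hk, mul_pow] at h1
    have h2 := bw (‖Q‖ ^ 2) (by positivity)
    have h3 : N * (w * ‖Q‖ ^ 2) ≤ N ^ 4 * D :=
      mul_le_mul hN24 (by linarith) p2 (by positivity)
    linarith
  have b10 : ‖T 1 0‖ ^ 2 ≤ 4 * N ^ 4 * D := by
    have e : T 1 0 = R + (c * (a⁻¹ : ℝ)) • S := by rw [hR, sub_add_cancel]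
    have h1 := nsq_add R ((c * (a⁻¹ : ℝ)) • S)
    rw [← e, norm_smul, norm_mul, Complex.norm_real, Real.norm_eq_abs,
      abs_of_pos hk, mul_pow] at h1
    have h2 := bw (‖R‖ ^ 2) (by positivity)
    have h3 : N * (w * ‖R‖ ^ 2) ≤ N ^ 4 * D :=
      mul_le_mul hN24 (by linarith) p3 (by positivity)
    linarith
  have bV : ‖V‖ ^ 2 ≤ 2 * D := by
    have e : V = P + ((w * a⁻¹ : ℝ) : ℂ) • S := by rw [hP, sub_add_cancel]
    have h1 := nsq_add P (((w * a⁻¹ : ℝ) : ℂ) • S)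
    rw [← e, norm_smul, Complex.norm_real, Real.norm_eq_abs, mul_pow, sq_abs] at h1
    linarith
  have b00 : ‖T 0 0‖ ^ 2 ≤ 44 * N ^ 10 * D := by
    have e : (a : ℂ) • T 0 0 = (V + c • T 0 1) + (star c • T 1 0 + (-(b : ℂ)) • S) := by
      rw [hV]
      module
    have h1 := nsq_add (V + c • T 0 1) (star c • T 1 0 + (-(b : ℂ)) • S)
    have h2 := nsq_add V (c • T 0 1)
    have h3 := nsq_add (star c • T 1 0) ((-(b : ℂ)) • S)
    rw [← e, norm_smul, Complex.norm_real, Real.norm_eq_abs, mul_pow, sq_abs] at h1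
    rw [norm_smul, mul_pow] at h2
    rw [norm_smul, norm_smul, norm_star, norm_neg, Complex.norm_real, Real.norm_eq_abs, mul_pow,
      mul_pow, sq_abs] at h3
    have q1 : ‖c‖ ^ 2 ≤ N ^ 2 := pow_le_pow_left₀ (norm_nonneg _) hcN 2
    have q2 : b ^ 2 ≤ N ^ 2 := by
      rw [← sq_abs]
      exact pow_le_pow_left₀ (abs_nonneg _) hbN 2
    have q3 : ‖c‖ ^ 2 * ‖T 0 1‖ ^ 2 ≤ N ^ 2 * (4 * N ^ 4 * D) :=
      mul_le_mul q1 b01 (by positivity) (by positivity)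
    have q4 : ‖c‖ ^ 2 * ‖T 1 0‖ ^ 2 ≤ N ^ 2 * (4 * N ^ 4 * D) :=
      mul_le_mul q1 b10 (by positivity) (by positivity)
    have q5 : b ^ 2 * ‖S‖ ^ 2 ≤ N ^ 2 * (N ^ 4 * D) :=
      mul_le_mul q2 bS (by positivity) (by positivity)
    have hN6 : 1 ≤ N ^ 6 := one_le_pow₀ hN1
    have q6 : D ≤ N ^ 6 * D := by nlinarith
    have q7 : a ^ 2 * ‖T 0 0‖ ^ 2 ≤ 44 * (N ^ 6 * D) := by
      have r1 : N ^ 2 * (4 * N ^ 4 * D) = 4 * (N ^ 6 * D) := by ring
      have r2 : N ^ 2 * (N ^ 4 * D) = N ^ 6 * D := by ring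
      linarith
    have hn := Complex.normSq_nonneg c
    have q8 : 1 ≤ N ^ 2 * a := by
      have r1 : w ≤ a * b := by linarith
      have r2 : a * b ≤ a * N := mul_le_mul_of_nonneg_left ((le_abs_self b).trans hbN) ha.le
      calc (1 : ℝ) ≤ N * w := hNw
        _ ≤ N * (a * N) := mul_le_mul_of_nonneg_left (r1.trans r2) hNp.le
        _ = N ^ 2 * a := by ring
    have q9 : 1 ≤ (N ^ 2 * a) ^ 2 := one_le_pow₀ q8
    calc ‖T 0 0‖ ^ 2 = 1 * ‖T 0 0‖ ^ 2 := (one_mul _).symm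
      _ ≤ (N ^ 2 * a) ^ 2 * ‖T 0 0‖ ^ 2 := mul_le_mul_of_nonneg_right q9 (by positivity)
      _ = N ^ 4 * (a ^ 2 * ‖T 0 0‖ ^ 2) := by ring
      _ ≤ N ^ 4 * (44 * (N ^ 6 * D)) := mul_le_mul_of_nonneg_left q7 (by positivity)
      _ = 44 * N ^ 10 * D := by ring
  have hN410 : N ^ 4 * D ≤ N ^ 10 * D :=
    mul_le_mul_of_nonneg_right (pow_le_pow_right₀ hN1 (by norm_num)) hD0
  have hsum : ∑ a, ∑ b, ‖T a b‖ ^ 2 ≤ 64 * (N ^ 10 * D) := by
    simp only [Fin.sum_univ_two]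
    have bS' : ‖T 1 1‖ ^ 2 ≤ N ^ 4 * D := bS
    have h0 : 0 ≤ N ^ 10 * D := by positivity
    linarith
  calc κ ^ 10 / 64 * ∑ a, ∑ b, ‖T a b‖ ^ 2 ≤ κ ^ 10 / 64 * (64 * (N ^ 10 * D)) :=
        mul_le_mul_of_nonneg_left hsum (by positivity)
    _ = (κ * N) ^ 10 * D := by ring
    _ = D := by rw [hκN, one_pow, one_mul]

end Pool.Agent.MPd01a95
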