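import Mathlib
import Pool.Agent.Lib.MP_d01a95_gt_S.VDefs
import Pool.Agent.Lib.MP_d01a95_gt_S.Vinst
import Pool.Agent.Lib.MP_d01a95_gt_S.Vpart
import Pool.Agent.Lib.MP_d01a95_gt_S.Vlaw
import Pool.Agent.Lib.MP_d01a95_gt_L.LUnf

/-!
Project SU(2,2), part (2), module Vstk.
-/

set_option autoImplicit false
set_option linter.all false

open Matrix Filter Topology MeasureTheory Measure
open scoped ENNReal NNReal ContDiff

namespace Pool.Agent.MPd01a95

private theorem Vstk_int {f : C2 → ℂ} (hf : ContinuousOn f LN.Om) (hc : LN.CS f) :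
    IntegrableOn f Up := by
  obtain ⟨h1, h2, h3⟩ := LN.CS.indicator_cont hf hc
  exact (integrable_indicator_iff LN.measurableSet_Om).1 (h1.integrable_of_hasCompactSupport h2)

private theorem Vstk_mul {f g : C2 → ℂ} (hf : LN.Smo f) (hg : LN.Smo g) :
    LN.Smo (fun x => f x * g x) := ContDiffOn.mul hf hg

private theorem Vstk_csW {A : C2 → ℂ} {f : C2 → ℂ} (hc : LN.CS f) (c : Fin 2) :
    LN.CS (fun x => W A c f x) := by
  obtain ⟨K, hK, hO, h0⟩ := hc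
  refine ⟨K, hK, hO, fun p hp hpK => ?_⟩
  have hU : LN.Om ∩ Kᶜ ∈ 𝓝 p :=
    (LN.isOpen_Om.inter hK.isClosed.isOpen_compl).mem_nhds ⟨hp, hpK⟩
  have he : f =ᶠ[𝓝 p] fun _ => (0 : ℂ) := by
    filter_upwards [hU] with q hq
    exact h0 q hq.1 hq.2
  have h1 := (WV_congr A he c).1
  show W A c f p = 0
  rw [← W_eq, h1, (WV_co A (fun _ => (0 : ℂ)) p c).1]
  simp only [LN.dr_const, smul_zero, Finset.sum_const_zero]

private theorem Vstk_smoW {A : C2 → ℂ} (hA : BA Up A) {f : C2 → ℂ} (hf : LN.Smo f) (c : Fin 2) :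
    LN.Smo (fun x => W A c f x) := by
  have h := (Smo_WV hA hf c).1
  refine LN.Smo.congr h fun p _ => ?_
  exact (W_eq A f p c).symm

variable {G : Type} [Group G] {σ : G →* GU (Fin 2)} (K : Kerr σ)

/-- the unfolded integrand vanishes -/
private theorem Vstk_key {χ : C2 → ℝ} (hχ : LN.IsChi (VK K) χ) {v : Fin 2 → C2 → ℂ}
    (hl : ∀ γ, ∀ x ∈ Up, ∀ c, ((‖jac K γ x‖ ^ 2 : ℝ) : ℂ) * v c (K.al γ x) =
      ∑ c', star (MM K.A (K.al γ) c c' x) * v c' x) {p : C2} (hp : p ∈ Up) :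
    ∑' γ, ((wA K.A (K.al γ p))⁻¹ : ℝ) • (W K.A 1 (fun x => (χ x : ℂ)) (K.al γ p) * v 1 (K.al γ p) +
      W K.A 0 (fun x => (χ x : ℂ)) (K.al γ p) * v 0 (K.al γ p)) = 0 := by
  classical
  set X : C2 → ℂ := fun x => (χ x : ℂ) with hX
  have hXs : LN.Smo X := LN.Smo.clm hχ.smo Complex.ofRealCLM
  -- each term
  have hterm : ∀ γ, ((wA K.A (K.al γ p))⁻¹ : ℝ) • (W K.A 1 X (K.al γ p) * v 1 (K.al γ p) +
      W K.A 0 X (K.al γ p) * v 0 (K.al γ p)) =
      (((wA K.A p)⁻¹ : ℝ) : ℂ) * (WV K.A 0 (fun y => X (K.al γ y)) p * v 0 p +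
        WV K.A 1 (fun y => X (K.al γ y)) p * v 1 p) := by
    intro γ
    have hq : K.al γ p ∈ Up := K.maps γ p hp
    have hd : DifferentiableAt ℝ (K.al γ) p :=
      (((kerr_hol K).1 γ).contDiffAt (LN.isOpen_Om.mem_nhds hp)).differentiableAt (by simp)
    have hlaw := (law1 ((kerr_hol K).2 γ) hp hd (hXs.diff hq)).1
    obtain ⟨hw, hj⟩ := kerr_wA K γ p hp
    have hwp := (wA_pos K.ba K.pos p hp).1
    have hwq := (wA_pos K.ba K.pos _ hq).1
    have hinv : (((wA K.A (K.al γ p))⁻¹ : ℝ) : ℂ) =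
        (((wA K.A p)⁻¹ : ℝ) : ℂ) * ((‖jac K γ p‖ ^ 2 : ℝ) : ℂ) := by
      rw [← Complex.ofReal_mul]
      congr 1
      have hj2 : ‖jac K γ p‖ ^ 2 ≠ 0 := pow_ne_zero 2 (norm_ne_zero_iff.2 hj)
      rw [hw]
      field_simp
    have h1 := hl γ p hp 1
    have h0 := hl γ p hp 0
    rw [Fin.sum_univ_two] at h1 h0
    rw [hlaw 0, hlaw 1, Fin.sum_univ_two, Fin.sum_univ_two, W_eq, W_eq, Complex.real_smul, hinv]
    simp only [smul_eq_mul]
    linear_combination (((wA K.A p)⁻¹ : ℝ) : ℂ) * W K.A 1 X (K.al γ p) * h1 +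
      (((wA K.A p)⁻¹ : ℝ) : ℂ) * W K.A 0 X (K.al γ p) * h0
  -- a compact neighbourhood and the finite index set
  obtain ⟨C, hC, hCO, hsub⟩ := LN.exists_nhd (isCompact_singleton (x := p))
    (Set.singleton_subset_iff.2 hp)
  have hCn : C ∈ 𝓝 p :=
    mem_of_superset (isOpen_interior.mem_nhds (Set.singleton_subset_iff.1 hsub)) interior_subset
  obtain ⟨S, hS1, hS2⟩ := LN.tsum_act (VK K) hχ.cs hC hCO
  have hSX : ∀ γ, γ ∉ S → (fun y => X (K.al γ y)) =ᶠ[𝓝 p] fun _ => (0 : ℂ) := by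
    intro γ hγ
    filter_upwards [hCn] with q hq
    have : χ (K.al γ q) = 0 := hS1 q hq γ hγ
    show ((χ (K.al γ q) : ℝ) : ℂ) = 0
    rw [this]
    simp
  have hzero : ∀ γ, γ ∉ S → ∀ c, WV K.A c (fun y => X (K.al γ y)) p = 0 := by
    intro γ hγ c
    rw [(WV_congr K.A (hSX γ hγ) c).1, (WV_co K.A (fun _ => (0 : ℂ)) p c).1]
    simp only [LN.dr_const, smul_zero, Finset.sum_const_zero]
  have hsum : ∀ c, ∑ γ ∈ S, WV K.A c (fun y => X (K.al γ y)) p = 0 := by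
    intro c
    have hsm : ∀ γ ∈ S, LN.Smo (fun y => X (K.al γ y)) := fun γ _ =>
      LN.Smo.comp hXs ((kerr_hol K).1 γ) (K.maps γ)
    have e1 : (fun y => ∑ γ ∈ S, X (K.al γ y)) =ᶠ[𝓝 p] fun _ => (1 : ℂ) := by
      filter_upwards [hCn] with q hq
      have h1 : ∑' g, χ (K.al g q) = ∑ g ∈ S, χ (K.al g q) := hS2 q hq
      have h2 : ∑' g, χ (K.al g q) = 1 := hχ.one q (hCO hq)
      have h3 : ∑ g ∈ S, χ (K.al g q) = 1 := by rw [← h1, h2]
      show ∑ γ ∈ S, ((χ (K.al γ q) : ℝ) : ℂ) = 1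
      rw [← Complex.ofReal_sum, h3]
      simp
    have e2 : WV K.A c (fun y => ∑ γ ∈ S, X (K.al γ y)) p = 0 := by
      rw [(WV_congr K.A e1 c).1, (WV_co K.A (fun _ => (1 : ℂ)) p c).1]
      simp only [LN.dr_const, smul_zero, Finset.sum_const_zero]
    rw [(WV_co K.A (fun y => ∑ γ ∈ S, X (K.al γ y)) p c).1] at e2
    rw [← e2, Finset.sum_congr rfl fun γ hγ => (WV_co K.A (fun y => X (K.al γ y)) p c).1,
      Finset.sum_comm]
    refine Finset.sum_congr rfl fun i _ => ?_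
    rw [← Finset.smul_sum, LN.dr_sum S hsm hp i]
  rw [tsum_congr hterm, tsum_eq_sum (s := S) fun γ hγ => by
    rw [hzero γ hγ 0, hzero γ hγ 1]; simp]
  rw [← Finset.mul_sum, Finset.sum_add_distrib, ← Finset.sum_mul, ← Finset.sum_mul, hsum 0,
    hsum 1]
  simp

/-- Stokes on the quotient: `v` transforms like a vector density of type (0,1) -/
theorem stokes_inv {χ : C2 → ℝ} (hχ : LN.IsChi (VK K) χ) {v : Fin 2 → C2 → ℂ}
    (hv : ∀ c, LN.Smo (v c))
    (hl : ∀ γ, ∀ x ∈ Up, ∀ c, ((‖jac K γ x‖ ^ 2 : ℝ) : ℂ) * v c (K.al γ x) =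
      ∑ c', star (MM K.A (K.al γ) c c' x) * v c' x) :
    ∫ x in Up, (χ x : ℂ) * (W K.A 1 (v 1) x + W K.A 0 (v 0) x + dd K.A 1 x * v 0 x) = 0 := by
  set X : C2 → ℂ := fun x => (χ x : ℂ) with hX
  have hXs : LN.Smo X := LN.Smo.clm hχ.smo Complex.ofRealCLM
  have hXc : LN.CS X := hχ.cs.of_imp fun p _ h => by
    show ((χ p : ℝ) : ℂ) = 0
    rw [h]
    simp
  have hA := K.ba
  -- the product
  have hFs : ∀ c, LN.Smo (fun x => X x • v c x) := fun c => Vstk_mul hXs (hv c)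
  have hFc : ∀ c, LN.CS (fun x => X x • v c x) := fun c =>
    hXc.of_imp fun p _ h => by rw [h, zero_smul]
  have i1 := (int_WV hA (hFs 1) (hFc 1)).1
  have i0 := (int_WV hA (hFs 0) (hFc 0)).2
  -- the remaining term
  have hgs : LN.Smo (fun x => W K.A 1 X x * v 1 x + W K.A 0 X x * v 0 x) :=
    LN.Smo.add (Vstk_mul (Vstk_smoW hA hXs 1) (hv 1)) (Vstk_mul (Vstk_smoW hA hXs 0) (hv 0))
  have hgc : LN.CS (fun x => W K.A 1 X x * v 1 x + W K.A 0 X x * v 0 x) :=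
    LN.CS.add ((Vstk_csW hXc 1).of_imp fun p _ h => by rw [h, zero_mul])
      ((Vstk_csW hXc 0).of_imp fun p _ h => by rw [h, zero_mul])
  have hg0 : ∫ x in Up, (W K.A 1 X x * v 1 x + W K.A 0 X x * v 0 x) = 0 := by
    have hws : ContinuousOn (fun x => (wA K.A x)⁻¹) LN.Om :=
      ContinuousOn.inv₀ (rho_facts hA K.pos).1.continuousOn
        fun x hx => ((rho_facts hA K.pos).2 x hx).ne'
    have h1 := LN.unfold (VK K) hχ
      (f := fun x => (wA K.A x)⁻¹ • (W K.A 1 X x * v 1 x + W K.A 0 X x * v 0 x))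
      (hws.smul hgs.cont) (LN.CS.smul_right hgc)
    have h2 : ∫ p, χ p • ∑' g, (fun x => (wA K.A x)⁻¹ •
        (W K.A 1 X x * v 1 x + W K.A 0 X x * v 0 x)) ((VK K).act g p) ∂(VK K).mu = 0 := by
      rw [integral_congr_ae (g := fun _ => (0 : ℂ))]
      · simp
      · refine LN.ae_mu (VK K).toEll fun p hp => ?_
        have := Vstk_key K hχ hl hp
        show χ p • ∑' g, ((wA K.A (K.al g p))⁻¹ : ℝ) •
          (W K.A 1 X (K.al g p) * v 1 (K.al g p) + W K.A 0 X (K.al g p) * v 0 (K.al g p)) = 0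
        rw [this, smul_zero]
    rw [h2, LN.int_mu] at h1
    rw [← h1]
    refine setIntegral_congr_fun LN.measurableSet_Om fun p hp => ?_
    have hw : wA K.A p ≠ 0 := ((rho_facts hA K.pos).2 p hp).ne'
    show _ = wA K.A p • (wA K.A p)⁻¹ • _
    rw [smul_smul, mul_inv_cancel₀ hw, one_smul]
  -- integrability
  have j1 : IntegrableOn (fun x => WV K.A 1 (fun x => X x • v 1 x) x) Up :=
    Vstk_int (Smo_WV hA (hFs 1) 1).1.cont
      ((Vstk_csW (hFc 1) 1).of_imp fun p _ h => by rw [W_eq]; exact h)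
  have hdA : LN.Smo (dd K.A 1) := by
    have h := (Smo_WV hA (f := K.A) hA.sm 1).2
    refine LN.Smo.congr h fun p _ => ?_
    rw [Wb_eq]
    simp [Wb]
  have j0 : IntegrableOn (fun x => WV K.A 0 (fun x => X x • v 0 x) x +
      dd K.A 1 x • (X x • v 0 x)) Up := by
    refine Vstk_int (LN.Smo.add (Smo_WV hA (hFs 0) 0).1 (Vstk_mul hdA (hFs 0))).cont ?_
    exact LN.CS.add ((Vstk_csW (hFc 0) 0).of_imp fun p _ h => by rw [W_eq]; exact h)
      ((hFc 0).of_imp fun p _ h => by rw [h, smul_zero])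
  have jg := Vstk_int hgs.cont hgc
  have hfin : ∫ x in Up, (χ x : ℂ) * (W K.A 1 (v 1) x + W K.A 0 (v 0) x + dd K.A 1 x * v 0 x) =
      ∫ x in Up, ((WV K.A 1 (fun x => X x • v 1 x) x + (WV K.A 0 (fun x => X x • v 0 x) x +
        dd K.A 1 x • (X x • v 0 x))) - (W K.A 1 X x * v 1 x + W K.A 0 X x * v 0 x)) := by
    refine setIntegral_congr_fun LN.measurableSet_Om fun p hp => ?_
    show X p * _ = _
    have e1 := (WV_smul K.A (hXs.diff hp) ((hv 1).diff hp) 1).1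
    have e0 := (WV_smul K.A (hXs.diff hp) ((hv 0).diff hp) 0).1
    beta_reduce
    rw [e1, e0, W_eq, W_eq]
    simp only [smul_eq_mul]
    ring
  have j2 : IntegrableOn (fun x => WV K.A 1 (fun x => X x • v 1 x) x +
      (WV K.A 0 (fun x => X x • v 0 x) x + dd K.A 1 x • (X x • v 0 x))) Up := j1.add j0
  rw [hfin, integral_sub j2 jg, integral_add j1 j0, i1, i0, hg0]
  simp

end Pool.Agent.MPd01a95
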