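import Mathlib
import Pool.Agent.Lib.MP_d01a95_gt_S.VDefs
import Pool.Agent.Lib.MP_d01a95_gt_S.Vstk
import Pool.Agent.Lib.MP_d01a95_gt_S.Vkah1
import Pool.Agent.Lib.MP_d01a95_gt_L.PFin

/-!
Project SU(2,2), part (2), module Vkah2.
-/

set_option autoImplicit false
set_option linter.all false

open Matrix Filter Topology MeasureTheory Measure
open scoped ENNReal NNReal ContDiff

namespace Pool.Agent.MPd01a95

attribute [local instance] InnerProductSpace.complexToReal

section aux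

variable {E : Type*} [NormedAddCommGroup E] [NormedSpace ℂ E]

private theorem vk_addc (A : C2 → ℂ) (f : C2 → E) (k : E) (a : Fin 2) (x : C2) :
    WbV A a (fun y => f y + k) x = WbV A a f x ∧ WV A a (fun y => f y + k) x = WV A a f x := by
  have e : fderiv ℝ (fun y => f y + k) x = fderiv ℝ f x := fderiv_add_const k
  unfold WbV WV ddV dbV
  rw [e]
  exact ⟨rfl, rfl⟩

private theorem vk_addcH (A : C2 → ℂ) (f : C2 → E) (k : E) (a c : Fin 2) (x : C2) :
    HV A a c (fun y => f y + k) x = HV A a c f x := by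
  unfold HV
  have e : (fun y => WbV A a (fun y => f y + k) y) = fun y => WbV A a f y :=
    funext fun y => (vk_addc A f k a y).1
  rw [e, (vk_addc A f k 1 x).1]

end aux

variable {G : Type} [Group G] {σ : G →* GU (Fin 2)} (K : Kerr σ)
variable {H : Type} [NormedAddCommGroup H] [InnerProductSpace ℂ H] [CompleteSpace H]

/-- the instance comes from the surface -/
theorem VK_KV : LP.KV K (VK K) where
  act := fun g x _ => rfl
  rho := fun x _ => rfl
  Y := fun x _ y _ => by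
    show 1 + ps K.A x y = ps K.A x y + 1
    ring
  L := fun F _ _ u hu x hx => L_ell K.ba K.pos hu x hx

private theorem vk_open : IsOpen Up := LN.isOpen_Om

omit [CompleteSpace H] in
private theorem vk_tr (pi : G →* (H ≃ₗᵢ[ℂ] H)) (c : G → H) {h : C2 → H} (hh : LN.Smo h)
    (ha : LN.IsAff (VK K) (LP.reR pi) c h) (γ : G) {x : C2} (hx : x ∈ Up) :
    (∀ a, pi γ (WbV K.A a h x) =
      ∑ a', MM K.A (K.al γ) a' a x • WbV K.A a' h (K.al γ x)) ∧
    (∀ a b, pi γ (HV K.A a b h x) = ∑ a', ∑ b',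
      (MM K.A (K.al γ) a' a x * star (MM K.A (K.al γ) b' b x)) • HV K.A a' b' h (K.al γ x)) ∧
    pi γ (LV K.A h x) = LV K.A h (K.al γ x) := by
  have hU : Up ∈ 𝓝 x := vk_open.mem_nhds hx
  have hh2 : ContDiffOn ℝ 2 h Up := ContDiffOn.of_le hh (by norm_cast)
  obtain ⟨L, hL⟩ : ∃ L : H →L[ℂ] H, ∀ y, L y = pi γ y :=
    ⟨((pi γ).toContinuousLinearEquiv : H →L[ℂ] H), fun y => rfl⟩
  have hE : ∀ y ∈ Up, h (K.al γ y) = L (h y) + c γ := by
    intro y hy
    have := ha γ y hy
    rw [LP.reR_apply] at this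
    rw [hL]
    exact this
  have hEx : (fun y => h (K.al γ y)) =ᶠ[𝓝 x] fun y => L (h y) + c γ := by
    filter_upwards [hU] with y hy
    exact hE y hy
  have hdh : ∀ y ∈ Up, DifferentiableAt ℝ h y := fun y hy =>
    (hh2.differentiableOn (by norm_num)).differentiableAt (vk_open.mem_nhds hy)
  have hal := (kerr_hol K).1 γ
  have hdal : DifferentiableAt ℝ (K.al γ) x :=
    (hal.differentiableOn (by simp)).differentiableAt hU
  have l1 := (law1 ((kerr_hol K).2 γ) hx hdal (hdh _ (K.maps γ x hx))).2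
  have l2 := law2 vk_open vk_open K.ba K.ba hal (K.maps γ) ((kerr_hol K).2 γ) hh2 x hx
  have hHV : ∀ a b, HV K.A a b (fun y => h (K.al γ y)) x = pi γ (HV K.A a b h x) := by
    intro a b
    rw [HV_congr K.A hEx a b, vk_addcH, HV_clm K.A L vk_open hx K.ba.sm hh2 a b, hL]
  refine ⟨fun a => ?_, fun a b => ?_, ?_⟩
  · rw [← l1 a, (WV_congr K.A hEx a).2, (vk_addc K.A _ _ a x).1,
      (WV_clm K.A L (hdh x hx) a).2, hL]
  · rw [← l2 a b, hHV]
  · rw [← kerr_lap K hh2 γ x hx]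
    unfold LV trV
    simp only [hHV]
    rw [map_smul, map_sub, map_sub, map_add, map_smul, map_smul, map_smul, map_smul]

omit [CompleteSpace H] in
private theorem vk_norm (γ : G) (x : C2) :
    ((‖jac K γ x‖ ^ 2 : ℝ) : ℂ) = jac K γ x * star (jac K γ x) := by
  have := Complex.mul_conj' (jac K γ x)
  push_cast
  exact this.symm

omit [CompleteSpace H] in
private theorem vk_kv (pi : G →* (H ≃ₗᵢ[ℂ] H)) (c : G → H) {h : C2 → H} (hh : LN.Smo h)
    (ha : LN.IsAff (VK K) (LP.reR pi) c h) (γ : G) {x : C2} (hx : x ∈ Up) (i : Fin 2) :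
    ((‖jac K γ x‖ ^ 2 : ℝ) : ℂ) * kv K.A h i (K.al γ x) =
      ∑ c', star (MM K.A (K.al γ) i c' x) * kv K.A h c' x := by
  obtain ⟨hp, hT, -⟩ := vk_tr K pi c hh ha γ hx
  have hin : ∀ a b d, inner ℂ (HV K.A a b h x) (WbV K.A d h x) =
      ∑ a', ∑ b', ∑ d', (star (MM K.A (K.al γ) a' a x) * MM K.A (K.al γ) b' b x *
        MM K.A (K.al γ) d' d x) *
        inner ℂ (HV K.A a' b' h (K.al γ x)) (WbV K.A d' h (K.al γ x)) := by
    intro a b d
    rw [← (pi γ).inner_map_map, hp, hT]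
    simp only [Fin.sum_univ_two, inner_add_left, inner_add_right, inner_smul_left,
      inner_smul_right, map_mul, ← starRingEnd_apply, starRingEnd_self_apply]
    ring
  rw [vk_norm]
  unfold kv jac
  fin_cases i
  · simp only [Fin.sum_univ_two, Fin.zero_eta, Fin.isValue, hin, if_true, if_false,
      zero_ne_one, star_sub, star_mul']
    ring
  · simp only [Fin.sum_univ_two, Fin.mk_one, Fin.isValue, hin, if_true, if_false,
      zero_ne_one, star_sub, star_mul']
    ring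

omit [CompleteSpace H] in
private theorem vk_DT (pi : G →* (H ≃ₗᵢ[ℂ] H)) (c : G → H) {h : C2 → H} (hh : LN.Smo h)
    (ha : LN.IsAff (VK K) (LP.reR pi) c h) (γ : G) {x : C2} (hx : x ∈ Up) :
    DT (fun a b => HV K.A a b h x) =
      ((‖jac K γ x‖ ^ 2 : ℝ) : ℂ) * DT (fun a b => HV K.A a b h (K.al γ x)) := by
  obtain ⟨-, hT, -⟩ := vk_tr K pi c hh ha γ hx
  have hin : ∀ a b d e, inner ℂ (HV K.A a b h x) (HV K.A d e h x) =
      ∑ a', ∑ b', ∑ d', ∑ e', (star (MM K.A (K.al γ) a' a x) * MM K.A (K.al γ) b' b x *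
        (MM K.A (K.al γ) d' d x * star (MM K.A (K.al γ) e' e x))) *
        inner ℂ (HV K.A a' b' h (K.al γ x)) (HV K.A d' e' h (K.al γ x)) := by
    intro a b d e
    rw [← (pi γ).inner_map_map, hT, hT]
    simp only [Fin.sum_univ_two, inner_add_left, inner_add_right, inner_smul_left,
      inner_smul_right, map_mul, ← starRingEnd_apply, starRingEnd_self_apply]
    ring
  rw [vk_norm]
  unfold DT jac
  simp only [hin, Fin.sum_univ_two, star_sub, star_mul']
  ring

omit [CompleteSpace H] in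
private theorem vk_sm {h : C2 → H} (hh : LN.Smo h) (a b : Fin 2) :
    LN.Smo (fun y => WbV K.A a h y) ∧ LN.Smo (fun y => HV K.A a b h y) := by
  have h1 := fun c => Smo_WV K.ba hh c
  have hdd : ∀ a, LN.Smo (fun x => dd K.A a x) := by
    intro a
    have h : ∀ c, ContDiffOn ℝ ∞ (fun y => WbV K.A c K.A y) Up := fun c =>
      (WV_contDiffOn vk_open K.ba.sm K.ba.sm (m := ∞) (k := ∞) (by simp) le_rfl c).2
    fin_cases a
    · refine (h 0).congr ?_
      intro x hx
      rw [Wb_eq]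
      exact ((W_A vk_open K.ba x hx).2.2.1).symm
    · refine (h 1).congr ?_
      intro x hx
      rw [Wb_eq]
      exact ((W_A vk_open K.ba x hx).2.1).symm
  have hGa : ContDiffOn ℝ ∞ (fun x => Ga K.A b a x) Up := by
    unfold Ga
    by_cases hb : b = 0
    · simp only [hb, if_true]
      exact hdd a
    · simp only [hb, if_false]
      exact contDiffOn_const
  refine ⟨(h1 a).2, ?_⟩
  have h2 : ContDiffOn ℝ ∞ (fun y => WV K.A b (fun z => WbV K.A a h z) y) Up :=
    (Smo_WV K.ba (h1 a).2 b).1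
  have h3 : ContDiffOn ℝ ∞ (fun y => WbV K.A 1 h y) Up := (h1 1).2
  exact h2.add (hGa.smul h3)

omit [CompleteSpace H] in
private theorem vk_inner {f g : C2 → H} (hf : LN.Smo f) (hg : LN.Smo g) :
    LN.Smo (fun x => inner ℂ (f x) (g x)) := by
  have hf' : ContDiffOn ℝ ∞ f Up := hf
  have hg' : ContDiffOn ℝ ∞ g Up := hg
  exact hf'.inner ℂ hg'

private theorem vk_intOn {F : Type*} [NormedAddCommGroup F] [NormedSpace ℝ F] {f : C2 → F}
    (hf : ContinuousOn f LN.Om) (hc : LN.CS f) : IntegrableOn f LN.Om := by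
  obtain ⟨h1, h2, h3⟩ := LN.CS.indicator_cont hf hc
  exact (integrable_indicator_iff LN.measurableSet_Om).1 (h1.integrable_of_hasCompactSupport h2)

omit [CompleteSpace H] in
/-- the integral of the mixed determinant over the quotient vanishes -/
private theorem vk_int {χ : C2 → ℝ} (hχ : LN.IsChi (VK K) χ) (pi : G →* (H ≃ₗᵢ[ℂ] H))
    (c : G → H) {h : C2 → H} (hh : LN.Smo h) (ha : LN.IsAff (VK K) (LP.reR pi) c h) :
    ∫ x in Up, (χ x : ℂ) * DT (fun a b => HV K.A a b h x) = 0 := by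
  have hs : ∀ i, LN.Smo (kv K.A h i) := by
    intro i
    have e : kv K.A h i = fun x => if i = 1 then
        inner ℂ (HV K.A 0 0 h x) (WbV K.A 1 h x) - inner ℂ (HV K.A 0 1 h x) (WbV K.A 0 h x)
        else inner ℂ (HV K.A 1 1 h x) (WbV K.A 0 h x) -
          inner ℂ (HV K.A 1 0 h x) (WbV K.A 1 h x) := rfl
    rw [e]
    have hW := fun a => (vk_sm K hh a 0).1
    have hHH := fun a b => (vk_sm K hh a b).2
    by_cases hi : i = 1
    · simp only [hi, if_true]
      exact (vk_inner (hHH 0 0) (hW 1)).sub (vk_inner (hHH 0 1) (hW 0))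
    · simp only [hi, if_false]
      exact (vk_inner (hHH 1 1) (hW 0)).sub (vk_inner (hHH 1 0) (hW 1))
  have h0 := stokes_inv K hχ hs fun γ x hx i => vk_kv K pi c hh ha γ hx i
  rw [← h0]
  refine setIntegral_congr_fun LN.measurableSet_Om fun x hx => ?_
  show (χ x : ℂ) * DT (fun a b => HV K.A a b h x) = _
  rw [kah_div K.ba hh x hx]

/-- INTEGRATED KAEHLER INEQUALITY: the Hessian of a smooth affine map is controlled by its trace -/
theorem kah_le {χ : C2 → ℝ} (hχ : LN.IsChi (VK K) χ) (pi : G →* (H ≃ₗᵢ[ℂ] H)) (c : G → H)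
    {C : Set C2} (hC : C ⊆ Up) (hCc : IsCompact C) : ∃ N : ℝ, 0 ≤ N ∧ ∀ h : C2 → H, LN.Smo h →
      LN.IsAff (VK K) (LP.reR pi) c h →
      ∫ x in C, ∑ a, ∑ b, ‖HV K.A a b h x‖ ^ 2 ≤
        N * LN.B (VK K) χ ((VK K).L h) ((VK K).L h) := by
  have hCO : C ⊆ LN.Om := hC
  obtain ⟨η, h1, h2, h3, h4, h5, h6⟩ := LN.exists_cut hCc hCO
  obtain ⟨N, hN, hle⟩ := LN.inv_int_le (VK K) hχ h1.cont h3 (fun p _ => h4 p)
  obtain ⟨c₁, hc₁, hpt⟩ := kah_point (H := H) K.ba K.pos hC hCc
  obtain ⟨c₂, hc₂, hgb⟩ := gm_bounds K.ba K.pos hC hCc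
  refine ⟨c₁⁻¹ * c₂⁻¹ * N, by positivity, fun h hh ha => ?_⟩
  have hrho : (VK K).rho = wA K.A := rfl
  have hwc : ContinuousOn (wA K.A) LN.Om := (rho_facts K.ba K.pos).1.continuousOn
  have hwc' : ContinuousOn (VK K).rho LN.Om := hwc
  have hwp : ∀ p ∈ LN.Om, 0 < wA K.A p := (rho_facts K.ba K.pos).2
  -- the density
  obtain ⟨D, hD⟩ : ∃ D : C2 → ℂ, D = fun x => DT (fun a b => HV K.A a b h x) := ⟨_, rfl⟩
  obtain ⟨e, he⟩ : ∃ e : C2 → ℝ, e = fun x => ‖(VK K).L h x‖ ^ 2 - (D x).re / wA K.A x :=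
    ⟨_, rfl⟩
  have hL : ∀ x ∈ LN.Om, (VK K).L h x = LV K.A h x := fun x hx => L_ell K.ba K.pos hh x hx
  have hDs : ContinuousOn D LN.Om := by
    have hHH := fun a b => (vk_sm K hh a b).2
    have := (((vk_inner (hHH 0 0) (hHH 1 1)).add (vk_inner (hHH 1 1) (hHH 0 0))).sub
      (vk_inner (hHH 0 1) (hHH 0 1))).sub (vk_inner (hHH 1 0) (hHH 1 0))
    rw [hD]
    exact this.cont
  have hLs : ContinuousOn ((VK K).L h) LN.Om := by
    have hHH := fun a b => ((vk_sm K hh a b).2 : ContDiffOn ℝ ∞ _ Up)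
    have hg := fun a b => (gm_sm K.ba a b).1
    have ht : ContDiffOn ℝ ∞ (fun x => trV K.A (fun a b => HV K.A a b h x) x) Up := by
      unfold trV
      exact ((((hg 0 0).smul (hHH 1 1)).add ((hg 1 1).smul (hHH 0 0))).sub
        ((hg 1 0).smul (hHH 0 1))).sub ((hg 0 1).smul (hHH 1 0))
    have hwi : ContinuousOn (fun x => ((wA K.A x : ℂ))⁻¹) Up :=
      (Complex.continuous_ofReal.comp_continuousOn hwc).inv₀ fun x hx =>
        Complex.ofReal_ne_zero.2 (hwp x hx).ne'
    have h7 : ContinuousOn (fun x => LV K.A h x) LN.Om := by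
      unfold LV
      exact hwi.smul ht.continuousOn
    exact h7.congr fun x hx => hL x hx
  have hec : ContinuousOn e LN.Om := by
    rw [he]
    exact ((hLs.norm).pow 2).sub ((Complex.continuous_re.comp_continuousOn hDs).div hwc
      fun x hx => (hwp x hx).ne')
  have hew : ∀ x ∈ LN.Om, wA K.A x ^ 2 * e x =
      ‖trV K.A (fun a b => HV K.A a b h x) x‖ ^ 2 - wA K.A x * (D x).re := by
    intro x hx
    have hw := hwp x hx
    rw [he]
    show wA K.A x ^ 2 * (‖(VK K).L h x‖ ^ 2 - (D x).re / wA K.A x) = _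
    rw [hL x hx]
    unfold LV
    rw [norm_smul, norm_inv, Complex.norm_real, Real.norm_of_nonneg hw.le]
    field_simp
  have hen : ∀ x ∈ LN.Om, 0 ≤ e x := by
    intro x hx
    have hw := hwp x hx
    have h7 := kah_nonneg K.ba K.pos (fun a b => HV K.A a b h x) x hx
    have h8 := hew x hx
    have h9 : 0 ≤ wA K.A x ^ 2 * e x := by
      rw [h8, hD]
      linarith
    exact nonneg_of_mul_nonneg_right h9 (by positivity)
  have hei : ∀ g, ∀ p ∈ LN.Om, e ((VK K).act g p) = e p := by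
    intro g p hp
    have hgp : K.al g p ∈ LN.Om := K.maps g p hp
    obtain ⟨-, -, h7⟩ := vk_tr K pi c hh ha g hp
    have h8 := vk_DT K pi c hh ha g hp
    obtain ⟨h9, h10⟩ := kerr_wA K g p hp
    have hj : (0 : ℝ) < ‖jac K g p‖ ^ 2 := by
      have : 0 < ‖jac K g p‖ := norm_pos_iff.2 h10
      positivity
    rw [he]
    show ‖(VK K).L h (K.al g p)‖ ^ 2 - (D (K.al g p)).re / wA K.A (K.al g p) =
      ‖(VK K).L h p‖ ^ 2 - (D p).re / wA K.A p
    rw [hL _ hgp, hL p hp, ← h7, LinearIsometryEquiv.norm_map]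
    have h11 : (D p).re = ‖jac K g p‖ ^ 2 * (D (K.al g p)).re := by
      rw [hD]
      show (DT fun a b => HV K.A a b h p).re = _
      rw [h8, Complex.re_ofReal_mul]
    rw [h9, h11, mul_div_mul_left _ _ hj.ne']
  -- the integral of `e` over the quotient
  have hχc : ContinuousOn χ LN.Om := hχ.smo.cont
  have hint : ∫ p, χ p * e p ∂(VK K).mu = LN.B (VK K) χ ((VK K).L h) ((VK K).L h) := by
    have e1 : ∀ p ∈ LN.Om, (VK K).rho p • (χ p * e p) =
        (VK K).rho p • (χ p * ‖(VK K).L h p‖ ^ 2) - χ p * (D p).re := by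
      intro p hp
      have hw := hwp p hp
      rw [he, hrho]
      simp only [smul_eq_mul]
      field_simp
    have i1 : IntegrableOn (fun p => (VK K).rho p • (χ p * ‖(VK K).L h p‖ ^ 2)) LN.Om := by
      refine vk_intOn ?_ (hχ.cs.of_imp fun p _ h => by simp only [h, zero_mul, smul_zero])
      exact ContinuousOn.smul hwc' (hχc.mul ((hLs.norm).pow 2))
    have i2 : IntegrableOn (fun p => χ p * (D p).re) LN.Om := by
      refine vk_intOn ?_ (hχ.cs.of_imp fun p _ h => by simp only [h, zero_mul])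
      exact hχc.mul (Complex.continuous_re.comp_continuousOn hDs)
    have i3 : IntegrableOn (fun p => (χ p : ℂ) * D p) LN.Om := by
      refine vk_intOn ?_ (hχ.cs.of_imp fun p _ h => by simp only [h, Complex.ofReal_zero, zero_mul])
      exact (Complex.continuous_ofReal.comp_continuousOn hχc).mul hDs
    have z1 : ∫ p in LN.Om, χ p * (D p).re = 0 := by
      have z2 : ∫ p in LN.Om, (χ p : ℂ) * D p = 0 := by
        rw [hD]
        exact vk_int K hχ pi c hh ha
      have z3 : ∫ p in LN.Om, χ p * (D p).re = (∫ p in LN.Om, (χ p : ℂ) * D p).re := by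
        have := integral_re (𝕜 := ℂ) i3
        rw [show (∫ p in LN.Om, (χ p : ℂ) * D p).re = RCLike.re (∫ p in LN.Om, (χ p : ℂ) * D p)
          from rfl, ← this]
        refine integral_congr_ae (Eventually.of_forall fun p => ?_)
        show χ p * (D p).re = ((χ p : ℂ) * D p).re
        rw [Complex.re_ofReal_mul]
      rw [z3, z2, Complex.zero_re]
    rw [LN.int_mu, setIntegral_congr_fun LN.measurableSet_Om e1]
    rw [integral_sub i1 i2, z1, sub_zero]
    unfold LN.B
    rw [LN.int_mu]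
    refine setIntegral_congr_fun LN.measurableSet_Om fun p hp => ?_
    show (VK K).rho p • (χ p * ‖(VK K).L h p‖ ^ 2) =
      (VK K).rho p • (χ p * inner ℝ ((VK K).L h p) ((VK K).L h p))
    rw [real_inner_self_eq_norm_sq]
  have k1 := hle e hec hen hei
  have hcs : LN.CS (fun p => (VK K).rho p • (η p * e p)) :=
    LN.CS.of_imp h3 fun p _ h => by simp only [h, zero_mul, smul_zero]
  have hco : ContinuousOn (fun p => (VK K).rho p • (η p * e p)) LN.Om :=
    ContinuousOn.smul hwc' (h1.cont.mul hec)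
  have hio := vk_intOn hco hcs
  have k3 : ∫ p in C, (VK K).rho p • (η p * e p) ≤
      ∫ p in LN.Om, (VK K).rho p • (η p * e p) := by
    refine setIntegral_mono_set hio ?_ (Eventually.of_forall hCO)
    refine (ae_restrict_mem LN.measurableSet_Om).mono fun p hp => ?_
    exact mul_nonneg (hwp p hp).le (mul_nonneg (h4 p) (hen p hp))
  have k4 : ∫ x in C, ∑ a, ∑ b, ‖HV K.A a b h x‖ ^ 2 ≤
      ∫ p in C, c₁⁻¹ * c₂⁻¹ * ((VK K).rho p • (η p * e p)) := by
    have hHc : ContinuousOn (fun x => ∑ a, ∑ b, ‖HV K.A a b h x‖ ^ 2) C := by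
      refine continuousOn_finset_sum _ fun a _ => continuousOn_finset_sum _ fun b _ => ?_
      exact (((vk_sm K hh a b).2.cont.mono hCO).norm).pow 2
    refine setIntegral_mono_on (hHc.integrableOn_compact hCc)
      ((hio.mono_set hCO).const_mul _) hCc.measurableSet fun x hx => ?_
    have hxO := hCO hx
    have hw := hwp x hxO
    have h7 := hpt x hx (fun a b => HV K.A a b h x)
    have h8 := hew x hxO
    rw [hD] at h8
    have h9 := (hgb x hx).2.2.1
    have h10 := hen x hxO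
    have h11 : c₁ * ∑ a, ∑ b, ‖HV K.A a b h x‖ ^ 2 ≤ wA K.A x ^ 2 * e x := by
      rw [h8]
      exact h7
    have h12 : wA K.A x ^ 2 * e x ≤ c₂⁻¹ * (wA K.A x * e x) := by
      have : 0 ≤ wA K.A x * e x := mul_nonneg hw.le h10
      calc wA K.A x ^ 2 * e x = wA K.A x * (wA K.A x * e x) := by ring
        _ ≤ c₂⁻¹ * (wA K.A x * e x) := mul_le_mul_of_nonneg_right h9 this
    rw [h6 x hx, one_mul, hrho, smul_eq_mul, mul_assoc]
    rw [← inv_mul_cancel_left₀ hc₁.ne' (∑ a, ∑ b, ‖HV K.A a b h x‖ ^ 2)]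
    exact mul_le_mul_of_nonneg_left (h11.trans h12) (by positivity)
  calc ∫ x in C, ∑ a, ∑ b, ‖HV K.A a b h x‖ ^ 2
      ≤ ∫ p in C, c₁⁻¹ * c₂⁻¹ * ((VK K).rho p • (η p * e p)) := k4
    _ = c₁⁻¹ * c₂⁻¹ * ∫ p in C, (VK K).rho p • (η p * e p) := integral_const_mul _ _
    _ ≤ c₁⁻¹ * c₂⁻¹ * ∫ p in LN.Om, (VK K).rho p • (η p * e p) :=
        mul_le_mul_of_nonneg_left k3 (by positivity)
    _ = c₁⁻¹ * c₂⁻¹ * ∫ p, η p * e p ∂(VK K).mu := by rw [LN.int_mu]
    _ ≤ c₁⁻¹ * c₂⁻¹ * (N * ∫ p, χ p * e p ∂(VK K).mu) :=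
        mul_le_mul_of_nonneg_left k1 (by positivity)
    _ = c₁⁻¹ * c₂⁻¹ * N * LN.B (VK K) χ ((VK K).L h) ((VK K).L h) := by rw [hint]; ring

/-- the hypothesis of `LP.S3` -/
theorem kah_KI (pi : G →* (H ≃ₗᵢ[ℂ] H)) (c : G → H) : LP.KI K (VK K) pi c := by
  intro χ hχ C hC hCc
  obtain ⟨N, hN, hle⟩ := kah_le K hχ pi c hC hCc
  refine ⟨N.toNNReal, fun h hh ha a b => ?_⟩
  have hk := hle h hh ha
  have hc : ContinuousOn (fun z => ‖HV K.A a b h z‖ ^ 2) C :=
    (((vk_sm K hh a b).2.cont.mono (show C ⊆ LN.Om from hC)).norm).pow 2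
  have hi : IntegrableOn (fun z => ‖HV K.A a b h z‖ ^ 2) C := hc.integrableOn_compact hCc
  have hHc : ContinuousOn (fun x => ∑ a, ∑ b, ‖HV K.A a b h x‖ ^ 2) C := by
    refine continuousOn_finset_sum _ fun a _ => continuousOn_finset_sum _ fun b _ => ?_
    exact (((vk_sm K hh a b).2.cont.mono (show C ⊆ LN.Om from hC)).norm).pow 2
  have h1 : ∫ z in C, ‖HV K.A a b h z‖ ^ 2 ≤ ∫ x in C, ∑ a, ∑ b, ‖HV K.A a b h x‖ ^ 2 := by
    refine setIntegral_mono_on hi (hHc.integrableOn_compact hCc) hCc.measurableSet fun x _ => ?_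
    refine le_trans ?_ (Finset.single_le_sum (f := fun a => ∑ b, ‖HV K.A a b h x‖ ^ 2)
      (fun i _ => Finset.sum_nonneg fun j _ => by positivity) (Finset.mem_univ a))
    exact Finset.single_le_sum (f := fun b => ‖HV K.A a b h x‖ ^ 2)
      (fun j _ => by positivity) (Finset.mem_univ b)
  have h2 : LP.Q C (fun z => HV K.A a b h z) =
      ENNReal.ofReal (∫ z in C, ‖HV K.A a b h z‖ ^ 2) := by
    rw [ofReal_integral_eq_lintegral_ofReal hi (Eventually.of_forall fun z => by positivity)]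
    unfold LP.Q
    refine lintegral_congr fun z => ?_
    rw [ENNReal.ofReal_pow (norm_nonneg _), ofReal_norm_eq_enorm]
  rw [h2]
  calc ENNReal.ofReal (∫ z in C, ‖HV K.A a b h z‖ ^ 2)
      ≤ ENNReal.ofReal (N * LN.B (VK K) χ ((VK K).L h) ((VK K).L h)) :=
        ENNReal.ofReal_le_ofReal (h1.trans hk)
    _ = N.toNNReal * ENNReal.ofReal (LN.B (VK K) χ ((VK K).L h) ((VK K).L h)) :=
        ENNReal.ofReal_mul hN

end Pool.Agent.MPd01a95
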