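import Mathlib
import Pool.Agent.Lib.MP_d01a95_gt_S.VDefs
import Pool.Agent.Lib.MP_d01a95_gt_S.Vact

/-!
Project SU(2,2), part (2), module Vcj.
-/

set_option autoImplicit false
set_option linter.all false

open Matrix Filter Topology MeasureTheory Measure
open scoped ENNReal NNReal ContDiff

namespace Pool.Agent.MPd01a95

variable {G : Type} [Group G]

/-- conjugation of the coordinates -/
private noncomputable def vcjZ (z : C2) : C2 := fun i => star (z i)

private theorem vcjZ_vcjZ (z : C2) : vcjZ (vcjZ z) = z := by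
  funext i
  simp [vcjZ]

private theorem vcjZ_zero : vcjZ 0 = 0 := by
  funext i
  simp [vcjZ]

private theorem vcjZ_cont : Continuous vcjZ :=
  continuous_pi fun i => continuous_star.comp (continuous_apply i)

private theorem vcjZ_norm (z : C2) : ∑ i, ‖vcjZ z i‖ ^ 2 = ∑ i, ‖z i‖ ^ 2 := by
  simp [vcjZ]

private theorem vcjZ_mem {z : C2} (hz : z ∈ HolAux.Bl (Fin 2)) :
    vcjZ z ∈ HolAux.Bl (Fin 2) := by
  change ∑ i, ‖vcjZ z i‖ ^ 2 < 1
  rw [vcjZ_norm]
  exact hz

private theorem vcj_mulVec (M : Matrix N3 N3 ℂ) (z : C2) (j : N3) :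
    (M.map star *ᵥ Sum.elim z fun _ => 1) j =
      star ((M *ᵥ Sum.elim (vcjZ z) fun _ => 1) j) := by
  simp [Matrix.mulVec, dotProduct, vcjZ]

private theorem vcj_act (g : GU (Fin 2)) (z : C2) :
    act g.cj.M z = vcjZ (act g.M (vcjZ z)) := by
  funext i
  change (g.M.map star *ᵥ Sum.elim z fun _ => 1) (Sum.inl i) /
    (g.M.map star *ᵥ Sum.elim z fun _ => 1) (Sum.inr ()) =
    star ((g.M *ᵥ Sum.elim (vcjZ z) fun _ => 1) (Sum.inl i) /
      (g.M *ᵥ Sum.elim (vcjZ z) fun _ => 1) (Sum.inr ()))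
  rw [vcj_mulVec, vcj_mulVec]
  simp

private theorem vcj_cj (g : GU (Fin 2)) : g.cj.cj = g := by
  apply GU.ext
  ext i j
  change star (star (g.M i j)) = g.M i j
  simp

private theorem vcj_mul (g h : GU (Fin 2)) : (g * h).cj = g.cj * h.cj := by
  apply GU.ext
  ext i j
  change star ((g.M * h.M) i j) = (g.M.map star * h.M.map star) i j
  simp [Matrix.mul_apply]

private theorem vcj_one : (1 : GU (Fin 2)).cj = 1 := by
  apply GU.ext
  ext i j
  change star ((1 : Matrix N3 N3 ℂ) i j) = (1 : Matrix N3 N3 ℂ) i j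
  rw [Matrix.one_apply]
  split_ifs <;> simp

private theorem vcj_c (g : GU (Fin 2)) : GU.c g.cj = GU.c g := by
  change ‖star (g.M (Sum.inr ()) (Sum.inr ()))‖ = ‖g.M (Sum.inr ()) (Sum.inr ())‖
  simp

private theorem vcj_cont : Continuous (GU.cj : GU (Fin 2) → GU (Fin 2)) := by
  rw [GU.isClosedEmbedding_M.isInducing.continuous_iff]
  refine continuous_pi fun i => continuous_pi fun j => ?_
  exact continuous_star.comp
    ((continuous_apply j).comp ((continuous_apply i).comp GU.continuous_M))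

private theorem vcj_lat {σ : G →* GU (Fin 2)} (hL : Lat σ) : Lat (cjG σ) := by
  obtain ⟨U, hU, h1, h2⟩ := hL.disc
  obtain ⟨R, hR⟩ := hL.coc
  refine ⟨⟨GU.cj ⁻¹' U, hU.preimage vcj_cont, ?_, fun g hg => h2 g ?_⟩, R, fun h => ?_⟩
  · change (1 : GU (Fin 2)).cj ∈ U
    rw [vcj_one]
    exact h1
  · have h3 : (σ g).cj.cj ∈ U := hg
    rw [vcj_cj] at h3
    exact h3
  · obtain ⟨g, hg⟩ := hR h.cj
    refine ⟨g, ?_⟩
    rw [← vcj_c, vcj_mul, vcj_cj] at hg
    exact hg

/-- the surface for the conjugate lattice -/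
theorem kerr_conj {σ : G →* GU (Fin 2)} (hL : Lat σ) (K : Kerr σ) : Lat (cjG σ) ∧
    ∃ K' : Kerr (cjG σ), K'.A = K.A ∧ K'.al = K.al ∧ K'.R = K.R := by
  refine ⟨vcj_lat hL, ?_⟩
  refine ⟨{ A := K.A, al := K.al, R := K.R, ba := K.ba, pos := K.pos, maps := K.maps,
            one := K.one, mul := K.mul, lift := K.lift, pres := K.pres, proper := K.proper,
            coc := K.coc, nneg := K.nneg, sep := K.sep, psp := K.psp, lam := K.lam,
            lam_cpt := K.lam_cpt, lam_inv := K.lam_inv, lam_inf := K.lam_inf,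
            lam_ne := K.lam_ne, bd := ?_ }, rfl, rfl, rfl⟩
  intro o ho b
  obtain ⟨fb, hfb⟩ := K.bd o ho b
  refine ⟨fun η => fb (vcjZ η), fun η hη Kc hKc hKc2 δ hδ => ?_⟩
  obtain ⟨N, hN, h⟩ := hfb (vcjZ η) ((vcjZ_norm η).trans hη) Kc hKc hKc2 δ hδ
  refine ⟨vcjZ ⁻¹' N, vcjZ_cont.continuousAt hN, fun γ hγ k hk => h γ ?_ k hk⟩
  have h3 : vcjZ (act (σ γ).cj.M 0) ∈ N := hγ
  rw [vcj_act, vcjZ_vcjZ, vcjZ_zero] at h3
  exact h3

end Pool.Agent.MPd01a95
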