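import Mathlib
import Pool.Agent.Lib.MP_d01a95_gt_S.VDefs

/-!
Project SU(2,2), part (2), section 5: definitions.
-/

set_option autoImplicit false
set_option linter.all false

open Matrix Filter Topology MeasureTheory Measure
open scoped ENNReal NNReal ContDiff

namespace Pool.Agent.MPd01a95

/-- the unit ball -/
abbrev B2 : Set C2 := HolAux.Bl (Fin 2)

/-- normalised radial bump of radius `r` in one variable -/
noncomputable def rb (r : ℝ) (y : ℂ) : ℝ := r⁻¹ ^ 2 * rb0 (r⁻¹ • y) / ∫ z : ℂ, rb0 z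

/-- product bump centred at `z`, as a complex valued function -/
noncomputable def bz (r : ℝ) (z y : C2) : ℂ := ((rb r (y 0 - z 0) * rb r (y 1 - z 1) : ℝ) : ℂ)

/-- the push forward of `f |J|^2` under `u`, tested against `η` -/
noncomputable def TU {G : Type} [Group G] {σ : G →* GU (Fin 2)} (K : Kerr σ) (u : C2 → C2)
    (f η : C2 → ℂ) : ℂ :=
  ∫ x in Up, f x * η (u x) * ((‖JU K.A u x‖ ^ 2 : ℝ) : ℂ)

/-- the oscillation on translates of compact sets tends to 0 -/
def Osc {G : Type} [Group G] {σ : G →* GU (Fin 2)} (K : Kerr σ) (f : C2 → ℂ) : Prop :=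
  ∀ C ⊆ Up, IsCompact C → ∀ δ > 0,
    {γ | ∃ x ∈ C, ∃ y ∈ C, δ ≤ ‖f (K.al γ x) - f (K.al γ y)‖}.Finite

end Pool.Agent.MPd01a95
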