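import Mathlib
import Pool.Agent.Lib.MP_d01a95_gt_S.VDefs
import Pool.Agent.Lib.MP_d01a95_gt_S.UDefs
import Pool.Agent.Lib.MP_d01a95_gt_S.Vact
import Pool.Agent.Lib.MP_d01a95_gt_S.Vlaw
import Pool.Agent.Lib.MP_d01a95_gt_S.Vcalc
import Pool.Agent.Lib.MP_d01a95_gt_H.Cut
import Pool.Agent.Lib.MP_d01a95_gt_H.Proper
import Pool.Agent.Lib.SCV.Osgood

/-!
Project SU(2,2), part (2), module U1.
-/

set_option autoImplicit false
set_option linter.all false

open Matrix Filter Topology MeasureTheory Measure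
open scoped ENNReal NNReal ContDiff

namespace Pool.Agent.MPd01a95

private theorem u1_up_open : IsOpen Up :=
  isOpen_lt continuous_const (Complex.continuous_im.comp (continuous_apply 1))

private theorem u1_b2_open : IsOpen B2 :=
  isOpen_lt (by fun_prop) continuous_const

/-- homogeneous coordinates of a point of the ball -/
private noncomputable def ez (z : C2) : Fin 2 ⊕ Unit → ℂ := Sum.elim z fun _ => 1

private theorem c_sq_of {g : GU (Fin 2)} {z : C2} {l : ℂ} (h : g.pt = l • ez z) :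
    GU.c g ^ 2 * (1 - ∑ i, ‖z i‖ ^ 2) = 1 := by
  have h1 := ProperAux.nqC_pt g
  rw [h, ProperAux.nqC_smul] at h1
  unfold ez at h1
  rw [ProperAux.nqC_bl] at h1
  have h2 : g.pt (Sum.inr ()) = l := by
    rw [h]
    simp [ez]
  have h3 : g.pt (Sum.inr ()) = g.M (Sum.inr ()) (Sum.inr ()) := by
    simp [GU.pt, GU.e0, Matrix.mulVec, dotProduct]
  have h4 : GU.c g = ‖l‖ := by
    unfold GU.c cc
    rw [← h3, h2]
  rw [h4]
  exact h1

private theorem c_bd {C : Set C2} (hC : C ⊆ B2) (hCc : IsCompact C) :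
    ∃ R : ℝ, ∀ z ∈ C, ∀ (g : GU (Fin 2)) (l : ℂ), g.pt = l • ez z → GU.c g ≤ R := by
  have hcont : ContinuousOn (fun z : C2 => (1 - ∑ i, ‖z i‖ ^ 2)⁻¹) C := by
    apply ContinuousOn.inv₀
    · fun_prop
    · intro z hz
      have h := hC hz
      change ∑ i, ‖z i‖ ^ 2 < 1 at h
      exact (sub_pos.2 h).ne'
  obtain ⟨R0, hR0⟩ := hCc.bddAbove_image hcont
  refine ⟨max 1 R0, fun z hz g l hg => ?_⟩
  have h1 := c_sq_of hg
  have h2 : ∑ i, ‖z i‖ ^ 2 < 1 := hC hz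
  have h3 : GU.c g ^ 2 = (1 - ∑ i, ‖z i‖ ^ 2)⁻¹ := eq_inv_of_mul_eq_one_left h1
  have h4 : GU.c g ^ 2 ≤ R0 := by
    rw [h3]
    exact hR0 ⟨z, hz, rfl⟩
  have h5 := GU.c_ge_one g
  have h6 : R0 ≤ max 1 R0 := le_max_right _ _
  nlinarith

private theorem act_pt {g h : GU (Fin 2)} {z : C2} {l : ℂ} (hl : l ≠ 0) (hz : ez z = l • h.pt) :
    ∃ l' : ℂ, (g * h).pt = l' • ez (act g.M z) := by
  have h1 : g.M *ᵥ ez z = l • (g * h).pt := by
    rw [hz, Matrix.mulVec_smul, ProperAux.pt_mul]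
  have h2 : (g.M *ᵥ ez z) (Sum.inr ()) ≠ 0 := by
    rw [h1, Pi.smul_apply, smul_eq_mul]
    exact mul_ne_zero hl (ProperAux.ne_of_Cn (ProperAux.pt_Cn _))
  refine ⟨l⁻¹ * (g.M *ᵥ ez z) (Sum.inr ()), ?_⟩
  have h3 : (g * h).pt = l⁻¹ • (g.M *ᵥ ez z) := by
    rw [h1, smul_smul, inv_mul_cancel₀ hl, one_smul]
  rw [h3, mul_smul]
  congr 1
  funext i
  rcases i with i | i
  · rw [Pi.smul_apply, smul_eq_mul]
    change _ = _ * ((g.M *ᵥ ez z) (Sum.inl i) / (g.M *ᵥ ez z) (Sum.inr ()))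
    field_simp
  · rw [Pi.smul_apply, smul_eq_mul]
    change _ = _ * 1
    rw [mul_one]

variable {G : Type} [Group G] {σ : G →* GU (Fin 2)} {K : Kerr σ} {u : C2 → C2}

/-- finitely many group elements map a point of a compact set of the ball to a compact set -/
private theorem fin_meet (hL : Lat σ) {C C₁ : Set C2} (hC : C ⊆ B2) (hCc : IsCompact C)
    (hC1 : C₁ ⊆ B2) (hCc1 : IsCompact C₁) :
    {γ : G | ∃ z ∈ C, act (σ γ).M z ∈ C₁}.Finite := by
  obtain ⟨S, hS⟩ := c_bd hC hCc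
  obtain ⟨R, hR⟩ := c_bd hC1 hCc1
  refine (hL.finite_meet R S).subset ?_
  rintro γ ⟨z, hz, hz1⟩
  obtain ⟨g, l, hl, hg⟩ := ProperAux.ex_pt _ (ProperAux.bl_Cn (hC hz))
  have hg1 : g.pt = l⁻¹ • ez z := by
    change ez z = _ at hg
    rw [hg, smul_smul, inv_mul_cancel₀ hl, one_smul]
  obtain ⟨l', hl'⟩ := act_pt (g := σ γ) hl (show ez z = l • g.pt from hg)
  exact ⟨g, hS z hz g _ hg1, hR _ hz1 _ _ hl'⟩

/-- properness of continuous equivariant maps -/
theorem u_proper' (K : Kerr σ) (hL : Lat σ) (hc : ContinuousOn u Up) (hm : ∀ x ∈ Up, u x ∈ B2)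
    (he : ∀ γ, ∀ x ∈ Up, u (K.al γ x) = act (σ γ).M (u x)) {C : Set C2} (hC : C ⊆ B2)
    (hCc : IsCompact C) : ∃ C' ⊆ Up, IsCompact C' ∧ ∀ x ∈ Up, u x ∈ C → x ∈ C' := by
  obtain ⟨K0, hK0, hK0c, hK0m⟩ := K.coc
  have hI : IsCompact (u '' K0) := hK0c.image_of_continuousOn (hc.mono hK0)
  have hIs : u '' K0 ⊆ B2 := by
    rintro _ ⟨x, hx, rfl⟩
    exact hm x (hK0 hx)
  have hfin := fin_meet hL hC hCc hIs hI
  refine ⟨⋃ γ ∈ {γ : G | ∃ z ∈ C, act (σ γ).M z ∈ u '' K0}, K.al γ⁻¹ '' K0, ?_, ?_, ?_⟩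
  · refine Set.iUnion₂_subset fun γ _ => ?_
    rintro _ ⟨x, hx, rfl⟩
    exact K.maps _ x (hK0 hx)
  · exact hfin.isCompact_biUnion fun γ _ =>
      hK0c.image_of_continuousOn (((kerr_hol K).1 γ⁻¹).continuousOn.mono hK0)
  · intro x hx hxC
    obtain ⟨γ, hγ⟩ := hK0m x hx
    refine Set.mem_biUnion (show γ ∈ {γ : G | ∃ z ∈ C, act (σ γ).M z ∈ u '' K0} from
      ⟨u x, hxC, K.al γ x, hγ, he γ x hx⟩) ⟨K.al γ x, hγ, ?_⟩
    rw [← K.mul _ _ x hx, inv_mul_cancel, K.one x hx]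

/-- properness of the equivariant map -/
theorem u_proper (hL : Lat σ) (hu : HolU K u) {C : Set C2} (hC : C ⊆ B2) (hCc : IsCompact C) :
    ∃ C' ⊆ Up, IsCompact C' ∧ ∀ x ∈ Up, u x ∈ C → x ∈ C' :=
  u_proper' K hL hu.sm.continuousOn hu.maps hu.eqv hC hCc

/-- `u` is a holomorphic map to the flat ball -/
theorem u_holM (hu : HolU K u) : HolM K.A (fun _ => 0) Up u := by
  intro x hx c
  refine ⟨hu.hol x hx c 0, ?_⟩
  rw [hu.hol x hx c 1, zero_mul]

private theorem hol_an {f : C2 → ℂ} (hf : DifferentiableOn ℂ f B2) : AnalyticOnNhd ℂ f B2 := by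
  let e : C2 ≃L[ℂ] ℂ × ℂ := ContinuousLinearEquiv.finTwoArrow ℂ ℂ
  have hU : IsOpen (e.symm ⁻¹' B2) := u1_b2_open.preimage e.symm.continuous
  have h1 : DifferentiableOn ℂ (fun p => f (e.symm p)) (e.symm ⁻¹' B2) := by
    intro p hp
    exact DifferentiableWithinAt.comp p (hf _ hp) e.symm.differentiableAt.differentiableWithinAt
      (fun x hx => hx)
  have h2 := SCV.differentiableOn_analyticOnNhd _ hU _ h1
  intro z hz
  have hz' : e z ∈ e.symm ⁻¹' B2 := by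
    change e.symm (e z) ∈ B2
    rwa [e.symm_apply_apply]
  have h3 : AnalyticAt ℂ (fun z => f (e.symm (e z))) z :=
    AnalyticAt.fun_comp (g := fun p => f (e.symm p)) (f := fun z => e z) (h2 (e z) hz')
      (e.toContinuousLinearMap.analyticAt z)
  simpa using h3

/-- composition with holomorphic functions of the ball -/
theorem u_comp (hu : HolU K u) {g : C2 → ℂ} (hg : DifferentiableOn ℂ g B2) :
    LN.Smo (fun x => g (u x)) ∧ ∀ x ∈ Up, ∀ c, W K.A c (fun x => g (u x)) x = 0 := by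
  have hs : ContDiffOn ℝ ∞ g B2 :=
    ((hol_an hg).contDiffOn u1_b2_open.uniqueDiffOn (n := ∞)).restrict_scalars ℝ
  refine ⟨hs.comp hu.sm hu.maps, fun x hx c => ?_⟩
  have hux : DifferentiableAt ℝ u x :=
    (hu.sm.contDiffAt (u1_up_open.mem_nhds hx)).differentiableAt (by simp)
  have hgx : DifferentiableAt ℂ g (u x) := (hg _ (hu.maps x hx)).differentiableAt
    (u1_b2_open.mem_nhds (hu.maps x hx))
  have h := (law1 (u_holM hu) hx hux (hgx.restrictScalars ℝ)).1 c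
  rw [← W_eq, h]
  refine Finset.sum_eq_zero fun c' _ => ?_
  have hf : fderiv ℝ g (u x) = (fderiv ℂ g (u x)).restrictScalars ℝ :=
    (hgx.hasFDerivAt.restrictScalars ℝ).fderiv
  have hsI : ∀ a : Fin 2, (Pi.single a Complex.I : C2) = Complex.I • (Pi.single a 1 : C2) := by
    intro a
    rw [← Pi.single_smul]
    simp
  have h0 : ∀ a : Fin 2, dbV g a (u x) = 0 := by
    intro a
    unfold dbV
    rw [hf, hsI a]
    simp only [ContinuousLinearMap.coe_restrictScalars', map_smul, smul_smul, Complex.I_mul_I,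
      neg_smul, one_smul, add_neg_cancel, smul_zero]
  unfold WV
  rw [h0 0, h0 1]
  simp

end Pool.Agent.MPd01a95
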