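import Mathlib
import Pool.Agent.Lib.MP_d01a95_gt_S.VDefs
import Pool.Agent.Lib.MP_d01a95_gt_S.UDefs

/-!
Project SU(2,2), part (2), module U3.
-/

set_option autoImplicit false
set_option linter.all false

open Matrix Filter Topology MeasureTheory Measure
open scoped ENNReal NNReal ContDiff

namespace Pool.Agent.MPd01a95

private theorem U3_rb0_smooth : ContDiff ℝ ∞ rb0 := by
  unfold rb0
  exact Real.smoothTransition.contDiff.comp (contDiff_const.sub (contDiff_norm_sq ℝ))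

private theorem U3_rb0_nonneg (y : ℂ) : 0 ≤ rb0 y := Real.smoothTransition.nonneg _

private theorem U3_rb0_pos {y : ℂ} (h : ‖y‖ < 1) : 0 < rb0 y := by
  refine Real.smoothTransition.pos_of_pos ?_
  have := norm_nonneg y
  nlinarith

private theorem U3_rb0_zero {y : ℂ} (h : 1 ≤ ‖y‖) : rb0 y = 0 := by
  refine Real.smoothTransition.zero_of_nonpos ?_
  nlinarith

private theorem U3_Z : 0 < ∫ z : ℂ, rb0 z := by
  refine Continuous.integral_pos_of_hasCompactSupport_nonneg_nonzero (x := (0 : ℂ))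
    U3_rb0_smooth.continuous ?_ U3_rb0_nonneg ?_
  · refine HasCompactSupport.of_support_subset_isCompact (isCompact_closedBall (0 : ℂ) 1) ?_
    intro y hy
    rw [mem_closedBall_zero_iff]
    by_contra h
    exact hy (U3_rb0_zero (le_of_lt (not_le.mp h)))
  · exact ne_of_gt (U3_rb0_pos (by simp))

/-- properties of the normalised bump -/
theorem rb_props {r : ℝ} (hr : 0 < r) : ContDiff ℝ ∞ (rb r) ∧ (∀ y, 0 ≤ rb r y) ∧
    (∀ y, ‖y‖ < r → 0 < rb r y) ∧ (∀ y, r ≤ ‖y‖ → rb r y = 0) ∧ ∫ y, rb r y = 1 := by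
  have hZ := U3_Z
  have hn : ∀ y : ℂ, ‖r⁻¹ • y‖ = r⁻¹ * ‖y‖ := by
    intro y
    rw [norm_smul, Real.norm_eq_abs, abs_of_pos (inv_pos.mpr hr)]
  refine ⟨?_, ?_, ?_, ?_, ?_⟩
  · unfold rb
    exact (contDiff_const.mul (U3_rb0_smooth.comp (contDiff_const_smul r⁻¹))).div_const _
  · intro y
    unfold rb
    have := U3_rb0_nonneg (r⁻¹ • y)
    positivity
  · intro y hy
    unfold rb
    have h1 : 0 < rb0 (r⁻¹ • y) := U3_rb0_pos (by
      rw [hn, inv_mul_lt_iff₀ hr, mul_one]; exact hy)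
    positivity
  · intro y hy
    unfold rb
    have h1 : rb0 (r⁻¹ • y) = 0 := U3_rb0_zero (by
      rw [hn, le_inv_mul_iff₀ hr, mul_one]; exact hy)
    rw [h1, mul_zero, zero_div]
  · unfold rb
    rw [integral_div, integral_const_mul, integral_comp_smul, Complex.finrank_real_complex,
      abs_of_pos (by positivity), smul_eq_mul]
    field_simp

private theorem U3_par (n : ℕ) : ∀ (β : ℝ → ℝ), ContDiff ℝ ∞ β → ∀ k : ℕ,
    ContDiff ℝ n (fun ρ => ∫ t in (0 : ℝ)..1, t ^ k * β (t * ρ)) ∧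
    ∀ ρ, HasDerivAt (fun ρ => ∫ t in (0 : ℝ)..1, t ^ k * β (t * ρ))
      (∫ t in (0 : ℝ)..1, t ^ (k + 1) * deriv β (t * ρ)) ρ := by
  have hder : ∀ (β : ℝ → ℝ), ContDiff ℝ ∞ β → ∀ k : ℕ, ∀ ρ,
      HasDerivAt (fun ρ => ∫ t in (0 : ℝ)..1, t ^ k * β (t * ρ))
      (∫ t in (0 : ℝ)..1, t ^ (k + 1) * deriv β (t * ρ)) ρ := by
    intro β hβ k ρ
    have hβ' : Continuous (deriv β) := hβ.continuous_deriv (by simp)
    have hβc : Continuous β := hβ.continuous
    have hc : Continuous (fun x : ℝ × ℝ => x.1 ^ (k + 1) * deriv β (x.1 * x.2)) := by fun_prop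
    obtain ⟨M, hM⟩ := ((isCompact_Icc (a := (0 : ℝ)) (b := 1)).prod
      (isCompact_closedBall ρ 1)).exists_bound_of_continuousOn hc.continuousOn
    refine (intervalIntegral.hasDerivAt_integral_of_dominated_loc_of_deriv_le
      (F := fun ρ t => t ^ k * β (t * ρ)) (F' := fun ρ t => t ^ (k + 1) * deriv β (t * ρ))
      (bound := fun _ => M) (Metric.ball_mem_nhds ρ one_pos) ?_ ?_ ?_ ?_ ?_ ?_).2
    · refine Eventually.of_forall fun x => ?_
      have : Continuous (fun t : ℝ => t ^ k * β (t * x)) := by fun_prop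
      exact this.aestronglyMeasurable
    · have : Continuous (fun t : ℝ => t ^ k * β (t * ρ)) := by fun_prop
      exact this.intervalIntegrable _ _
    · have : Continuous (fun t : ℝ => t ^ (k + 1) * deriv β (t * ρ)) := by fun_prop
      exact this.aestronglyMeasurable
    · refine Eventually.of_forall fun t ht x hx => ?_
      rw [Set.uIoc_of_le zero_le_one] at ht
      exact hM (t, x) ⟨⟨ht.1.le, ht.2⟩, Metric.ball_subset_closedBall hx⟩
    · exact intervalIntegrable_const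
    · refine Eventually.of_forall fun t ht x hx => ?_
      have h1 : HasDerivAt β (deriv β (t * x)) (t * x) :=
        ((hβ.differentiable (by simp)) (t * x)).hasDerivAt
      have h2 : HasDerivAt (fun x : ℝ => t * x) t x := by
        simpa using (hasDerivAt_id x).const_mul t
      have h3 := (h1.comp x h2).const_mul (t ^ k)
      refine h3.congr_deriv ?_
      ring
  induction n with
  | zero =>
    intro β hβ k
    refine ⟨?_, hder β hβ k⟩
    have h : Continuous (fun ρ => ∫ t in (0 : ℝ)..1, t ^ k * β (t * ρ)) :=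
      continuous_iff_continuousAt.mpr fun ρ => (hder β hβ k ρ).continuousAt
    exact contDiff_zero.mpr h
  | succ n ih =>
    intro β hβ k
    refine ⟨?_, hder β hβ k⟩
    have hd := hder β hβ k
    have e : deriv (fun ρ => ∫ t in (0 : ℝ)..1, t ^ k * β (t * ρ)) =
        fun ρ => ∫ t in (0 : ℝ)..1, t ^ (k + 1) * deriv β (t * ρ) := funext fun ρ => (hd ρ).deriv
    have h1 : ContDiff ℝ (n + 1 : WithTop ℕ∞) (fun ρ => ∫ t in (0 : ℝ)..1, t ^ k * β (t * ρ)) := by
      rw [contDiff_succ_iff_deriv]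
      refine ⟨fun ρ => (hd ρ).differentiableAt, by simp, ?_⟩
      rw [e]
      exact (ih (deriv β) (contDiff_infty_iff_deriv.mp hβ).2 (k + 1)).1
    exact_mod_cast h1

private noncomputable def U3h (t : ℝ) : ℝ := Real.smoothTransition (1 - t)

private theorem U3h_sm : ContDiff ℝ ∞ U3h :=
  Real.smoothTransition.contDiff.comp (contDiff_const.sub contDiff_id)

private theorem U3h_int {R : ℝ} (hR : 1 ≤ R) :
    ∫ t in (0 : ℝ)..R, U3h t = ∫ t in (0 : ℝ)..1, U3h t := by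
  have hc := U3h_sm.continuous
  rw [← intervalIntegral.integral_add_adjacent_intervals (hc.intervalIntegrable 0 1)
    (hc.intervalIntegrable 1 R)]
  have h0 : ∫ t in (1 : ℝ)..R, U3h t = 0 := by
    have h1 : ∫ t in (1 : ℝ)..R, U3h t = ∫ t in (1 : ℝ)..R, (0 : ℝ) := by
      refine intervalIntegral.integral_congr fun t ht => ?_
      rw [Set.uIcc_of_le hR] at ht
      exact Real.smoothTransition.zero_of_nonpos (by linarith [ht.1])
    rw [h1, intervalIntegral.integral_zero]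
  rw [h0, add_zero]

/-- the difference of two bumps is a `dbar` derivative of a function with compact support -/
theorem rb_prim {r s : ℝ} (hr : 0 < r) (hs : 0 < s) : ∃ α : ℂ → ℂ, ContDiff ℝ ∞ α ∧
    (∀ y, max r s ≤ ‖y‖ → α y = 0) ∧
    ∀ y, (1 / 2 : ℂ) * (fderiv ℝ α y 1 + Complex.I * fderiv ℝ α y Complex.I) =
      (rb r y : ℂ) - (rb s y : ℂ) := by
  set Z := ∫ z : ℂ, rb0 z with hZd
  have hZ : 0 < Z := U3_Z
  -- the radial profile
  obtain ⟨β, hβd⟩ : ∃ β : ℝ → ℝ, ∀ t, β t =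
      (r⁻¹ ^ 2 * U3h (r⁻¹ ^ 2 * t) - s⁻¹ ^ 2 * U3h (s⁻¹ ^ 2 * t)) / Z := ⟨_, fun _ => rfl⟩
  have hβ : ContDiff ℝ ∞ β := by
    have e : β = fun t => (r⁻¹ ^ 2 * U3h (r⁻¹ ^ 2 * t) - s⁻¹ ^ 2 * U3h (s⁻¹ ^ 2 * t)) / Z :=
      funext hβd
    rw [e]
    have h1 : ∀ c : ℝ, ContDiff ℝ ∞ (fun t => c * U3h (c * t)) := fun c =>
      contDiff_const.mul (U3h_sm.comp (contDiff_const.mul contDiff_id))
    exact ((h1 _).sub (h1 _)).div_const _
  have hrb : ∀ y : ℂ, rb r y - rb s y = β (‖y‖ ^ 2) := by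
    intro y
    have h1 : ∀ c : ℝ, rb0 (c • y) = U3h (c ^ 2 * ‖y‖ ^ 2) := by
      intro c
      unfold rb0 U3h
      rw [norm_smul, mul_pow, Real.norm_eq_abs, sq_abs]
    rw [hβd]
    unfold rb
    rw [h1, h1]
    ring
  obtain ⟨Bf, hBd⟩ : ∃ Bf : ℝ → ℝ, Bf = fun ρ => ∫ t in (0 : ℝ)..1, t ^ 0 * β (t * ρ) := ⟨_, rfl⟩
  have hBs : ContDiff ℝ ∞ Bf := by
    rw [contDiff_infty, hBd]
    exact fun n => (U3_par n β hβ 0).1
  have hFB : ∀ ρ, ρ * Bf ρ = ∫ t in (0 : ℝ)..ρ, β t := by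
    intro ρ
    rw [hBd]
    simp only [pow_zero, one_mul]
    rw [intervalIntegral.mul_integral_comp_mul_right, zero_mul, one_mul]
  have hder : ∀ ρ, Bf ρ + ρ * deriv Bf ρ = β ρ := by
    intro ρ
    have h1 : HasDerivAt (fun ρ => ρ * Bf ρ) (1 * Bf ρ + ρ * deriv Bf ρ) ρ :=
      (hasDerivAt_id ρ).mul ((hBs.differentiable (by simp)) ρ).hasDerivAt
    have h2 : HasDerivAt (fun ρ => ∫ t in (0 : ℝ)..ρ, β t) (β ρ) ρ :=
      hβ.continuous.integral_hasStrictDerivAt 0 ρ |>.hasDerivAt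
    have e : (fun ρ => ρ * Bf ρ) = fun ρ => ∫ t in (0 : ℝ)..ρ, β t := funext hFB
    rw [e] at h1
    have := h1.unique h2
    linarith
  have hBz : ∀ ρ, r ^ 2 ≤ ρ → s ^ 2 ≤ ρ → Bf ρ = 0 := by
    intro ρ h1 h2
    have hρ : 0 < ρ := lt_of_lt_of_le (by positivity) h1
    have h3 : ρ * Bf ρ = 0 := by
      rw [hFB]
      have e : β = fun t => (r⁻¹ ^ 2 * U3h (r⁻¹ ^ 2 * t) - s⁻¹ ^ 2 * U3h (s⁻¹ ^ 2 * t)) / Z :=
        funext hβd
      have hi : ∀ c : ℝ, IntervalIntegrable (fun t => c * U3h (c * t)) volume 0 ρ := by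
        intro c
        have : Continuous (fun t => c * U3h (c * t)) :=
          continuous_const.mul (U3h_sm.continuous.comp (continuous_const.mul continuous_id))
        exact this.intervalIntegrable _ _
      have hj : ∀ a : ℝ, 0 < a → a ^ 2 ≤ ρ → ∫ t in (0 : ℝ)..ρ, a⁻¹ ^ 2 * U3h (a⁻¹ ^ 2 * t) =
          ∫ t in (0 : ℝ)..1, U3h t := by
        intro a ha h
        rw [intervalIntegral.integral_const_mul, intervalIntegral.mul_integral_comp_mul_left,
          mul_zero]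
        refine U3h_int ?_
        rw [inv_pow, le_inv_mul_iff₀ (by positivity), mul_one]
        exact h
      rw [e]
      simp only
      rw [intervalIntegral.integral_div, intervalIntegral.integral_sub (hi _) (hi _),
        hj r hr h1, hj s hs h2, sub_self, zero_div]
    exact (mul_eq_zero.mp h3).resolve_left hρ.ne'
  have hα : ∀ y : ℂ, HasFDerivAt (fun y : ℂ => (starRingEnd ℂ) y * (Bf (‖y‖ ^ 2) : ℂ))
      ((starRingEnd ℂ) y • (Complex.ofRealCLM.comp (deriv Bf (‖y‖ ^ 2) • ((2 : ℕ) • innerSL ℝ y))) +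
        (Bf (‖y‖ ^ 2) : ℂ) • (Complex.conjCLE : ℂ →L[ℝ] ℂ)) y := by
    intro y
    have h1 : HasFDerivAt (fun y : ℂ => ‖y‖ ^ 2) ((2 : ℕ) • innerSL ℝ y) y :=
      (hasStrictFDerivAt_norm_sq y).hasFDerivAt
    have h2 : HasDerivAt Bf (deriv Bf (‖y‖ ^ 2)) (‖y‖ ^ 2) :=
      ((hBs.differentiable (by simp)) _).hasDerivAt
    have h3 := h2.comp_hasFDerivAt y h1
    have h4 := Complex.ofRealCLM.hasFDerivAt.comp y h3
    have h5 : HasFDerivAt (fun y : ℂ => (starRingEnd ℂ) y) (Complex.conjCLE : ℂ →L[ℝ] ℂ) y :=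
      (Complex.conjCLE : ℂ →L[ℝ] ℂ).hasFDerivAt
    exact h5.mul h4
  refine ⟨fun y => (starRingEnd ℂ) y * (Bf (‖y‖ ^ 2) : ℂ), ?_, ?_, ?_⟩
  · have h1 : ContDiff ℝ ∞ (fun y : ℂ => (starRingEnd ℂ) y) := Complex.conjCLE.contDiff
    have h2 : ContDiff ℝ ∞ (fun y : ℂ => (Bf (‖y‖ ^ 2) : ℂ)) :=
      Complex.ofRealCLM.contDiff.comp (hBs.comp (contDiff_norm_sq ℝ))
    exact h1.mul h2
  · intro y hy
    have h1 : r ≤ ‖y‖ := (le_max_left _ _).trans hy
    have h2 : s ≤ ‖y‖ := (le_max_right _ _).trans hy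
    simp only [hBz (‖y‖ ^ 2) (pow_le_pow_left₀ hr.le h1 2) (pow_le_pow_left₀ hs.le h2 2),
      Complex.ofReal_zero, mul_zero]
  · intro y
    rw [(hα y).fderiv, ← Complex.ofReal_sub, hrb, ← hder]
    have hy : ((‖y‖ ^ 2 : ℝ) : ℂ) = (starRingEnd ℂ) y * y := by
      rw [Complex.conj_mul']
      push_cast
      rfl
    simp only [ContinuousLinearMap.add_apply, ContinuousLinearMap.smul_apply,
      ContinuousLinearMap.comp_apply, Complex.ofRealCLM_apply, innerSL_apply_apply, smul_eq_mul,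
      ContinuousLinearEquiv.coe_coe, Complex.conjCLE_apply, map_one, Complex.conj_I,
      Complex.inner, mul_one, one_mul, nsmul_eq_mul]
    have e1 : ((starRingEnd ℂ) y).re = y.re := Complex.conj_re y
    have e2 : (Complex.I * (starRingEnd ℂ) y).re = y.im := by simp
    rw [e1, e2]
    have e3 : y = (y.re : ℂ) + (y.im : ℂ) * Complex.I := (Complex.re_add_im y).symm
    push_cast
    rw [← Complex.ofReal_pow, hy]
    generalize ((deriv Bf (‖y‖ ^ 2) : ℝ) : ℂ) = b'
    generalize ((Bf (‖y‖ ^ 2) : ℝ) : ℂ) = b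
    generalize (starRingEnd ℂ) y = w
    have e4 : w * y = w * ((y.re : ℂ) + (y.im : ℂ) * Complex.I) := by rw [← e3]
    have hI : Complex.I * Complex.I = -1 := Complex.I_mul_I
    rw [e4]
    linear_combination (-(1 / 2 : ℂ)) * b * hI

/-- the bumps in two variables -/
theorem bz_props {r : ℝ} (hr : 0 < r) (z : C2) : ContDiff ℝ ∞ (bz r z) ∧
    (∀ y, y ∉ Metric.ball z r → bz r z y = 0) ∧ tsupport (bz r z) ⊆ Metric.closedBall z r ∧
    HasCompactSupport (bz r z) ∧ (∀ y ∈ Metric.ball z r, 0 < (bz r z y).re) ∧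
    ∀ y, 0 ≤ (bz r z y).re ∧ (bz r z y).im = 0 := by
  obtain ⟨h1, h2, h3, h4, -⟩ := rb_props hr
  have hz : ∀ y, y ∉ Metric.ball z r → bz r z y = 0 := by
    intro y hy
    rw [Metric.mem_ball, dist_pi_lt_iff hr, not_forall] at hy
    obtain ⟨i, hi⟩ := hy
    rw [not_lt, dist_eq_norm] at hi
    unfold bz
    have h5 := h4 _ hi
    fin_cases i
    · have h6 : rb r (y 0 - z 0) = 0 := h5
      rw [h6, zero_mul, Complex.ofReal_zero]
    · have h6 : rb r (y 1 - z 1) = 0 := h5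
      rw [h6, mul_zero, Complex.ofReal_zero]
  have hs : Function.support (bz r z) ⊆ Metric.closedBall z r := by
    intro y hy
    by_contra h
    exact hy (hz y fun h' => h (Metric.ball_subset_closedBall h'))
  refine ⟨?_, hz, closure_minimal hs Metric.isClosed_closedBall,
    HasCompactSupport.of_support_subset_isCompact (isCompact_closedBall z r) hs, ?_, ?_⟩
  · have h5 : ∀ i : Fin 2, ContDiff ℝ ∞ (fun y : C2 => rb r (y i - z i)) := fun i =>
      h1.comp ((contDiff_apply ℝ ℂ i).sub contDiff_const)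
    exact Complex.ofRealCLM.contDiff.comp ((h5 0).mul (h5 1))
  · intro y hy
    rw [Metric.mem_ball, dist_pi_lt_iff hr] at hy
    unfold bz
    rw [Complex.ofReal_re]
    exact mul_pos (h3 _ (by rw [← dist_eq_norm]; exact hy 0)) (h3 _ (by rw [← dist_eq_norm]; exact hy 1))
  · intro y
    unfold bz
    rw [Complex.ofReal_re, Complex.ofReal_im]
    exact ⟨mul_nonneg (h2 _) (h2 _), rfl⟩

end Pool.Agent.MPd01a95
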