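import Mathlib
import Pool.Agent.Lib.MP_d01a95_gt_S.VDefs
import Pool.Agent.Lib.MP_d01a95_gt_S.UDefs
import Pool.Agent.Lib.MP_d01a95_gt_S.U1
import Pool.Agent.Lib.MP_d01a95_gt_S.Vsym
import Pool.Agent.Lib.MP_d01a95_gt_S.Vpart
import Pool.Agent.Lib.MP_d01a95_gt_S.Vcalc

/-!
Project SU(2,2), part (2), module U2.
-/

set_option autoImplicit false
set_option linter.all false

open Matrix Filter Topology MeasureTheory Measure
open scoped ENNReal NNReal ContDiff

namespace Pool.Agent.MPd01a95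

private theorem u2_open : IsOpen Up := LN.isOpen_Om

private theorem u2_W_zero (A : C2 → ℂ) (c : Fin 2) (x : C2) :
    W A c (fun _ => (0 : ℂ)) x = 0 ∧ Wb A c (fun _ => (0 : ℂ)) x = 0 := by
  have h : fderiv ℝ (fun _ : C2 => (0 : ℂ)) x = 0 := by simp
  constructor
  · unfold W db dd
    rw [h]
    simp
  · unfold Wb db dd
    rw [h]
    simp

private theorem u2_smo {A : C2 → ℂ} (hA : BA Up A) {f : C2 → ℂ} (hf : LN.Smo f) (c : Fin 2) :
    LN.Smo (fun y => W A c f y) ∧ LN.Smo (fun y => Wb A c f y) := by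
  have h := Smo_WV hA hf c
  have e3 : (fun y => WV A c f y) = fun y => W A c f y := by
    funext y
    exact W_eq A f y c
  have e4 : (fun y => WbV A c f y) = fun y => Wb A c f y := by
    funext y
    exact Wb_eq A f y c
  rw [e3, e4] at h
  exact h

/-- derivatives of the components of a holomorphic map -/
private theorem u2_hess {A : C2 → ℂ} (hA : BA Up A) {f : C2 → ℂ} (hf : LN.Smo f)
    (hh : ∀ x ∈ Up, ∀ c, W A c f x = 0) (a : Fin 2) : ∀ x ∈ Up,
    W A 1 (fun y => Wb A a f y) x = 0 ∧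
      W A 0 (fun y => Wb A a f y) x = -(dd A a x * Wb A 1 f x) := by
  have key : ∀ c, ∀ x ∈ Up, HC A a c f x = 0 := by
    intro c x hx
    have h1 := HV_symm u2_open hA (f := f) ((hf : ContDiffOn ℝ ∞ f Up).of_le (WithTop.coe_le_coe.2 (le_top : (2 : ℕ∞) ≤ ⊤))) a c x hx
    rw [H_eq] at h1
    rw [h1]
    have e3 : (fun y => WV A c f y) = fun y => W A c f y := by
      funext y
      exact W_eq A f y c
    have e1 : (fun y => W A c f y) =ᶠ[𝓝 x] fun _ => (0 : ℂ) := by
      filter_upwards [u2_open.mem_nhds hx] with y hy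
      exact hh y hy c
    rw [Wb_eq, W_eq, e3, (Vs.W_congr A e1 a).2, (u2_W_zero A a x).2, hh x hx 1, smul_zero,
      add_zero]
  intro x hx
  constructor
  · have h := key 1 x hx
    unfold HC Ga at h
    simpa using h
  · have h := key 0 x hx
    unfold HC Ga at h
    simp only [if_true] at h
    exact eq_neg_of_add_eq_zero_left h

variable {G : Type} [Group G] {σ : G →* GU (Fin 2)} {K : Kerr σ} {u : C2 → C2}

private theorem u2_comp_smo (hu : HolU K u) (i : Fin 2) : LN.Smo (fun y => u y i) := by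
  have h := hu.sm
  rw [contDiffOn_pi] at h
  exact h i

private theorem u2_b_smo (hu : HolU K u) (a i : Fin 2) :
    LN.Smo (fun y => Wb K.A a (fun z => u z i) y) := (u2_smo K.ba (u2_comp_smo hu i) a).2

/-- the Jacobian is a holomorphic section of the canonical bundle -/
theorem W_JU (hu : HolU K u) : LN.Smo (JU K.A u) ∧ (∀ x ∈ Up, W K.A 1 (JU K.A u) x = 0) ∧
    ∀ x ∈ Up, W K.A 0 (JU K.A u) x = - (dd K.A 1 x * JU K.A u x) := by
  have hs := u2_b_smo hu
  have hJ : JU K.A u = fun y => Wb K.A 0 (fun z => u z 0) y * Wb K.A 1 (fun z => u z 1) y -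
      Wb K.A 0 (fun z => u z 1) y * Wb K.A 1 (fun z => u z 0) y := rfl
  have hsm : LN.Smo (JU K.A u) := by
    rw [hJ]
    exact ((hs 0 0 : ContDiffOn ℝ ∞ _ Up).mul (hs 1 1)).sub ((hs 0 1 : ContDiffOn ℝ ∞ _ Up).mul
      (hs 1 0))
  have hd : ∀ a i, ∀ x ∈ Up, DifferentiableAt ℝ (fun y => Wb K.A a (fun z => u z i) y) x :=
    fun a i x hx => LN.Smo.diff (hs a i) hx
  have hW : ∀ c, ∀ x ∈ Up, W K.A c (JU K.A u) x =
      (W K.A c (fun y => Wb K.A 0 (fun z => u z 0) y) x * Wb K.A 1 (fun z => u z 1) x +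
        Wb K.A 0 (fun z => u z 0) x * W K.A c (fun y => Wb K.A 1 (fun z => u z 1) y) x) -
      (W K.A c (fun y => Wb K.A 0 (fun z => u z 1) y) x * Wb K.A 1 (fun z => u z 0) x +
        Wb K.A 0 (fun z => u z 1) x * W K.A c (fun y => Wb K.A 1 (fun z => u z 0) y) x) := by
    intro c x hx
    have e1 := (Vs.W_mul K.A (hd 0 0 x hx) (hd 1 1 x hx) c).1
    have e2 := (Vs.W_mul K.A (hd 0 1 x hx) (hd 1 0 x hx) c).1
    have e3 : JU K.A u = fun y => (Wb K.A 0 (fun z => u z 0) y * Wb K.A 1 (fun z => u z 1) y) +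
        (fun y => (-1 : ℂ) * (Wb K.A 0 (fun z => u z 1) y * Wb K.A 1 (fun z => u z 0) y)) y := by
      rw [hJ]
      funext y
      ring
    have hc : DifferentiableAt ℝ (fun _ : C2 => (-1 : ℂ)) x := differentiableAt_const _
    have hdm : DifferentiableAt ℝ (fun y => Wb K.A 0 (fun z => u z 1) y *
        Wb K.A 1 (fun z => u z 0) y) x := (hd 0 1 x hx).mul (hd 1 0 x hx)
    have e4 := (Vs.W_add K.A (f := fun y => Wb K.A 0 (fun z => u z 0) y *
      Wb K.A 1 (fun z => u z 1) y) (g := fun y => (-1 : ℂ) * (Wb K.A 0 (fun z => u z 1) y *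
        Wb K.A 1 (fun z => u z 0) y)) ((hd 0 0 x hx).mul (hd 1 1 x hx)) (hc.mul hdm) c).1
    have e5 := (Vs.W_mul K.A hc hdm c).1
    have e6 : W K.A c (fun _ : C2 => (-1 : ℂ)) x = 0 := by
      unfold W db dd
      simp
    rw [e3]
    refine e4.trans ?_
    rw [e5, e6]
    refine (congrArg₂ (fun p q => p + (0 * (Wb K.A 0 (fun z => u z 1) x *
        Wb K.A 1 (fun z => u z 0) x) + (-1) * q)) e1 e2).trans ?_
    ring
  have h0 := u2_hess K.ba (u2_comp_smo hu 0) (fun x hx c => hu.hol x hx c 0)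
  have h1 := u2_hess K.ba (u2_comp_smo hu 1) (fun x hx c => hu.hol x hx c 1)
  refine ⟨hsm, fun x hx => ?_, fun x hx => ?_⟩
  · rw [hW 1 x hx, (h0 0 x hx).1, (h0 1 x hx).1, (h1 0 x hx).1, (h1 1 x hx).1]
    ring
  · rw [hW 0 x hx, (h0 0 x hx).2, (h0 1 x hx).2, (h1 0 x hx).2, (h1 1 x hx).2]
    unfold JU
    ring

private theorem u2_W_cs {A : C2 → ℂ} {F : C2 → ℂ} (hc : LN.CS F) (c : Fin 2) :
    LN.CS (fun y => W A c F y) := by
  obtain ⟨C, hC, hO, h0⟩ := hc
  refine ⟨C, hC, hO, fun p hp hpK => ?_⟩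
  have hU : Up ∩ Cᶜ ∈ 𝓝 p := (u2_open.inter hC.isClosed.isOpen_compl).mem_nhds ⟨hp, hpK⟩
  have he : F =ᶠ[𝓝 p] fun _ => (0 : ℂ) := by
    filter_upwards [hU] with q hq
    exact h0 q hq.1 hq.2
  change W A c F p = 0
  rw [(Vs.W_congr A he c).1, (u2_W_zero A c p).1]

private theorem u2_int {F : C2 → ℂ} (hF : LN.Smo F) (hc : LN.CS F) :
    Integrable F (volume.restrict Up) := by
  have h1 := LN.CS.indicator_cont hF.cont hc
  have h2 : Integrable (Set.indicator Up F) volume :=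
    h1.1.integrable_of_hasCompactSupport h1.2.1
  exact (integrable_indicator_iff LN.measurableSet_Om).1 h2

private theorem u2_stokes (hu : HolU K u) {f : C2 → ℂ} (hf : LN.Smo f)
    (hfh : ∀ x ∈ Up, ∀ c, W K.A c f x = 0) {φ : C2 → ℂ} (hφ : LN.Smo φ) (hφc : LN.CS φ)
    (i : Fin 2) :
    ∫ x in Up, f x * JU K.A u x * (W K.A 0 φ x * star (Wb K.A 1 (fun y => u y i) x) -
      W K.A 1 φ x * star (Wb K.A 0 (fun y => u y i) x)) = 0 := by
  obtain ⟨hJs, hJ1, hJ0⟩ := W_JU hu
  have hbs : ∀ a, LN.Smo (fun y => star (Wb K.A a (fun z => u z i) y)) := by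
    intro a
    exact (Complex.conjCLE.contDiff (n := ∞)).comp_contDiffOn (u2_b_smo hu a i)
  have hgs : LN.Smo (fun y => f y * JU K.A u y) := (hf : ContDiffOn ℝ ∞ f Up).mul hJs
  have hPs : ∀ a, LN.Smo (fun y => f y * JU K.A u y * star (Wb K.A a (fun z => u z i) y)) :=
    fun a => (hgs : ContDiffOn ℝ ∞ _ Up).mul (hbs a)
  have hPφ : ∀ a, LN.Smo (fun y => f y * JU K.A u y * star (Wb K.A a (fun z => u z i) y) * φ y) :=
    fun a => (hPs a : ContDiffOn ℝ ∞ _ Up).mul hφ
  have hPc : ∀ a, LN.CS (fun y => f y * JU K.A u y * star (Wb K.A a (fun z => u z i) y) * φ y) :=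
    fun a => hφc.of_imp fun p _ h => by rw [h, mul_zero]
  -- derivatives of `P_a`
  have hWg : ∀ c, ∀ x ∈ Up, W K.A c (fun y => f y * JU K.A u y) x =
      f x * W K.A c (JU K.A u) x := by
    intro c x hx
    rw [(Vs.W_mul K.A (LN.Smo.diff hf hx) (LN.Smo.diff hJs hx) c).1, hfh x hx c]
    ring
  have hWP : ∀ c a, ∀ x ∈ Up,
      W K.A c (fun y => f y * JU K.A u y * star (Wb K.A a (fun z => u z i) y) * φ y) x =
      (f x * W K.A c (JU K.A u) x * star (Wb K.A a (fun z => u z i) x) +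
        f x * JU K.A u x * star (Wb K.A c (fun y => Wb K.A a (fun z => u z i) y) x)) * φ x +
      f x * JU K.A u x * star (Wb K.A a (fun z => u z i) x) * W K.A c φ x := by
    intro c a x hx
    rw [(Vs.W_mul K.A (LN.Smo.diff (hPs a) hx) (LN.Smo.diff hφ hx) c).1,
      (Vs.W_mul K.A (LN.Smo.diff hgs hx) (LN.Smo.diff (hbs a) hx) c).1, hWg c x hx,
      (W_star K.A (fun y => Wb K.A a (fun z => u z i) y) x c).1]
  have hcomm : ∀ x ∈ Up, Wb K.A 1 (fun y => Wb K.A 0 (fun z => u z i) y) x =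
      Wb K.A 0 (fun y => Wb K.A 1 (fun z => u z i) y) x := by
    intro x hx
    have h := (WV_comm u2_open K.ba (f := fun z => u z i)
      ((u2_comp_smo hu i : ContDiffOn ℝ ∞ _ Up).of_le (WithTop.coe_le_coe.2 (le_top : (2 : ℕ∞) ≤ ⊤))) x hx).2
    have e : ∀ a, (fun y => WbV K.A a (fun z => u z i) y) = fun y => Wb K.A a (fun z => u z i) y :=
      fun a => by
        funext y
        exact Wb_eq K.A _ y a
    rw [Wb_eq, Wb_eq, e 0, e 1] at h
    exact h
  have hptw : ∀ x ∈ Up, f x * JU K.A u x * (W K.A 0 φ x * star (Wb K.A 1 (fun y => u y i) x) -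
      W K.A 1 φ x * star (Wb K.A 0 (fun y => u y i) x)) =
      (W K.A 0 (fun y => f y * JU K.A u y * star (Wb K.A 1 (fun z => u z i) y) * φ y) x +
        dd K.A 1 x * (f x * JU K.A u x * star (Wb K.A 1 (fun z => u z i) x) * φ x)) -
      W K.A 1 (fun y => f y * JU K.A u y * star (Wb K.A 0 (fun z => u z i) y) * φ y) x := by
    intro x hx
    rw [hWP 0 1 x hx, hWP 1 0 x hx, hJ1 x hx, hJ0 x hx, hcomm x hx]
    ring
  have hint1 := (int_WV K.ba (hPφ 0) (hPc 0)).1
  have hint2 := (int_WV K.ba (hPφ 1) (hPc 1)).2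
  simp only [W_eq, smul_eq_mul] at hint1 hint2
  have hme : MeasurableSet Up := LN.measurableSet_Om
  rw [setIntegral_congr_fun hme hptw, integral_sub, hint1, hint2, sub_zero]
  · apply u2_int
    · have hA1 : LN.Smo (fun y => dd K.A 1 y) := by
        have h := (u2_smo K.ba (f := K.A) K.ba.sm 1).2
        have e : (fun y => Wb K.A 1 K.A y) = fun y => dd K.A 1 y := by
          funext y
          simp [Wb]
        rw [e] at h
        exact h
      exact ((u2_smo K.ba (hPφ 1) 0).1 : ContDiffOn ℝ ∞ _ Up).add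
        ((hA1 : ContDiffOn ℝ ∞ _ Up).mul (hPφ 1))
    · exact (u2_W_cs (hPc 1) 0).add ((hPc 1).of_imp fun p _ h => by rw [h, mul_zero])
  · exact u2_int (u2_smo K.ba (hPφ 0) 1).1 (u2_W_cs (hPc 0) 1)

/-- Stokes: the push forward is weakly holomorphic -/
theorem TU_db (hL : Lat σ) (hu : HolU K u) {f : C2 → ℂ} (hf : LN.Smo f)
    (hfh : ∀ x ∈ Up, ∀ c, W K.A c f x = 0) {η : C2 → ℂ} (hη : ContDiff ℝ ∞ η)
    (hηc : HasCompactSupport η) (hηB : tsupport η ⊆ B2) (c : Fin 2) :
    TU K u f (fun z => db η c z) = 0 := by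
  have hφ : LN.Smo (fun x => η (u x)) := hη.comp_contDiffOn hu.sm
  obtain ⟨C', hC', hC'c, hC'm⟩ := u_proper hL hu hηB hηc
  have hφc : LN.CS (fun x => η (u x)) := by
    refine ⟨C', hC'c, hC', fun p hp hpC => ?_⟩
    by_contra hne
    exact hpC (hC'm p hp (subset_tsupport _ (Function.mem_support.2 hne)))
  have hWφ : ∀ a, ∀ x ∈ Up, W K.A a (fun y => η (u y)) x =
      star (Wb K.A a (fun y => u y 0) x) * db η 0 (u x) +
        star (Wb K.A a (fun y => u y 1) x) * db η 1 (u x) := by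
    intro a x hx
    have hux : DifferentiableAt ℝ u x :=
      (hu.sm.contDiffAt (u2_open.mem_nhds hx)).differentiableAt (by simp)
    have hηx : DifferentiableAt ℝ η (u x) := (hη.differentiable (by simp)) _
    have h := (law1 (u_holM hu) hx hux hηx).1 a
    rw [← W_eq, h, Fin.sum_univ_two]
    have e : ∀ i : Fin 2, WV (fun _ : C2 => (0 : ℂ)) i η (u x) = db η i (u x) := by
      intro i
      rw [W_eq]
      fin_cases i
      · simp [W]
      · simp [W]
    rw [e 0, e 1]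
    rfl
  have hJ : ∀ x, ((‖JU K.A u x‖ ^ 2 : ℝ) : ℂ) = JU K.A u x * star (JU K.A u x) := by
    intro x
    rw [← Complex.normSq_eq_norm_sq, Complex.normSq_eq_conj_mul_self, mul_comm]
    rfl
  have hsJ : ∀ x, star (JU K.A u x) =
      star (Wb K.A 0 (fun y => u y 0) x) * star (Wb K.A 1 (fun y => u y 1) x) -
      star (Wb K.A 0 (fun y => u y 1) x) * star (Wb K.A 1 (fun y => u y 0) x) := by
    intro x
    unfold JU
    rw [star_sub, star_mul', star_mul']
  unfold TU
  fin_cases c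
  · rw [← u2_stokes hu hf hfh hφ hφc 1]
    refine setIntegral_congr_fun (show MeasurableSet Up from LN.measurableSet_Om) fun x hx => ?_
    change f x * db η 0 (u x) * _ = _
    rw [hJ x, hsJ x, hWφ 0 x hx, hWφ 1 x hx]
    ring
  · have h0 := u2_stokes hu hf hfh hφ hφc 0
    have h1 : ∫ x in Up, f x * db η 1 (u x) * ((‖JU K.A u x‖ ^ 2 : ℝ) : ℂ) =
        -∫ x in Up, f x * JU K.A u x * (W K.A 0 (fun y => η (u y)) x *
          star (Wb K.A 1 (fun y => u y 0) x) -
          W K.A 1 (fun y => η (u y)) x * star (Wb K.A 0 (fun y => u y 0) x)) := by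
      rw [← integral_neg]
      refine setIntegral_congr_fun (show MeasurableSet Up from LN.measurableSet_Om) fun x hx => ?_
      rw [hJ x, hsJ x, hWφ 0 x hx, hWφ 1 x hx]
      ring
    rw [h0, neg_zero] at h1
    exact h1

end Pool.Agent.MPd01a95
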