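import Mathlib
import Pool.Agent.Lib.MP_d01a95_gt_H.Lift
import Pool.Agent.Lib.MP_d01a95_gt_S.VDefs
import Pool.Agent.Lib.MP_d01a95_gt_S.UDefs
import Pool.Agent.Lib.MP_d01a95_gt_S.U1
import Pool.Agent.Lib.MP_d01a95_gt_S.U2
import Pool.Agent.Lib.MP_d01a95_gt_S.U3

/-!
Project SU(2,2), part (2), module U4.
-/

set_option autoImplicit false
set_option linter.all false

open Matrix Filter Topology MeasureTheory Measure
open scoped ENNReal NNReal ContDiff

namespace Pool.Agent.MPd01a95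

variable {G : Type} [Group G] {σ : G →* GU (Fin 2)} {K : Kerr σ} {u : C2 → C2}

namespace U4Aux

theorem isOpen_Up : IsOpen Up := by
  have : Continuous fun x : C2 => (x 1).im := by fun_prop
  exact isOpen_lt continuous_const this

/-- the density -/
noncomputable def Jn (K : Kerr σ) (u : C2 → C2) (x : C2) : ℂ := ((‖JU K.A u x‖ ^ 2 : ℝ) : ℂ)

theorem cont_Jn (hu : HolU K u) : ContinuousOn (Jn K u) Up := by
  have h1 : ContinuousOn (JU K.A u) Up := (W_JU hu).1.continuousOn
  exact Complex.continuous_ofReal.comp_continuousOn (h1.norm.pow 2)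

theorem cont_int (hu : HolU K u) {f : C2 → ℂ} (hf : LN.Smo f) {η : C2 → ℂ} (hη : Continuous η) :
    ContinuousOn (fun x => f x * η (u x) * ((‖JU K.A u x‖ ^ 2 : ℝ) : ℂ)) Up := by
  have h1 : ContinuousOn f Up := hf.continuousOn
  have h2 : ContinuousOn (fun x => η (u x)) Up := hη.comp_continuousOn hu.sm.continuousOn
  exact (h1.mul h2).mul (cont_Jn hu)

theorem integrable (hL : Lat σ) (hu : HolU K u) {f : C2 → ℂ} (hf : LN.Smo f) {η : C2 → ℂ}
    (hη : Continuous η) {C : Set C2} (hC : IsCompact C) (hCB : C ⊆ B2)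
    (h0 : ∀ y, y ∉ C → η y = 0) :
    IntegrableOn (fun x => f x * η (u x) * ((‖JU K.A u x‖ ^ 2 : ℝ) : ℂ)) Up := by
  obtain ⟨C', hC'U, hC', hp⟩ := u_proper hL hu hCB hC
  have h1 : IntegrableOn (fun x => f x * η (u x) * ((‖JU K.A u x‖ ^ 2 : ℝ) : ℂ)) C' :=
    ((cont_int hu hf hη).mono hC'U).integrableOn_compact hC'
  refine h1.of_forall_diff_eq_zero isOpen_Up.measurableSet fun x hx => ?_
  have h2 : u x ∉ C := fun h => hx.2 (hp x hx.1 h)
  rw [h0 _ h2, mul_zero, zero_mul]

theorem TU_add (hL : Lat σ) (hu : HolU K u) {f : C2 → ℂ} (hf : LN.Smo f) {η η' : C2 → ℂ}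
    (hη : Continuous η) (hη' : Continuous η') {C : Set C2} (hC : IsCompact C) (hCB : C ⊆ B2)
    (h0 : ∀ y, y ∉ C → η y = 0) (h0' : ∀ y, y ∉ C → η' y = 0) :
    TU K u f (fun y => η y + η' y) = TU K u f η + TU K u f η' := by
  unfold TU
  rw [← integral_add (integrable hL hu hf hη hC hCB h0) (integrable hL hu hf hη' hC hCB h0')]
  refine integral_congr_ae (Eventually.of_forall fun x => ?_)
  simp only []
  ring

theorem TU_sub (hL : Lat σ) (hu : HolU K u) {f : C2 → ℂ} (hf : LN.Smo f) {η η' : C2 → ℂ}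
    (hη : Continuous η) (hη' : Continuous η') {C : Set C2} (hC : IsCompact C) (hCB : C ⊆ B2)
    (h0 : ∀ y, y ∉ C → η y = 0) (h0' : ∀ y, y ∉ C → η' y = 0) :
    TU K u f (fun y => η y - η' y) = TU K u f η - TU K u f η' := by
  unfold TU
  rw [← integral_sub (integrable hL hu hf hη hC hCB h0) (integrable hL hu hf hη' hC hCB h0')]
  refine integral_congr_ae (Eventually.of_forall fun x => ?_)
  simp only []
  ring

theorem db_coord {h : ℂ → ℂ} (hh : Differentiable ℝ h) (z : C2) (i c : Fin 2) (y : C2) :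
    db (fun y : C2 => h (y i - z i)) c y = if c = i then
      (1 / 2 : ℂ) * (fderiv ℝ h (y i - z i) 1 + Complex.I * fderiv ℝ h (y i - z i) Complex.I)
      else 0 := by
  have h1 : HasFDerivAt (fun y : C2 => y i - z i) (ContinuousLinearMap.proj (R := ℝ) i) y :=
    (ContinuousLinearMap.proj (R := ℝ) (φ := fun _ : Fin 2 => ℂ) i).hasFDerivAt.sub_const (z i)
  have h2 := ((hh (y i - z i)).hasFDerivAt.comp y h1).fderiv
  have h3 : fderiv ℝ (fun y : C2 => h (y i - z i)) y =
      (fderiv ℝ h (y i - z i)).comp (ContinuousLinearMap.proj (R := ℝ) i) := h2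
  unfold db
  rw [h3]
  simp only [ContinuousLinearMap.comp_apply, ContinuousLinearMap.proj_apply]
  split_ifs with hc
  · subst hc
    simp only [Pi.single_eq_same]
  · have h4 : ∀ w : ℂ, (Pi.single c w : C2) i = 0 := fun w => by
      rw [Pi.single_apply, if_neg (fun h => hc h.symm)]
    rw [h4, h4, map_zero, mul_zero, add_zero, mul_zero]

end U4Aux

open U4Aux

/-- independence of the radius -/
theorem TU_indep (hL : Lat σ) (hu : HolU K u) {f : C2 → ℂ} (hf : LN.Smo f)
    (hfh : ∀ x ∈ Up, ∀ c, W K.A c f x = 0) {z : C2} {r s : ℝ} (hr : 0 < r) (hs : 0 < s)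
    (h1 : Metric.closedBall z r ⊆ B2) (h2 : Metric.closedBall z s ⊆ B2) :
    TU K u f (bz r z) = TU K u f (bz s z) := by
  obtain ⟨α, hα, hα0, hαd⟩ := rb_prim hr hs
  obtain ⟨hrs, _, _, hr0, _⟩ := rb_props hr
  obtain ⟨hss, _, _, hs0, _⟩ := rb_props hs
  have hrc : ContDiff ℝ ∞ (fun y : ℂ => (rb r y : ℂ)) := Complex.ofRealCLM.contDiff.comp hrs
  have hsc : ContDiff ℝ ∞ (fun y : ℂ => (rb s y : ℂ)) := Complex.ofRealCLM.contDiff.comp hss
  have hdα : Differentiable ℝ α := hα.differentiable (by simp)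
  have hdr : Differentiable ℝ (fun y : ℂ => (rb r y : ℂ)) := hrc.differentiable (by simp)
  have hds : Differentiable ℝ (fun y : ℂ => (rb s y : ℂ)) := hsc.differentiable (by simp)
  obtain ⟨C, hC⟩ : ∃ C, C = Metric.closedBall z (max r s) := ⟨_, rfl⟩
  have hCB : C ⊆ B2 := by
    rw [hC]
    rcases max_choice r s with h | h
    · rw [h]
      exact h1
    · rw [h]
      exact h2
  have hCc : IsCompact C := by
    rw [hC]
    exact isCompact_closedBall z _
  have hout : ∀ y : C2, y ∉ C → max r s ≤ ‖y 0 - z 0‖ ∨ max r s ≤ ‖y 1 - z 1‖ := by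
    intro y hy
    by_contra hcon
    push Not at hcon
    refine hy ?_
    rw [hC, Metric.mem_closedBall, dist_pi_le_iff (by positivity)]
    intro i
    fin_cases i
    · rw [dist_eq_norm]
      exact hcon.1.le
    · rw [dist_eq_norm]
      exact hcon.2.le
  have hc0 : ContDiff ℝ ∞ (fun y : C2 => y 0 - z 0) := by fun_prop
  have hc1 : ContDiff ℝ ∞ (fun y : C2 => y 1 - z 1) := by fun_prop
  have hA0 : ContDiff ℝ ∞ (fun y : C2 => α (y 0 - z 0)) := hα.comp hc0
  have hA1 : ContDiff ℝ ∞ (fun y : C2 => α (y 1 - z 1)) := hα.comp hc1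
  have hR0 : ContDiff ℝ ∞ (fun y : C2 => (rb r (y 0 - z 0) : ℂ)) := hrc.comp hc0
  have hR1 : ContDiff ℝ ∞ (fun y : C2 => (rb r (y 1 - z 1) : ℂ)) := hrc.comp hc1
  have hS0 : ContDiff ℝ ∞ (fun y : C2 => (rb s (y 0 - z 0) : ℂ)) := hsc.comp hc0
  have hS1 : ContDiff ℝ ∞ (fun y : C2 => (rb s (y 1 - z 1) : ℂ)) := hsc.comp hc1
  obtain ⟨η0, hη0⟩ : ∃ η0 : C2 → ℂ, η0 = fun y => α (y 0 - z 0) * (rb r (y 1 - z 1) : ℂ) :=
    ⟨_, rfl⟩
  obtain ⟨η1, hη1⟩ : ∃ η1 : C2 → ℂ, η1 = fun y => (rb s (y 0 - z 0) : ℂ) * α (y 1 - z 1) :=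
    ⟨_, rfl⟩
  have s0 : ContDiff ℝ ∞ η0 := by
    rw [hη0]
    exact hA0.mul hR1
  have s1 : ContDiff ℝ ∞ η1 := by
    rw [hη1]
    exact hS0.mul hA1
  have z0 : ∀ y, y ∉ C → η0 y = 0 := by
    intro y hy
    rw [hη0]
    rcases hout y hy with h | h
    · show α (y 0 - z 0) * _ = 0
      rw [hα0 _ h, zero_mul]
    · show α (y 0 - z 0) * (rb r (y 1 - z 1) : ℂ) = 0
      rw [hr0 _ ((le_max_left r s).trans h), Complex.ofReal_zero, mul_zero]
  have z1 : ∀ y, y ∉ C → η1 y = 0 := by
    intro y hy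
    rw [hη1]
    rcases hout y hy with h | h
    · show (rb s (y 0 - z 0) : ℂ) * α (y 1 - z 1) = 0
      rw [hs0 _ ((le_max_right r s).trans h), Complex.ofReal_zero, zero_mul]
    · show (rb s (y 0 - z 0) : ℂ) * α (y 1 - z 1) = 0
      rw [hα0 _ h, mul_zero]
  have hsup : ∀ η : C2 → ℂ, (∀ y, y ∉ C → η y = 0) → HasCompactSupport η ∧ tsupport η ⊆ B2 := by
    intro η h
    have hs : Function.support η ⊆ C := fun y hy => by
      by_contra hc
      exact hy (h y hc)
    exact ⟨HasCompactSupport.of_support_subset_isCompact hCc hs,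
      (closure_minimal hs hCc.isClosed).trans hCB⟩
  have d0 : ∀ y, db η0 0 y = ((rb r (y 0 - z 0) : ℂ) - (rb s (y 0 - z 0) : ℂ)) *
      (rb r (y 1 - z 1) : ℂ) := by
    intro y
    have e1 := LiftAux.db_mul (hA0.differentiable (by simp) y) (hR1.differentiable (by simp) y) 0
    have e2 := db_coord hdα z 0 0 y
    have e3 := db_coord hdr z 1 0 y
    rw [if_pos rfl, hαd] at e2
    rw [if_neg (by decide)] at e3
    rw [hη0, e1, e2, e3]
    ring
  have d1 : ∀ y, db η1 1 y = (rb s (y 0 - z 0) : ℂ) *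
      ((rb r (y 1 - z 1) : ℂ) - (rb s (y 1 - z 1) : ℂ)) := by
    intro y
    have e1 := LiftAux.db_mul (hS0.differentiable (by simp) y) (hA1.differentiable (by simp) y) 1
    have e2 := db_coord hdα z 1 1 y
    have e3 := db_coord hds z 0 1 y
    rw [if_pos rfl, hαd] at e2
    rw [if_neg (by decide)] at e3
    rw [hη1, e1, e2, e3]
    ring
  have t0 := TU_db hL hu hf hfh s0 (hsup η0 z0).1 (hsup η0 z0).2 0
  have t1 := TU_db hL hu hf hfh s1 (hsup η1 z1).1 (hsup η1 z1).2 1
  have hbr : ∀ (t : ℝ) (y : C2), bz t z y = (rb t (y 0 - z 0) : ℂ) * (rb t (y 1 - z 1) : ℂ) := by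
    intro t y
    unfold bz
    push_cast
    ring
  have c0 : Continuous (fun y => db η0 0 y) := by
    have : (fun y => db η0 0 y) = fun y : C2 => ((rb r (y 0 - z 0) : ℂ) -
        (rb s (y 0 - z 0) : ℂ)) * (rb r (y 1 - z 1) : ℂ) := funext d0
    rw [this]
    exact (hR0.continuous.sub hS0.continuous).mul hR1.continuous
  have c1 : Continuous (fun y => db η1 1 y) := by
    have : (fun y => db η1 1 y) = fun y : C2 => (rb s (y 0 - z 0) : ℂ) *
      ((rb r (y 1 - z 1) : ℂ) - (rb s (y 1 - z 1) : ℂ)) := funext d1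
    rw [this]
    exact hS0.continuous.mul (hR1.continuous.sub hS1.continuous)
  have hz0 : ∀ (w : ℂ), max r s ≤ ‖w‖ → (rb r w : ℂ) = 0 ∧ (rb s w : ℂ) = 0 := by
    intro w hw
    rw [hr0 _ ((le_max_left r s).trans hw), hs0 _ ((le_max_right r s).trans hw)]
    exact ⟨Complex.ofReal_zero, Complex.ofReal_zero⟩
  have n0 : ∀ y, y ∉ C → db η0 0 y = 0 := by
    intro y hy
    rw [d0]
    rcases hout y hy with h | h
    · rw [(hz0 _ h).1, (hz0 _ h).2, sub_zero, zero_mul]
    · rw [(hz0 _ h).1, mul_zero]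
  have n1 : ∀ y, y ∉ C → db η1 1 y = 0 := by
    intro y hy
    rw [d1]
    rcases hout y hy with h | h
    · rw [(hz0 _ h).2, zero_mul]
    · rw [(hz0 _ h).1, (hz0 _ h).2, sub_zero, mul_zero]
  have hsum := TU_add hL hu hf c0 c1 hCc hCB n0 n1
  rw [t0, t1, add_zero] at hsum
  have br : ∀ y, y ∉ C → bz r z y = 0 := by
    intro y hy
    rw [hbr]
    rcases hout y hy with h | h
    · rw [(hz0 _ h).1, zero_mul]
    · rw [(hz0 _ h).1, mul_zero]
  have bs' : ∀ y, y ∉ C → bz s z y = 0 := by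
    intro y hy
    rw [hbr]
    rcases hout y hy with h | h
    · rw [(hz0 _ h).2, zero_mul]
    · rw [(hz0 _ h).2, mul_zero]
  have hdif := TU_sub hL hu hf (bz_props hr z).1.continuous (bz_props hs z).1.continuous hCc hCB
    br bs'
  have heq : (fun y => bz r z y - bz s z y) = fun y => db η0 0 y + db η1 1 y := by
    funext y
    rw [hbr, hbr, d0, d1]
    ring
  have h3 : TU K u f (bz r z) - TU K u f (bz s z) = 0 := by
    have h4 : TU K u f (fun y => bz r z y) - TU K u f (fun y => bz s z y) = 0 := by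
      rw [← hdif, heq]
      exact hsum
    exact h4
  exact sub_eq_zero.1 h3

/-- the push forward is represented by a holomorphic function -/
theorem TU_rep (hL : Lat σ) (hu : HolU K u) {f : C2 → ℂ} (hf : LN.Smo f)
    (hfh : ∀ x ∈ Up, ∀ c, W K.A c f x = 0) : ∃ g : C2 → ℂ, DifferentiableOn ℂ g B2 ∧
    ∀ z, ∀ r > 0, Metric.closedBall z r ⊆ B2 → TU K u f (bz r z) = g z := by
  classical
  obtain ⟨g, hg⟩ : ∃ g : C2 → ℂ, g = fun z => if h : ∃ r > 0, Metric.closedBall z r ⊆ B2 then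
    TU K u f (bz h.choose z) else 0 := ⟨_, rfl⟩
  have hrep : ∀ z, ∀ r > 0, Metric.closedBall z r ⊆ B2 → TU K u f (bz r z) = g z := by
    intro z r hr hzr
    have h : ∃ r > 0, Metric.closedBall z r ⊆ B2 := ⟨r, hr, hzr⟩
    rw [hg]
    show _ = dite _ _ _
    rw [dif_pos h]
    exact TU_indep hL hu hf hfh hr h.choose_spec.1 hzr h.choose_spec.2
  refine ⟨g, fun z0 hz0 => DifferentiableAt.differentiableWithinAt ?_, hrep⟩
  obtain ⟨R, hR, hRB⟩ := Metric.nhds_basis_closedBall.mem_iff.1 (LiftAux.isOpen_Bl.mem_nhds hz0)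
  obtain ⟨r, hrR⟩ : ∃ r : ℝ, r = R / 2 := ⟨_, rfl⟩
  have hr : 0 < r := by
    rw [hrR]
    positivity
  have hsub : ∀ z ∈ Metric.ball z0 r, Metric.closedBall z r ⊆ Metric.closedBall z0 R := by
    intro z hz
    refine Metric.closedBall_subset_closedBall' ?_
    rw [Metric.mem_ball] at hz
    linarith
  have hloc : ∀ᶠ z in 𝓝 z0, TU K u f (bz r z) = g z := by
    filter_upwards [Metric.ball_mem_nhds z0 hr] with z hz
    exact hrep z r hr ((hsub z hz).trans hRB)
  refine DifferentiableAt.congr_of_eventuallyEq ?_ (hloc.mono fun z hz => hz.symm)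
  obtain ⟨C', hC'U, hC', hp⟩ := u_proper hL hu hRB (isCompact_closedBall z0 R)
  obtain ⟨φ, hφ⟩ : ∃ φ : C2 → ℂ, φ = bz r 0 := ⟨_, rfl⟩
  have hφz : ∀ z y, bz r z y = φ (y - z) := by
    intro z y
    rw [hφ]
    simp [bz]
  obtain ⟨hφs, hφb, _, hφc, _, _⟩ := bz_props hr (0 : C2)
  rw [← hφ] at hφs hφb hφc
  have hφd : Differentiable ℝ φ := hφs.differentiable (by simp)
  have hφ' : Continuous (fderiv ℝ φ) := hφs.continuous_fderiv (by simp)
  obtain ⟨M, hM⟩ := hφ'.bounded_above_of_compact_support (hφc.fderiv (𝕜 := ℝ))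
  have hfc : ContinuousOn f Up := hf.continuousOn
  have huc : ContinuousOn u Up := hu.sm.continuousOn
  have hJc := cont_Jn hu
  obtain ⟨w, hw⟩ : ∃ w : C2 → ℂ, w = fun x => f x * Jn K u x := ⟨_, rfl⟩
  have hwc : ContinuousOn w C' := by
    rw [hw]
    exact (hfc.mul hJc).mono hC'U
  have huC : ContinuousOn u C' := huc.mono hC'U
  -- the function as an integral over a compact set
  have hF : ∀ z ∈ Metric.ball z0 r, TU K u f (bz r z) = ∫ x in C', w x * φ (u x - z) := by
    intro z hz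
    have h1 : ∫ x in C', f x * bz r z (u x) * ((‖JU K.A u x‖ ^ 2 : ℝ) : ℂ) =
        ∫ x in Up, f x * bz r z (u x) * ((‖JU K.A u x‖ ^ 2 : ℝ) : ℂ) := by
      refine (setIntegral_eq_of_subset_of_forall_diff_eq_zero isOpen_Up.measurableSet hC'U
        fun x hx => ?_).symm
      have h2 : u x ∉ Metric.closedBall z0 R := fun h => hx.2 (hp x hx.1 h)
      have h3 : u x ∉ Metric.ball z r := fun h =>
        h2 (hsub z hz (Metric.ball_subset_closedBall h))
      rw [(bz_props hr z).2.1 _ h3, mul_zero, zero_mul]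
    unfold TU
    rw [← h1]
    refine integral_congr_ae (Eventually.of_forall fun x => ?_)
    show f x * bz r z (u x) * ((‖JU K.A u x‖ ^ 2 : ℝ) : ℂ) = w x * φ (u x - z)
    rw [hφz, hw]
    show _ = f x * ((‖JU K.A u x‖ ^ 2 : ℝ) : ℂ) * φ (u x - z)
    ring
  have hcongr : (fun z => TU K u f (bz r z)) =ᶠ[𝓝 z0] fun z => ∫ x in C', w x * φ (u x - z) := by
    filter_upwards [Metric.ball_mem_nhds z0 hr] with z hz
    exact hF z hz
  refine DifferentiableAt.congr_of_eventuallyEq ?_ hcongr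
  have hcz : ∀ z, ContinuousOn (fun x => w x * φ (u x - z)) C' := fun z =>
    hwc.mul (hφs.continuous.comp_continuousOn (huC.sub continuousOn_const))
  have hcz' : ContinuousOn (fun x => w x • (-(fderiv ℝ φ (u x - z0)))) C' :=
    hwc.smul (hφ'.comp_continuousOn (huC.sub continuousOn_const)).neg
  have hder : HasFDerivAt (fun z => ∫ x in C', w x * φ (u x - z))
      (∫ x in C', w x • (-(fderiv ℝ φ (u x - z0)))) z0 := by
    refine hasFDerivAt_integral_of_dominated_of_fderiv_le
      (F := fun z x => w x * φ (u x - z))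
      (F' := fun z x => w x • (-(fderiv ℝ φ (u x - z))))
      (bound := fun x => ‖w x‖ * M) (s := Metric.ball z0 r)
      (Metric.ball_mem_nhds z0 hr) ?_ ?_ ?_ ?_ ?_ ?_
    · exact Eventually.of_forall fun z => (hcz z).aestronglyMeasurable hC'.measurableSet
    · exact (hcz z0).integrableOn_compact hC'
    · exact hcz'.aestronglyMeasurable hC'.measurableSet
    · refine Eventually.of_forall fun x z _ => ?_
      rw [norm_smul, norm_neg]
      exact mul_le_mul_of_nonneg_left (hM _) (norm_nonneg _)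
    · exact (hwc.norm.mul continuousOn_const).integrableOn_compact hC'
    · refine Eventually.of_forall fun x z _ => ?_
      have h1 : HasFDerivAt (fun z : C2 => u x - z) (-(ContinuousLinearMap.id ℝ C2)) z :=
        (hasFDerivAt_id z).const_sub (u x)
      have h2 := ((hφd (u x - z)).hasFDerivAt.comp z h1).const_mul (w x)
      refine h2.congr_fderiv ?_
      ext v
      simp
  refine LiftAux.holo_of_db hder.differentiableAt fun c => ?_
  have hint : Integrable (fun x => w x • (-(fderiv ℝ φ (u x - z0)))) (volume.restrict C') :=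
    hcz'.integrableOn_compact hC'
  have hev : ∀ v, fderiv ℝ (fun z => ∫ x in C', w x * φ (u x - z)) z0 v =
      ∫ x in C', -(w x * fderiv ℝ φ (u x - z0) v) := by
    intro v
    rw [hder.fderiv, ContinuousLinearMap.integral_apply hint]
    refine integral_congr_ae (Eventually.of_forall fun x => ?_)
    simp
  have hiv : ∀ v, Integrable (fun x => -(w x * fderiv ℝ φ (u x - z0) v)) (volume.restrict C') := by
    intro v
    have : ContinuousOn (fun x => -(w x * fderiv ℝ φ (u x - z0) v)) C' := by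
      refine (hwc.mul ?_).neg
      exact (hφ'.comp_continuousOn (huC.sub continuousOn_const)).clm_apply continuousOn_const
    exact this.integrableOn_compact hC'
  have hT := TU_db hL hu hf hfh (bz_props hr z0).1 (bz_props hr z0).2.2.2.1
    ((bz_props hr z0).2.2.1.trans ((hsub z0 (Metric.mem_ball_self hr)).trans hRB)) c
  have hdb : ∀ y, db (bz r z0) c y = db φ c (y - z0) := by
    intro y
    have h1 : bz r z0 = fun y => φ (y - z0) := by
      funext y
      exact hφz z0 y
    unfold db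
    rw [h1, fderiv_comp_sub]
  have hTC : ∫ x in C', w x * db φ c (u x - z0) = 0 := by
    rw [← hT]
    unfold TU
    have h1 : ∫ x in C', f x * db (bz r z0) c (u x) * ((‖JU K.A u x‖ ^ 2 : ℝ) : ℂ) =
        ∫ x in Up, f x * db (bz r z0) c (u x) * ((‖JU K.A u x‖ ^ 2 : ℝ) : ℂ) := by
      refine (setIntegral_eq_of_subset_of_forall_diff_eq_zero isOpen_Up.measurableSet hC'U
        fun x hx => ?_).symm
      have h2 : u x ∉ Metric.closedBall z0 R := fun h => hx.2 (hp x hx.1 h)
      have h3 : u x ∉ tsupport (bz r z0) := fun h => h2 (hsub z0 (Metric.mem_ball_self hr)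
        ((bz_props hr z0).2.2.1 h))
      have h4 : fderiv ℝ (bz r z0) (u x) = 0 := by
        by_contra hne
        exact h3 (support_fderiv_subset ℝ (show u x ∈ Function.support (fderiv ℝ (bz r z0)) from hne))
      unfold db
      rw [h4]
      simp
    rw [← h1]
    refine integral_congr_ae (Eventually.of_forall fun x => ?_)
    show w x * db φ c (u x - z0) = f x * db (bz r z0) c (u x) * ((‖JU K.A u x‖ ^ 2 : ℝ) : ℂ)
    rw [hdb, hw]
    show f x * ((‖JU K.A u x‖ ^ 2 : ℝ) : ℂ) * _ = _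
    ring
  unfold db
  rw [hev, hev, ← integral_const_mul, ← integral_add (hiv _) ((hiv _).const_mul _),
    ← integral_const_mul]
  have hfin : ∀ x, (1 / 2 : ℂ) * (-(w x * fderiv ℝ φ (u x - z0) (Pi.single c 1)) +
      Complex.I * -(w x * fderiv ℝ φ (u x - z0) (Pi.single c Complex.I))) =
      -(w x * db φ c (u x - z0)) := by
    intro x
    unfold db
    ring
  simp only [hfin]
  rw [integral_neg, hTC, neg_zero]

end Pool.Agent.MPd01a95
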