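import Mathlib
import Pool.Agent.Lib.MP_d01a95_gt_M.Act
import Pool.Agent.Lib.MP_d01a95_gt_S.VDefs
import Pool.Agent.Lib.MP_d01a95_gt_S.UDefs
import Pool.Agent.Lib.MP_d01a95_gt_S.U1
import Pool.Agent.Lib.MP_d01a95_gt_S.U3
import Pool.Agent.Lib.MP_d01a95_gt_S.U4
import Pool.Agent.Lib.MP_d01a95_gt_S.Vbd

/-!
Project SU(2,2), part (2), module U5.
-/

set_option autoImplicit false
set_option linter.all false

open Matrix Filter Topology MeasureTheory Measure
open scoped ENNReal NNReal ContDiff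

namespace Pool.Agent.MPd01a95

variable {G : Type} [Group G] {σ : G →* GU (Fin 2)} {K : Kerr σ} {u : C2 → C2}

private theorem u5_b2_open : IsOpen B2 := LiftAux.isOpen_Bl

private theorem u5_up_open : IsOpen Up := U4Aux.isOpen_Up

private theorem u5_b2_convex : Convex ℝ B2 := by
  intro x hx y hy a b ha hb hab
  have e : ∀ z : C2, z ∈ B2 ↔ ‖(WithLp.toLp 2 z : EuclideanSpace ℂ (Fin 2))‖ < 1 := by
    intro z
    rw [EuclideanSpace.norm_eq, Real.sqrt_lt' one_pos, one_pow]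
    rfl
  rw [e] at *
  have hx' : WithLp.toLp 2 x ∈ Metric.ball (0 : EuclideanSpace ℂ (Fin 2)) 1 := by
    rwa [mem_ball_zero_iff]
  have hy' : WithLp.toLp 2 y ∈ Metric.ball (0 : EuclideanSpace ℂ (Fin 2)) 1 := by
    rwa [mem_ball_zero_iff]
  have := convex_ball (0 : EuclideanSpace ℂ (Fin 2)) 1 hx' hy' ha hb hab
  rwa [mem_ball_zero_iff] at this

private theorem u5_smo_const (k : ℂ) : LN.Smo (fun _ : C2 => k) := contDiffOn_const

private theorem u5_W_const (A : C2 → ℂ) (k : ℂ) (c : Fin 2) (x : C2) :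
    W A c (fun _ => k) x = 0 := by
  have h : fderiv ℝ (fun _ : C2 => k) x = 0 := by simp
  unfold W db dd
  rw [h]
  simp

private theorem u5_W_sub (A : C2 → ℂ) {f g : C2 → ℂ} {x : C2} (hf : DifferentiableAt ℝ f x)
    (hg : DifferentiableAt ℝ g x) (c : Fin 2) :
    W A c (fun y => f y - g y) x = W A c f x - W A c g x := by
  have h : fderiv ℝ (fun y => f y - g y) x = fderiv ℝ f x - fderiv ℝ g x := fderiv_fun_sub hf hg
  unfold W db dd
  rw [h]
  simp only [ContinuousLinearMap.sub_apply]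
  split_ifs <;> ring

/-- small closed balls -/
private theorem u5_ball {z : C2} {U : Set C2} (hU : U ∈ 𝓝 z) :
    ∃ r > 0, Metric.closedBall z r ⊆ U :=
  Metric.nhds_basis_closedBall.mem_iff.1 hU

private theorem u5_bz_out {r : ℝ} (hr : 0 < r) {z y : C2} (hy : y ∉ Metric.closedBall z r) :
    bz r z y = 0 :=
  (bz_props hr z).2.1 y fun h => hy (Metric.ball_subset_closedBall h)

/-- the real density -/
private noncomputable def u5D (K : Kerr σ) (u : C2 → C2) (r : ℝ) (z x : C2) : ℝ :=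
  (bz r z (u x)).re * ‖JU K.A u x‖ ^ 2

private theorem u5D_nonneg {r : ℝ} (hr : 0 < r) (z x : C2) : 0 ≤ u5D K u r z x :=
  mul_nonneg ((bz_props hr z).2.2.2.2.2 _).1 (sq_nonneg _)

private theorem u5D_coe {r : ℝ} (hr : 0 < r) (z x : C2) :
    ((u5D K u r z x : ℝ) : ℂ) = bz r z (u x) * ((‖JU K.A u x‖ ^ 2 : ℝ) : ℂ) := by
  have h : ((bz r z (u x)).re : ℂ) = bz r z (u x) := by
    apply Complex.ext
    · simp
    · simp [((bz_props hr z).2.2.2.2.2 (u x)).2]
  unfold u5D
  rw [Complex.ofReal_mul, h]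

private theorem u5_int (hL : Lat σ) (hu : HolU K u) {f : C2 → ℂ} (hf : LN.Smo f) {z : C2} {r : ℝ}
    (hr : 0 < r) (hz : Metric.closedBall z r ⊆ B2) :
    IntegrableOn (fun x => f x * (u5D K u r z x : ℂ)) Up := by
  have h := U4Aux.integrable hL hu hf (bz_props hr z).1.continuous (isCompact_closedBall z r) hz
    fun y hy => u5_bz_out hr hy
  refine h.congr_fun_ae (Eventually.of_forall fun x => ?_)
  simp only []
  rw [u5D_coe hr, mul_assoc]

private theorem u5D_int (hL : Lat σ) (hu : HolU K u) {z : C2} {r : ℝ}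
    (hr : 0 < r) (hz : Metric.closedBall z r ⊆ B2) :
    IntegrableOn (fun x => u5D K u r z x) Up := by
  have h := (u5_int hL hu (u5_smo_const 1) hr hz).re
  refine h.congr (Eventually.of_forall fun x => ?_)
  simp

private theorem u5_TU {f : C2 → ℂ} {z : C2} {r : ℝ} (hr : 0 < r) :
    TU K u f (bz r z) = ∫ x in Up, f x * (u5D K u r z x : ℂ) := by
  unfold TU
  refine integral_congr_ae (Eventually.of_forall fun x => ?_)
  simp only []
  rw [u5D_coe hr, mul_assoc]

private theorem u5_TU_one {z : C2} {r : ℝ} (hr : 0 < r) :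
    TU K u (fun _ => 1) (bz r z) = ((∫ x in Up, u5D K u r z x : ℝ) : ℂ) := by
  rw [u5_TU hr, ← integral_complex_ofReal]
  refine integral_congr_ae (Eventually.of_forall fun x => ?_)
  simp

/-- a holomorphic function with real values is constant -/
private theorem u5_const {g : C2 → ℂ} (hg : DifferentiableOn ℂ g B2) (hi : ∀ z ∈ B2, (g z).im = 0)
    {z w : C2} (hz : z ∈ B2) (hw : w ∈ B2) : g z = g w := by
  refine u5_b2_open.is_const_of_fderiv_eq_zero (𝕜 := ℂ) u5_b2_convex.isPreconnected hg ?_ hz hw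
  intro y hy
  have hd : HasFDerivAt g (fderiv ℂ g y) y :=
    ((hg y hy).differentiableAt (u5_b2_open.mem_nhds hy)).hasFDerivAt
  have h1 : HasFDerivAt (fun y => (g y).im)
      (Complex.imCLM.comp ((fderiv ℂ g y).restrictScalars ℝ)) y :=
    Complex.imCLM.hasFDerivAt.comp y (hd.restrictScalars ℝ)
  have h2 : (fun y => (g y).im) =ᶠ[𝓝 y] fun _ => (0 : ℝ) := by
    filter_upwards [u5_b2_open.mem_nhds hy] with q hq
    exact hi q hq
  have h3 : HasFDerivAt (fun y => (g y).im) (0 : C2 →L[ℝ] ℝ) y :=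
    (hasFDerivAt_const (0 : ℝ) y).congr_of_eventuallyEq h2
  have h4 := h1.unique h3
  have h5 : ∀ v, (fderiv ℂ g y v).im = 0 := by
    intro v
    have := congrArg (fun L : C2 →L[ℝ] ℝ => L v) h4
    simpa using this
  ext v
  apply Complex.ext
  · have h6 := h5 (Complex.I • v)
    rw [map_smul, smul_eq_mul, Complex.I_mul_im] at h6
    simpa using h6
  · simpa using h5 v

/-- the degree is a positive constant -/
theorem TU_one (hL : Lat σ) (hu : HolU K u) : ∃ d : ℝ, 0 < d ∧ ∀ z, ∀ r > 0,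
    Metric.closedBall z r ⊆ B2 → TU K u (fun _ => 1) (bz r z) = (d : ℂ) := by
  obtain ⟨g, hg, hrep⟩ := TU_rep hL hu (u5_smo_const 1) fun x _ c => u5_W_const K.A 1 c x
  have him : ∀ z ∈ B2, (g z).im = 0 := by
    intro z hz
    obtain ⟨r, hr, hzr⟩ := u5_ball (u5_b2_open.mem_nhds hz)
    rw [← hrep z r hr hzr, u5_TU_one hr, Complex.ofReal_im]
  obtain ⟨x0, hx0, hJ⟩ := hu.rank
  have hz0 : u x0 ∈ B2 := hu.maps x0 hx0
  obtain ⟨r0, hr0, hzr0⟩ := u5_ball (u5_b2_open.mem_nhds hz0)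
  have hmem : ∀ z r, 0 < r → Metric.closedBall z r ⊆ B2 → z ∈ B2 := fun z r hr h =>
    h (Metric.mem_closedBall_self hr.le)
  refine ⟨∫ x in Up, u5D K u r0 (u x0) x, ?_, fun z r hr hzr => ?_⟩
  · have hnn : 0 ≤ᵐ[volume.restrict Up] fun x => u5D K u r0 (u x0) x :=
      Eventually.of_forall fun x => u5D_nonneg hr0 _ _
    rw [setIntegral_pos_iff_support_of_nonneg_ae hnn (u5D_int hL hu hr0 hzr0)]
    refine measure_pos_of_mem_nhds volume (x := x0) ?_
    refine inter_mem ?_ (u5_up_open.mem_nhds hx0)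
    have h1 : ContinuousAt (fun x => u5D K u r0 (u x0) x) x0 := by
      have hc : ContinuousOn (fun x => u5D K u r0 (u x0) x) Up := by
        have h1 : ContinuousOn (JU K.A u) Up := (W_JU hu).1.continuousOn
        have h2 : ContinuousOn (fun x => (bz r0 (u x0) (u x)).re) Up :=
          Complex.continuous_re.comp_continuousOn
            ((bz_props hr0 (u x0)).1.continuous.comp_continuousOn hu.sm.continuousOn)
        exact h2.mul (h1.norm.pow 2)
      exact hc.continuousAt (u5_up_open.mem_nhds hx0)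
    have h2 : 0 < u5D K u r0 (u x0) x0 := by
      have h3 : JU K.A u x0 ≠ 0 := hJ
      exact mul_pos ((bz_props hr0 (u x0)).2.2.2.2.1 _ (Metric.mem_ball_self hr0))
        (pow_pos (norm_pos_iff.2 h3) 2)
    filter_upwards [h1.eventually (lt_mem_nhds h2)] with x hx
    exact hx.ne'
  · rw [hrep z r hr hzr, u5_const hg him (hmem z r hr hzr) hz0, ← hrep (u x0) r0 hr0 hzr0,
      u5_TU_one hr0]

/-- surjectivity -/
theorem u_surj (hL : Lat σ) (hu : HolU K u) : ∀ z ∈ B2, ∃ x ∈ Up, u x = z := by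
  intro z hz
  by_contra hcon
  push Not at hcon
  obtain ⟨d, hd, hTU⟩ := TU_one hL hu
  obtain ⟨r0, hr0, hzr0⟩ := u5_ball (u5_b2_open.mem_nhds hz)
  obtain ⟨C', hC', hC'c, hp⟩ := u_proper hL hu hzr0 (isCompact_closedBall z r0)
  have hI : IsCompact (u '' C') := hC'c.image_of_continuousOn (hu.sm.continuousOn.mono hC')
  have hzI : z ∉ u '' C' := by
    rintro ⟨x, hx, hxz⟩
    exact hcon x (hC' hx) hxz
  have hn : (u '' C')ᶜ ∩ Metric.closedBall z r0 ∈ 𝓝 z :=
    inter_mem (hI.isClosed.isOpen_compl.mem_nhds hzI) (Metric.closedBall_mem_nhds z hr0)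
  obtain ⟨r, hr, hzr⟩ := u5_ball hn
  have h1 := hTU z r hr fun y hy => hzr0 (hzr hy).2
  have h2 : TU K u (fun _ => 1) (bz r z) = 0 := by
    unfold TU
    refine setIntegral_eq_zero_of_forall_eq_zero fun x hx => ?_
    have h3 : u x ∉ Metric.closedBall z r := fun h =>
      (hzr h).1 ⟨x, hp x hx (hzr h).2, rfl⟩
    rw [u5_bz_out hr h3, mul_zero, zero_mul]
  rw [h2] at h1
  exact hd.ne' (Complex.ofReal_eq_zero.1 h1.symm)

/-- the oscillation of `f - g o u` -/
private theorem u5_small (hL : Lat σ) (hu : HolU K u) {f : C2 → ℂ} (hf : LN.Smo f) (ho : Osc K f)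
    {d : ℝ} (hd : 0 < d) (hd1 : ∀ z, ∀ r > 0, Metric.closedBall z r ⊆ B2 →
      TU K u (fun _ => 1) (bz r z) = (d : ℂ)) {g : C2 → ℂ}
    (hg : ∀ z, ∀ r > 0, Metric.closedBall z r ⊆ B2 → TU K u f (bz r z) = g z)
    {C : Set C2} (hC : C ⊆ Up) (hCc : IsCompact C) {δ : ℝ} (hδ : 0 < δ) :
    {γ | ∃ x ∈ C, δ ≤ ‖f (K.al γ x) - g (u (K.al γ x)) / d‖}.Finite := by
  have hI : IsCompact (u '' C) := hCc.image_of_continuousOn (hu.sm.continuousOn.mono hC)
  have hIs : u '' C ⊆ B2 := by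
    rintro _ ⟨x, hx, rfl⟩
    exact hu.maps x (hC hx)
  obtain ⟨E, hEc, hE1, hE2⟩ := exists_compact_between hI u5_b2_open hIs
  obtain ⟨C', hC', hC'c, hp⟩ := u_proper hL hu hE2 hEc
  refine (ho (C' ∪ C) (Set.union_subset hC' hC) (hC'c.union hCc) (δ / 2) (by positivity)).subset ?_
  rintro γ ⟨k, hk, hkδ⟩
  by_contra hγ
  simp only [Set.mem_setOf_eq, not_exists, not_and, not_le] at hγ
  obtain ⟨x, hx⟩ : ∃ x, x = K.al γ k := ⟨_, rfl⟩
  rw [← hx] at hkδ
  have hxU : x ∈ Up := by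
    rw [hx]
    exact K.maps γ k (hC hk)
  have hux : u x = act (σ γ).M (u k) := by
    rw [hx]
    exact hu.eqv γ k (hC hk)
  have hTx : act (σ γ⁻¹).M (u x) = u k := by
    rw [hux, map_inv]
    exact CW.act_inv_act (σ γ) (hu.maps k (hC hk))
  have hcT : ContinuousAt (fun w => act (σ γ⁻¹).M w) (u x) := by
    have h1 : ∀ i, ContinuousAt (fun w => act (σ γ⁻¹).M w i) (u x) := fun i =>
      ((CW.act_diff (σ γ⁻¹) i).differentiableAt
        (u5_b2_open.mem_nhds (hu.maps x hxU))).continuousAt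
    exact continuousAt_pi.2 h1
  have hn : B2 ∩ (fun w => act (σ γ⁻¹).M w) ⁻¹' interior E ∈ 𝓝 (u x) := by
    refine inter_mem (u5_b2_open.mem_nhds (hu.maps x hxU)) (hcT ?_)
    show interior E ∈ 𝓝 (act (σ γ⁻¹).M (u x))
    rw [hTx]
    exact isOpen_interior.mem_nhds (hE1 ⟨k, hk, rfl⟩)
  obtain ⟨r, hr, hxr⟩ := u5_ball hn
  have hrB : Metric.closedBall (u x) r ⊆ B2 := fun y hy => (hxr hy).1
  have key : ∀ y ∈ Up, ‖(f y - f x) * (u5D K u r (u x) y : ℂ)‖ ≤ δ / 2 * u5D K u r (u x) y := by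
    intro y hy
    rw [norm_mul, Complex.norm_real, Real.norm_of_nonneg (u5D_nonneg hr _ _)]
    by_cases hb : u y ∈ Metric.closedBall (u x) r
    · refine mul_le_mul_of_nonneg_right ?_ (u5D_nonneg hr _ _)
      have h1 : act (σ γ⁻¹).M (u y) ∈ E := interior_subset (hxr hb).2
      rw [← hu.eqv γ⁻¹ y hy] at h1
      have h2 := hp _ (K.maps γ⁻¹ y hy) h1
      have h3 : K.al γ (K.al γ⁻¹ y) = y := by
        rw [← K.mul _ _ y hy, mul_inv_cancel, K.one y hy]
      have h4 := hγ (K.al γ⁻¹ y) (Or.inl h2) k (Or.inr hk)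
      rw [h3, ← hx] at h4
      exact h4.le
    · have h1 : u5D K u r (u x) y = 0 := by
        unfold u5D
        rw [u5_bz_out hr hb, Complex.zero_re, zero_mul]
      rw [h1, mul_zero, mul_zero]
  have h1 : g (u x) - f x * d = ∫ y in Up, (f y - f x) * (u5D K u r (u x) y : ℂ) := by
    have e1 := hg (u x) r hr hrB
    have e2 := hd1 (u x) r hr hrB
    rw [u5_TU hr] at e1 e2
    have e3 : f x * (d : ℂ) = ∫ y in Up, f x * (u5D K u r (u x) y : ℂ) := by
      rw [integral_const_mul, ← e2]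
      simp
    rw [e3, ← e1, ← integral_sub (u5_int hL hu hf hr hrB)
      (u5_int hL hu (u5_smo_const (f x)) hr hrB)]
    refine integral_congr_ae (Eventually.of_forall fun y => ?_)
    simp only []
    ring
  have h2 : ‖g (u x) - f x * d‖ ≤ δ / 2 * d := by
    rw [h1]
    have e1 : ∫ y in Up, δ / 2 * u5D K u r (u x) y = δ / 2 * d := by
      rw [integral_const_mul]
      have e2 := hd1 (u x) r hr hrB
      rw [u5_TU_one hr] at e2
      rw [Complex.ofReal_injective e2]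
    rw [← e1]
    refine norm_integral_le_of_norm_le ((u5D_int hL hu hr hrB).const_mul _) ?_
    exact (ae_restrict_iff' u5_up_open.measurableSet).2 (Eventually.of_forall key)
  have hdc : (d : ℂ) ≠ 0 := Complex.ofReal_ne_zero.2 hd.ne'
  have h3 : f x - g (u x) / d = -((g (u x) - f x * d) / d) := by
    field_simp
    ring
  rw [h3, norm_neg, norm_div, Complex.norm_real, Real.norm_of_nonneg hd.le, le_div_iff₀ hd] at hkδ
  have h4 : 0 < δ * d := mul_pos hδ hd
  linarith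

/-- holomorphic functions with small oscillation at infinity descend to the ball -/
theorem descend (hL : Lat σ) (hu : HolU K u) {f : C2 → ℂ} (hf : LN.Smo f)
    (hfh : ∀ x ∈ Up, ∀ c, W K.A c f x = 0) (ho : Osc K f) :
    ∃ g : C2 → ℂ, DifferentiableOn ℂ g B2 ∧ ∀ x ∈ Up, f x = g (u x) := by
  obtain ⟨d, hd, hd1⟩ := TU_one hL hu
  obtain ⟨g, hg, hrep⟩ := TU_rep hL hu hf hfh
  have hgd : DifferentiableOn ℂ (fun z => g z / d) B2 := by
    simp only [div_eq_mul_inv]
    exact hg.mul_const _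
  obtain ⟨hcs, hch⟩ := u_comp hu hgd
  refine ⟨fun z => g z / d, hgd, fun x hx => ?_⟩
  have hF : LN.Smo (fun x => f x - g (u x) / d) :=
    ContDiffOn.sub (hf : ContDiffOn ℝ ∞ f Up) (hcs : ContDiffOn ℝ ∞ _ Up)
  have hdf : ∀ (h : C2 → ℂ), LN.Smo h → ∀ x ∈ Up, DifferentiableAt ℝ h x := fun h hh x hx =>
    ((hh : ContDiffOn ℝ ∞ h Up).contDiffAt (u5_up_open.mem_nhds hx)).differentiableAt (by simp)
  have h1 := max_hol K hL hF (fun x hx c => by
    rw [u5_W_sub K.A (hdf f hf x hx) (hdf _ hcs x hx) c, hfh x hx c, hch x hx c, sub_zero])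
    (inf_of_fin K (w := fun x => ‖f x - g (u x) / d‖) fun C hC hCc δ hδ =>
      u5_small hL hu hf ho hd hd1 hrep hC hCc hδ) x hx
  exact sub_eq_zero.1 h1

end Pool.Agent.MPd01a95
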