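import Mathlib
import Pool.Agent.Lib.MP_d01a95_gt_S.VDefs
import Pool.Agent.Lib.MP_d01a95_gt_S.UDefs
import Pool.Agent.Lib.MP_d01a95_gt_S.U1
import Pool.Agent.Lib.MP_d01a95_gt_S.U5
import Pool.Agent.Lib.MP_d01a95_gt_S.Vbd

/-!
Project SU(2,2), part (2), module U6.
-/

set_option autoImplicit false
set_option linter.all false

open Matrix Filter Topology MeasureTheory Measure
open scoped ENNReal NNReal ContDiff

namespace Pool.Agent.MPd01a95

private theorem up_open : IsOpen Up :=
  isOpen_lt continuous_const (Complex.continuous_im.comp (continuous_apply 1))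

private theorem bl_open : IsOpen B2 := by
  have h : Continuous fun z : C2 => ∑ i, ‖z i‖ ^ 2 := by
    refine continuous_finsetSum _ fun i _ => ?_
    exact ((continuous_apply i).norm).pow 2
  exact isOpen_lt h continuous_const

private theorem coord_d (x : C2) (i : Fin 2) : DifferentiableAt ℝ (fun y : C2 => y i) x :=
  (ContinuousLinearMap.proj (R := ℝ) (φ := fun _ : Fin 2 => ℂ) i).differentiableAt

private theorem star_sm {k : WithTop ℕ∞} {Ω : Set C2} {f : C2 → ℂ} (hf : ContDiffOn ℝ k f Ω) :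
    ContDiffOn ℝ k (fun y : C2 => star (f y)) Ω :=
  Complex.conjCLE.contDiff.comp_contDiffOn hf

private theorem coord_sm (i : Fin 2) : ContDiffOn ℝ ∞ (fun y : C2 => y i) Up :=
  (ContinuousLinearMap.proj (R := ℝ) (φ := fun _ : Fin 2 => ℂ) i).contDiff.contDiffOn

private theorem vv_smV {A : C2 → ℂ} (hA : BA Up A) : ContDiffOn ℝ ∞ (vv A) Up := by
  rw [contDiffOn_pi]
  intro j
  fin_cases j
  · exact hA.sm
  · change ContDiffOn ℝ ∞ (fun y => y 1 - star (y 0) * A y) Up
    exact (coord_sm 1).sub ((star_sm (coord_sm 0)).mul hA.sm)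
  · exact coord_sm 0
  · exact contDiffOn_const

private theorem sm_d {E : Type*} [NormedAddCommGroup E] [NormedSpace ℝ E] {f : C2 → E}
    (hf : ContDiffOn ℝ ∞ f Up) {x : C2} (hx : x ∈ Up) : DifferentiableAt ℝ f x :=
  (hf.differentiableOn (by simp)).differentiableAt (up_open.mem_nhds hx)

private theorem W_coord (A : C2 → ℂ) (x : C2) :
    (∀ c, W A c (fun y => y 0) x = 0) ∧
    (∀ a, Wb A a (fun y => y 0) x = if a = 0 then 1 else 0) ∧
    (∀ a, Wb A a (fun y => y 1) x = if a = 1 then 1 else 0) := by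
  have e : ∀ i : Fin 2, ∀ v : C2, fderiv ℝ (fun y : C2 => y i) x v = v i := by
    intro i v
    have h : HasFDerivAt (fun y : C2 => y i) (ContinuousLinearMap.proj (R := ℝ) i) x :=
      (ContinuousLinearMap.proj (R := ℝ) (φ := fun _ : Fin 2 => ℂ) i).hasFDerivAt
    rw [h.fderiv]
    rfl
  have hI : Complex.I * Complex.I = -1 := Complex.I_mul_I
  unfold W Wb db dd
  simp only [e]
  refine ⟨?_, ?_, ?_⟩
  all_goals
    intro a
    fin_cases a
  all_goals
    simp [hI]
  all_goals
    ring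

/-- components of a derivative -/
private theorem WbV_apply (A : C2 → ℂ) {f : C2 → (Fin 4 → ℂ)} {x : C2}
    (hf : DifferentiableAt ℝ f x) (a : Fin 2) (j : Fin 4) :
    WbV A a f x j = Wb A a (fun y => f y j) x := by
  have h := (WV_clm A (ContinuousLinearMap.proj (R := ℂ) (φ := fun _ : Fin 4 => ℂ) j) hf a).2
  rw [Wb_eq] at h
  exact h.symm

private theorem WbV_vv {A : C2 → ℂ} (hA : BA Up A) {x : C2} (hx : x ∈ Up) (a : Fin 2) :
    WbV A a (vv A) x = ![dd A a x, (if a = 1 then 1 else 0) - star (x 0) * dd A a x,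
      if a = 0 then 1 else 0, 0] := by
  have hd := sm_d (vv_smV hA) hx
  have hAd : DifferentiableAt ℝ A x := sm_d hA.sm hx
  obtain ⟨c1, c2, c3⟩ := W_coord A x
  have hWA : Wb A a A x = dd A a x := by
    unfold Wb
    fin_cases a
    · change (if (0 : Fin 2) = 1 then dd A 1 x else dd A 0 x + star (A x) * db A 1 x) = dd A 0 x
      rw [if_neg (by decide), hA.h1 x hx, mul_zero, add_zero]
    · change (if (1 : Fin 2) = 1 then dd A 1 x else dd A 0 x + star (A x) * db A 1 x) = dd A 1 x
      rw [if_pos rfl]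
  funext j
  rw [WbV_apply A hd]
  fin_cases j
  · exact hWA
  · change Wb A a (fun y => y 1 - star (y 0) * A y) x =
      (if a = 1 then 1 else 0) - star (x 0) * dd A a x
    have h0 : DifferentiableAt ℝ (fun y : C2 => star (y 0)) x :=
      Complex.conjCLE.differentiableAt.comp x (coord_d x 0)
    have hm : DifferentiableAt ℝ (fun y : C2 => star (y 0) * A y) x := h0.mul hAd
    have hn : DifferentiableAt ℝ (fun y : C2 => (-1 : ℂ) • (star (y 0) * A y)) x :=
      hm.const_smul (-1 : ℂ)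
    have hfun : (fun y : C2 => y 1 - star (y 0) * A y) =
        fun y => y 1 + (-1 : ℂ) • (star (y 0) * A y) := by
      funext y
      simp only [smul_eq_mul]
      ring
    have k1 := (WV_add A (coord_d x 1) hn a).2
    have k2 := (WV_smul A (φ := fun _ => (-1 : ℂ)) (differentiableAt_const _) hm a).2
    have k3 := (WV_smul A h0 hAd a).2
    have k4 := (W_star A (fun y => y 0) x a).2
    have k5 : Wb A a (fun _ => (-1 : ℂ)) x = 0 := by
      unfold Wb db dd
      simp
    simp only [Wb_eq, smul_eq_mul] at k1 k2 k3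
    rw [hfun]
    simp only [smul_eq_mul]
    rw [k1, k2, k3, k4, c1, star_zero, hWA, c3, k5]
    ring
  · exact c2 a
  · change Wb A a (fun _ => (1 : ℂ)) x = 0
    unfold Wb db dd
    simp

/-! ### the hermitian form -/

private theorem h4_conj (v w : Fin 4 → ℂ) : h4 v w = star (h4 w v) := by
  have hI : star Complex.I = -Complex.I := Complex.conj_I
  unfold h4
  simp only [star_mul', star_sub, star_add, star_star, hI]
  ring

private theorem h4_add_left (v v' w : Fin 4 → ℂ) : h4 (v + v') w = h4 v w + h4 v' w := by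
  unfold h4
  simp only [Pi.add_apply]
  ring

private theorem h4_smul_left (c : ℂ) (v b : Fin 4 → ℂ) : h4 (c • v) b = c * h4 v b := by
  unfold h4
  simp only [Pi.smul_apply, smul_eq_mul]
  ring

private theorem h4_add_right (v w w' : Fin 4 → ℂ) : h4 v (w + w') = h4 v w + h4 v w' := by
  unfold h4
  simp only [Pi.add_apply, star_add]
  ring

private theorem h4_smul_right (c : ℂ) (v b : Fin 4 → ℂ) : h4 v (c • b) = star c * h4 v b := by
  unfold h4
  simp only [Pi.smul_apply, smul_eq_mul, star_mul']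
  ring

private theorem h4_smul2 (c : ℂ) (v w : Fin 4 → ℂ) :
    h4 (c • v) (c • w) = ((‖c‖ ^ 2 : ℝ) : ℂ) * h4 v w := by
  have hc : ((‖c‖ ^ 2 : ℝ) : ℂ) = c * star c := by
    have := Complex.mul_conj' c
    push_cast
    exact this.symm
  rw [hc, h4_smul_left, h4_smul_right]
  ring

private theorem h4_vv (A : C2 → ℂ) (x : C2) : h4 (vv A x) (vv A x) = ((-2 * (x 1).im : ℝ) : ℂ) := by
  change Complex.I * ((x 1 - star (x 0) * A x) * star (1 : ℂ) -
    1 * star (x 1 - star (x 0) * A x) + A x * star (x 0) - x 0 * star (A x)) = _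
  rw [star_one, star_sub, star_mul', star_star]
  have h1 : x 1 - star (x 1) = ((2 * (x 1).im : ℝ) : ℂ) * Complex.I := by
    have h2 := Complex.sub_conj (x 1)
    exact h2
  have h3 : Complex.I * ((x 1 - star (x 0) * A x) * 1 - 1 * (star (x 1) - x 0 * star (A x)) +
      A x * star (x 0) - x 0 * star (A x)) = Complex.I * (x 1 - star (x 1)) := by ring
  rw [h3, h1]
  push_cast
  linear_combination (2 * ((x 1).im : ℂ)) * Complex.I_mul_I

/-- the Gram determinant does not change under `T → T + l v` -/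
private theorem gram (v T : Fin 4 → ℂ) (l : ℂ) (hv : (h4 v v).im = 0) :
    (h4 v v).re * (h4 (T + l • v) (T + l • v)).re - ‖h4 (T + l • v) v‖ ^ 2 =
      (h4 v v).re * (h4 T T).re - ‖h4 T v‖ ^ 2 := by
  have e1 : h4 (T + l • v) (T + l • v) = h4 T T + l * star (h4 T v) + star l * h4 T v +
      l * star l * h4 v v := by
    rw [h4_add_left, h4_add_right, h4_add_right, h4_smul_left, h4_smul_left, h4_smul_right,
      h4_smul_right, h4_conj v T]
    ring
  have e2 : h4 (T + l • v) v = h4 T v + l * h4 v v := by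
    rw [h4_add_left, h4_smul_left]
  rw [e1, e2, ← Complex.normSq_eq_norm_sq, ← Complex.normSq_eq_norm_sq]
  have hs : ∀ z : ℂ, star z = (starRingEnd ℂ) z := fun z => rfl
  simp only [hs, Complex.normSq_apply, Complex.add_re, Complex.add_im, Complex.mul_re,
    Complex.mul_im, Complex.conj_re, Complex.conj_im, hv]
  ring

private theorem ineq {y p a1 z y0 : ℝ} (hy : 0 < y) (hp : 0 < p) (h0 : 0 ≤ y0)
    (hz : y0 = 0 → 0 < z) {s m : ℝ} (hs : s = (-p - y * a1 ^ 2) * y0 ^ 2 + m)
    (hm : m ≤ a1 * z * y0) : 4 * y * s < z ^ 2 := by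
  rcases eq_or_lt_of_le h0 with h | h
  · have hz' := hz h.symm
    rw [← h] at hm hs
    have h1 : s ≤ 0 := by rw [hs]; nlinarith
    have h2 : 4 * y * s ≤ 0 := mul_nonpos_of_nonneg_of_nonpos (by linarith) h1
    have h3 : 0 < z ^ 2 := by positivity
    linarith
  · have h1 : 4 * y * m ≤ 4 * y * (a1 * z * y0) := mul_le_mul_of_nonneg_left hm (by linarith)
    have h2 : 0 < y * p * y0 ^ 2 := by positivity
    have h3 : 4 * y * s = - 4 * (y * p * y0 ^ 2) - 4 * (y * a1 * y0) ^ 2 + 4 * y * m := by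
      rw [hs]
      ring
    nlinarith [sq_nonneg (2 * (y * a1 * y0) - z)]

/-- the surface is spacelike -/
theorem vv_spl {A : C2 → ℂ} (hA : BA Up A) {x : C2} (hx : x ∈ Up)
    (hp : (dd A 0 x + star (A x) * dd A 1 x).im + (x 1).im * ‖dd A 1 x‖ ^ 2 < 0)
    (Y : Fin 2 → ℂ) (hY : Y ≠ 0) (l : ℂ) :
    (h4 (vv A x) (vv A x)).re *
      (h4 (∑ a, Y a • WbV A a (vv A) x + l • vv A x) (∑ a, Y a • WbV A a (vv A) x + l • vv A x)).re <
      ‖h4 (∑ a, Y a • WbV A a (vv A) x + l • vv A x) (vv A x)‖ ^ 2 := by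
  have hv : (h4 (vv A x) (vv A x)).im = 0 := by
    rw [h4_vv]
    exact Complex.ofReal_im _
  have hg := gram (vv A x) (∑ a, Y a • WbV A a (vv A) x) l hv
  have hT : ∑ a, Y a • WbV A a (vv A) x = ![Y 0 * dd A 0 x + Y 1 * dd A 1 x,
      Y 1 - star (x 0) * (Y 0 * dd A 0 x + Y 1 * dd A 1 x), Y 0, 0] := by
    rw [Fin.sum_univ_two, WbV_vv hA hx, WbV_vv hA hx]
    funext j
    fin_cases j
    · simp
    · simp
      ring
    · simp
    · simp
  have h1 : h4 (∑ a, Y a • WbV A a (vv A) x) (∑ a, Y a • WbV A a (vv A) x) =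
      ((-2 * ((Y 0 * dd A 0 x + Y 1 * dd A 1 x) * star (Y 0)).im : ℝ) : ℂ) := by
    rw [hT]
    unfold h4
    have e : ∀ s : ℂ, Complex.I * (s - star s) = ((-2 * s.im : ℝ) : ℂ) := by
      intro s
      have h2 := Complex.sub_conj s
      have h3 : s - star s = ((2 * s.im : ℝ) : ℂ) * Complex.I := h2
      rw [h3]
      push_cast
      linear_combination (2 * ((s.im : ℝ) : ℂ)) * Complex.I_mul_I
    rw [← e]
    simp only [Matrix.cons_val_zero, Matrix.cons_val_one, Matrix.cons_val, star_mul', star_star,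
      star_zero]
    ring
  have h2 : h4 (∑ a, Y a • WbV A a (vv A) x) (vv A x) =
      Complex.I * (Y 1 - Y 0 * star (A x)) := by
    rw [hT]
    unfold h4 vv
    simp only [Matrix.cons_val_zero, Matrix.cons_val_one, Matrix.cons_val, star_sub, star_mul',
      star_star, star_zero, star_one]
    ring
  have h3 : (h4 (vv A x) (vv A x)).re = -2 * (x 1).im := by
    rw [h4_vv]
    exact Complex.ofReal_re _
  rw [← sub_neg, hg, sub_neg, h1, h2, h3, norm_mul, Complex.norm_I, one_mul, Complex.ofReal_re]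
  set Z := Y 1 - Y 0 * star (A x) with hZ
  have hy : 0 < (x 1).im := hx
  have hb : 4 * (x 1).im * ((Y 0 * dd A 0 x + Y 1 * dd A 1 x) * star (Y 0)).im < ‖Z‖ ^ 2 := by
    refine ineq (p := -((dd A 0 x + star (A x) * dd A 1 x).im + (x 1).im * ‖dd A 1 x‖ ^ 2))
      (a1 := ‖dd A 1 x‖) (y0 := ‖Y 0‖) (m := (dd A 1 x * Z * star (Y 0)).im) hy (by linarith)
      (norm_nonneg _) ?_ ?_ ?_
    · intro h
      have h0 : Y 0 = 0 := norm_eq_zero.mp h
      rw [norm_pos_iff]
      intro h4
      rw [hZ, h0, zero_mul, sub_zero] at h4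
      apply hY
      funext a
      fin_cases a
      · exact h0
      · exact h4
    · have e1 : (Y 0 * dd A 0 x + Y 1 * dd A 1 x) * star (Y 0) =
          ((‖Y 0‖ ^ 2 : ℝ) : ℂ) * (dd A 0 x + star (A x) * dd A 1 x) +
            dd A 1 x * Z * star (Y 0) := by
        have hc : ((‖Y 0‖ ^ 2 : ℝ) : ℂ) = Y 0 * star (Y 0) := by
          have := Complex.mul_conj' (Y 0)
          push_cast
          exact this.symm
        rw [hc, hZ]
        ring
      rw [e1, Complex.add_im, Complex.im_ofReal_mul]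
      ring
    · refine le_trans (le_trans (le_abs_self _) (Complex.abs_im_le_norm _)) ?_
      rw [norm_mul, norm_mul, norm_star]
  nlinarith

/-! ### the map `w` -/

variable {G : Type} [Group G] {σ : G →* GU (Fin 2)} {K : Kerr σ} {u : C2 → C2}

private theorem hol_u (hu : HolU K u) : HolM K.A (fun _ => 0) Up u := by
  intro x hx c
  refine ⟨hu.hol x hx c 0, ?_⟩
  rw [zero_mul]
  exact hu.hol x hx c 1

/-- real derivative of a holomorphic function -/
private theorem WbV_hol {w : C2 → (Fin 4 → ℂ)} {z : C2} (hw : DifferentiableAt ℂ w z) (i : Fin 2) :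
    WbV (fun _ => 0) i w z = fderiv ℂ w z (Pi.single i 1) := by
  have e : ∀ v, fderiv ℝ w z v = fderiv ℂ w z v := by
    intro v
    rw [hw.fderiv_restrictScalars ℝ]
    rfl
  have h1 : ∀ i : Fin 2, ddV w i z = fderiv ℂ w z (Pi.single i 1) := by
    intro i
    have hs : (Pi.single i Complex.I : C2) = Complex.I • (Pi.single i 1 : C2) := by
      rw [← Pi.single_smul, smul_eq_mul, mul_one]
    unfold ddV
    rw [e, e, hs, map_smul, smul_smul, Complex.I_mul_I]
    module
  unfold WbV
  fin_cases i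
  · change (if (0 : Fin 2) = 1 then ddV w 1 z else ddV w 0 z + star (0 : ℂ) • dbV w 1 z) = _
    rw [if_neg (by decide), star_zero, zero_smul, add_zero, h1]
    rfl
  · change (if (1 : Fin 2) = 1 then ddV w 1 z else ddV w 0 z + star (0 : ℂ) • dbV w 1 z) = _
    rw [if_pos rfl, h1]
    rfl

/-- chain rule for `w o u` -/
private theorem chain (hu : HolU K u) {w : C2 → (Fin 4 → ℂ)} (hw : DifferentiableOn ℂ w B2)
    {o : C2} (ho : o ∈ Up)
    (h : ∀ x ∈ Up, w (u x) = (h4 (vv K.A x) (vv K.A o))⁻¹ • vv K.A x) {x : C2} (hx : x ∈ Up)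
    (Y : Fin 2 → ℂ) :
    fderiv ℂ w (u x) (fun i => ∑ a, Y a * MM K.A u i a x) =
      (∑ a, Y a * Wb K.A a (fun y => (h4 (vv K.A y) (vv K.A o))⁻¹) x) • vv K.A x +
      (h4 (vv K.A x) (vv K.A o))⁻¹ • ∑ a, Y a • WbV K.A a (vv K.A) x := by
  have hU : Up ∈ 𝓝 x := up_open.mem_nhds hx
  have hwd : DifferentiableAt ℂ w (u x) :=
    (hw (u x) (hu.maps x hx)).differentiableAt (bl_open.mem_nhds (hu.maps x hx))
  have hwr : DifferentiableAt ℝ w (u x) := hwd.restrictScalars ℝ
  have hud : DifferentiableAt ℝ u x := sm_d hu.sm hx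
  have hvd : DifferentiableAt ℝ (vv K.A) x := sm_d (vv_smV K.ba) hx
  have hqd : DifferentiableAt ℝ (fun y => h4 (vv K.A y) (vv K.A o)) x := by
    have hj : ∀ j : Fin 4, DifferentiableAt ℝ (fun y => vv K.A y j) x := fun j =>
      (ContinuousLinearMap.proj (R := ℝ) (φ := fun _ : Fin 4 => ℂ) j).differentiableAt.comp x hvd
    unfold h4
    exact (((((hj 1).mul_const _).sub ((hj 3).mul_const _)).add ((hj 0).mul_const _)).sub
      ((hj 2).mul_const _)).const_mul _
  have hq0 : h4 (vv K.A x) (vv K.A o) ≠ 0 := (fb_hol K ho 0).2.2 x hx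
  have hid : DifferentiableAt ℝ (fun y => (h4 (vv K.A y) (vv K.A o))⁻¹) x := hqd.inv hq0
  have hl := (law1 (hol_u hu) hx hud hwr).2
  have hcg : (fun y => w (u y)) =ᶠ[𝓝 x]
      fun y => (h4 (vv K.A y) (vv K.A o))⁻¹ • vv K.A y := by
    filter_upwards [hU] with y hy
    exact h y hy
  have h1 : ∀ a, ∑ i, MM K.A u i a x • fderiv ℂ w (u x) (Pi.single i 1) =
      Wb K.A a (fun y => (h4 (vv K.A y) (vv K.A o))⁻¹) x • vv K.A x +
        (h4 (vv K.A x) (vv K.A o))⁻¹ • WbV K.A a (vv K.A) x := by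
    intro a
    rw [← (WV_smul K.A hid hvd a).2, ← (WV_congr K.A hcg a).2, hl a]
    refine Finset.sum_congr rfl fun i _ => ?_
    rw [WbV_hol hwd]
  have h2 : ∀ X : C2, fderiv ℂ w (u x) X = ∑ i, X i • fderiv ℂ w (u x) (Pi.single i 1) := by
    intro X
    have hX : X = ∑ i, X i • (Pi.single i 1 : C2) := by
      rw [Fin.sum_univ_two]
      funext i
      fin_cases i <;> simp
    conv_lhs => rw [hX]
    rw [_root_.map_sum]
    refine Finset.sum_congr rfl fun i _ => ?_
    rw [map_smul]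
  rw [h2]
  have h3 : (∑ a, Y a * Wb K.A a (fun y => (h4 (vv K.A y) (vv K.A o))⁻¹) x) • vv K.A x +
      (h4 (vv K.A x) (vv K.A o))⁻¹ • ∑ a, Y a • WbV K.A a (vv K.A) x =
      ∑ a, Y a • (Wb K.A a (fun y => (h4 (vv K.A y) (vv K.A o))⁻¹) x • vv K.A x +
        (h4 (vv K.A x) (vv K.A o))⁻¹ • WbV K.A a (vv K.A) x) := by
    simp only [Fin.sum_univ_two]
    module
  rw [h3]
  simp only [← h1]
  simp only [Fin.sum_univ_two]
  module

private theorem JU_eq (A : C2 → ℂ) (u : C2 → C2) (x : C2) :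
    JU A u x = MM A u 0 0 x * MM A u 1 1 x - MM A u 1 0 x * MM A u 0 1 x := rfl

/-- injectivity and immersivity from the inverse -/
theorem u_inv (hu : HolU K u) {w : C2 → (Fin 4 → ℂ)} (hw : DifferentiableOn ℂ w B2)
    {o : C2} (ho : o ∈ Up)
    (h : ∀ x ∈ Up, w (u x) = (h4 (vv K.A x) (vv K.A o))⁻¹ • vv K.A x) :
    Set.InjOn u Up ∧ ∀ x ∈ Up, JU K.A u x ≠ 0 := by
  have hq : ∀ x ∈ Up, (h4 (vv K.A x) (vv K.A o))⁻¹ ≠ 0 := fun x hx =>
    inv_ne_zero ((fb_hol K ho 0).2.2 x hx)
  constructor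
  · intro x hx y hy hxy
    have h1 : (h4 (vv K.A x) (vv K.A o))⁻¹ • vv K.A x =
        (h4 (vv K.A y) (vv K.A o))⁻¹ • vv K.A y := by
      rw [← h x hx, ← h y hy, hxy]
    have h3 := congrFun h1 3
    have e3 : (h4 (vv K.A x) (vv K.A o))⁻¹ = (h4 (vv K.A y) (vv K.A o))⁻¹ := by
      simpa [vv] using h3
    rw [e3] at h1
    have h5 : vv K.A x = vv K.A y := smul_right_injective _ (hq y hy) h1
    have e2 : x 0 = y 0 := congrFun h5 2
    have e0 : K.A x = K.A y := congrFun h5 0
    have e1 : x 1 - star (x 0) * K.A x = y 1 - star (y 0) * K.A y := congrFun h5 1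
    rw [e0, e2] at e1
    funext i
    fin_cases i
    · exact e2
    · exact sub_left_injective e1
  · intro x hx hJ
    -- a vector in the kernel
    obtain ⟨X, hX0, hX⟩ : ∃ X : Fin 2 → ℂ, X ≠ 0 ∧ ∀ i, ∑ a, X a * MM K.A u i a x = 0 := by
      have hdet : (Matrix.of fun i a : Fin 2 => MM K.A u i a x).det = 0 := by
        rw [Matrix.det_fin_two]
        rw [JU_eq] at hJ
        simp only [Matrix.of_apply]
        linear_combination hJ
      obtain ⟨X, hX0, hX⟩ := Matrix.exists_mulVec_eq_zero_iff.mpr hdet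
      refine ⟨X, hX0, fun i => ?_⟩
      have h1 := congrFun hX i
      rw [Matrix.mulVec, dotProduct] at h1
      refine Eq.trans (Finset.sum_congr rfl fun a _ => ?_) h1
      rw [mul_comm]
      rfl
    have hc := chain hu hw ho h hx X
    have hz : (fun i => ∑ a, X a * MM K.A u i a x) = (0 : C2) := funext hX
    rw [hz, map_zero] at hc
    have hqx := hq x hx
    generalize (h4 (vv K.A x) (vv K.A o))⁻¹ = q at hc hqx
    generalize (∑ a, X a * Wb K.A a (fun y => (h4 (vv K.A y) (vv K.A o))⁻¹) x) = l at hc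
    simp only [Fin.sum_univ_two, WbV_vv K.ba hx] at hc
    have c3 : l = 0 := by
      have c := congrFun hc 3
      simp [vv] at c
      exact c.symm
    rw [c3, zero_smul, zero_add] at hc
    have hc' := (smul_eq_zero.mp hc.symm).resolve_left hqx
    have c2 : X 0 = 0 := by
      have c := congrFun hc' 2
      simpa using c
    have c0 : X 1 * dd K.A 1 x = 0 := by
      have c := congrFun hc' 0
      rw [c2] at c
      simpa using c
    have c1 : X 1 * (1 - star (x 0) * dd K.A 1 x) = 0 := by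
      have c := congrFun hc' 1
      rw [c2] at c
      simpa using c
    apply hX0
    funext a
    fin_cases a
    · exact c2
    · change X 1 = 0
      linear_combination c1 + star (x 0) * c0

/-- the inverse map -/
theorem exists_w (hL : Lat σ) (hu : HolU K u) : ∃ w, VB σ K.R w := by
  set o : C2 := ![0, Complex.I] with ho'
  have ho : o ∈ Up := by
    change 0 < (o 1).im
    simp [ho']
  have hq : ∀ x ∈ Up, h4 (vv K.A x) (vv K.A o) ≠ 0 := fun x hx => (fb_hol K ho 0).2.2 x hx
  have hg : ∀ b : Fin 4 → ℂ, ∃ g : C2 → ℂ, DifferentiableOn ℂ g B2 ∧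
      ∀ x ∈ Up, fb K o b x = g (u x) := by
    intro b
    obtain ⟨f1, f2, f3⟩ := fb_hol K ho b
    exact descend hL hu f1 f2 (fb_bd K hL ho b).2
  choose g hgd hge using hg
  set w : C2 → (Fin 4 → ℂ) := fun z => ![-Complex.I * g (Pi.single 2 1) z,
    -Complex.I * g (Pi.single 3 1) z, Complex.I * g (Pi.single 0 1) z,
    Complex.I * g (Pi.single 1 1) z] with hw
  have hwd : DifferentiableOn ℂ w B2 := by
    rw [differentiableOn_pi]
    intro j
    fin_cases j
    · exact (hgd _).const_mul _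
    · exact (hgd _).const_mul _
    · exact (hgd _).const_mul _
    · exact (hgd _).const_mul _
  have hwu : ∀ x ∈ Up, w (u x) = (h4 (vv K.A x) (vv K.A o))⁻¹ • vv K.A x := by
    intro x hx
    have hI : Complex.I * Complex.I = -1 := Complex.I_mul_I
    have e0 : g (Pi.single 0 1) (u x) = -Complex.I * vv K.A x 2 / h4 (vv K.A x) (vv K.A o) := by
      rw [← hge _ x hx]
      unfold fb
      congr 1
      generalize vv K.A x = v
      simp [h4]
    have e1 : g (Pi.single 1 1) (u x) = -Complex.I * vv K.A x 3 / h4 (vv K.A x) (vv K.A o) := by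
      rw [← hge _ x hx]
      unfold fb
      congr 1
      generalize vv K.A x = v
      simp [h4]
    have e2 : g (Pi.single 2 1) (u x) = Complex.I * vv K.A x 0 / h4 (vv K.A x) (vv K.A o) := by
      rw [← hge _ x hx]
      unfold fb
      congr 1
      generalize vv K.A x = v
      simp [h4]
    have e3 : g (Pi.single 3 1) (u x) = Complex.I * vv K.A x 1 / h4 (vv K.A x) (vv K.A o) := by
      rw [← hge _ x hx]
      unfold fb
      congr 1
      generalize vv K.A x = v
      simp [h4]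
    generalize h4 (vv K.A x) (vv K.A o) = q at e0 e1 e2 e3 ⊢
    generalize vv K.A x = v at e0 e1 e2 e3 ⊢
    funext j
    fin_cases j
    · change -Complex.I * g (Pi.single 2 1) (u x) = q⁻¹ * v 0
      rw [e2]
      linear_combination (-(v 0) / q) * hI
    · change -Complex.I * g (Pi.single 3 1) (u x) = q⁻¹ * v 1
      rw [e3]
      linear_combination (-(v 1) / q) * hI
    · change Complex.I * g (Pi.single 0 1) (u x) = q⁻¹ * v 2
      rw [e0]
      linear_combination (-(v 2) / q) * hI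
    · change Complex.I * g (Pi.single 1 1) (u x) = q⁻¹ * v 3
      rw [e1]
      linear_combination (-(v 3) / q) * hI
  obtain ⟨-, hJ⟩ := u_inv hu hwd ho hwu
  refine ⟨w, hwd, ?_, ?_, ?_⟩
  · intro z hz
    obtain ⟨x, hx, rfl⟩ := u_surj hL hu z hz
    rw [hwu x hx, h4_smul2, h4_vv, ← Complex.ofReal_mul, Complex.ofReal_re]
    have h1 : 0 < ‖(h4 (vv K.A x) (vv K.A o))⁻¹‖ := norm_pos_iff.mpr (inv_ne_zero (hq x hx))
    have h2 : 0 < (x 1).im := hx
    have h3 : 0 < ‖(h4 (vv K.A x) (vv K.A o))⁻¹‖ ^ 2 * (x 1).im := by positivity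
    linarith
  · intro z hz X hX
    obtain ⟨x, hx, rfl⟩ := u_surj hL hu z hz
    obtain ⟨Y, hY0, hY⟩ : ∃ Y : Fin 2 → ℂ, Y ≠ 0 ∧ X = fun i => ∑ a, Y a * MM K.A u i a x := by
      have hd := hJ x hx
      rw [JU_eq] at hd
      set d := MM K.A u 0 0 x * MM K.A u 1 1 x - MM K.A u 1 0 x * MM K.A u 0 1 x with hdd
      refine ⟨![(MM K.A u 1 1 x * X 0 - MM K.A u 0 1 x * X 1) / d,
        (MM K.A u 0 0 x * X 1 - MM K.A u 1 0 x * X 0) / d], ?_, ?_⟩
      · intro h0
        have a0 := congrFun h0 0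
        have a1 := congrFun h0 1
        simp only [Matrix.cons_val_zero, Matrix.cons_val_one, Pi.zero_apply] at a0 a1
        have b0 := (div_eq_zero_iff.mp a0).resolve_right hd
        have b1 := (div_eq_zero_iff.mp a1).resolve_right hd
        apply hX
        funext i
        fin_cases i
        · change X 0 = 0
          have : d * X 0 = 0 := by
            rw [hdd]
            linear_combination (MM K.A u 0 0 x) * b0 + (MM K.A u 0 1 x) * b1
          exact (mul_eq_zero.mp this).resolve_left hd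
        · change X 1 = 0
          have : d * X 1 = 0 := by
            rw [hdd]
            linear_combination (MM K.A u 1 0 x) * b0 + (MM K.A u 1 1 x) * b1
          exact (mul_eq_zero.mp this).resolve_left hd
      · funext i
        rw [Fin.sum_univ_two]
        simp only [Matrix.cons_val_zero, Matrix.cons_val_one]
        fin_cases i
        · change X 0 = _ * MM K.A u 0 0 x + _ * MM K.A u 0 1 x
          field_simp
          rw [hdd]
          ring
        · change X 1 = _ * MM K.A u 1 0 x + _ * MM K.A u 1 1 x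
          field_simp
          rw [hdd]
          ring
    have hc := chain hu hwd ho hwu hx Y
    rw [← hY] at hc
    have hs := fun l => vv_spl K.ba hx (K.pos x hx) Y hY0 l
    rw [hwu x hx, hc]
    have hqx := hq x hx
    generalize (∑ a, Y a * Wb K.A a (fun y => (h4 (vv K.A y) (vv K.A o))⁻¹) x) = l0
    generalize h4 (vv K.A x) (vv K.A o) = q at hqx ⊢
    have hl : l0 • vv K.A x + q⁻¹ • ∑ a, Y a • WbV K.A a (vv K.A) x =
        q⁻¹ • (∑ a, Y a • WbV K.A a (vv K.A) x + (q * l0) • vv K.A x) := by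
      rw [smul_add, smul_smul, ← mul_assoc, inv_mul_cancel₀ hqx, one_mul, add_comm]
    have hs' := hs (q * l0)
    rw [hl]
    generalize ∑ a, Y a • WbV K.A a (vv K.A) x + (q * l0) • vv K.A x = T at hs' ⊢
    rw [h4_smul2, h4_smul2, h4_smul2, norm_mul, Complex.norm_real, Real.norm_eq_abs,
      abs_of_nonneg (by positivity), Complex.re_ofReal_mul, Complex.re_ofReal_mul]
    have hn : 0 < (‖q⁻¹‖ ^ 2) ^ 2 := by
      have : 0 < ‖q⁻¹‖ := norm_pos_iff.mpr (inv_ne_zero hqx)
      positivity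
    have := mul_lt_mul_of_pos_left hs' hn
    nlinarith
  · intro γ z hz
    obtain ⟨x, hx, rfl⟩ := u_surj hL hu z hz
    obtain ⟨c, hc0, hc⟩ := K.lift γ x hx
    refine ⟨(h4 (vv K.A (K.al γ x)) (vv K.A o))⁻¹ * c * h4 (vv K.A x) (vv K.A o), ?_⟩
    rw [← hu.eqv γ x hx, hwu _ (K.maps γ x hx), hwu x hx, hc, Matrix.mulVec_smul, smul_smul,
      smul_smul, mul_assoc, mul_assoc, mul_inv_cancel₀ (hq x hx), mul_one]

end Pool.Agent.MPd01a95
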